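import Pool.Agent.helper4.PV.DefsH
import Pool.Agent.helper50.BW.T5
/-! PV H08: existence of the parameters. -/
namespace Pool.Agent.helper4.PV
open Pool.Agent.helper50.BW

theorem H08_arch (r : ℝ) : ∃ n : ℕ, r ≤ n * ctau := by
  obtain ⟨n, hn⟩ := exists_nat_ge (r / ctau)
  exact ⟨n, by rwa [div_le_iff₀ ctau_pos] at hn⟩

/-- a fast growing sequence -/
theorem H08_seq (e0 : ℕ) (a b : ℝ) : ∃ f : ℕ → ℕ, f 0 = e0 ∧ ∀ k, f k * a + b < f (k + 1) * ctau := by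
  choose g hg using fun k : ℕ => H08_arch (k * a + b + 1)
  refine ⟨fun k => Nat.rec e0 (fun _ r => g r) k, rfl, fun k => ?_⟩
  have h := hg (Nat.rec e0 (fun _ r => g r) k : ℕ)
  show ((Nat.rec e0 (fun _ r => g r) k : ℕ) : ℝ) * a + b < (g (Nat.rec e0 (fun _ r => g r) k) : ℝ) * ctau
  linarith

theorem H08_nsum (N : ℕ) (n0 n1 n2 n3 : ℕ) (e : Fin 11 → ℕ) :
    nsum ⟨N, ![n0, n1, n2, n3], e⟩ 0 = n1 + n2 + n3 ∧ nsum ⟨N, ![n0, n1, n2, n3], e⟩ 1 = n2 + n3 ∧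
      nsum ⟨N, ![n0, n1, n2, n3], e⟩ 2 = n3 ∧ nsum ⟨N, ![n0, n1, n2, n3], e⟩ 3 = 0 := by
  refine ⟨?_, ?_, ?_, ?_⟩ <;> simp [nsum, Finset.sum_filter, Fin.sum_univ_four]

/-- choose P.N by exists_nat_ge; then n 3, n 2, n 1, n 0 in this order (Archimedean, ctau > 0; nsum P t depends only on the later ones); then all of Ru, Rp, Hv, HH, E2, R1 are determined
(they do not depend on e); e 0 by the conditions k1..k5 (kap P = e 0 * ctau - E2 P); then e 1, ..., e 10 by sc.  Build P with functions given by vectors ![..]. -/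
theorem exists_par : ∃ P : Par, ParOK P := by
  obtain ⟨N, hN⟩ := H08_arch (2 * ck0)
  obtain ⟨n3, h3⟩ := H08_arch (2 * (3 * Rt + ((0 : ℕ) : ℝ) * Rx + 2 * (rr ctau Rx + 3 * KU)) + 2 * cku + 2 * ck0)
  obtain ⟨n2, h2⟩ := H08_arch (2 * (3 * Rt + ((n3 : ℕ) : ℝ) * Rx + 2 * (rr ctau Rx + 3 * KU)) + 2 * cku + 2 * ck0)
  obtain ⟨n1, h1⟩ := H08_arch (2 * (3 * Rt + ((n2 + n3 : ℕ) : ℝ) * Rx + 2 * (rr ctau Rx + 3 * KU)) + 2 * cku + 2 * ck0)
  obtain ⟨n0, h0⟩ := H08_arch (2 * (3 * Rt + ((n1 + n2 + n3 : ℕ) : ℝ) * Rx + 2 * (rr ctau Rx + 3 * KU)) + 2 * cku + 2 * ck0)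
  let P0 : Par := ⟨N, ![n0, n1, n2, n3], fun _ => 0⟩
  obtain ⟨e0, he0⟩ := H08_arch (|E2 P0| + |2 * ck0 + ck1 + 2 * cku| + |HH P0 + 10 * cku| +
    |2 * XX cD ctau cku (R1 P0)| + |Rm + 2 * Rp P0 + 6 * cku| + |4 * (HH P0 + cku)| + 1)
  obtain ⟨f, hf0, hf⟩ := H08_seq e0 (Ru P0) (2 * E2 P0)
  have a0 := le_abs_self (E2 P0)
  have a1 := le_abs_self (2 * ck0 + ck1 + 2 * cku)
  have a2 := le_abs_self (HH P0 + 10 * cku)
  have a3 := le_abs_self (2 * XX cD ctau cku (R1 P0))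
  have a4 := le_abs_self (Rm + 2 * Rp P0 + 6 * cku)
  have a5 := le_abs_self (4 * (HH P0 + cku))
  have b0 := abs_nonneg (E2 P0)
  have b1 := abs_nonneg (2 * ck0 + ck1 + 2 * cku)
  have b2 := abs_nonneg (HH P0 + 10 * cku)
  have b3 := abs_nonneg (2 * XX cD ctau cku (R1 P0))
  have b4 := abs_nonneg (Rm + 2 * Rp P0 + 6 * cku)
  have b5 := abs_nonneg (4 * (HH P0 + cku))
  generalize |E2 P0| = A0 at *
  generalize |2 * ck0 + ck1 + 2 * cku| = A1 at *
  generalize |HH P0 + 10 * cku| = A2 at *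
  generalize |2 * XX cD ctau cku (R1 P0)| = A3 at *
  generalize |Rm + 2 * Rp P0 + 6 * cku| = A4 at *
  generalize |4 * (HH P0 + cku)| = A5 at *
  let P : Par := ⟨N, ![n0, n1, n2, n3], fun t => f t⟩
  have hk : kap P = e0 * ctau - E2 P0 := by
    have h : kap P = (f 0 : ℕ) * ctau - E2 P0 := rfl
    rw [h, hf0]
  obtain ⟨s0, s1, s2, s3⟩ := H08_nsum N n0 n1 n2 n3 (fun t => f t)
  refine ⟨P, ⟨hN, ?_, ?_, ?_, ?_, ?_, ?_, ?_⟩⟩
  · intro t
    fin_cases t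
    · have h : 2 * (3 * Rt + (nsum P 0 : ℝ) * Rx + 2 * (rr ctau Rx + 3 * KU)) + 2 * cku + 2 * ck0 ≤
          (n0 : ℝ) * ctau := by
        rw [s0]
        exact h0
      exact h
    · have h : 2 * (3 * Rt + (nsum P 1 : ℝ) * Rx + 2 * (rr ctau Rx + 3 * KU)) + 2 * cku + 2 * ck0 ≤
          (n1 : ℝ) * ctau := by
        rw [s1]
        exact h1
      exact h
    · have h : 2 * (3 * Rt + (nsum P 2 : ℝ) * Rx + 2 * (rr ctau Rx + 3 * KU)) + 2 * cku + 2 * ck0 ≤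
          (n2 : ℝ) * ctau := by
        rw [s2]
        exact h2
      exact h
    · have h : 2 * (3 * Rt + (nsum P 3 : ℝ) * Rx + 2 * (rr ctau Rx + 3 * KU)) + 2 * cku + 2 * ck0 ≤
          (n3 : ℝ) * ctau := by
        rw [s3]
        exact h3
      exact h
  · rw [hk]
    linarith
  · rw [hk]
    show HH P0 + 10 * cku < _
    linarith
  · rw [hk]
    show 2 * XX cD ctau cku (R1 P0) < _
    linarith
  · rw [hk]
    show Rm + 2 * Rp P0 + 6 * cku < _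
    linarith
  · show 4 * (HH P0 + cku) < (f 0 : ℕ) * ctau
    rw [hf0]
    linarith
  · intro t
    exact hf t

/-- take d₀ ≥ the maximum of the finitely many constants divided by ctau, plus 1 -/
theorem exists_dok (P : Par) : ∃ d₀ : ℕ, ∀ d ≥ d₀, d.Prime → DOK P d := by
  obtain ⟨d₀, h0⟩ := H08_arch (|10000 * ck0| + |4 * ck0 * P.N| + |XX cD ctau cku Rx + 2 * ck1| +
    |XX cD ctau cku (Ru P) + 2 * ck1| + |100 * XX cD ctau cku (R1 P) + 2 * ck1| +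
    |100 * XX cD ctau cku (RW P) + 2 * ck1| +
    |10 * (RW P + Rm + R1 P + Ru P + 10) + 2 * ck1 + 2 * cku| +
    |2 * ((∑ t, P.e t : ℕ) * Ru P + E2 P)| + |2 * (HH P + 6 * cku)| + 1)
  refine ⟨d₀, fun d hd hp => ?_⟩
  have hd' : (d₀ : ℝ) * ctau ≤ d * ctau :=
    mul_le_mul_of_nonneg_right (by exact_mod_cast hd) ctau_pos.le
  have h1 := h0.trans hd'
  have a0 := le_abs_self (10000 * ck0)
  have a1 := le_abs_self (4 * ck0 * P.N)
  have a2 := le_abs_self (XX cD ctau cku Rx + 2 * ck1)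
  have a3 := le_abs_self (XX cD ctau cku (Ru P) + 2 * ck1)
  have a4 := le_abs_self (100 * XX cD ctau cku (R1 P) + 2 * ck1)
  have a5 := le_abs_self (100 * XX cD ctau cku (RW P) + 2 * ck1)
  have a6 := le_abs_self (10 * (RW P + Rm + R1 P + Ru P + 10) + 2 * ck1 + 2 * cku)
  have a7 := le_abs_self (2 * ((∑ t, P.e t : ℕ) * Ru P + E2 P))
  have a8 := le_abs_self (2 * (HH P + 6 * cku))
  have b0 := abs_nonneg (10000 * ck0)
  have b1 := abs_nonneg (4 * ck0 * P.N)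
  have b2 := abs_nonneg (XX cD ctau cku Rx + 2 * ck1)
  have b3 := abs_nonneg (XX cD ctau cku (Ru P) + 2 * ck1)
  have b4 := abs_nonneg (100 * XX cD ctau cku (R1 P) + 2 * ck1)
  have b5 := abs_nonneg (100 * XX cD ctau cku (RW P) + 2 * ck1)
  have b6 := abs_nonneg (10 * (RW P + Rm + R1 P + Ru P + 10) + 2 * ck1 + 2 * cku)
  have b7 := abs_nonneg (2 * ((∑ t, P.e t : ℕ) * Ru P + E2 P))
  have b8 := abs_nonneg (2 * (HH P + 6 * cku))
  generalize |10000 * ck0| = A0 at *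
  generalize |4 * ck0 * P.N| = A1 at *
  generalize |XX cD ctau cku Rx + 2 * ck1| = A2 at *
  generalize |XX cD ctau cku (Ru P) + 2 * ck1| = A3 at *
  generalize |100 * XX cD ctau cku (R1 P) + 2 * ck1| = A4 at *
  generalize |100 * XX cD ctau cku (RW P) + 2 * ck1| = A5 at *
  generalize |10 * (RW P + Rm + R1 P + Ru P + 10) + 2 * ck1 + 2 * cku| = A6 at *
  generalize |2 * ((∑ t, P.e t : ℕ) * Ru P + E2 P)| = A7 at *
  generalize |2 * (HH P + 6 * cku)| = A8 at *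
  exact ⟨hp, by linarith, by linarith, by linarith, by linarith, by linarith, by linarith,
    by linarith, by linarith, by linarith⟩

/-- a prime DOK d is odd (d > 2 from b0) -/
theorem DOK.odd {P : Par} {d : ℕ} (h : DOK P d) : Odd d := by
  rcases h.pr.eq_two_or_odd' with h2 | h2
  · exfalso
    have h0 := h.b0
    rw [h2] at h0
    have h1 := ctau_le
    have h3 : (ck0 : ℝ) = 30 * cs + 30 * cD + 80 * cku + 200 * KU + 4 * ck1 := rfl
    rw [h3] at h0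
    norm_num at h0
    linarith
  · exact h2

end Pool.Agent.helper4.PV
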