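import Pool.Agent.helper4.PV.G01
/-! PV G14: modulo NN the metric is bounded by the cone-off metric; one step of dominance with four factors. -/
namespace Pool.Agent.helper4.PV
open Pool.Agent.helper50.BW
open Sum
variable {G : Type} [Group G] {D : G → G → ℝ} {C : Type} [MulAction G C] {Δ τ T : ℝ}
  {S : CSys D C KU Δ τ T} {U : C → G ⊕ C → ℝ} {s κ₁ κu κ₀ : ℝ} {d : ℕ}

/-- n := gen c ^ (d k) (Ctx.gen_mem) with k := round ((u c x - u c y) / (d ell c)): |u c x - u c (n y)| ≤ d ell c ≤ d T; `upper`, r invariant -/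
theorem jump_mod (hC : Ctx S U s κ₁ κu κ₀ d) {c : C} {x y : G} (hx : S.r c x ≤ KU) (hy : S.r c y ≤ KU) :
    ∃ n ∈ NN S d, D x (n * y) ≤ 3 * KU + d * T := by
  have hd : 0 < d := hC.odd.pos
  have hd' : (0 : ℝ) < d := by exact_mod_cast hd
  have hl : 0 < S.ell c := lt_of_lt_of_le hC.hτ (S.ell_ge c)
  have hp : 0 < (d : ℝ) * S.ell c := mul_pos hd' hl
  set k : ℤ := round ((S.u c x - S.u c y) / (d * S.ell c)) with hk
  refine ⟨S.gen c ^ (k * d), hC.gen_mem c k, ?_⟩
  have h1 : S.u c (S.gen c ^ (k * d) * y) = S.u c y + ((k * d : ℤ) : ℝ) * S.ell c := S.u_gen_zpow c _ y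
  have h2 : S.r c (S.gen c ^ (k * d) * y) = S.r c y := S.r_gen_zpow c _ y
  have h3 := S.upper c x (S.gen c ^ (k * d) * y)
  have h4 : |(S.u c x - S.u c y) / (d * S.ell c) - k| ≤ 1 / 2 := abs_sub_round _
  have h5 : |S.u c x - S.u c (S.gen c ^ (k * d) * y)| ≤ d * S.ell c := by
    have h6 : S.u c x - S.u c (S.gen c ^ (k * d) * y) =
        ((S.u c x - S.u c y) / (d * S.ell c) - k) * (d * S.ell c) := by
      rw [h1]
      push_cast
      field_simp
      ring
    rw [h6, abs_mul, abs_of_pos hp]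
    nlinarith [h4]
  have h7 : (d : ℝ) * S.ell c ≤ d * T := mul_le_mul_of_nonneg_left (S.ell_le c) hd'.le
  rw [h2] at h3
  linarith

/-- BW.F1 f1_exists (ε = 1): a walk from x to y of cost < dd + 1.  Induction on the number of steps N of the walk:
∃ n ∈ NN, D (v 0) (n v_N) ≤ (1 + Q/s) * wc S s v k 0 N, Q := 3KU + d T (ordinary step: same n; jump: jump_mod gives n₁ with D v_N (n₁ v_{N+1}) ≤ Q, use n n₁;
the cost of a jump is s and (1 + Q/s) s ≥ Q).  0 < T because ell c ≤ T and 0 < τ ≤ ell c (if there is no cone there are no jumps; hT covers it). -/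
theorem dd_short (hC : Ctx S U s κ₁ κu κ₀ d) (hT : 0 ≤ T) {x y : G} {E : ℝ} (hE : dd S s x y ≤ E) :
    ∃ n ∈ NN S d, D x (n * y) ≤ (E + 1) * (1 + (3 * KU + d * T) / s) := by
  have hs : 0 < s := by
    have := hC.hs
    norm_num at this
    linarith
  have hQ : 0 ≤ 3 * KU + d * T := by
    have h1 : (0 : ℝ) ≤ d * T := mul_nonneg (Nat.cast_nonneg d) hT
    norm_num
    linarith
  have hQs : 0 ≤ (3 * KU + d * T) / s := div_nonneg hQ hs.le
  obtain ⟨N, v, k, h0, hN, hw, hc⟩ := f1_exists S s x y one_pos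
  have key : ∀ M ≤ N, ∃ n ∈ NN S d, D (v 0) (n * v M) ≤ (1 + (3 * KU + d * T) / s) * wc S s v k 0 M := by
    intro M
    induction M with
    | zero =>
      intro _
      refine ⟨1, Subgroup.one_mem _, ?_⟩
      rw [one_mul, hC.hyp.refl]
      exact mul_nonneg (by linarith) (wc_nonneg hC.hyp S hs.le _ _ _ _)
    | succ M ih =>
      intro hM
      obtain ⟨n, hn, hle⟩ := ih (by omega)
      have hadd : wc S s v k 0 (M + 1) = wc S s v k 0 M + stp S s (k M) (v M) (v (M + 1)) := by
        unfold wc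
        rw [Finset.sum_Ico_succ_top (Nat.zero_le M)]
      cases hkM : k M with
      | none =>
        refine ⟨n, hn, ?_⟩
        have h1 := hC.hyp.tri (v 0) (n * v M) (n * v (M + 1))
        rw [hC.linv] at h1
        have h2 : stp S s (k M) (v M) (v (M + 1)) = D (v M) (v (M + 1)) := by rw [hkM]; rfl
        have h3 : 0 ≤ D (v M) (v (M + 1)) := hC.hyp.nonneg _ _
        rw [hadd, h2]
        have h4 : 0 ≤ (3 * KU + d * T) / s * D (v M) (v (M + 1)) := mul_nonneg hQs h3
        nlinarith [h4, h1, hle]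
      | some c =>
        have hok := hw M (by omega) c hkM
        obtain ⟨n₁, hn₁, h1⟩ := jump_mod hC hok.1 hok.2
        refine ⟨n * n₁, mul_mem hn hn₁, ?_⟩
        have h2 := hC.hyp.tri (v 0) (n * v M) (n * n₁ * v (M + 1))
        have h3 : D (n * v M) (n * n₁ * v (M + 1)) = D (v M) (n₁ * v (M + 1)) := by
          rw [mul_assoc, hC.linv]
        have h4 : stp S s (k M) (v M) (v (M + 1)) = s := by rw [hkM]; rfl
        rw [hadd, h4]
        have h5 : (1 + (3 * KU + d * T) / s) * s = s + (3 * KU + d * T) := by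
          field_simp
        rw [h3] at h2
        rw [mul_add, h5]
        linarith
  obtain ⟨n, hn, hle⟩ := key N le_rfl
  refine ⟨n, hn, ?_⟩
  rw [h0, hN] at hle
  refine hle.trans ?_
  rw [mul_comm]
  exact mul_le_mul_of_nonneg_right (by linarith) (by linarith)

end Pool.Agent.helper4.PV
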