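import Pool.Agent.helper4.PV.H02
import Pool.Agent.helper4.PV.G14
/-! PV H09: length bounds. -/
namespace Pool.Agent.helper4.PV
open Pool.Agent.helper50.BW
open Sum
variable {d : ℕ}

/-- one step: t.E (j+1) 1 x = clam * db 1 (t.p j x) ≤ r; Q1_db_exists (BW.Q1, ε = 1): n ∈ NN with dd 1 (n t.p j x) < r/clam + 1; dd_short (G14): n₂ ∈ NN with
D 1 (n₂ n t.p j x) ≤ (r/clam + 2) (1 + (3KU + d cT)/cs); nn_lift. -/
theorem len_step (t : Tw d) {j : ℕ} {x : FreeGroup ℕ} {r : ℝ} (hx : t.E (j + 1) 1 x ≤ r) :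
    ∃ x', t.p (j + 1) x' = t.p (j + 1) x ∧ t.E j 1 x' ≤ (r / clam + 2) * (1 + (3 * KU + d * cT) / cs) := by
  have hC := (t.full j).ctx
  have hlam : 0 < clam := (t.full j).hlam
  have h1 : clam * db (t.S j) cs d (t.p j 1) (t.p j x) ≤ r := by
    rw [← t.dist j, ← t.p_succ, ← t.p_succ]
    exact hx
  have h2 : db (t.S j) cs d (t.p j 1) (t.p j x) ≤ r / clam := by
    rw [le_div_iff₀ hlam, mul_comm]
    exact h1
  obtain ⟨n, hn, hn'⟩ := Q1_db_exists (t.S j) cs d (t.p j 1) (t.p j x) one_pos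
  obtain ⟨m, hm, hm'⟩ := dd_short hC (by norm_num) (hn'.le.trans (add_le_add_left h2 1))
  obtain ⟨ν, hν, hν'⟩ := t.nn_lift j (Subgroup.mul_mem _ hm hn)
  refine ⟨ν * x, by rw [map_mul, hν', one_mul], ?_⟩
  have e : t.E j 1 (ν * x) = (t.L j).D (t.p j 1) (m * (n * t.p j x)) := by
    rw [Tw.E, map_mul, hν, mul_assoc]
  rw [e]
  refine hm'.trans (le_of_eq ?_)
  ring

/-- induction on j with Q₀ ≥ 2 (1 + (3KU + d cT)/cs)/clam + 1 (a natural number): at level 0, t.E 0 1 x = fD 1 x = norm of x, w := x.toWord.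
Step: (r/clam + 2) Q + 1 ≤ (r + 1) Q₀. -/
theorem len_bd (d : ℕ) : ∃ Q₀ : ℕ, 1 ≤ Q₀ ∧ ∀ (t : Tw d) (j : ℕ) (x : FreeGroup ℕ) (r : ℝ), 0 ≤ r → t.E j 1 x ≤ r →
    ∃ w : W, t.p j (FreeGroup.mk w) = t.p j x ∧ (w.length : ℝ) ≤ (r + 1) * Q₀ ^ j := by
  have hlam : 0 < clam := by norm_num
  have hlam1 : clam ≤ 1 := by norm_num
  have hcT : (0 : ℝ) < cT := by norm_num
  have hcs : (0 : ℝ) < cs := by norm_num
  have hKU : (0 : ℝ) < KU := by norm_num
  set B : ℝ := 1 + (3 * KU + d * cT) / cs with hB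
  have hB1 : 1 ≤ B := by
    rw [hB]
    have : 0 ≤ (3 * KU + d * cT) / cs := by positivity
    linarith
  obtain ⟨Q₀, hQ⟩ := exists_nat_ge (2 * B / clam + 1)
  have hB2 : 2 * B ≤ 2 * B / clam := by
    rw [le_div_iff₀ hlam]
    nlinarith
  have hQ1 : (1 : ℝ) ≤ Q₀ := by linarith
  refine ⟨Q₀, by exact_mod_cast hQ1, fun t j => ?_⟩
  induction j with
  | zero =>
    intro x r hr hx
    refine ⟨x.toWord, by rw [FreeGroup.mk_toWord], ?_⟩
    rw [t.E_zero, fD, inv_one, one_mul] at hx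
    rw [pow_zero, mul_one]
    have : (x.toWord.length : ℝ) = (x.norm : ℝ) := rfl
    rw [this]
    linarith
  | succ j ih =>
    intro x r hr hx
    obtain ⟨x', h1, h2⟩ := len_step t hx
    rw [← hB] at h2
    have hr' : 0 ≤ (r / clam + 2) * B := by positivity
    obtain ⟨w, h3, h4⟩ := ih x' _ hr' h2
    refine ⟨w, (t.eq_mono (Nat.le_succ j) h3).trans h1, h4.trans ?_⟩
    have h5 : (r / clam + 2) * B + 1 ≤ (r + 1) * Q₀ := by
      have h6 : (r + 1) * (2 * B / clam + 1) ≤ (r + 1) * Q₀ :=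
        mul_le_mul_of_nonneg_left hQ (by linarith)
      have h7 : (r + 1) * (2 * B / clam + 1) = 2 * (r / clam * B) + r + 2 * B / clam + 1 := by
        ring
      have h8 : 0 ≤ r / clam * B := by positivity
      nlinarith
    rw [pow_succ, mul_comm ((Q₀ : ℝ) ^ j), ← mul_assoc]
    exact mul_le_mul_of_nonneg_right h5 (by positivity)

/-- choose I₀ with clam^I₀ < ctau (and ≤ 1).  E 0 1 x = norm ≤ length ≤ ℓ (FreeGroup.norm_mk_le); E (ℓ + I₀) 1 x ≤ clam^(ℓ + I₀) ℓ ≤ clam^I₀ (clam^ℓ ℓ ≤ 1).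
Stg.ti with n = 1, x = 1: not torsion would give ctau ≤ E. -/
theorem tor_len : ∃ I₀ : ℕ, ∀ (t : Tw d) (ℓ : ℕ) (u : W), u.length ≤ ℓ →
    t.p (ℓ + I₀) (FreeGroup.mk u) ^ d = 1 ∧ t.E (ℓ + I₀) 1 (FreeGroup.mk u) ≤ 1 := by
  have hlam : 0 < clam := by norm_num
  have hlam1 : clam ≤ 1 / 2 := by norm_num
  obtain ⟨I₀, hI⟩ := exists_pow_lt_of_lt_one ctau_pos (show clam < 1 by norm_num)
  refine ⟨I₀, fun t ℓ u hu => ?_⟩
  have h0 : t.E 0 1 (FreeGroup.mk u) ≤ ℓ := by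
    rw [t.E_zero, fD, inv_one, one_mul]
    exact_mod_cast (FreeGroup.norm_mk_le (L₁ := u)).trans hu
  have h1 := t.E_pow 0 (ℓ + I₀) 1 (FreeGroup.mk u)
  rw [Nat.zero_add] at h1
  have h2 : clam ^ ℓ * (ℓ : ℝ) ≤ 1 := by
    have h3 : (ℓ : ℝ) ≤ 2 ^ ℓ := by exact_mod_cast (Nat.lt_two_pow_self (n := ℓ)).le
    calc clam ^ ℓ * (ℓ : ℝ) ≤ (1 / 2) ^ ℓ * 2 ^ ℓ :=
          mul_le_mul (pow_le_pow_left₀ hlam.le hlam1 ℓ) h3 (Nat.cast_nonneg ℓ) (by positivity)
      _ = 1 := by rw [← mul_pow]; norm_num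
  have h4 : t.E (ℓ + I₀) 1 (FreeGroup.mk u) ≤ clam ^ I₀ := by
    refine h1.trans ?_
    have h5 : 0 ≤ clam ^ (ℓ + I₀) := by positivity
    calc clam ^ (ℓ + I₀) * t.E 0 1 (FreeGroup.mk u) ≤ clam ^ (ℓ + I₀) * ℓ :=
          mul_le_mul_of_nonneg_left h0 h5
      _ = clam ^ I₀ * (clam ^ ℓ * ℓ) := by rw [pow_add]; ring
      _ ≤ clam ^ I₀ * 1 := mul_le_mul_of_nonneg_left h2 (by positivity)
      _ = clam ^ I₀ := mul_one _
  refine ⟨?_, h4.trans (pow_le_one₀ hlam.le (hlam1.trans (by norm_num)))⟩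
  rcases (t.full (ℓ + I₀)).stg.ti (t.p (ℓ + I₀) (FreeGroup.mk u)) with h | h
  · exact h
  · exfalso
    have h5 := h 1 1
    rw [pow_one, mul_one, Nat.cast_one, one_mul] at h5
    have h6 : t.E (ℓ + I₀) 1 (FreeGroup.mk u) =
        (t.L (ℓ + I₀)).D 1 (t.p (ℓ + I₀) (FreeGroup.mk u)) := by
      rw [Tw.E, map_one]
    rw [h6] at h4
    linarith

/-- the retraction killing the letters ≥ n, on words -/
def wret (n : ℕ) (w : W) : W := w.filter (fun p => decide (p.1 < n))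

/-- the retraction on B: FreeGroup.lift with of i ↦ of i (i < n), 1 else, maps Fd into Fd (QuotientGroup.map) -/
theorem exists_ret (d n : ℕ) : ∃ ρ : BB d →* BB d, ∀ w : W, ρ (wl d w) = wl d (wret n w) := by
  classical
  let φ : FreeGroup ℕ →* FreeGroup ℕ :=
    FreeGroup.lift fun i => if i < n then FreeGroup.of i else 1
  have hφ : Fd d ≤ (Fd d).comap φ := by
    unfold Fd
    rw [Subgroup.closure_le]
    rintro _ ⟨g, rfl⟩
    change φ (g ^ d) ∈ Subgroup.closure _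
    rw [map_pow]
    exact Subgroup.subset_closure ⟨φ g, rfl⟩
  have hw : ∀ w : W, φ (FreeGroup.mk w) = FreeGroup.mk (wret n w) := by
    intro w
    induction w with
    | nil => exact map_one φ
    | cons p w ih =>
      have e1 : FreeGroup.mk (p :: w) = FreeGroup.mk [p] * FreeGroup.mk w := by
        rw [FreeGroup.mul_mk, List.singleton_append]
      have e2 : φ (FreeGroup.mk [p]) = if p.1 < n then FreeGroup.mk [p] else 1 := by
        have e3 : φ (FreeGroup.mk [p]) =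
            cond p.2 (if p.1 < n then FreeGroup.of p.1 else 1)
              (if p.1 < n then FreeGroup.of p.1 else 1)⁻¹ := by
          simp [φ]
        rw [e3]
        rcases p with ⟨i, b⟩
        by_cases hi : i < n
        · cases b <;> simp [hi, FreeGroup.of, FreeGroup.inv_mk, FreeGroup.invRev]
        · cases b <;> simp [hi]
      rw [e1, map_mul, ih, e2]
      by_cases hp : p.1 < n
      · rw [if_pos hp, FreeGroup.mul_mk, List.singleton_append]
        congr 1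
        rw [wret, wret, List.filter_cons_of_pos (by simpa using hp)]
      · rw [if_neg hp, one_mul]
        congr 1
        rw [wret, wret, List.filter_cons_of_neg (by simpa using hp)]
  refine ⟨QuotientGroup.map (Fd d) (Fd d) φ hφ, fun w => ?_⟩
  rw [wl, wl, ← hw w]
  rfl

theorem wret_ltr (n : ℕ) (w : W) : Ltr n (wret n w) := by
  intro p hp
  rw [wret, List.mem_filter] at hp
  exact of_decide_eq_true hp.2

theorem wret_len (n : ℕ) (w : W) : (wret n w).length ≤ w.length :=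
  List.length_filter_le _ _

theorem wret_eq {n : ℕ} {w : W} (h : Ltr n w) : wret n w = w := by
  rw [wret, List.filter_eq_self]
  intro p hp
  exact decide_eq_true (h p hp)

/-- CONJB for a given tower.  Q₀ from len_bd, I₀ from tor_len; C := (⌈cA⌉₊ + 1) * Q₀^I₀, Q := Q₀.  x := mk u, x' := mk v, IsConj gives h with h cl x h⁻¹ = cl x'.
If cl x = 1 take the empty word.  I := ℓ + I₀: both are torsion at level I and move 1 by ≤ 1 (tor_len).  tor_lift_conj' (H02): κ, cl κ = h, t.p I x' = t.p I (κ x κ⁻¹).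
g := t.p I x' ≠ 1 (cl x' ≠ 1).  Stg.p0 for g, points 1 and t.p I κ: D 1 g ≤ 1 ≤ ce, D κ (g κ) = D κ (κ x) = D 1 x ≤ 1: so E I 1 κ < cA.  len_bd: w with t.p I (mk w) = t.p I κ,
length ≤ (cA + 1) Q₀^(ℓ + I₀), cl (mk w) = h (cl_of_p).  Finally apply the retraction exists_ret to wl w * wl u * (wl w)⁻¹ = wl v (u, v have letters < n): t := wret n w. -/
theorem conjB' (t : Tw d) (hbig : 10000 * ck0 ≤ d * ctau) : ∃ C Q : ℕ, ∀ (n ℓ : ℕ) (u v : W), Ltr n u → Ltr n v → u.length ≤ ℓ → v.length ≤ ℓ →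
    IsConj (wl d u) (wl d v) →
    ∃ t : W, Ltr n t ∧ t.length ≤ C * Q ^ ℓ ∧ wl d t * wl d u * (wl d t)⁻¹ = wl d v := by
  obtain ⟨Q₀, -, hlen⟩ := len_bd d
  obtain ⟨I₀, htor⟩ := tor_len (d := d)
  refine ⟨(⌈cA⌉₊ + 1) * Q₀ ^ I₀, Q₀, fun n ℓ u v hu hv hul hvl hconj => ?_⟩
  obtain ⟨h, hh⟩ := isConj_iff.1 hconj
  by_cases hv1 : wl d v = 1
  · refine ⟨[], fun p hp => absurd hp (by simp), by simp, ?_⟩
    have h1 : wl d u = 1 := by
      rw [hv1] at hh
      rw [mul_inv_eq_one] at hh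
      exact mul_eq_left.1 hh
    have h2 : wl d [] = 1 := rfl
    rw [h1, hv1, h2, mul_one, mul_inv_cancel]
  obtain ⟨hx, hxE⟩ := htor t ℓ u hul
  obtain ⟨hy, hyE⟩ := htor t ℓ v hvl
  set I := ℓ + I₀ with hI
  obtain ⟨κ, hκ, hκ'⟩ := tor_lift_conj' t hx hy (h := h) (show cl d (FreeGroup.mk v) =
    h * cl d (FreeGroup.mk u) * h⁻¹ from hh.symm)
  have hne : t.p I (FreeGroup.mk v) ≠ 1 := by
    intro h1
    apply hv1
    have h2 : t.p I (FreeGroup.mk v) = t.p I 1 := by rw [h1, map_one]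
    exact t.cl_of_p h2
  have hstg := (t.full I).stg
  have hA : t.E I 1 κ < cA := by
    by_contra hcon
    push Not at hcon
    refine hne (hstg.p0 (t.p I (FreeGroup.mk v)) (t.p I 1) (t.p I κ) hy ?_ ?_ hcon)
    · have e : t.p I (FreeGroup.mk v) * t.p I 1 = t.p I (FreeGroup.mk v) := by
        rw [map_one, mul_one]
      rw [e]
      exact hyE.trans (by norm_num)
    · have e : t.p I (FreeGroup.mk v) * t.p I κ = t.p I κ * t.p I (FreeGroup.mk u) := by
        rw [hκ', map_mul, map_mul, map_inv, inv_mul_cancel_right]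
      have e2 : (t.L I).D (t.p I κ) (t.p I κ * t.p I (FreeGroup.mk u)) =
          (t.L I).D (t.p I 1) (t.p I (FreeGroup.mk u)) := by
        rw [map_one]
        conv_lhs => rw [← mul_one (t.p I κ), mul_assoc, one_mul]
        exact hstg.linv _ _ _
      rw [e, e2]
      exact hxE.trans (by norm_num)
  obtain ⟨w, hw, hwl⟩ := hlen t I κ cA (by norm_num) hA.le
  have hwh : wl d w = h := (t.cl_of_p hw).trans hκ
  obtain ⟨ρ, hρ⟩ := exists_ret d n
  refine ⟨wret n w, wret_ltr n w, (wret_len n w).trans ?_, ?_⟩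
  · have h1 : (w.length : ℝ) ≤ (((⌈cA⌉₊ + 1) * Q₀ ^ I₀ * Q₀ ^ ℓ : ℕ) : ℝ) := by
      refine hwl.trans ?_
      push_cast
      rw [hI, pow_add, mul_comm ((Q₀ : ℝ) ^ ℓ), ← mul_assoc]
      refine mul_le_mul_of_nonneg_right (mul_le_mul_of_nonneg_right ?_ (by positivity))
        (by positivity)
      have := Nat.le_ceil (cA : ℝ)
      linarith
    exact_mod_cast h1
  · have h1 := congrArg ρ hh
    rw [← hwh, map_mul, map_mul, map_inv, hρ, hρ, hρ, wret_eq hu, wret_eq hv] at h1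
    exact h1

end Pool.Agent.helper4.PV
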