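import Pool.Agent.helper4.PV.H05
import Pool.Agent.helper4.PV.H09
/-! PV H10: test words have preimages of bounded length. -/
namespace Pool.Agent.helper4.PV
open Pool.Agent.helper50.BW
open Sum
variable {d : ℕ} {P : Par}

theorem H10_odd (hD : DOK P d) : Odd d := by
  refine hD.pr.odd_of_ne_two ?_
  rintro rfl
  have h1 := hD.b0
  have h2 := ctau_le
  have h3 : (1 : ℝ) ≤ ck0 := by norm_num [ck0, cs, cD, cDs, cku, ck1, KU]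
  push_cast at h1
  linarith

/-- the displacement at `1` of a conjugate -/
theorem H10_conj (t : Tw d) (I : ℕ) (κ ξ ν : FreeGroup ℕ) {B R : ℝ} (hB : t.E I 1 (κ * ν) ≤ B)
    (hR : t.E I ν (ξ * ν) ≤ R) : t.E I 1 (κ * ξ * κ⁻¹) ≤ 2 * B + R := by
  have h1 := t.E_tri I 1 (κ * ν) (κ * ξ * κ⁻¹)
  have h2 := t.E_tri I (κ * ν) (κ * (ξ * ν)) (κ * ξ * κ⁻¹)
  have h3 : t.E I (κ * ν) (κ * (ξ * ν)) = t.E I ν (ξ * ν) := t.E_inv I κ ν (ξ * ν)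
  have h4 : t.E I (κ * (ξ * ν)) (κ * ξ * κ⁻¹) = t.E I (κ * ν) 1 := by
    have h5 := t.E_inv I (κ * ξ * κ⁻¹) (κ * ν) 1
    rw [mul_one] at h5
    rw [← h5]
    congr 1
    group
  have h6 := t.E_symm I (κ * ν) 1
  linarith

/-- from a lift with bounded displacement to a short word with letters `< n` -/
theorem H10_word (t : Tw d) {Q₀ : ℕ} (hQ : ∀ (t : Tw d) (j : ℕ) (x : FreeGroup ℕ) (r : ℝ), 0 ≤ r → t.E j 1 x ≤ r →
    ∃ w : W, t.p j (FreeGroup.mk w) = t.p j x ∧ (w.length : ℝ) ≤ (r + 1) * Q₀ ^ j) {I₀ ℓ : ℕ} {x : FreeGroup ℕ} {r : ℝ}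
    (hr : 0 ≤ r) (hx : t.E (ℓ + I₀) 1 x ≤ r) :
    ∃ w : W, wl d w = cl d x ∧ w.length ≤ (⌈r⌉₊ + 1) * Q₀ ^ I₀ * Q₀ ^ ℓ := by
  obtain ⟨w, h1, h2⟩ := hQ t (ℓ + I₀) x r hr hx
  refine ⟨w, t.cl_of_p h1, ?_⟩
  have h3 : (r + 1) * (Q₀ : ℝ) ^ (ℓ + I₀) ≤ (((⌈r⌉₊ + 1) * Q₀ ^ I₀ * Q₀ ^ ℓ : ℕ) : ℝ) := by
    push_cast
    have h4 := Nat.le_ceil r
    have h5 : (0 : ℝ) ≤ (Q₀ : ℝ) ^ (ℓ + I₀) := by positivity
    calc (r + 1) * (Q₀ : ℝ) ^ (ℓ + I₀) ≤ ((⌈r⌉₊ : ℝ) + 1) * (Q₀ : ℝ) ^ (ℓ + I₀) :=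
          mul_le_mul_of_nonneg_right (by linarith) h5
      _ = ((⌈r⌉₊ : ℝ) + 1) * (Q₀ : ℝ) ^ I₀ * (Q₀ : ℝ) ^ ℓ := by rw [pow_add]; ring
  exact_mod_cast h2.trans h3

/-- DECB for a given tower.  Q₀ (len_bd), I₀ (tor_len), RD := 2 (cA + R1 P + 30) + Rm + 1, C := (⌈RD⌉₊ + 1) * Q₀^I₀, Q := Q₀.
u with wl u = Wt P a y z, x := mk u, I := ℓ + I₀, r := exists_rz (with exists_bd).  Rz.cone: l > J, t.p l ω = gen c ^ w, ¬ d ∣ w; x is torsion at level I and has the class of ω: tor_level: l < I.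
ω is torsion at level l+1 (gen c ^ (w d) ∈ NN), so at level I.  tor_lift_conj: κ, cl κ = 1, t.p I x = t.p I (κ ω κ⁻¹).  ν₁ := κ ν, α₁ := κ α κ⁻¹, η₁, ζ₁.
E I ν₁ (x ν₁) = E I ν (ω ν) ≤ R1 (Rz.disp1, J < I).  g := t.p I x ≠ 1 (Wt ≠ 1 since it does not commute with a, ncomm').  tor_close (G07) with o := 1 (E I 1 x ≤ 1), v := ν₁:
E I 1 ν₁ ≤ cA + R1/2 + 30.  E I 1 α₁ ≤ 2 E I 1 ν₁ + E I ν (α ν) ≤ RD (RL.da n = 1 at level J, E_mono), the same for η₁, ζ₁ (≤ Rm).  len_bd: words with the same images at level I,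
so the classes are a, y, z (cl κ = 1).  Then apply the retraction exists_ret (map_Wt), u has letters < n. -/
theorem decB' (hP : ParOK P) (hD : DOK P d) (t : Tw d) : ∃ C Q : ℕ, ∀ (n ℓ : ℕ) (u : W), Ltr n u → u.length ≤ ℓ →
    (∃ a y z : BB d, Nd a y z ∧ wl d u = Wt P a y z) →
    ∃ α β γ : W, Ltr n α ∧ Ltr n β ∧ Ltr n γ ∧ α.length ≤ C * Q ^ ℓ ∧ β.length ≤ C * Q ^ ℓ ∧
      γ.length ≤ C * Q ^ ℓ ∧ wl d u = Wt P (wl d α) (wl d β) (wl d γ) := by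
  obtain ⟨Q₀, hQ1, hQ⟩ := len_bd d
  obtain ⟨I₀, hI⟩ := tor_len (d := d)
  have hodd := H10_odd hD
  have hRm : (0 : ℝ) ≤ Rm := by norm_num [Rm]
  obtain ⟨B0, hB0⟩ : ∃ B0 : ℝ, B0 = cA + R1 P / 2 + 30 := ⟨_, rfl⟩
  obtain ⟨RD, hRD⟩ : ∃ RD : ℝ, RD = 2 * B0 + Rm + 1 := ⟨_, rfl⟩
  refine ⟨(⌈RD⌉₊ + 1) * Q₀ ^ I₀, Q₀, ?_⟩
  rintro n ℓ u hu hul ⟨a, y, z, h, hW⟩
  obtain ⟨x, hx⟩ : ∃ x : FreeGroup ℕ, x = FreeGroup.mk u := ⟨_, rfl⟩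
  have hclx : cl d x = Wt P a y z := by
    rw [hx, ← hW]
    rfl
  obtain ⟨hxt, hx1⟩ := hI t ℓ u hul
  rw [← hx] at hxt hx1
  obtain ⟨b⟩ := exists_bd t hodd h.1
  obtain ⟨r, -, -, -, -, -⟩ := exists_rz hP hD t h b
  obtain ⟨l, c, w, hl, hw0, hpw, -, -, hnd⟩ := r.cone hP hD
  have hcl : cl d r.ω = cl d x := by rw [r.cl_ω, hclx]
  have hlI : l < ℓ + I₀ := tor_level t hpw hnd hxt hcl
  -- `ω` is torsion at level `I`
  have hωt : t.p (ℓ + I₀) r.ω ^ d = 1 := by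
    refine t.tor_mono (i := l + 1) hlI ?_
    rw [← map_pow, t.succ_one, map_pow, hpw, ← zpow_natCast, ← zpow_mul]
    exact (t.full l).ctx.gen_mem c w
  obtain ⟨κ, hκ, hκx⟩ := tor_lift_conj t hωt hxt hcl
  have hJI : r.J < ℓ + I₀ := hl.trans hlI
  -- the displacement of `κ ν`
  have hd1 : t.E (ℓ + I₀) (κ * r.ν) (x * (κ * r.ν)) ≤ R1 P := by
    have h1 : t.p (ℓ + I₀) (x * (κ * r.ν)) = t.p (ℓ + I₀) (κ * (r.ω * r.ν)) := by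
      rw [map_mul, hκx, ← map_mul]
      congr 1
      group
    have h2 : t.E (ℓ + I₀) (κ * r.ν) (x * (κ * r.ν)) =
        t.E (ℓ + I₀) (κ * r.ν) (κ * (r.ω * r.ν)) := by
      unfold Tw.E
      rw [h1]
    rw [h2, t.E_inv]
    exact r.disp1 hJI
  have hg1 : t.p (ℓ + I₀) x ≠ 1 := by
    intro h1
    have h2 : cl d x = 1 := (t.cl_one x).2 ⟨_, h1⟩
    apply ncomm' hP hD t h
    rw [← hclx, h2]
    exact Commute.one_left a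
  have hclose : t.E (ℓ + I₀) 1 (κ * r.ν) ≤ B0 := by
    have h1 := tor_close (t.full (ℓ + I₀)) hxt hg1 (o := 1) (v := t.p (ℓ + I₀) (κ * r.ν))
      (R := R1 P) (by
        have h2 : t.E (ℓ + I₀) 1 x ≤ 1 := hx1
        unfold Tw.E at h2
        rw [map_one] at h2
        rw [mul_one]
        linarith) (by
        rw [← map_mul]
        exact hd1)
    unfold Tw.E
    rw [map_one, hB0]
    exact h1
  have hB0n : 0 ≤ B0 := (t.E_nonneg _ _ _).trans hclose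
  have hRDn : 0 ≤ RD := by rw [hRD]; linarith
  -- the lifts
  have hα : t.E (ℓ + I₀) r.ν (r.α * r.ν) ≤ 1 := by
    refine (t.E_mono hJI.le _ _).trans ?_
    have h1 := r.rl.da 1
    rw [zpow_one, ← map_mul] at h1
    exact h1
  have hη : t.E (ℓ + I₀) r.ν (r.η * r.ν) ≤ Rm := by
    refine (t.E_mono hJI.le _ _).trans ?_
    have h1 := r.rl.dy
    rw [← map_mul] at h1
    exact h1
  have hζ : t.E (ℓ + I₀) r.ν (r.ζ * r.ν) ≤ Rm := by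
    refine (t.E_mono hJI.le _ _).trans ?_
    have h1 := r.rl.dz
    rw [← map_mul] at h1
    exact h1
  have hα1 := H10_conj t (ℓ + I₀) κ r.α r.ν hclose hα
  have hη1 := H10_conj t (ℓ + I₀) κ r.η r.ν hclose hη
  have hζ1 := H10_conj t (ℓ + I₀) κ r.ζ r.ν hclose hζ
  have hclc : ∀ ξ : FreeGroup ℕ, cl d (κ * ξ * κ⁻¹) = cl d ξ := by
    intro ξ
    rw [cl_mul, cl_mul, cl_inv, hκ, one_mul, inv_one, mul_one]
  obtain ⟨wα, h1α, h2α⟩ := H10_word t hQ (r := RD) hRDn (hα1.trans (by rw [hRD]; linarith))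
  obtain ⟨wη, h1η, h2η⟩ := H10_word t hQ (r := RD) hRDn (hη1.trans (by rw [hRD]; linarith))
  obtain ⟨wζ, h1ζ, h2ζ⟩ := H10_word t hQ (r := RD) hRDn (hζ1.trans (by rw [hRD]; linarith))
  rw [hclc, r.hα] at h1α
  rw [hclc, r.hη] at h1η
  rw [hclc, r.hζ] at h1ζ
  obtain ⟨ϱ, hϱ⟩ := exists_ret d n
  refine ⟨wret n wα, wret n wη, wret n wζ, wret_ltr n _, wret_ltr n _, wret_ltr n _,
    (wret_len n _).trans h2α, (wret_len n _).trans h2η, (wret_len n _).trans h2ζ, ?_⟩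
  rw [← hϱ, ← hϱ, ← hϱ, ← map_Wt, h1α, h1η, h1ζ, ← hW, hϱ, wret_eq hu]

end Pool.Agent.helper4.PV
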