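import Pool.Agent.helper4.PV.H07
import Pool.Agent.helper4.PV.H08
import Pool.Agent.helper4.PV.H10
/-! PV H11: the geometric facts. -/
namespace Pool.Agent.helper4.PV
open Pool.Agent.helper50.BW

/-- cent: centr (H02); ncomm: ncomm' (H05); inj: inj' (H07); rank: exists_bd, rank' (H05); conjB: conjB' (H09); decB: decB' (H10).  Tower from exists_tw (H01) with DOK.b0, DOK.odd. -/
theorem geo_of {P : Par} {d : ℕ} (hP : ParOK P) (hD : DOK P d) : Geo d P := by
  obtain ⟨t⟩ := exists_tw hD.odd hD.b0
  exact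
    { cent := fun a h ha hc => centr t hD.odd hD.pr ha hc
      ncomm := fun a y z h => ncomm' hP hD t h
      inj := fun a y z a' y' z' g k hN hk h => inj' hP hD t hN hk h
      rank := fun a ha => by
        obtain ⟨b⟩ := exists_bd t hD.odd ha
        exact ⟨b.M, fun y z h => rank' hP hD t b h⟩
      conjB := conjB' t hD.b0
      decB := decB' hP hD t }

theorem geo_main : ∃ P : Par, ∃ d₀ : ℕ, ∀ d ≥ d₀, d.Prime → Geo d P := by
  obtain ⟨P, hP⟩ := exists_par
  obtain ⟨d₀, h⟩ := exists_dok P
  exact ⟨P, d₀, fun d hd hp => geo_of hP (h d hd hp)⟩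

end Pool.Agent.helper4.PV
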