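import Pool.Agent.helper50.BW.M1
/-! PV project (MP_c0bc55_al, frozen S02951): common definitions.  See /team-store/wp4_0.md. -/
namespace Pool.Agent.helper4.PV
open Pool.Agent.helper50.BW

instance instFdNormal (d : ℕ) : (Fd d).Normal := Fd_normal d

/-- the free Burnside group of exponent d and infinite rank -/
abbrev BB (d : ℕ) : Type := FreeGroup ℕ ⧸ Fd d

/-- class of a word -/
def wl (d : ℕ) (w : W) : BB d := QuotientGroup.mk (FreeGroup.mk w)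

/-- all letters of w are < n -/
def Ltr (n : ℕ) (w : W) : Prop := ∀ p ∈ w, p.1 < n

/-- exponents of the test word -/
structure Par where
  N : ℕ
  n : Fin 4 → ℕ
  e : Fin 11 → ℕ

/-- commutator of a and its conjugate y a y⁻¹ -/
def cm {G : Type} [Group G] (a y : G) : G := a * (y * a * y⁻¹) * a⁻¹ * (y * a * y⁻¹)⁻¹

/-- the marker -/
def mkr {G : Type} [Group G] (P : Par) (a y z : G) : G :=
  cm a y ^ P.n 0 * cm (a ^ P.N) y ^ P.n 1 * cm a z ^ P.n 2 * cm (a ^ P.N) z ^ P.n 3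

/-- the connectors number t = 0, ..., 10 of the test word with marker c -/
def hh {G : Type} [Group G] (a y z c : G) : Fin 11 → G :=
  ![a, a, y * a * y⁻¹, a, y * (c * a * c⁻¹) * y⁻¹, a, z * a * z⁻¹, a, z * (c * a * c⁻¹) * z⁻¹, a, (a ^ 10)⁻¹]

/-- the product c^(e 0) h 0 c^(e 1) h 1 ... c^(e 10) h 10 -/
def wprod {G : Type} [Group G] (e : Fin 11 → ℕ) (c : G) (h : Fin 11 → G) : G :=
  (List.ofFn fun t => c ^ e t * h t).prod

/-- the test word -/
def Wt {G : Type} [Group G] (P : Par) (a y z : G) : G :=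
  wprod P.e (mkr P a y z) (hh a y z (mkr P a y z))

/-- the triple is not degenerate -/
def Nd {G : Type} [Group G] (a y z : G) : Prop := a ≠ 1 ∧ ¬ (Commute a y ∧ Commute a z)

/-- the geometric facts -/
structure Geo (d : ℕ) (P : Par) : Prop where
  /-- centralizers are cyclic -/
  cent : ∀ a h : BB d, a ≠ 1 → Commute h a → h ∈ Subgroup.zpowers a
  /-- the test word does not commute with a -/
  ncomm : ∀ a y z : BB d, Nd a y z → ¬ Commute (Wt P a y z) a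
  /-- the test word determines the triple -/
  inj : ∀ a y z a' y' z' g : BB d, ∀ k : ℤ, Nd a y z → ¬ (d : ℤ) ∣ k →
    Wt P a' y' z' = g * Wt P a y z ^ k * g⁻¹ →
    (d : ℤ) ∣ k - 1 ∧ ∃ h, a' = h * a * h⁻¹ ∧ y' = h * y * h⁻¹ ∧ z' = h * z * h⁻¹
  /-- the operation is well-founded -/
  rank : ∀ a : BB d, a ≠ 1 → ∃ M : BB d → ℕ, ∀ y z, Nd a y z →
    M y < M (Wt P a y z) ∧ M z < M (Wt P a y z)
  /-- conjugating elements have bounded length -/
  conjB : ∃ C Q : ℕ, ∀ (n ℓ : ℕ) (u v : W), Ltr n u → Ltr n v → u.length ≤ ℓ → v.length ≤ ℓ →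
    IsConj (wl d u) (wl d v) →
    ∃ t : W, Ltr n t ∧ t.length ≤ C * Q ^ ℓ ∧ wl d t * wl d u * (wl d t)⁻¹ = wl d v
  /-- test words have preimages of bounded length -/
  decB : ∃ C Q : ℕ, ∀ (n ℓ : ℕ) (u : W), Ltr n u → u.length ≤ ℓ →
    (∃ a y z : BB d, Nd a y z ∧ wl d u = Wt P a y z) →
    ∃ α β γ : W, Ltr n α ∧ Ltr n β ∧ Ltr n γ ∧ α.length ≤ C * Q ^ ℓ ∧ β.length ≤ C * Q ^ ℓ ∧
      γ.length ≤ C * Q ^ ℓ ∧ wl d u = Wt P (wl d α) (wl d β) (wl d γ)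

/-- independence of the d-th powers modulo [F^d, F] F^(d^2) -/
def Ind (d : ℕ) : Prop :=
  ∀ μ : BB d → ZMod d, (∀ g x, μ (g * x * g⁻¹) = μ x) → (∀ x (k : ℕ), μ (x ^ k) = k * μ x) →
    ∃ θ : FreeGroup ℕ → ZMod d, (∀ x ∈ Fd d, ∀ y ∈ Fd d, θ (x * y) = θ x + θ y) ∧
      (∀ f, ∀ x ∈ Fd d, θ (f * x * f⁻¹) = θ x) ∧
      ∀ x : FreeGroup ℕ, θ (x ^ d) = μ (QuotientGroup.mk x)

end Pool.Agent.helper4.PV
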