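import Pool.Agent.helper4.PV.Defs
import Pool.Agent.helper50.BW.Q12
import Pool.Agent.helper50.BW.T6
/-! PV project, geometry: definitions.  One level: chains of cones; several levels: the tower as a structure. -/
namespace Pool.Agent.helper4.PV
open Pool.Agent.helper50.BW
open Sum

/-- an element which moves v by at most R has its axis at distance at most rr τ R from v -/
noncomputable def rr (τ R : ℝ) : ℝ := ((KU / τ + 1) * R + KU) / 2

/-- bound for the crossings of the orbit of a point moved by at most R -/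
noncomputable def XX (Δ τ κu R : ℝ) : ℝ := Δ + 8 * rr τ R + 2 * R + 2 * κu + 40 * KU

/-- a bi-infinite chain of cones: the crossing between the neighbours of every member is at least κ -/
structure Chain {G C : Type} (U : C → G ⊕ C → ℝ) (κ : ℝ) (ζ : ℤ → C) : Prop where
  ne : ∀ k, ζ k ≠ ζ (k + 1)
  big : ∀ k, κ ≤ |U (ζ k) (inr (ζ (k + 1))) - U (ζ k) (inr (ζ (k - 1)))|

/-- the tower with its cone systems and projections -/
structure Tw (d : ℕ) where
  L : ℕ → Lvl d
  C : ℕ → Type
  [act : ∀ j, MulAction (L j).G (C j)]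
  S : ∀ j, CSys (L j).D (C j) KU cD ctau cT
  U : ∀ j, C j → (L j).G ⊕ C j → ℝ
  q : ∀ j, (L j).G →* (L (j + 1)).G
  full : ∀ j, Full (S j) (U j) cs ck1 cku ck0 d ce cA cT' cDs clam ceta
  ker : ∀ j, (q j).ker = NN (S j) d
  surj : ∀ j, Function.Surjective (q j)
  comp : ∀ j, (L (j + 1)).π = (q j).comp (L j).π
  dist : ∀ j x y, (L (j + 1)).D (q j x) (q j y) = clam * db (S j) cs d x y
  inj0 : Function.Injective (L 0).π
  dist0 : ∀ x y, (L 0).D ((L 0).π x) ((L 0).π y) = fD x y

attribute [instance] Tw.act

variable {d : ℕ}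

/-- the projection of the free group to level j -/
def Tw.p (t : Tw d) (j : ℕ) : FreeGroup ℕ →* (t.L j).G := (t.L j).π

/-- the pseudo-metric of level j on the free group -/
noncomputable def Tw.E (t : Tw d) (j : ℕ) (x y : FreeGroup ℕ) : ℝ := (t.L j).D (t.p j x) (t.p j y)

/-- the class of x in the free Burnside group -/
def cl (d : ℕ) (x : FreeGroup ℕ) : BB d := QuotientGroup.mk x

end Pool.Agent.helper4.PV
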