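import Pool.Agent.helper4.PV.DefsG
/-! PV project, geometry: numerical constants depending on the exponents P of the test word; conditions on P and d. -/
namespace Pool.Agent.helper4.PV
open Pool.Agent.helper50.BW
open Sum

/-- radius of the lifts of y, z -/
noncomputable def Rm : ℝ := 200000000000
/-- displacement of the four commutators in the marker -/
noncomputable def Rx : ℝ := 4 * Rm + 4
/-- displacement of their powers if they are torsion -/
noncomputable def Rt : ℝ := Rx + 3 * cA + 55
/-- sum of the exponents of the marker after t -/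
def nsum (P : Par) (t : Fin 4) : ℕ := ∑ t' ∈ Finset.univ.filter (fun t' => t < t'), P.n t'
/-- displacement of the marker -/
noncomputable def Ru (P : Par) : ℝ := (P.n 0 + P.n 1 + P.n 2 + P.n 3 : ℕ) * Rx
/-- distance to a point near the axis of the marker -/
noncomputable def Rp (P : Par) : ℝ := rr ctau (Ru P) + 3 * KU
/-- displacement of the connectors at v -/
noncomputable def Hv (P : Par) : ℝ := 2 * Rm + 2 * Ru P + 1
/-- displacement of the connectors at p -/
noncomputable def HH (P : Par) : ℝ := Hv P + 2 * Rp P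
/-- error of the crossings of the chain -/
noncomputable def E2 (P : Par) : ℝ := 2 * (HH P + cku)
/-- displacement of the test word after the marker has become torsion -/
noncomputable def R1 (P : Par) : ℝ := 11 * (2 * Rp P + cs + Hv P)
/-- displacement of the test word at the level of the marker -/
noncomputable def RW (P : Par) : ℝ := (∑ t, P.e t : ℕ) * Ru P + 11 * Hv P
/-- lower bound of the crossings of the chain -/
noncomputable def kap (P : Par) : ℝ := P.e 0 * ctau - E2 P

/-- conditions on the exponents -/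
structure ParOK (P : Par) : Prop where
  hN : 2 * ck0 ≤ P.N * ctau
  hn : ∀ t : Fin 4, 2 * (3 * Rt + nsum P t * Rx + 2 * (rr ctau Rx + 3 * KU)) + 2 * cku + 2 * ck0 ≤ P.n t * ctau
  k1 : 2 * ck0 + ck1 + 2 * cku ≤ kap P
  k2 : HH P + 10 * cku < kap P
  k3 : 2 * XX cD ctau cku (R1 P) < kap P
  k4 : Rm + 2 * Rp P + 6 * cku < kap P
  k5 : 4 * (HH P + cku) < P.e 0 * ctau
  sc : ∀ t : Fin 10, P.e t.castSucc * Ru P + 2 * E2 P < P.e t.succ * ctau

/-- conditions on d -/
structure DOK (P : Par) (d : ℕ) : Prop where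
  pr : d.Prime
  b0 : 10000 * ck0 ≤ d * ctau
  bN : 4 * ck0 * P.N ≤ d * ctau
  bx : XX cD ctau cku Rx + 2 * ck1 < d * ctau
  bu : XX cD ctau cku (Ru P) + 2 * ck1 < d * ctau
  b1 : 100 * XX cD ctau cku (R1 P) + 2 * ck1 < d * ctau
  bW : 100 * XX cD ctau cku (RW P) + 2 * ck1 < d * ctau
  bR : 10 * (RW P + Rm + R1 P + Ru P + 10) + 2 * ck1 + 2 * cku < d * ctau
  bE : 2 * ((∑ t, P.e t : ℕ) * Ru P + E2 P) ≤ d * ctau
  bH : 2 * (HH P + 6 * cku) ≤ d * ctau

/-- one level of the tower -/
abbrev FullT {G : Type} [Group G] {D : G → G → ℝ} {C : Type} [MulAction G C] (S : CSys D C KU cD ctau cT)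
    (U : C → G ⊕ C → ℝ) (d : ℕ) : Prop := Full S U cs ck1 cku ck0 d ce cA cT' cDs clam ceta

/-- index mod 11 -/
def fi (t : ℤ) : Fin 11 := ⟨(t % 11).toNat, by omega⟩

/-- realization of (a; y, z) at one level: the marker is a power of a cone generator -/
structure RL {G : Type} [Group G] {D : G → G → ℝ} {C : Type} [MulAction G C] (S : CSys D C KU cD ctau cT) (d : ℕ)
    (P : Par) (c : C) (q : ℤ) (v a y z : G) : Prop where
  hq : q ≠ 0
  hc : mkr P a y z = S.gen c ^ q
  tor : a ^ d = 1
  ne : a ≠ 1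
  da : ∀ n : ℤ, D v (a ^ n * v) ≤ 1
  dy : D v (y * v) ≤ Rm
  dz : D v (z * v) ≤ Rm
  du : D v (mkr P a y z * v) ≤ Ru P

end Pool.Agent.helper4.PV
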