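import Pool.Agent.helper4.PV.DefsG
/-! PV G01: elements of NN have huge crossings and displacements. -/
namespace Pool.Agent.helper4.PV
open Pool.Agent.helper50.BW
open Sum
variable {G : Type} [Group G] {D : G → G → ℝ} {C : Type} [MulAction G C] {K Δ τ T : ℝ}
  {S : CSys D C K Δ τ T} {U : C → G ⊕ C → ℝ} {s κ₁ κu κ₀ : ℝ} {d : ℕ}

/-- Ctx.gl (BW.Q1): Red S U d (2 κ₁) o n.  The constructor `one` gives n = 1; the constructor `step` gives a cone c, e = ±1 and
d * ell c - 2 κ₁ ≤ e * (U c (n o) - U c o) ≤ |U c (n o) - U c o|. -/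
theorem nn_cross (hC : Ctx S U s κ₁ κu κ₀ d) {n : G} (hn : n ∈ NN S d) (h1 : n ≠ 1) (o : G) :
    ∃ c, d * S.ell c - 2 * κ₁ ≤ |U c (inl (n * o)) - U c (inl o)| := by
  cases hC.gl o hn with
  | one => exact absurd rfl h1
  | step c e m he hm h =>
    refine ⟨c, h.trans ?_⟩
    rcases he with rfl | rfl
    · simp only [Int.cast_one, one_mul]
      exact le_abs_self _
    · simp only [Int.cast_neg, Int.cast_one, neg_mul, one_mul]
      exact neg_le_abs _

/-- contrapositive of nn_cross -/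
theorem nn_one (hC : Ctx S U s κ₁ κu κ₀ d) {n : G} (hn : n ∈ NN S d) (o : G)
    (h : ∀ c, |U c (inl (n * o)) - U c (inl o)| < d * S.ell c - 2 * κ₁) : n = 1 := by
  by_contra h1
  obtain ⟨c, hc⟩ := nn_cross hC hn h1 o
  exact absurd (h c) (not_lt.2 hc)

/-- general form used everywhere: if x and n x are both moved to a common place with small crossings.
|U c (n x) - U c x| ≤ |U c (n x) - U c y| + |U c y - U c x|; apply nn_one with o = x. -/
theorem nn_one_of (hC : Ctx S U s κ₁ κu κ₀ d) {n : G} (hn : n ∈ NN S d) (x y : G)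
    (h : ∀ c, |U c (inl (n * x)) - U c (inl y)| + |U c (inl y) - U c (inl x)| < d * S.ell c - 2 * κ₁) : n = 1 := by
  refine nn_one hC hn x fun c => lt_of_le_of_lt ?_ (h c)
  exact abs_sub_le _ _ _

/-- Proj.close: |U c (inl x) - u c x| ≤ κu and u_lip: the crossing of nn_cross is ≤ D o (n o) + 2 κu; ell c ≥ τ. -/
theorem nn_disp (hC : Ctx S U s κ₁ κu κ₀ d) {n : G} (hn : n ∈ NN S d) (h1 : n ≠ 1) (o : G) :
    d * τ - 2 * κ₁ - 2 * κu ≤ D o (n * o) := by
  obtain ⟨c, hc⟩ := nn_cross hC hn h1 o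
  have h2 := hC.proj.close c (n * o)
  have h3 := hC.proj.close c o
  have h4 := S.u_lip c (n * o) o
  have h5 := S.ell_ge c
  have h6 : (d : ℝ) * τ ≤ d * S.ell c := mul_le_mul_of_nonneg_left h5 (Nat.cast_nonneg d)
  have h7 : |U c (inl (n * o)) - U c (inl o)| ≤ D (n * o) o + 2 * κu := by
    rw [abs_le] at *
    constructor <;> linarith [h2.1, h2.2, h3.1, h3.2, h4.1, h4.2]
  rw [hC.hyp.symm]
  linarith

/-- crossings of a pair are bounded by the distance: Proj.close twice and u_lip -/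
theorem cross_le_dist (hC : Ctx S U s κ₁ κu κ₀ d) (b : C) (x y : G) :
    |U b (inl y) - U b (inl x)| ≤ D x y + 2 * κu := by
  have h2 := hC.proj.close b x
  have h3 := hC.proj.close b y
  have h4 := S.u_lip b x y
  rw [abs_le] at *
  constructor <;> linarith [h2.1, h2.2, h3.1, h3.2, h4.1, h4.2]

/-- a point near the axis of b and the cone b have almost the same position on the cone c ≠ b: closeC and close -/
theorem apex_close (hC : Ctx S U s κ₁ κu κ₀ d) {b c : C} (hbc : b ≠ c) {p : G} (hp : S.r b p ≤ K) :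
    |U c (inr b) - U c (inl p)| ≤ 2 * κu := by
  have h2 := hC.proj.closeC c b p hbc hp
  have h3 := hC.proj.close c p
  rw [abs_le] at *
  constructor <;> linarith [h2.1, h2.2, h3.1, h3.2]

/-- two points near the axis of b have almost the same position on c ≠ b: sep (with b, c) and close: Δ + 2 κu;
alternatively apex_close twice: 4 κu. -/
theorem axis_cross (hC : Ctx S U s κ₁ κu κ₀ d) {b c : C} (hbc : b ≠ c) {p q : G} (hp : S.r b p ≤ K) (hq : S.r b q ≤ K) :
    |U c (inl p) - U c (inl q)| ≤ Δ + 2 * κu := by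
  have h2 := hC.proj.close c p
  have h3 := hC.proj.close c q
  have h4 := S.sep b c p q hbc hp hq
  rw [abs_le] at *
  constructor <;> linarith [h2.1, h2.2, h3.1, h3.2, h4.1, h4.2]

/-- equivariance for differences: U b (g x) - U b (g y) = U (g⁻¹ b) x - U (g⁻¹ b) y; from Proj.smul with c := g⁻¹ • b -/
theorem U_tr (hC : Ctx S U s κ₁ κu κ₀ d) (g : G) (b : C) (X Y : G ⊕ C) (hX : X ≠ inr (g⁻¹ • b)) (hY : Y ≠ inr (g⁻¹ • b)) :
    U b (g • Y) - U b (g • X) = U (g⁻¹ • b) Y - U (g⁻¹ • b) X := by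
  have h := hC.proj.smul g (g⁻¹ • b) X Y hX hY
  rwa [smul_inv_smul] at h

/-- the same for points -/
theorem U_trp (hC : Ctx S U s κ₁ κu κ₀ d) (g : G) (b : C) (x y : G) :
    U b (inl (g * y)) - U b (inl (g * x)) = U (g⁻¹ • b) (inl y) - U (g⁻¹ • b) (inl x) := by
  have h := U_tr hC g b (inl x) (inl y) (by simp) (by simp)
  simpa only [Sum.smul_inl, smul_eq_mul] using h

end Pool.Agent.helper4.PV
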