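import Pool.Agent.helper4.PV.G01
/-! PV G02: torsion elements which agree modulo NN are conjugate by NN; torsion elements are not cone elements modulo NN. -/
namespace Pool.Agent.helper4.PV
open Pool.Agent.helper50.BW
open Sum
variable {G : Type} [Group G] {D : G → G → ℝ} {C : Type} [MulAction G C] {Δ τ T : ℝ}
  {S : CSys D C KU Δ τ T} {U : C → G ⊕ C → ℝ} {s κ₁ κu κ₀ : ℝ} {d : ℕ} {ε A T' Δs lam η : ℝ}

/-- the numerical facts used below -/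
theorem G02_num (hC : Ctx S U s κ₁ κu κ₀ d) : 0 ≤ κu ∧ 0 ≤ κ₁ ∧ 15 + 2 * κu + 2 * κ₁ + 1 ≤ κ₀ := by
  have h2 := hC.hΔ
  have h3 := hC.hu
  have h4 := hC.h1
  have h5 := hC.hs
  have h6 := hC.h0
  have h7 : (KU : ℝ) = 1000 := rfl
  rw [h7] at h5 h6
  refine ⟨h3, h4, by linarith⟩

/-- if the displacement of g at x is at most 15, g = n v with n ∈ NN and the pair (x, v x) is admissible then g = v -/
theorem G02_eq (hC : Ctx S U s κ₁ κu κ₀ d) {g v n x : G} (hn : n ∈ NN S d) (hg : g = n * v)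
    (hx : D x (g * x) ≤ 15) (hA : Adm S U d (7 / 8) (inl x) (inl (v * x))) : g = v := by
  obtain ⟨h1, h2, h3⟩ := G02_num hC
  have hn1 : n = 1 := by
    refine nn_one_of hC hn (v * x) x fun c => ?_
    have e1 : n * (v * x) = g * x := by rw [hg, mul_assoc]
    have h4 := cross_le_dist hC c x (g * x)
    have h5 := hA c (by simp) (by simp)
    have h6 := hC.ell_big c
    rw [e1]
    rw [abs_sub_comm] at h5
    linarith
  rw [hg, hn1, one_mul]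

/-- displacement of a conjugate -/
theorem G02_disp (hC : Ctx S U s κ₁ κu κ₀ d) (m g z : G) :
    D (m * z) (m * g * m⁻¹ * (m * z)) = D z (g * z) := by
  have e : m * g * m⁻¹ * (m * z) = m * (g * z) := by group
  rw [e, hC.linv]

/-- If g₁ = 1: g₂ = n ∈ NN is torsion, BW Stg.tor_fix gives z with D z (g₂ z) ≤ 15, nn_disp (d τ ≥ 10000 κ₀ is larger than
15 + 2κ₁ + 2κu) gives g₂ = 1; take n' = 1.
If g₁ ≠ 1: z₁, z₂ with D z_i (g_i z_i) ≤ 15 (tor_fix).  tight_pt (BW.Q2) for (z₁, z₂): m ∈ NN with Adm (5/8) z₁ (m z₂).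
g := m g₂ m⁻¹ moves z := m z₂ by ≤ 15 and g = n' g₁ with n' ∈ NN (NN normal: m g₂ m⁻¹ = m (g₂ m⁻¹ g₂⁻¹) g₂ and g₂ = n g₁).
Q11_adm (v := g₁, z0 := z₁, x := z): Adm (7/8) z (g₁ z).  Apply nn_one_of to n' with x := g₁ z, y := z:
|U c (n' g₁ z) - U c z| = |U c (g z) - U c z| ≤ 15 + 2κu (cross_le_dist), |U c z - U c (g₁ z)| ≤ 7/8 (d ell c); the sum is
< d ell c - 2κ₁ because d ell c ≥ 10000 κ₀ (Ctx.ell_big) and κ₀ ≥ 80 κu + 4 κ₁ + 30 s (s ≥ 1000 KU).  So n' = 1: m g₂ m⁻¹ = g₁, i.e.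
g₂ = m⁻¹ g₁ m. -/
theorem tor_conj (hF : Full S U s κ₁ κu κ₀ d ε A T' Δs lam η) {g₁ g₂ n : G} (h1 : g₁ ^ d = 1) (h2 : g₂ ^ d = 1)
    (hn : n ∈ NN S d) (h : g₂ = n * g₁) : ∃ m ∈ NN S d, g₂ = m * g₁ * m⁻¹ := by
  have hC := hF.ctx
  have hd : 0 < d := hC.odd.pos
  obtain ⟨k1, k2, k3⟩ := G02_num hC
  obtain ⟨z₂, hz₂⟩ := hF.stg.tor_fix hd h2
  by_cases hg : g₁ = 1
  · subst hg
    rw [mul_one] at h
    subst h
    refine ⟨1, Subgroup.one_mem _, ?_⟩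
    by_contra hne
    have hne' : g₂ ≠ 1 := by
      intro h
      exact hne (by rw [h]; group)
    have h3 := nn_disp hC hn hne' z₂
    have h4 := hC.big
    linarith
  · obtain ⟨z₁, hz₁⟩ := hF.stg.tor_fix hd h1
    obtain ⟨m, hm, hA⟩ := tight_pt hC z₁ z₂
    have hA2 := Q11_adm hF h1 hg hz₁ hA
    have hn' : m * (g₂ * m⁻¹ * g₂⁻¹) * n ∈ NN S d :=
      Subgroup.mul_mem _ (Subgroup.mul_mem _ hm
        ((NN_normal S d).conj_mem _ (Subgroup.inv_mem _ hm) g₂)) hn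
    have he : m * g₂ * m⁻¹ = m * (g₂ * m⁻¹ * g₂⁻¹) * n * g₁ := by
      rw [mul_assoc (m * (g₂ * m⁻¹ * g₂⁻¹)), ← h]
      group
    have hx : D (m * z₂) (m * g₂ * m⁻¹ * (m * z₂)) ≤ 15 := by
      rw [G02_disp hC]; exact hz₂
    have hfin := G02_eq hC hn' he hx hA2
    refine ⟨m⁻¹, Subgroup.inv_mem _ hm, ?_⟩
    rw [← hfin]
    group

/-- Suppose ¬ d ∣ i.  Replace i by the residue i' with 0 < 2|i'| < d (d odd), i = i' + d k: gen c ^ (d k) ∈ NN (Ctx.gen_mem), so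
g₁ = n' gen c ^ i' with n' ∈ NN.  z₁ with D z₁ (g₁ z₁) ≤ 15 (tor_fix).  tight_cone (BW.Q2) x := z₁: m ∈ NN, Adm (5/8) (m z₁) (inr c).
g := m g₁ m⁻¹ moves x := m z₁ by ≤ 15, g = n'' gen c ^ i' with n'' ∈ NN.  Q12_adm: Adm (7/8) x (gen c ^ i' x).
nn_one_of for n'' with x := gen c ^ i' x, y := x (same estimate as in tor_conj): n'' = 1, so g = gen c ^ i'.  g^d = 1 but
(gen c ^ i')^d ≠ 1 by BW Stg.lox_zpow (gen_lox). Contradiction. -/
theorem tor_cone (hF : Full S U s κ₁ κu κ₀ d ε A T' Δs lam η) {g n : G} {c : C} {i : ℤ} (h1 : g ^ d = 1)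
    (hn : n ∈ NN S d) (h : g = n * S.gen c ^ i) : (d : ℤ) ∣ i := by
  have hC := hF.ctx
  have hd : 0 < d := hC.odd.pos
  obtain ⟨e, he⟩ := hC.odd
  obtain ⟨j, k, hjk, hj2⟩ : ∃ j k : ℤ, i = j + k * d ∧ 2 * |j| < d := by
    have hd0 : (0 : ℤ) < d := by omega
    have h1 := Int.emod_nonneg i hd0.ne'
    have h2 := Int.emod_lt_of_pos i hd0
    have h3 := Int.emod_add_mul_ediv i d
    rcases le_or_gt (i % d) e with h4 | h4
    · refine ⟨i % d, i / d, by linarith [mul_comm (i / (d : ℤ)) d], ?_⟩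
      rw [abs_of_nonneg h1]; omega
    · refine ⟨i % d - d, i / d + 1, by linarith [mul_comm (i / (d : ℤ)) d], ?_⟩
      rw [abs_of_neg (by omega)]; omega
  by_cases hj : j = 0
  · exact ⟨k, by rw [hjk, hj]; ring⟩
  · exfalso
    have hkd := hC.gen_mem c k
    obtain ⟨z₁, hz₁⟩ := hF.stg.tor_fix hd h1
    obtain ⟨m, hm, hA⟩ := tight_cone hC z₁ c
    have hA2 := Q12_adm hC hj hj2 hA
    have hn1 : S.gen c ^ j * S.gen c ^ (k * d) * (S.gen c ^ j)⁻¹ ∈ NN S d :=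
      (NN_normal S d).conj_mem _ hkd _
    have hn' : m * (g * m⁻¹ * g⁻¹) * (n * (S.gen c ^ j * S.gen c ^ (k * d) * (S.gen c ^ j)⁻¹)) ∈
        NN S d :=
      Subgroup.mul_mem _ (Subgroup.mul_mem _ hm
        ((NN_normal S d).conj_mem _ (Subgroup.inv_mem _ hm) g)) (Subgroup.mul_mem _ hn hn1)
    have hg : n * (S.gen c ^ j * S.gen c ^ (k * d) * (S.gen c ^ j)⁻¹) * S.gen c ^ j = g := by
      rw [h, hjk, zpow_add]
      group
    have he : m * g * m⁻¹ = m * (g * m⁻¹ * g⁻¹) *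
        (n * (S.gen c ^ j * S.gen c ^ (k * d) * (S.gen c ^ j)⁻¹)) * S.gen c ^ j := by
      rw [mul_assoc (m * (g * m⁻¹ * g⁻¹)), hg]
      group
    have hx : D (m * z₁) (m * g * m⁻¹ * (m * z₁)) ≤ 15 := by
      rw [G02_disp hC]; exact hz₁
    have hfin := G02_eq hC hn' he hx hA2
    refine hF.stg.lox_zpow hd hC.hτ (hF.gen_lox c) hj ?_
    rw [← hfin, conj_pow, h1]
    group

/-- tor_cone with g = 1, n = (gen c ^ i)⁻¹ -/
theorem cone_nn (hF : Full S U s κ₁ κu κ₀ d ε A T' Δs lam η) {c : C} {i : ℤ} (h : S.gen c ^ i ∈ NN S d) : (d : ℤ) ∣ i := by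
  refine tor_cone hF (g := 1) (n := (S.gen c ^ i)⁻¹) (c := c) (one_pow d) (Subgroup.inv_mem _ h) ?_
  group

end Pool.Agent.helper4.PV
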