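import Pool.Agent.helper4.PV.G02
/-! PV G03: cone elements which agree modulo NN: same cone modulo NN, same exponent modulo d.  Tight pairs of cones. -/
namespace Pool.Agent.helper4.PV
open Pool.Agent.helper50.BW
open Sum
variable {G : Type} [Group G] {D : G → G → ℝ} {C : Type} [MulAction G C] {Δ τ T : ℝ}
  {S : CSys D C KU Δ τ T} {U : C → G ⊕ C → ℝ} {s κ₁ κu κ₀ : ℝ} {d : ℕ} {ε A T' Δs lam η : ℝ}

/-- dense gives p with r b p ≤ KU; tight_cone (x := p, cone c): n ∈ NN, Adm (5/8) (n p) (inr c); r (n•b) (n p) ≤ KU (r_smul);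
apex_close for n•b and the third cone a: |U a (inr (n•b)) - U a (inl (n p))| ≤ 2 κu. -/
theorem cone_tight (hC : Ctx S U s κ₁ κu κ₀ d) (b c : C) :
    ∃ n ∈ NN S d, ∃ p, S.r (n • b) p ≤ KU ∧ Adm S U d (5 / 8) (inl p) (inr c) ∧
      ∀ a, a ≠ n • b → a ≠ c → |U a (inr (n • b)) - U a (inr c)| ≤ 5 / 8 * (d * S.ell a) + 2 * κu := by
  obtain ⟨p, hp, -⟩ := S.dense b 0
  obtain ⟨n, hn, hA⟩ := tight_cone hC p c
  have hr : S.r (n • b) (n * p) ≤ KU := by
    rw [S.r_smul]
    exact hp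
  refine ⟨n, hn, n * p, hr, hA, fun a h1 h2 => ?_⟩
  have h3 := apex_close hC (b := n • b) (c := a) (Ne.symm h1) hr
  have h4 := hA a (by simp) (fun h => h2 (inr_injective h).symm)
  have h5 := abs_sub_le (U a (inr (n • b))) (U a (inl (n * p))) (U a (inr c))
  rw [abs_sub_comm (U a (inl (n * p)))] at h5
  linarith

/-- residues -/
theorem G03_res (hC : Ctx S U s κ₁ κu κ₀ d) (i : ℤ) : ∃ j k : ℤ, i = j + k * d ∧ 2 * |j| < d := by
  obtain ⟨e, he⟩ := hC.odd
  have hd0 : (0 : ℤ) < d := by omega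
  have h1 := Int.emod_nonneg i hd0.ne'
  have h2 := Int.emod_lt_of_pos i hd0
  have h3 := Int.emod_add_mul_ediv i d
  rcases le_or_gt (i % d) e with h4 | h4
  · refine ⟨i % d, i / d, by linarith [mul_comm (i / (d : ℤ)) d], ?_⟩
    rw [abs_of_nonneg h1]; omega
  · refine ⟨i % d - d, i / d + 1, by linarith [mul_comm (i / (d : ℤ)) d], ?_⟩
    rw [abs_of_neg (by omega)]; omega

/-- d is large -/
theorem G03_big (hF : Full S U s κ₁ κu κ₀ d ε A T' Δs lam η) (c : C) :
    16 * S.ell c ≤ d * S.ell c ∧ 0 < S.ell c := by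
  have hC := hF.ctx
  have hK : KU = 1000 := rfl
  have hs := hC.hs
  have h0 := hC.h0
  have hΔ := hC.hΔ
  have hu := hC.hu
  have h1 := hC.h1
  have hell : 0 < S.ell c := lt_of_lt_of_le hC.hτ (S.ell_ge c)
  have h2 : τ ≤ 1 / 10 := by
    have h3 := hF.hτη
    have h4 := hF.hlam'
    have h5 : lam * η ≤ lam * s := mul_le_mul_of_nonneg_left hF.hη1 hF.hlam.le
    rw [h3]
    linarith
  have h6 : (d : ℝ) * τ ≤ d * (1 / 10) := mul_le_mul_of_nonneg_left h2 (Nat.cast_nonneg d)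
  have h7 := hC.big
  have h8 : (16 : ℝ) ≤ d := by
    rw [hK] at hs h0
    linarith
  exact ⟨mul_le_mul_of_nonneg_right h8 hell.le, hell⟩

/-- the main case: two different cones -/
theorem G03_main (hF : Full S U s κ₁ κu κ₀ d ε A T' Δs lam η) {b c : C} (hbc : b ≠ c) {n : G}
    {j j' : ℤ} (hn : n ∈ NN S d) (h : S.gen b ^ j' = n * S.gen c ^ j) (hj : j ≠ 0)
    (hj2 : 2 * |j| < d) (hj2' : 2 * |j'| < d) {p : G} (hp : S.r b p ≤ KU)
    (hA : Adm S U d (5 / 8) (inl p) (inr c)) : False := by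
  have hC := hF.ctx
  have hP := hC.proj
  have hK : KU = 1000 := rfl
  have hs := hC.hs
  have h0 := hC.h0
  have hΔ := hC.hΔ
  have hu := hC.hu
  have hk1 := hC.h1
  rw [hK] at hs h0
  obtain ⟨hb16, hb0⟩ := G03_big hF b
  -- choice of x
  obtain ⟨t, ht⟩ : ∃ t : ℤ, |U b (inl (S.gen b ^ t * p)) - U b (inr c)| ≤ S.ell b := by
    refine ⟨round ((U b (inr c) - U b (inl p)) / S.ell b), ?_⟩
    have h1 := hP.rot b (inl p) (round ((U b (inr c) - U b (inl p)) / S.ell b)) (by simp)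
    rw [Sum.smul_inl, smul_eq_mul] at h1
    rw [h1]
    have h2 := abs_sub_round ((U b (inr c) - U b (inl p)) / S.ell b)
    have h3 : U b (inl p) + (round ((U b (inr c) - U b (inl p)) / S.ell b) : ℝ) * S.ell b -
        U b (inr c) = -(((U b (inr c) - U b (inl p)) / S.ell b -
          (round ((U b (inr c) - U b (inl p)) / S.ell b) : ℝ)) * S.ell b) := by
      field_simp
      ring
    rw [h3, abs_neg, abs_mul, abs_of_pos hb0]
    nlinarith
  obtain ⟨x, hx⟩ : ∃ x, x = S.gen b ^ t * p := ⟨_, rfl⟩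
  rw [← hx] at ht
  have hrx : S.r b x ≤ KU := by
    rw [hx, CSys.r_gen_zpow]
    exact hp
  obtain ⟨k, hk⟩ : ∃ k, k = S.gen c ^ j := ⟨_, rfl⟩
  have hkc : k • c = c := by rw [hk]; exact CSys.gen_zpow_smul S c j
  -- (1)
  have f1 : ∀ a, a ≠ b → a ≠ c → |U a (inl x) - U a (inr c)| ≤ 5 / 8 * (d * S.ell a) + Δ + 2 * κu := by
    intro a hab hac
    have g1 := axis_cross hC (Ne.symm hab) hrx hp
    have g2 := hA a (by simp) (fun h => hac (inr_injective h).symm)
    rw [abs_sub_comm] at g2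
    have g3 := abs_sub_le (U a (inl x)) (U a (inl p)) (U a (inr c))
    linarith
  -- translation by k
  have f2 : ∀ a, a ≠ c → k⁻¹ • a ≠ a ∧ k⁻¹ • a ≠ c ∧
      |U a (inl (k * x)) - U a (inr c)| = |U (k⁻¹ • a) (inl x) - U (k⁻¹ • a) (inr c)| ∧
      U c (inr (k⁻¹ • a)) ≠ U c (inr a) := by
    intro a hac
    have g1 : k⁻¹ • a ≠ a := by
      intro h1
      rw [inv_smul_eq_iff, hk] at h1
      exact Q12_fix hC.hτ hac hj h1.symm
    have g2 : k⁻¹ • a ≠ c := by
      intro h1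
      rw [inv_smul_eq_iff, hkc] at h1
      exact hac h1
    refine ⟨g1, g2, ?_, ?_⟩
    · have h1 := U_tr hC k a (inr c) (inl x) (fun h => g2 (inr_injective h).symm) (by simp)
      rw [Sum.smul_inl, Sum.smul_inr, hkc, smul_eq_mul] at h1
      rw [h1]
    · have h1 := hP.rot c (inr a) (-j) (fun h => hac (inr_injective h))
      rw [zpow_neg, ← hk, Sum.smul_inr] at h1
      rw [h1]
      intro h2
      have h3 : (j : ℝ) * S.ell c = 0 := by
        push_cast at h2
        linarith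
      rcases mul_eq_zero.1 h3 with h4 | h4
      · exact hj (by exact_mod_cast h4)
      · exact absurd h4 (G03_big hF c).2.ne'
  -- (3)
  have f3 : ∀ a, a ≠ c → ¬ (κ₁ ≤ |U a (inl x) - U a (inr c)| ∧
      κ₁ ≤ |U (k⁻¹ • a) (inl x) - U (k⁻¹ • a) (inr c)|) := by
    rintro a hac ⟨g1, g2⟩
    obtain ⟨e1, e2, -, e4⟩ := f2 a hac
    have g3 := hP.exact a c (inl x) hac (by simp) (by simp) g1
    have g4 := hP.exact (k⁻¹ • a) c (inl x) e2 (by simp) (by simp) g2
    exact e4 (g4.symm.trans g3)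
  -- (4)
  have f4 : |U b (inl (k * x)) - U b (inr c)| ≤ κ₁ + 2 * κu := by
    obtain ⟨e1, e2, e3, e4⟩ := f2 b hbc
    rw [e3]
    have g1 := apex_close hC (Ne.symm e1) hrx
    by_contra hcon
    push Not at hcon
    have g2 : κ₁ ≤ |U (k⁻¹ • b) (inr b) - U (k⁻¹ • b) (inr c)| := by
      have g3 := abs_sub_le (U (k⁻¹ • b) (inl x)) (U (k⁻¹ • b) (inr b)) (U (k⁻¹ • b) (inr c))
      rw [abs_sub_comm (U (k⁻¹ • b) (inl x)) (U (k⁻¹ • b) (inr b))] at g3
      linarith
    have g4 := hP.exact (k⁻¹ • b) c (inr b) e2 (fun h => e1 (inr_injective h).symm)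
      (fun h => hbc (inr_injective h)) g2
    exact e4 g4.symm
  have hmain : n = 1 := by
    refine nn_one_of hC hn (k * x) x fun a => ?_
    have e0 : n * (k * x) = S.gen b ^ j' * x := by rw [h, ← hk, mul_assoc]
    rw [e0]
    obtain ⟨ha16, ha0⟩ := G03_big hF a
    have habig := hC.ell_big a
    by_cases hab : a = b
    · rw [hab] at ha16 ha0 habig ⊢
      have g1 : |U b (inl (S.gen b ^ j' * x)) - U b (inl x)| ≤ (d * S.ell b) / 2 := by
        have h1 := hP.rot b (inl x) j' (by simp)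
        rw [Sum.smul_inl, smul_eq_mul] at h1
        rw [h1, add_sub_cancel_left, abs_mul, abs_of_pos ha0]
        have h3 : 2 * |(j' : ℝ)| ≤ d := by
          have : (2 * |j'| : ℤ) ≤ d := hj2'.le
          exact_mod_cast this
        have h4 : 2 * |(j' : ℝ)| * S.ell b ≤ d * S.ell b := mul_le_mul_of_nonneg_right h3 ha0.le
        linarith
      have g2 := abs_sub_le (U b (inl x)) (U b (inr c)) (U b (inl (k * x)))
      rw [abs_sub_comm (U b (inr c)) (U b (inl (k * x)))] at g2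
      linarith
    · have g1 : |U a (inl (S.gen b ^ j' * x)) - U a (inl x)| ≤ Δ + 2 * κu := by
        refine axis_cross hC (Ne.symm hab) ?_ hrx
        rw [CSys.r_gen_zpow]
        exact hrx
      by_cases hac : a = c
      · rw [hac] at g1 ha16 ha0 habig ⊢
        have g2 : |U c (inl x) - U c (inl (k * x))| ≤ (d * S.ell c) / 2 := by
          have h1 := hP.rot c (inl x) j (by simp)
          rw [Sum.smul_inl, smul_eq_mul, ← hk] at h1
          rw [h1, abs_sub_comm, add_sub_cancel_left, abs_mul, abs_of_pos ha0]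
          have h3 : 2 * |(j : ℝ)| ≤ d := by
            have : (2 * |j| : ℤ) ≤ d := hj2.le
            exact_mod_cast this
          have h4 : 2 * |(j : ℝ)| * S.ell c ≤ d * S.ell c := mul_le_mul_of_nonneg_right h3 ha0.le
          linarith
        linarith
      · obtain ⟨e1, e2, e3, -⟩ := f2 a hac
        have g2 := abs_sub_le (U a (inl x)) (U a (inr c)) (U a (inl (k * x)))
        rw [abs_sub_comm (U a (inr c)) (U a (inl (k * x))), e3] at g2
        have g3 := f1 a hab hac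
        have g4 : |U (k⁻¹ • a) (inl x) - U (k⁻¹ • a) (inr c)| ≤ 5 / 8 * (d * S.ell a) + Δ + 2 * κu := by
          by_cases h5 : k⁻¹ • a = b
          · have h6 : S.ell a = S.ell b := by rw [← h5, S.ell_smul]
            rw [h5, h6]
            linarith
          · have h6 := f1 (k⁻¹ • a) h5 e2
            rwa [S.ell_smul] at h6
        have g5 := f3 a hac
        rw [not_and_or, not_le, not_le] at g5
        rcases g5 with g5 | g5 <;> linarith
  rw [hmain, one_mul] at h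
  have h2 := Q12_fix hC.hτ hbc hj (S := S)
  rw [← h] at h2
  exact h2 (CSys.gen_zpow_smul S b j')

/-- Statement: if gen c' ^ i' = n gen c ^ i with n ∈ NN and ¬ d ∣ i then c' is a translate of c by NN and d ∣ i' - i.
Proof.  ¬ d ∣ i' (else gen c' ^ i' ∈ NN, so gen c ^ i ∈ NN, cone_nn).  Replace i, i' by residues with 0 < 2|i|, 2|i'| < d (multiply by
gen ^ (d k) ∈ NN; the conclusion is invariant).  cone_tight for (c', c): m ∈ NN, b := m•c', p, r b p ≤ KU, Adm (5/8) p (inr c).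
h := gen b ^ i' = m gen c' ^ i' m⁻¹ = n' gen c ^ i, n' ∈ NN (normal).  Put k := gen c ^ i, so h = n' k.
Case b = c: then gen c ^ (i' - i) ∈ NN, d ∣ i' - i by cone_nn, c' = m⁻¹ • c.  Done.
Case b ≠ c: contradiction as follows.  Choose j with |U b (gen b ^ j p) - U b (inr c)| ≤ ell b (Proj.rot), x := gen b ^ j * p; r b x ≤ KU.
 (1) for a ≠ b, c: |U a x - U a (inr c)| ≤ 5/8 (d ell a) + Δ + 2κu (axis_cross for x, p near the axis of b).
 (2) |U b x - U b (inr c)| ≤ ell b.
 (3) for a ≠ c put a' := k⁻¹ • a; a' ≠ a (Q12_fix), a' ≠ c.  |U a (k x) - U a (inr c)| = |U a' x - U a' (inr c)| (U_tr, k c = c).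
     NOT both |U a x - U a (inr c)| ≥ κ₁ and |U a' x - U a' (inr c)| ≥ κ₁: Proj.exact would give U c x = U c (inr a) and
     U c x = U c (inr a'), but U c (inr a') = U c (inr (gen c ^ (-i) • a)) = U c (inr a) - i ell c (rot), i ell c ≠ 0.
 (4) |U b (k x) - U b (inr c)| ≤ κ₁ + 2κu: with b' := k⁻¹•b ≠ b, c: |U b' x - U b' (inr b)| ≤ 2κu (apex_close, r b x ≤ KU, b ≠ b');
     if |U b' x - U b' (inr c)| > κ₁ + 2κu then |U b' (inr b) - U b' (inr c)| ≥ κ₁, exact (b := b', c := c, X := inr b):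
     U c (inr b) = U c (inr b') = U c (inr b) - i ell c, contradiction.
 nn_one_of for n' with x := k x, y := x: need |U a (h x) - U a x| + |U a x - U a (k x)| < d ell a - 2κ₁ for every a:
   a = b: first = |i'| ell b ≤ (d ell b)/2 (rot), second ≤ ell b + κ₁ + 2κu by (2),(4).
   a ≠ b: first ≤ Δ + 2κu (axis_cross, r b (h x) = r b x);  a = c: second = |i| ell c ≤ (d ell c)/2;
          a ≠ c: second ≤ 5/8 (d ell a) + Δ + 2κu + κ₁ + (the larger of the two is bounded by (1) for a, resp. for a' : note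
          (1) for a' needs a' ≠ b; if a' = b use (2))  [by (3) one of the two terms is < κ₁].
   (d ≥ 3 large: ell b ≤ (d ell b)/1000 because d τ ≥ 10000 κ₀ and κ₀ ≥ ... ; ell b ≤ T: use hF: careful, show ell b ≤ d ell b / 16 from d ≥ 16;
    d ≥ 16 follows from  d τ ≥ 10000 κ₀ ≥ 300000 s, η ≤ s, τ = lam η ≤ lam s ≤ 1/10 (hlam'), so d is huge.)
 So n' = 1, gen b ^ i' = gen c ^ i, hence gen c ^ i • b = b, contradicting Q12_fix. -/
theorem cone_cone (hF : Full S U s κ₁ κu κ₀ d ε A T' Δs lam η) {c c' : C} {n : G} {i i' : ℤ} (hn : n ∈ NN S d)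
    (h : S.gen c' ^ i' = n * S.gen c ^ i) (hi : ¬ (d : ℤ) ∣ i) :
    (∃ m ∈ NN S d, c' = m • c) ∧ (d : ℤ) ∣ i' - i := by
  have hC := hF.ctx
  have hN := NN_normal S d
  have hi' : ¬ (d : ℤ) ∣ i' := by
    rintro ⟨k, hk⟩
    apply hi
    apply cone_nn hF (c := c)
    have h1 : S.gen c' ^ i' ∈ NN S d := by
      rw [hk, mul_comm]
      exact hC.gen_mem c' k
    have h2 : S.gen c ^ i = n⁻¹ * S.gen c' ^ i' := by rw [h]; group
    rw [h2]
    exact mul_mem (inv_mem hn) h1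
  obtain ⟨j, k, hjk, hj2⟩ := G03_res hC i
  obtain ⟨j', k', hjk', hj2'⟩ := G03_res hC i'
  have hj : j ≠ 0 := by
    rintro rfl
    apply hi
    rw [hjk]
    exact ⟨k, by ring⟩
  obtain ⟨m, hm, p, hp, hA, -⟩ := cone_tight hC c' c
  obtain ⟨n', hn', h'⟩ : ∃ n' ∈ NN S d, S.gen (m • c') ^ j' = n' * S.gen c ^ j := by
    refine ⟨m * (n * (S.gen c ^ j * (S.gen c ^ (k * (d : ℤ)) * (S.gen c' ^ (k' * (d : ℤ)))⁻¹ * m⁻¹) *
      (S.gen c ^ j)⁻¹)), ?_, ?_⟩
    · exact mul_mem hm (mul_mem hn (hN.conj_mem _ (mul_mem (mul_mem (hC.gen_mem c k)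
        (inv_mem (hC.gen_mem c' k'))) (inv_mem hm)) _))
    · have e1 : S.gen c' ^ j' = n * (S.gen c ^ j * S.gen c ^ (k * (d : ℤ))) *
          (S.gen c' ^ (k' * (d : ℤ)))⁻¹ := by
        rw [← zpow_add, ← hjk, ← h, hjk', zpow_add]
        group
      rw [CSys.gen_zpow_conj, e1]
      group
  by_cases hbc : m • c' = c
  · refine ⟨⟨m⁻¹, inv_mem hm, ?_⟩, ?_⟩
    · rw [← hbc, inv_smul_smul]
    · rw [hbc] at h'
      have h2 : S.gen c ^ (j' - j) ∈ NN S d := by
        rw [zpow_sub, h']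
        have e : n' * S.gen c ^ j * (S.gen c ^ j)⁻¹ = n' := by group
        rw [e]
        exact hn'
      obtain ⟨l, hl⟩ := cone_nn hF h2
      refine ⟨l + k' - k, ?_⟩
      rw [hjk, hjk']
      linear_combination hl
  · exact (G03_main hF hbc hn' h' hj hj2 hj2' hp hA).elim

end Pool.Agent.helper4.PV
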