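import Pool.Agent.helper4.PV.G01
/-! PV G04: chains of cones. -/
namespace Pool.Agent.helper4.PV
open Pool.Agent.helper50.BW
open Sum
variable {G : Type} [Group G] {D : G → G → ℝ} {C : Type} [MulAction G C] {K Δ τ T : ℝ}
  {S : CSys D C K Δ τ T} {U : C → G ⊕ C → ℝ} {s κ₁ κu κ₀ : ℝ} {d : ℕ} {κ : ℝ} {ζ : ℤ → C}

/-- exactness along a chain.  Induction on n = k - i ≥ 1: claim for all i, k with k = i + n.
n = 1: `ne` (k - 1 = i).  Step n → n+1 (i, k = i + n + 1):
 (a) b := ζ (i+1), c := ζ i, X := inr (ζ k): by the claim for (i+1, k): ζ (i+1) ≠ ζ k and U b X = U b (inr (ζ (i+2))), so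
     |U b X - U b (inr c)| = |U (ζ (i+1)) (ζ (i+2)) - U (ζ (i+1)) (ζ i)| ≥ κ > 0, hence X ≠ inr c, and Proj.exact gives
     U c X = U c (inr b).
 (b) b := ζ (k-1), c := ζ k, X := inr (ζ i): the same with the claim for (i, k-1). -/
theorem chain_exact (hP : Proj S κ₁ κu U) (h0 : 0 < κ) (h1 : κ₁ ≤ κ) (hζ : Chain U κ ζ) {i k : ℤ} (hik : i < k) :
    ζ i ≠ ζ k ∧ U (ζ k) (inr (ζ i)) = U (ζ k) (inr (ζ (k - 1))) ∧
      U (ζ i) (inr (ζ k)) = U (ζ i) (inr (ζ (i + 1))) := by
  have key : ∀ n : ℕ, ∀ i k : ℤ, k = i + (n + 1) → ζ i ≠ ζ k ∧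
      U (ζ k) (inr (ζ i)) = U (ζ k) (inr (ζ (k - 1))) ∧
      U (ζ i) (inr (ζ k)) = U (ζ i) (inr (ζ (i + 1))) := by
    intro n
    induction n with
    | zero =>
      intro i k hk
      have h2 : k = i + 1 := by simpa using hk
      subst h2
      refine ⟨hζ.ne i, ?_, rfl⟩
      rw [add_sub_cancel_right]
    | succ n ih =>
      intro i k hk
      push_cast at hk
      obtain ⟨a1, -, a3⟩ := ih (i + 1) k (by push_cast; linarith)
      obtain ⟨b1, b2, -⟩ := ih i (k - 1) (by push_cast; linarith)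
      have hA : κ ≤ |U (ζ (i + 1)) (inr (ζ k)) - U (ζ (i + 1)) (inr (ζ i))| := by
        have h2 := hζ.big (i + 1)
        rw [add_sub_cancel_right] at h2
        rw [a3]
        exact h2
      have hne : ζ i ≠ ζ k := by
        intro h2
        rw [h2, sub_self, abs_zero] at hA
        linarith
      have hB : κ ≤ |U (ζ (k - 1)) (inr (ζ i)) - U (ζ (k - 1)) (inr (ζ k))| := by
        have h2 := hζ.big (k - 1)
        rw [sub_add_cancel] at h2
        rw [b2, abs_sub_comm]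
        exact h2
      refine ⟨hne, ?_, ?_⟩
      · refine hP.exact (ζ (k - 1)) (ζ k) (inr (ζ i)) ?_ ?_ ?_ (h1.trans hB)
        · have h2 := hζ.ne (k - 1)
          rwa [sub_add_cancel] at h2
        · exact fun h2 => b1 (inr_injective h2)
        · exact fun h2 => hne (inr_injective h2)
      · refine hP.exact (ζ (i + 1)) (ζ i) (inr (ζ k)) (hζ.ne i).symm ?_ ?_ (h1.trans hA)
        · exact fun h2 => a1 (inr_injective h2).symm
        · exact fun h2 => hne (inr_injective h2).symm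
  obtain ⟨n, hn⟩ : ∃ n : ℕ, k = i + (n + 1) := ⟨(k - i - 1).toNat, by
    rw [Int.toNat_of_nonneg (by omega)]
    ring⟩
  exact key n i k hn

theorem chain_inj (hP : Proj S κ₁ κu U) (h0 : 0 < κ) (h1 : κ₁ ≤ κ) (hζ : Chain U κ ζ) : Function.Injective ζ := by
  intro i k hik
  rcases lt_trichotomy i k with h | h | h
  · exact absurd hik (chain_exact hP h0 h1 hζ h).1
  · exact h
  · exact absurd hik.symm (chain_exact hP h0 h1 hζ h).1

/-- the reversed chain -/
theorem Chain.rev (hζ : Chain U κ ζ) : Chain U κ (fun k => ζ (-k)) := by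
  refine ⟨fun k => ?_, fun k => ?_⟩
  · have h := (hζ.ne (-k - 1)).symm
    rw [sub_add_cancel] at h
    have e : -(k + 1) = -k - 1 := by ring
    simp only [e]
    exact h
  · have h := hζ.big (-k)
    rw [abs_sub_comm] at h
    have e : -(k + 1) = -k - 1 := by ring
    have e' : -(k - 1) = -k + 1 := by ring
    simp only [e, e']
    exact h

/-- the positions of the members of the chain on a cone b outside of the chain take at most two values.
For every k: |U (ζ k) (inr b) - L| ≥ κ₁ or |U (ζ k) (inr b) - R| ≥ κ₁, where L = U (ζ k) (ζ (k-1)), R = U (ζ k) (ζ (k+1)), |L - R| ≥ κ ≥ 2κ₁.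
First case: for all i < k: U (ζ k) (ζ i) = L (chain_exact), exact (b := ζ k, c := b, X := inr (ζ i)): U b (ζ i) = U b (ζ k)   [Lft k].
Second case: for all i > k: U b (ζ i) = U b (ζ k)  [Rgt k].
Given i < j (i = j: 0 ≤ B from hB and |x - x| = 0; i > j: symmetric).  If Lft j or Rgt i: the difference is 0 ≤ B.  Otherwise let k be the
largest index in [i, j) with ¬ Rgt k (exists: i); then Lft k, and Rgt (k+1) (if k+1 < j by maximality, if k+1 = j because ¬ Lft j).
So U b (ζ i) = U b (ζ k), U b (ζ j) = U b (ζ (k+1)), and hB k. -/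
theorem chain_two (hP : Proj S κ₁ κu U) (hk1 : 0 ≤ κ₁) (h0 : 0 < κ) (h1 : 2 * κ₁ ≤ κ) (hζ : Chain U κ ζ) {b : C}
    (hb : ∀ k, ζ k ≠ b) {B : ℝ} (hB : ∀ k, |U b (inr (ζ (k + 1))) - U b (inr (ζ k))| ≤ B) (i j : ℤ) :
    |U b (inr (ζ j)) - U b (inr (ζ i))| ≤ B := by
  have hk2 : κ₁ ≤ κ := by linarith
  have hB0 : 0 ≤ B := (abs_nonneg _).trans (hB 0)
  have hLR : ∀ k, (∀ i, i < k → U b (inr (ζ i)) = U b (inr (ζ k))) ∨
      (∀ i, k < i → U b (inr (ζ i)) = U b (inr (ζ k))) := by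
    intro k
    have h2 : κ₁ ≤ |U (ζ k) (inr (ζ (k - 1))) - U (ζ k) (inr b)| ∨
        κ₁ ≤ |U (ζ k) (inr (ζ (k + 1))) - U (ζ k) (inr b)| := by
      by_contra hcon
      push Not at hcon
      have h3 := hζ.big k
      have h4 := abs_sub_le (U (ζ k) (inr (ζ (k + 1)))) (U (ζ k) (inr b)) (U (ζ k) (inr (ζ (k - 1))))
      rw [abs_sub_comm (U (ζ k) (inr b)) (U (ζ k) (inr (ζ (k - 1))))] at h4
      linarith [hcon.1, hcon.2]
    rcases h2 with h2 | h2
    · left
      intro i hi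
      obtain ⟨c1, c2, -⟩ := chain_exact hP h0 hk2 hζ hi
      refine hP.exact (ζ k) b (inr (ζ i)) (hb k) ?_ ?_ ?_
      · exact fun h3 => c1 (inr_injective h3)
      · exact fun h3 => hb i (inr_injective h3)
      · rw [c2]
        exact h2
    · right
      intro i hi
      obtain ⟨c1, -, c3⟩ := chain_exact hP h0 hk2 hζ hi
      refine hP.exact (ζ k) b (inr (ζ i)) (hb k) ?_ ?_ ?_
      · exact fun h3 => c1 (inr_injective h3).symm
      · exact fun h3 => hb i (inr_injective h3)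
      · rw [c3]
        exact h2
  have key : ∀ i j : ℤ, i < j → |U b (inr (ζ j)) - U b (inr (ζ i))| ≤ B := by
    classical
    intro i j hij
    by_cases hi : ∀ l, i < l → U b (inr (ζ l)) = U b (inr (ζ i))
    · rw [hi j hij, sub_self, abs_zero]
      exact hB0
    by_cases hj : ∀ l, l < j → U b (inr (ζ l)) = U b (inr (ζ j))
    · rw [hj i hij, sub_self, abs_zero]
      exact hB0
    have hj' : ∀ l, j < l → U b (inr (ζ l)) = U b (inr (ζ j)) := (hLR j).resolve_left hj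
    let q : ℕ → Prop := fun n => ∀ l, i + n < l → U b (inr (ζ l)) = U b (inr (ζ (i + n)))
    have hex : ∃ n, q n := ⟨(j - i).toNat, by
      have e : i + ((j - i).toNat : ℤ) = j := by
        rw [Int.toNat_of_nonneg (by omega)]
        ring
      change ∀ l, i + ((j - i).toNat : ℤ) < l → _ = U b (inr (ζ (i + ((j - i).toNat : ℤ))))
      rw [e]
      exact hj'⟩
    have hn := Nat.find_spec hex
    have hmin := fun m => Nat.find_min (H := hex) (m := m)
    have hle : Nat.find hex ≤ (j - i).toNat := Nat.find_min' hex (by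
      have e : i + ((j - i).toNat : ℤ) = j := by
        rw [Int.toNat_of_nonneg (by omega)]
        ring
      change ∀ l, i + ((j - i).toNat : ℤ) < l → _ = U b (inr (ζ (i + ((j - i).toNat : ℤ))))
      rw [e]
      exact hj')
    generalize Nat.find hex = n at hn hmin hle
    have hn0 : n ≠ 0 := by
      rintro rfl
      apply hi
      have h3 : ∀ l, i + ((0 : ℕ) : ℤ) < l → U b (inr (ζ l)) = U b (inr (ζ (i + ((0 : ℕ) : ℤ)))) := hn
      simpa using h3
    obtain ⟨m, rfl⟩ := Nat.exists_eq_succ_of_ne_zero hn0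
    have hm : ¬ ∀ l, i + (m : ℤ) < l → U b (inr (ζ l)) = U b (inr (ζ (i + m))) :=
      hmin m (Nat.lt_succ_self m)
    have hm' := (hLR (i + m)).resolve_right hm
    have hn' : ∀ l, i + ((m.succ : ℕ) : ℤ) < l →
      U b (inr (ζ l)) = U b (inr (ζ (i + ((m.succ : ℕ) : ℤ)))) := hn
    have e : i + ((m.succ : ℕ) : ℤ) = i + m + 1 := by push_cast; ring
    rw [e] at hn'
    have h5 : U b (inr (ζ j)) = U b (inr (ζ (i + m + 1))) := by
      rcases eq_or_ne (i + m + 1) j with h6 | h6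
      · rw [h6]
      · exact hn' j (by omega)
    have h7 : U b (inr (ζ i)) = U b (inr (ζ (i + m))) := by
      rcases eq_or_ne m 0 with h8 | h8
      · rw [h8]
        simp
      · exact hm' i (by omega)
    rw [h5, h7]
    exact hB _
  rcases lt_trichotomy i j with h | h | h
  · exact key i j h
  · rw [h, sub_self, abs_zero]
    exact hB0
  · rw [abs_sub_comm]
    exact key j i h

/-- a point x: for all large k the position of x on ζ k is that of ζ (k-1).
Let y₀ be a point with r (ζ 0) y₀ ≤ K.  If for some k ≥ 1: |U (ζ k) x - U (ζ k) (ζ (k+1))| ≥ κ₁ then for all i > k exact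
(b := ζ k, c := ζ i, X := inl x; U (ζ k) (ζ i) = U (ζ k) (ζ (k+1)) by chain_exact) gives U (ζ i) x = U (ζ i) (ζ k) = U (ζ i) (ζ (i-1)):
take m = k + 1.  Otherwise for all k ≥ 1: |U (ζ k) x - U (ζ k) (ζ (k+1))| < κ₁, and
|U (ζ k) y₀ - U (ζ k) (ζ (k-1))| ≤ 2κu (apex_close for the cone ζ 0, chain_exact), so |U (ζ k) x - U (ζ k) y₀| ≥ κ - κ₁ - 2κu ≥ κ₀ for all k ≥ 1.
many_cones (BW.Q8) with F = image of ζ on {1..n} (injective): n s ≤ dd S s y₀ x for all n, impossible (0 < s). -/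
theorem chain_pt (hC : Ctx S U s κ₁ κu κ₀ d) (h1 : κ₀ + κ₁ + 2 * κu ≤ κ) (hζ : Chain U κ ζ) (x : G) :
    ∃ m : ℤ, ∀ k ≥ m, U (ζ k) (inl x) = U (ζ k) (inr (ζ (k - 1))) := by
  classical
  have hP := hC.proj
  have hu := hC.hu
  have hk1 := hC.h1
  obtain ⟨hK0, hs0, hk0, -, -⟩ := Q1_nn hC
  have hsp : 0 < s := by
    have := hC.hK
    have := hC.hs
    linarith
  have hk0' : 0 < κ₀ := by
    have := hC.h0
    have := hC.hΔ
    linarith
  have h0 : 0 < κ := by linarith
  have h1' : κ₁ ≤ κ := by linarith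
  obtain ⟨y, hy, -⟩ := S.dense (ζ 0) 0
  by_cases h : ∃ k : ℤ, 1 ≤ k ∧ κ₁ ≤ |U (ζ k) (inl x) - U (ζ k) (inr (ζ (k + 1)))|
  · obtain ⟨k, -, hk⟩ := h
    refine ⟨k + 1, fun i hi => ?_⟩
    obtain ⟨c1, c2, c3⟩ := chain_exact hP h0 h1' hζ (show k < i by omega)
    rw [← c3] at hk
    rw [hP.exact (ζ k) (ζ i) (inl x) c1 (by simp) (by simp) hk, c2]
  · exfalso
    push Not at h
    have hfar : ∀ k : ℤ, 1 ≤ k → κ₀ ≤ |U (ζ k) (inl x) - U (ζ k) (inl y)| := by
      intro k hk
      obtain ⟨c1, c2, -⟩ := chain_exact hP h0 h1' hζ (show (0 : ℤ) < k by omega)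
      have h3 := apex_close hC c1 hy
      rw [c2] at h3
      have h4 := h k hk
      have h5 := hζ.big k
      have h6 := abs_sub_le (U (ζ k) (inr (ζ (k + 1)))) (U (ζ k) (inl x)) (U (ζ k) (inr (ζ (k - 1))))
      have h7 := abs_sub_le (U (ζ k) (inl x)) (U (ζ k) (inl y)) (U (ζ k) (inr (ζ (k - 1))))
      rw [abs_sub_comm (U (ζ k) (inr (ζ (k + 1)))) (U (ζ k) (inl x))] at h6
      rw [abs_sub_comm (U (ζ k) (inl y)) (U (ζ k) (inr (ζ (k - 1))))] at h7
      linarith
    obtain ⟨n, hn⟩ := exists_nat_gt (dd S s y x / s)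
    have h8 := many_cones hC ((Finset.range n).image fun i : ℕ => ζ ((i : ℤ) + 1)) (x := y) (y := x)
      (by
        intro b hb
        obtain ⟨i, -, rfl⟩ := Finset.mem_image.1 hb
        exact hfar _ (by omega))
    rw [Finset.card_image_of_injective, Finset.card_range] at h8
    · rw [div_lt_iff₀ hsp] at hn
      linarith
    · intro i j hij
      have h9 := chain_inj hP h0 h1' hζ hij
      omega

/-- chain_pt for the reversed chain -/
theorem chain_pt' (hC : Ctx S U s κ₁ κu κ₀ d) (h1 : κ₀ + κ₁ + 2 * κu ≤ κ) (hζ : Chain U κ ζ) (x : G) :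
    ∃ m : ℤ, ∀ k ≤ m, U (ζ k) (inl x) = U (ζ k) (inr (ζ (k + 1))) := by
  obtain ⟨m, hm⟩ := chain_pt hC h1 hζ.rev x
  refine ⟨-m, fun k hk => ?_⟩
  have h := hm (-k) (by omega)
  have e : -(-k - 1) = k + 1 := by ring
  simp only [neg_neg, e] at h
  exact h

/-- zpow version of the periodicity (induction on n) -/
theorem chain_zpow {g : G} {p : ℤ} (hg : ∀ k, g • ζ k = ζ (k + p)) (n k : ℤ) : g ^ n • ζ k = ζ (k + n * p) := by
  induction n using Int.induction_on generalizing k with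
  | zero => simp
  | succ n ih =>
    rw [zpow_add_one, mul_smul, hg, ih]
    congr 1
    ring
  | pred n ih =>
    have h : g⁻¹ • ζ k = ζ (k - p) := by
      rw [inv_smul_eq_iff, hg, sub_add_cancel]
    rw [zpow_sub_one, mul_smul, h, ih]
    congr 1
    ring

/-- g^n ζ 0 = ζ (n p) ≠ ζ 0 -/
theorem chain_inf (hP : Proj S κ₁ κu U) (h0 : 0 < κ) (h1 : κ₁ ≤ κ) (hζ : Chain U κ ζ) {g : G} {p : ℤ} (hp : p ≠ 0)
    (hg : ∀ k, g • ζ k = ζ (k + p)) {n : ℤ} (hn : n ≠ 0) : g ^ n ≠ 1 ∧ g ^ n • ζ 0 ≠ ζ 0 := by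
  have h2 : g ^ n • ζ 0 ≠ ζ 0 := by
    rw [chain_zpow hg]
    intro h3
    have h4 := chain_inj hP h0 h1 hζ h3
    have h5 : n * p = 0 := by linarith
    rcases mul_eq_zero.1 h5 with h6 | h6
    · exact hn h6
    · exact hp h6
  refine ⟨fun h3 => h2 ?_, h2⟩
  rw [h3, one_smul]

end Pool.Agent.helper4.PV
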