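import Pool.Agent.helper4.PV.G04
/-! PV G05: the translation of a periodic chain with moderate crossings is not torsion modulo NN. -/
namespace Pool.Agent.helper4.PV
open Pool.Agent.helper50.BW
open Sum
variable {G : Type} [Group G] {D : G → G → ℝ} {C : Type} [MulAction G C] {K Δ τ T : ℝ}
  {S : CSys D C K Δ τ T} {U : C → G ⊕ C → ℝ} {s κ₁ κu κ₀ : ℝ} {d : ℕ} {κ : ℝ} {ζ : ℤ → C}

/-- Write Θ b = d * ell b ≥ 10000 κ₀ (Ctx.ell_big), p > 0, e := p * d.  Suppose g^d ∈ NN.  g^d ≠ 1 (chain_inf, n = d; d ≠ 0 since d is odd).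
Choose o with r (ζ 0) o ≤ K and |u (ζ 0) o - U (ζ 0) (inr (ζ 1))| ≤ K (dense).  nn_cross gives b with
|U b (g^d o) - U b o| ≥ Θ b - 2κ₁.  g^d o is near the axis of ζ e (r_smul, g^d ζ 0 = ζ e).
 Case b ∉ range ζ: |U b o - U b (ζ 0)| ≤ 2κu, |U b (g^d o) - U b (ζ e)| ≤ 2κu (apex_close), |U b (ζ e) - U b (ζ 0)| ≤ 3/4 Θ b (chain_two with
   hB): total ≤ 3/4 Θ + 4κu.
 Case b = ζ k, k ≠ 0, e: the same with |U b (ζ e) - U b (ζ 0)| ≤ 3/4 Θ b because both values are U b (ζ (k±1)) (chain_exact) and hB'.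
 Case b = ζ 0: |U b (g^d o) - U b (ζ e)| ≤ 2κu, U b (ζ e) = U b (ζ 1) (chain_exact, e > 0), |U b o - U b (ζ 1)| ≤ κu + K.
 Case b = ζ e: U b (g^d o) - U b (ζ (e+1)) = U (ζ 0) o - U (ζ 0) (ζ 1) (smul), of size ≤ κu + K; |U b o - U b (ζ 0)| ≤ 2κu and
   U b (ζ 0) = U b (ζ (e-1)); so the crossing is ≤ 3/4 Θ + 3κu + K by hB'.
All are < Θ b - 2κ₁ since Θ b ≥ 10000 κ₀ and κ₀ ≥ 80 κu + 4κ₁ + 200 K. -/
theorem chain_nt (hC : Ctx S U s κ₁ κu κ₀ d) (h1 : κ₀ + κ₁ + 2 * κu ≤ κ) (hζ : Chain U κ ζ) {g : G} {p : ℤ} (hp : 0 < p)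
    (hg : ∀ k, g • ζ k = ζ (k + p))
    (hB : ∀ b k, b ≠ ζ k → b ≠ ζ (k + 1) → |U b (inr (ζ (k + 1))) - U b (inr (ζ k))| ≤ 3 / 4 * (d * S.ell b))
    (hB' : ∀ k, |U (ζ k) (inr (ζ (k + 1))) - U (ζ k) (inr (ζ (k - 1)))| ≤ 3 / 4 * (d * S.ell (ζ k))) :
    g ^ d ∉ NN S d := by
  intro hn
  have hP := hC.proj
  have hK := hC.hK
  have hΔ := hC.hΔ
  have hu := hC.hu
  have hk1 := hC.h1
  have hs := hC.hs
  have hk0 := hC.h0
  have hd : 0 < (d : ℤ) := by
    have := hC.odd.pos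
    exact_mod_cast this
  have hκ : 0 < κ := by linarith
  have hκ1 : κ₁ ≤ κ := by linarith
  -- the translation
  set E : ℤ := (d : ℤ) * p with hE
  have hEpos : 0 < E := mul_pos hd hp
  have hgz : ∀ k, g ^ d • ζ k = ζ (k + E) := by
    intro k
    have := chain_zpow hg (d : ℤ) k
    rwa [zpow_natCast] at this
  have hg0 : g ^ d • ζ 0 = ζ E := by
    rw [hgz, zero_add]
  have hne : g ^ d ≠ 1 := by
    have := (chain_inf hP hκ hκ1 hζ hp.ne' hg hd.ne').1
    rwa [zpow_natCast] at this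
  have hex := fun {i k : ℤ} (h : i < k) => chain_exact hP hκ hκ1 hζ h
  have hinj := chain_inj hP hκ hκ1 hζ
  obtain ⟨o, ho1, ho2⟩ := S.dense (ζ 0) (U (ζ 0) (inr (ζ (0 + 1))))
  have ho3 : S.r (ζ E) (g ^ d * o) ≤ K := by
    rw [← hg0, S.r_smul]
    exact ho1
  obtain ⟨b, hb⟩ := nn_cross hC hn hne o
  have hbig := hC.ell_big b
  set Θ : ℝ := d * S.ell b with hΘ
  -- the two end points are close to the apices
  have hA0 : ζ 0 ≠ b → |U b (inr (ζ 0)) - U b (inl o)| ≤ 2 * κu := fun h => apex_close hC h ho1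
  have hAE : ζ E ≠ b → |U b (inr (ζ E)) - U b (inl (g ^ d * o))| ≤ 2 * κu :=
    fun h => apex_close hC h ho3
  have hclose := hP.close (ζ 0) o
  have hoo : |U (ζ 0) (inl o) - U (ζ 0) (inr (ζ (0 + 1)))| ≤ κu + K := by
    have := abs_le.1 hclose
    have := abs_le.1 ho2
    exact abs_le.2 ⟨by linarith, by linarith⟩
  by_cases hr : ∀ k, ζ k ≠ b
  · -- b is not on the chain
    have h2 := chain_two hP hk1 hκ (by linarith) hζ hr (B := 3 / 4 * Θ)
      (fun k => hB b k (hr k).symm (hr (k + 1)).symm) 0 E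
    have h3 := abs_le.1 (hA0 (hr 0))
    have h4 := abs_le.1 (hAE (hr E))
    have h5 := abs_le.1 h2
    have h6 : |U b (inl (g ^ d * o)) - U b (inl o)| ≤ 3 / 4 * Θ + 4 * κu :=
      abs_le.2 ⟨by linarith, by linarith⟩
    linarith
  · push Not at hr
    obtain ⟨k, rfl⟩ := hr
    have hBk := hB' k
    rw [← hΘ] at hBk
    rcases eq_or_ne k 0 with rfl | hk
    · -- b = ζ 0
      have h1 := (hex hEpos)
      have h4 := abs_le.1 (hAE (fun h => hEpos.ne' (hinj h)))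
      have h5 := abs_le.1 hoo
      rw [h1.2.2] at h4
      have h6 : |U (ζ 0) (inl (g ^ d * o)) - U (ζ 0) (inl o)| ≤ 3 * κu + K :=
        abs_le.2 ⟨by linarith, by linarith⟩
      linarith
    · rcases eq_or_ne k E with rfl | hkE
      · -- b = ζ E
        have h1 := (hex hEpos)
        have h3 := abs_le.1 (hA0 (fun h => hEpos.ne (hinj h)))
        have h5 := abs_le.1 hoo
        have h6 := hP.smul (g ^ d) (ζ 0) (inr (ζ (0 + 1))) (inl o)
          (fun h => by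
            have := hinj (Sum.inr.inj h)
            omega) (fun h => by cases h)
        rw [Sum.smul_inl, Sum.smul_inr, smul_eq_mul, hg0, hgz] at h6
        have h7 : (0 : ℤ) + 1 + E = E + 1 := by ring
        rw [h7] at h6
        rw [h1.2.1] at h3
        have h8 := abs_le.1 hBk
        have h9 : |U (ζ E) (inl (g ^ d * o)) - U (ζ E) (inl o)| ≤ 3 / 4 * Θ + 3 * κu + K :=
          abs_le.2 ⟨by linarith, by linarith⟩
        linarith
      · -- another member of the chain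
        have h3 := abs_le.1 (hA0 (fun h => hk (hinj h).symm))
        have h4 := abs_le.1 (hAE (fun h => hkE (hinj h).symm))
        have hpos : 0 ≤ Θ := by linarith
        have hval : ∀ i : ℤ, i ≠ k → U (ζ k) (inr (ζ i)) = U (ζ k) (inr (ζ (k - 1))) ∨
            U (ζ k) (inr (ζ i)) = U (ζ k) (inr (ζ (k + 1))) := by
          intro i hi
          rcases lt_or_gt_of_ne hi with h | h
          · exact Or.inl (hex h).2.1
          · exact Or.inr (hex h).2.2
        have h8 := abs_le.1 hBk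
        have h9 : |U (ζ k) (inr (ζ E)) - U (ζ k) (inr (ζ 0))| ≤ 3 / 4 * Θ := by
          rcases hval 0 (Ne.symm hk) with e1 | e1 <;> rcases hval E (Ne.symm hkE) with e2 | e2 <;>
            rw [e1, e2] <;> exact abs_le.2 ⟨by linarith, by linarith⟩
        have h10 := abs_le.1 h9
        have h11 : |U (ζ k) (inl (g ^ d * o)) - U (ζ k) (inl o)| ≤ 3 / 4 * Θ + 4 * κu :=
          abs_le.2 ⟨by linarith, by linarith⟩
        linarith

end Pool.Agent.helper4.PV
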