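import Pool.Agent.helper4.PV.G04
/-! PV G06: chains from products  w (t+1) = w t * gen c ^ r t * h t. -/
namespace Pool.Agent.helper4.PV
open Pool.Agent.helper50.BW
open Sum
variable {G : Type} [Group G] {D : G → G → ℝ} {C : Type} [MulAction G C] {K Δ τ T : ℝ}
  {S : CSys D C K Δ τ T} {U : C → G ⊕ C → ℝ} {s κ₁ κu κ₀ : ℝ} {d : ℕ} {κ : ℝ}

/-- two-sided products: w 0 = 1, w (t+1) = w t * x t.  For t ≥ 0 recursion, for t < 0 with inverses (Int.induction or the explicit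
product of a list). -/
theorem exists_w {G : Type} [Group G] (x : ℤ → G) : ∃ w : ℤ → G, w 0 = 1 ∧ ∀ t, w (t + 1) = w t * x t := by
  let f : ℕ → G := fun n => Nat.rec 1 (fun k acc => acc * x (k : ℤ)) n
  let g : ℕ → G := fun n => Nat.rec (x (-1))⁻¹ (fun k acc => acc * (x (-(k : ℤ) - 2))⁻¹) n
  have hf0 : f 0 = 1 := rfl
  have hf : ∀ n : ℕ, f (n + 1) = f n * x (n : ℤ) := fun n => rfl
  have hg0 : g 0 = (x (-1))⁻¹ := rfl
  have hg : ∀ n : ℕ, g (n + 1) = g n * (x (-(n : ℤ) - 2))⁻¹ := fun n => rfl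
  refine ⟨fun t => match t with
    | Int.ofNat n => f n
    | Int.negSucc n => g n, hf0, ?_⟩
  intro t
  match t with
  | Int.ofNat n => exact hf n
  | Int.negSucc 0 =>
    change f 0 = g 0 * x (-1)
    rw [hf0, hg0, inv_mul_cancel]
  | Int.negSucc (n + 1) =>
    have e1 : Int.negSucc (n + 1) + 1 = Int.negSucc n := by omega
    have e2 : Int.negSucc (n + 1) = -(n : ℤ) - 2 := by omega
    rw [e1]
    change g n = g (n + 1) * x (Int.negSucc (n + 1))
    rw [hg n, e2, inv_mul_cancel_right]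

/-- if x is p-periodic then w (t + p) = w p * w t: both sides satisfy the same recursion in t and agree for t = 0
(induction on t in both directions). -/
theorem w_per {G : Type} [Group G] {x w : ℤ → G} {p : ℤ} (hx : ∀ t, x (t + p) = x t) (h0 : w 0 = 1)
    (hw : ∀ t, w (t + 1) = w t * x t) (t : ℤ) : w (t + p) = w p * w t := by
  induction t using Int.induction_on with
  | zero => rw [zero_add, h0, mul_one]
  | succ i ih =>
    have e : (i : ℤ) + 1 + p = (i + p) + 1 := by ring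
    rw [e, hw, hw, ih, hx, mul_assoc]
  | pred i ih =>
    have e1 := hw (-(i : ℤ) - 1 + p)
    have e2 := hw (-(i : ℤ) - 1)
    have e3 : -(i : ℤ) - 1 + p + 1 = -(i : ℤ) + p := by ring
    have e4 : -(i : ℤ) - 1 + 1 = -(i : ℤ) := by ring
    rw [e3, hx, ih] at e1
    rw [e4] at e2
    rw [e2, ← mul_assoc] at e1
    exact (mul_right_cancel e1).symm

/-- Put g := gen c, ζ t := w t • c.  ζ (t+1) = w t • (g^(r t) h t • c); ζ (t-1) = w (t-1) • c and
w t = w (t-1) g^(r (t-1)) h (t-1), so ζ (t-1) = w t • ((h (t-1))⁻¹ • c) (g^(-r) c = c).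
By Proj.smul (translate by w t) U (ζ t) (ζ (t+1)) - U (ζ t) (ζ (t-1)) = U c (g^(r t) h t c) - U c ((h (t-1))⁻¹ c), and Proj.rot
gives U c (g^(r t) • (h t • c)) = U c (h t • c) + r t * ell c (h t • c ≠ c).  Note (h (t-1))⁻¹ • c ≠ c. -/
theorem pchain_cross (hP : Proj S κ₁ κu U) {c : C} {w h : ℤ → G} {r : ℤ → ℤ} (hw : ∀ t, w (t + 1) = w t * (S.gen c ^ r t * h t))
    (hne : ∀ t, h t • c ≠ c) (t : ℤ) :
    U (w t • c) (inr (w (t + 1) • c)) - U (w t • c) (inr (w (t - 1) • c)) =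
      r t * S.ell c + U c (inr (h t • c)) - U c (inr ((h (t - 1))⁻¹ • c)) := by
  have hstab : ∀ k : ℤ, S.gen c ^ k • c = c := fun k => (S.stab _ c).2 ⟨k, rfl⟩
  have e1 : w (t + 1) • c = w t • (S.gen c ^ r t • (h t • c)) := by
    rw [hw t, mul_smul, mul_smul]
  have e2 : w (t - 1) • c = w t • ((h (t - 1))⁻¹ • c) := by
    have hh := hw (t - 1)
    rw [sub_add_cancel] at hh
    rw [hh, mul_smul, mul_smul, smul_inv_smul, hstab]
  have n1 : (h (t - 1))⁻¹ • c ≠ c := by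
    intro hh
    apply hne (t - 1)
    rw [inv_smul_eq_iff] at hh
    exact hh.symm
  have n2 : S.gen c ^ r t • (h t • c) ≠ c := by
    intro hh
    apply hne t
    have h3 := hstab (r t)
    exact smul_left_cancel _ (hh.trans h3.symm)
  have h4 := hP.smul (w t) c (inr ((h (t - 1))⁻¹ • c)) (inr (S.gen c ^ r t • (h t • c)))
    (fun hh => n1 (inr_injective hh)) (fun hh => n2 (inr_injective hh))
  have h5 := hP.rot c (inr (h t • c)) (r t) (fun hh => hne t (inr_injective hh))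
  simp only [Sum.smul_inr] at h4 h5
  rw [e1, e2, h4, h5]
  ring

/-- pchain_cross; ζ t ≠ ζ (t+1) because g^(r t) h t c ≠ c -/
theorem pchain (hP : Proj S κ₁ κu U) {c : C} {w h : ℤ → G} {r : ℤ → ℤ} (hw : ∀ t, w (t + 1) = w t * (S.gen c ^ r t * h t))
    (hne : ∀ t, h t • c ≠ c)
    (hbig : ∀ t, κ ≤ |r t * S.ell c + U c (inr (h t • c)) - U c (inr ((h (t - 1))⁻¹ • c))|) :
    Chain U κ (fun t => w t • c) := by
  refine ⟨?_, ?_⟩
  · intro k hk
    have hk' : w k • c = w (k + 1) • c := hk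
    rw [hw k, mul_smul, mul_smul] at hk'
    have h3 := smul_left_cancel _ hk'
    apply hne k
    have hstab : S.gen c ^ r k • c = c := (S.stab _ c).2 ⟨r k, rfl⟩
    exact (smul_left_cancel _ (hstab.trans h3)).symm
  · intro k
    have h3 := pchain_cross hP hw hne k
    show κ ≤ |U (w k • c) (inr (w (k + 1) • c)) - U (w k • c) (inr (w (k - 1) • c))|
    rw [h3]
    exact hbig k

/-- crossings of consecutive cones on third cones.  b' := (w t * g^(r t))⁻¹ • b: b' ≠ c, b' ≠ h t • c;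
U b (w (t+1) c) - U b (w t c) = U b' (h t c) - U b' c   (w t c = w t g^(r t) c) and ell b' = ell b. -/
theorem pchain_third (hP : Proj S κ₁ κu U) {c : C} {w h : ℤ → G} {r : ℤ → ℤ} (hw : ∀ t, w (t + 1) = w t * (S.gen c ^ r t * h t))
    {f : ℝ → ℝ} (hB : ∀ t b, b ≠ c → b ≠ h t • c → |U b (inr (h t • c)) - U b (inr c)| ≤ f (S.ell b)) (t : ℤ) (b : C)
    (hb : b ≠ w t • c) (hb' : b ≠ w (t + 1) • c) :
    |U b (inr (w (t + 1) • c)) - U b (inr (w t • c))| ≤ f (S.ell b) := by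
  have hstab : S.gen c ^ r t • c = c := (S.stab _ c).2 ⟨r t, rfl⟩
  obtain ⟨g0, hg0⟩ : ∃ g0, g0 = w t * S.gen c ^ r t := ⟨_, rfl⟩
  have e1 : w (t + 1) • c = g0 • (h t • c) := by
    rw [hw t, hg0, ← mul_assoc, mul_smul]
  have e2 : w t • c = g0 • c := by
    rw [hg0, mul_smul, hstab]
  obtain ⟨b', rfl⟩ : ∃ b', g0 • b' = b := ⟨g0⁻¹ • b, smul_inv_smul _ _⟩
  have n1 : b' ≠ c := by
    rintro rfl
    exact hb e2.symm
  have n2 : b' ≠ h t • c := by
    intro hh
    apply hb'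
    rw [e1, hh]
  have h4 := hP.smul g0 b' (inr c) (inr (h t • c)) (fun hh => n1 (inr_injective hh).symm)
    (fun hh => n2 (inr_injective hh).symm)
  simp only [Sum.smul_inr] at h4
  rw [e1, e2, h4, S.ell_smul]
  exact hB t b' n1 n2

end Pool.Agent.helper4.PV
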