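import Pool.Agent.helper4.PV.G01
/-! PV G07: small displacement: near the axis, crossings of the orbit, powers of torsion elements. -/
namespace Pool.Agent.helper4.PV
open Pool.Agent.helper50.BW
open Sum
variable {G : Type} [Group G] {D : G → G → ℝ} {C : Type} [MulAction G C] {Δ τ T : ℝ}
  {S : CSys D C KU Δ τ T} {U : C → G ⊕ C → ℝ} {s κ₁ κu κ₀ : ℝ} {d : ℕ} {ε A T' Δs lam η : ℝ}

/-- m := ⌈KU / τ⌉₊ ≤ KU/τ + 1.  D v (gen c ^ (q m) v) ≤ m R (triangle, LInv), |u c (gen c ^ (q m) v) - u c v| = m |q| ell c ≥ m τ ≥ KU (CSys.u_gen_zpow),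
r is invariant (r_gen_zpow), `lower`: 2 r c v + m|q| ell c - KU ≤ m R, so 2 r c v ≤ m R + KU.  (0 ≤ R because 0 ≤ D.) -/
theorem cone_near (hyp : Hyp D) (hi : LInv D) (hτ : 0 < τ) {c : C} {q : ℤ} (hq : q ≠ 0) {v : G} {R : ℝ}
    (hv : D v (S.gen c ^ q * v) ≤ R) : S.r c v ≤ rr τ R := by
  have hR : 0 ≤ R := (hyp.nonneg _ _).trans hv
  have hKU : (0 : ℝ) < KU := by norm_num [KU]
  have hm1 : KU / τ ≤ (⌈KU / τ⌉₊ : ℝ) := Nat.le_ceil _
  have hm2 : (⌈KU / τ⌉₊ : ℝ) ≤ KU / τ + 1 := (Nat.ceil_lt_add_one (by positivity)).le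
  generalize ⌈KU / τ⌉₊ = m at hm1 hm2
  have h1 := Q12_pow hyp hi (S.gen c ^ q) v m
  have hm0 : (0 : ℝ) ≤ m := Nat.cast_nonneg m
  have h2 : D v ((S.gen c ^ q) ^ m * v) ≤ m * R := h1.trans (mul_le_mul_of_nonneg_left hv hm0)
  have e1 : (S.gen c ^ q) ^ m = S.gen c ^ (q * m) := by
    rw [zpow_mul, zpow_natCast]
  rw [e1] at h2
  have hell : τ ≤ S.ell c := S.ell_ge c
  have hq1 : (1 : ℝ) ≤ |(q : ℝ)| := by
    have := Int.one_le_abs hq
    exact_mod_cast this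
  have h3 : KU ≤ |S.u c v - S.u c (S.gen c ^ (q * m) * v)| := by
    rw [CSys.u_gen_zpow, abs_sub_comm, add_sub_cancel_left, abs_mul,
      abs_of_pos (lt_of_lt_of_le hτ hell)]
    have e2 : |((q * (m : ℤ) : ℤ) : ℝ)| = |(q : ℝ)| * m := by
      push_cast
      rw [abs_mul, Nat.abs_cast]
    rw [e2]
    have h4 : KU ≤ m * τ := by
      rw [div_le_iff₀ hτ] at hm1
      exact hm1
    calc KU ≤ m * τ := h4
      _ ≤ m * S.ell c := mul_le_mul_of_nonneg_left hell hm0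
      _ = 1 * m * S.ell c := by ring
      _ ≤ |(q : ℝ)| * m * S.ell c :=
        mul_le_mul_of_nonneg_right (mul_le_mul_of_nonneg_right hq1 hm0) (hτ.le.trans hell)
  have h4 := S.lower c v (S.gen c ^ (q * m) * v) h3
  rw [CSys.r_gen_zpow] at h4
  have h5 : (m : ℝ) * R ≤ (KU / τ + 1) * R := mul_le_mul_of_nonneg_right hm2 hR
  unfold rr
  linarith

/-- |q| ell c = |u c (gen c ^ q v) - u c v| ≤ D v (gen c ^ q v) -/
theorem cone_exp (c : C) (q : ℤ) (v : G) : |(q : ℝ)| * S.ell c ≤ D v (S.gen c ^ q * v) := by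
  have h1 := S.u_lip c v (S.gen c ^ q * v)
  rw [CSys.u_gen_zpow, abs_sub_comm, add_sub_cancel_left, abs_mul] at h1
  exact (mul_le_mul_of_nonneg_left (le_abs_self _) (abs_nonneg _)).trans h1

/-- the axis version of cone_near: BW IsAxis.perp with m := ⌈KU/τ⌉₊ (m * sl D g ≥ m τ ≥ KU because τ ≤ sl D g, BW Stg.lox_sl) -/
theorem axis_near (hF : Full S U s κ₁ κu κ₀ d ε A T' Δs lam η) {g : G} (hg : g ^ d ≠ 1) {α ϱ : G → ℝ} (ha : IsAxis D g α ϱ)
    {v : G} {R : ℝ} (hv : D v (g * v) ≤ R) : ϱ v ≤ rr τ R := by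
  have hyp := hF.ctx.hyp
  have hi := hF.ctx.linv
  have hτ := hF.ctx.hτ
  have hR : 0 ≤ R := (hyp.nonneg _ _).trans hv
  have hKU : (0 : ℝ) < KU := by norm_num [KU]
  have hm1 : KU / τ ≤ (⌈KU / τ⌉₊ : ℝ) := Nat.le_ceil _
  have hm2 : (⌈KU / τ⌉₊ : ℝ) ≤ KU / τ + 1 := (Nat.ceil_lt_add_one (by positivity)).le
  generalize ⌈KU / τ⌉₊ = m at hm1 hm2
  have hm0 : (0 : ℝ) ≤ m := Nat.cast_nonneg m
  have hsl : τ ≤ sl D g := hF.stg.lox_sl hg
  have h4 : KU ≤ m * τ := by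
    rw [div_le_iff₀ hτ] at hm1
    exact hm1
  have h5 := ha.perp hyp hi hv m (h4.trans (mul_le_mul_of_nonneg_left hsl hm0))
  have h6 : (m : ℝ) * R ≤ (KU / τ + 1) * R := mul_le_mul_of_nonneg_right hm2 hR
  unfold rr
  linarith

/-- a point between two points near an axis is near the axis: for x ∈ {v, w}: D x p ≥ ϱ p - ρ + |α x - α p| - KU (if |α x - α p| ≥ KU from
`lower`, else from r_lip); D v w ≤ 2ρ + |α v - α w| + KU (`upper`); add: 2 ϱ p ≤ 4ρ + 3 KU + κ. -/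
theorem axis_btw (hyp : Hyp D) {g : G} {α ϱ : G → ℝ} (ha : IsAxis D g α ϱ) {v w p : G} {ρ κ : ℝ} (hv : ϱ v ≤ ρ) (hw : ϱ w ≤ ρ)
    (hp : Btw D κ v p w) : 2 * ϱ p ≤ 4 * ρ + 3 * KU + κ := by
  have key : ∀ x, ϱ x ≤ ρ → ϱ p - ρ + |α x - α p| - KU ≤ D x p := by
    intro x hx
    have h0 := ha.r_nonneg x
    rcases le_or_gt KU |α x - α p| with h | h
    · have h1 := ha.lower x p h
      linarith
    · have h1 := ha.r_lip x p
      have h2 := (abs_le.1 h1).1
      linarith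
  have h1 := key v hv
  have h2 := key w hw
  have h3 := ha.upper v w
  have h4 : |α v - α w| ≤ |α v - α p| + |α w - α p| := by
    have := abs_sub_le (α v) (α p) (α w)
    rwa [abs_sub_comm (α p)] at this
  have h5 : D p w = D w p := hyp.symm _ _
  unfold Pool.Agent.helper50.BW.Btw at hp
  rw [h5] at hp
  linarith

/-- (α, ϱ) := axis of g (BW Stg.axis); ρ := rr τ R; ϱ v ≤ ρ (axis_near), w := g ^ m v, ϱ w = ϱ v (IsAxis.r_zpow); sl D g ≤ D v (g v) ≤ R (BW sl_le, n = 1).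
L := |u b w - u b v|.  If L < KU: |U b w - U b v| ≤ L + 2κu, done.  If L ≥ KU: exists_proj (BW.F1): p, q with r b ≤ KU,
|u b p - u b v| ≤ KU, D v p ≤ r b v + 3KU, and the same for q, w.  D p q ≤ 3KU + L + 2KU (`upper`); D v w ≥ r b v + r b w + L - KU (`lower`);
so p and q are 12 KU-between v and w.  axis_btw: 2ϱ p, 2ϱ q ≤ 4ρ + 15KU.  D p (g p) ≤ 2ϱ p + sl D g + KU ≤ 4ρ + 16KU + R, also for q.
sep for b and g•b (b ≠ g•b): |u (g•b) p - u (g•b) q| ≤ Δ; u (g•b) (g p) - u (g•b) (g q) = u b p - u b q (u_smul); so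
|u b p - u b q| ≤ Δ + 8ρ + 32KU + 2R and L ≤ Δ + 8ρ + 34KU + 2R. -/
theorem cross_bd (hF : Full S U s κ₁ κu κ₀ d ε A T' Δs lam η) {g : G} (hg : g ^ d ≠ 1) {v : G} {R : ℝ}
    (hv : D v (g * v) ≤ R) {b : C} (hb : g • b ≠ b) (m : ℤ) :
    |U b (inl (g ^ m * v)) - U b (inl v)| ≤ XX Δ τ κu R := by
  have hyp := hF.ctx.hyp
  have hi := hF.ctx.linv
  have hτ := hF.ctx.hτ
  have hΔ := hF.ctx.hΔ
  have hKU : (KU : ℝ) = 1000 := rfl
  have hR : 0 ≤ R := (hyp.nonneg _ _).trans hv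
  obtain ⟨α, ϱ, ha⟩ := hF.stg.axis hτ hg
  have hv1 : ϱ v ≤ rr τ R := axis_near hF hg ha hv
  have hw1 : ϱ (g ^ m * v) ≤ rr τ R := by
    rw [ha.r_zpow]
    exact hv1
  have hρ : 0 ≤ rr τ R := (ha.r_nonneg v).trans hv1
  have hsl : sl D g ≤ R := by
    have h1 := sl_le hyp hi g v 1
    rw [Nat.cast_one, one_mul, pow_one] at h1
    exact h1.trans hv
  have hsl0 := sl_nonneg hyp hi g
  generalize g ^ m * v = w at hw1
  have c1 := hF.ctx.proj.close b v
  have c2 := hF.ctx.proj.close b w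
  have hL : |U b (inl w) - U b (inl v)| ≤ |S.u b w - S.u b v| + 2 * κu := by
    have e : U b (inl w) - U b (inl v) =
      (U b (inl w) - S.u b w) + (S.u b w - S.u b v) - (U b (inl v) - S.u b v) := by ring
    rw [e]
    refine (abs_sub _ _).trans ?_
    have := abs_add_le (U b (inl w) - S.u b w) (S.u b w - S.u b v)
    linarith
  rcases lt_or_ge |S.u b w - S.u b v| KU with hlt | hge
  · unfold XX
    linarith
  · obtain ⟨p, hp1, hp2, hp3⟩ := exists_proj S b v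
    obtain ⟨q, hq1, hq2, hq3⟩ := exists_proj S b w
    have hpq := S.upper b p q
    have hpq' : |S.u b p - S.u b q| ≤ |S.u b w - S.u b v| + 2 * KU := by
      have e : S.u b p - S.u b q =
        (S.u b p - S.u b v) - (S.u b w - S.u b v) - (S.u b q - S.u b w) := by ring
      rw [e]
      refine (abs_sub _ _).trans ?_
      have := abs_sub (S.u b p - S.u b v) (S.u b w - S.u b v)
      linarith
    have hqp' : |S.u b w - S.u b v| ≤ |S.u b p - S.u b q| + 2 * KU := by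
      have e : S.u b w - S.u b v =
        (S.u b p - S.u b v) - (S.u b p - S.u b q) - (S.u b q - S.u b w) := by ring
      rw [e]
      refine (abs_sub _ _).trans ?_
      have := abs_sub (S.u b p - S.u b v) (S.u b p - S.u b q)
      linarith
    have hvw := S.lower b w v hge
    have hvw' : D w v = D v w := hyp.symm _ _
    have hqw : D q w = D w q := hyp.symm _ _
    have hbp : Btw D (12 * KU) v p w := by
      have t1 := hyp.tri p q w
      unfold Pool.Agent.helper50.BW.Btw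
      linarith
    have hbq : Btw D (12 * KU) v q w := by
      have t1 := hyp.tri v p q
      unfold Pool.Agent.helper50.BW.Btw
      linarith
    have a1 := axis_btw hyp ha hv1 hw1 hbp
    have a2 := axis_btw hyp ha hv1 hw1 hbq
    have disp : ∀ x, 2 * ϱ x ≤ 4 * rr τ R + 3 * KU + 12 * KU →
        D x (g * x) ≤ 4 * rr τ R + 16 * KU + R := by
      intro x hx
      have h1 := ha.upper x (g * x)
      rw [ha.u_gen, ha.r_gen, abs_sub_comm, add_sub_cancel_left, abs_of_nonneg hsl0] at h1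
      linarith
    have d1 := disp p a1
    have d2 := disp q a2
    have hs := S.sep b (g • b) p q (Ne.symm hb) hp1 hq1
    have hu := S.u_smul g b p q
    have l1 := S.u_lip (g • b) p (g * p)
    have l2 := S.u_lip (g • b) q (g * q)
    have hfin : |S.u b p - S.u b q| ≤ D p (g * p) + Δ + D q (g * q) := by
      rw [← hu]
      have e : S.u (g • b) (g * p) - S.u (g • b) (g * q) =
        (S.u (g • b) p - S.u (g • b) q) - (S.u (g • b) p - S.u (g • b) (g * p)) +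
          (S.u (g • b) q - S.u (g • b) (g * q)) := by ring
      rw [e]
      refine (abs_add_le _ _).trans ?_
      have := abs_sub (S.u (g • b) p - S.u (g • b) q) (S.u (g • b) p - S.u (g • b) (g * p))
      linarith
    unfold XX
    linarith

/-- nn_cross for g^d ∈ NN, g^d ≠ 1, o := v: a cone c with |U c (g^d v) - U c v| ≥ d ell c - 2κ₁ > XX; by cross_bd (m = d) g•c = c,
so g ∈ zpowers (gen c) (CSys.stab), g = gen c ^ q, q ≠ 0 because g ≠ 1; cone_exp and ell c ≥ τ. -/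
theorem cone_of_nn (hF : Full S U s κ₁ κu κ₀ d ε A T' Δs lam η) {g : G} (hg : g ^ d ≠ 1) {v : G} {R : ℝ}
    (hv : D v (g * v) ≤ R) (hX : XX Δ τ κu R < d * τ - 2 * κ₁) (hN : g ^ d ∈ NN S d) :
    ∃ (c : C) (q : ℤ), q ≠ 0 ∧ g = S.gen c ^ q ∧ |(q : ℝ)| * S.ell c ≤ R := by
  obtain ⟨c, hc⟩ := nn_cross hF.ctx hN hg v
  have hgc : g • c = c := by
    by_contra hne
    have h1 := cross_bd hF hg hv hne (d : ℤ)
    rw [zpow_natCast] at h1
    have h2 : (d : ℝ) * τ ≤ d * S.ell c :=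
      mul_le_mul_of_nonneg_left (S.ell_ge c) (Nat.cast_nonneg d)
    linarith
  obtain ⟨q, hq⟩ := (S.stab g c).1 hgc
  have hq' : g = S.gen c ^ q := hq.symm
  refine ⟨c, q, ?_, hq', ?_⟩
  · rintro rfl
    apply hg
    rw [hq', zpow_zero, one_pow]
  · have h1 := cone_exp (S := S) c q v
    rw [← hq'] at h1
    exact h1.trans hv

/-- g = 1: trivial.  g ≠ 1: z₀ with D z₀ (g z₀) ≤ 15 (BW Stg.tor_fix).  g moves z₀ and g^n z₀ by ≤ 15 ≤ ε, so D z₀ (g^n z₀) < A by Stg.p0.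
BW Q11_gp (v := g, z0 := z₀, x := v): D z₀ v + D z₀ (g v) - D v (g v) ≤ 2 (A + 20), D z₀ (g v) ≥ D z₀ v - 15.  So
2 D z₀ v ≤ R + 2A + 55 and D v (g^n v) ≤ 2 D z₀ v + A. -/
theorem tor_pow (hF : Full S U s κ₁ κu κ₀ d ε A T' Δs lam η) {g : G} (hg : g ^ d = 1) {v : G} {R : ℝ}
    (hv : D v (g * v) ≤ R) (n : ℤ) : D v (g ^ n * v) ≤ R + 3 * A + 55 := by
  have hyp := hF.ctx.hyp
  have hi := hF.ctx.linv
  have hA := hF.hA
  have hd : 0 < d := (q10_nums hF).2.2.2.2.2.1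
  have hR : 0 ≤ R := (hyp.nonneg _ _).trans hv
  by_cases h1 : g = 1
  · rw [h1, one_zpow, one_mul, hyp.refl]
    linarith
  obtain ⟨z, hz⟩ := hF.stg.tor_fix hd hg
  have hz' : D (g ^ n * z) (g * (g ^ n * z)) ≤ ε := by
    have e : g * (g ^ n * z) = g ^ n * (g * z) := by
      rw [← mul_assoc, ← mul_assoc, (Commute.self_zpow g n).eq]
    rw [e, hi]
    exact hz.trans (by linarith [hF.hε])
  have hzA : D z (g ^ n * z) < A := by
    by_contra hcon
    push Not at hcon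
    exact h1 (hF.stg.p0 g z (g ^ n * z) hg (hz.trans (by linarith [hF.hε])) hz' hcon)
  have hgp := Q11_gp hF hg h1 hz v
  have t1 := hyp.tri (g * z) z (g * v)
  have e1 : D (g * z) (g * v) = D z v := hi _ _ _
  have e2 : D (g * z) z = D z (g * z) := hyp.symm _ _
  have t2 := hyp.tri v z (g ^ n * v)
  have t3 := hyp.tri z (g ^ n * z) (g ^ n * v)
  have e3 : D (g ^ n * z) (g ^ n * v) = D z v := hi _ _ _
  have e4 : D v z = D z v := hyp.symm _ _
  linarith

/-- two points moved little by the same torsion element ≠ 1 are close: Q11_gp with z0 := o (D o (g o) ≤ 15), x := v: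
2 D o v - 15 - R ≤ 2 (A + 20) -/
theorem tor_close (hF : Full S U s κ₁ κu κ₀ d ε A T' Δs lam η) {g : G} (hg : g ^ d = 1) (hg1 : g ≠ 1) {o v : G} {R : ℝ}
    (ho : D o (g * o) ≤ 15) (hv : D v (g * v) ≤ R) : D o v ≤ A + R / 2 + 30 := by
  have hyp := hF.ctx.hyp
  have hi := hF.ctx.linv
  have hgp := Q11_gp hF hg hg1 ho v
  have t1 := hyp.tri (g * o) o (g * v)
  have e1 : D (g * o) (g * v) = D o v := hi _ _ _
  have e2 : D (g * o) o = D o (g * o) := hyp.symm _ _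
  linarith

end Pool.Agent.helper4.PV
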