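import Pool.Agent.helper4.PV.G06
import Pool.Agent.helper4.PV.G07
/-! PV G08: dominance. -/
namespace Pool.Agent.helper4.PV
open Pool.Agent.helper50.BW
open Sum
variable {G : Type} [Group G] {D : G → G → ℝ} {C : Type} [MulAction G C] {Δ τ T : ℝ}
  {S : CSys D C KU Δ τ T} {U : C → G ⊕ C → ℝ} {s κ₁ κu κ₀ : ℝ} {d : ℕ} {ε A T' Δs lam η : ℝ}

/-- h moves a point p near the axis of c by at most H: the neighbour h•c has position within H + κu of p.
h p is near the axis of h•c (r_smul); closeC: |U c (inr (h•c)) - u c (h p)| ≤ κu; |u c (h p) - u c p| ≤ H. -/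
theorem nbr_pos (hC : Ctx S U s κ₁ κu κ₀ d) {c : C} {h p : G} (hp : S.r c p ≤ KU) {H : ℝ} (hH : D p (h * p) ≤ H) (hne : h • c ≠ c) :
    |U c (inr (h • c)) - S.u c p| ≤ H + κu := by
  have h1 := hC.proj.closeC c (h • c) (h * p) hne (by rw [S.r_smul]; exact hp)
  have h2 := S.u_lip c p (h * p)
  rw [abs_le] at h1 h2 ⊢
  constructor <;> linarith [h1.1, h1.2, h2.1, h2.2]

/-- and on third cones the crossing between c and h•c is small: apex_close for both cones (points p and h p) and cross_le_dist: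
4κu + H + 2κu ; (or ≤ H + 2κu with closeC directly) -/
theorem nbr_third (hC : Ctx S U s κ₁ κu κ₀ d) {c : C} {h p : G} (hp : S.r c p ≤ KU) {H : ℝ} (hH : D p (h * p) ≤ H) {b : C}
    (hb : b ≠ c) (hb' : b ≠ h • c) : |U b (inr (h • c)) - U b (inr c)| ≤ H + 6 * κu := by
  have h1 := hC.proj.closeC b (h • c) (h * p) hb'.symm (by rw [S.r_smul]; exact hp)
  have h2 := hC.proj.closeC b c p hb.symm hp
  have h3 := S.u_lip b p (h * p)
  have h4 := hC.hu
  rw [abs_le] at h1 h2 h3 ⊢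
  constructor <;> linarith [h1.1, h1.2, h2.1, h2.2, h3.1, h3.2]

/-- Case h • b = b: h = gen b ^ i (stab), |i| ell b = |u b (h p) - u b p| ≤ H; gen b ^ (q n) * h = gen b ^ (q n + i), q n + i ≠ 0
because |q n| ell b ≥ n τ > H (κ₀ > 0); BW Stg.lox_zpow with gen_lox.
Case h • b ≠ b: g := gen b ^ (q n) * h, w t := g ^ t satisfies w (t+1) = w t * (gen b ^ (q n) * h).  pchain with κ := 2κ₀, constant r, h:
the crossing is |q n ell b + U b (h•b) - U b (h⁻¹•b)| ≥ n τ - 2 (H + κu) ≥ 2κ₀ (nbr_pos for h and h⁻¹: D p (h⁻¹ p) = D (h p) p).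
chain_inf with p = 1: g ^ d ≠ 1  (d ≠ 0, odd). -/
theorem dominance (hF : Full S U s κ₁ κu κ₀ d ε A T' Δs lam η) {b : C} {h p : G} {q : ℤ} (hq : q ≠ 0)
    (hp : S.r b p ≤ KU) {H : ℝ} (hH : D p (h * p) ≤ H) {n : ℕ} (hn : 2 * H + 2 * κu + 2 * κ₀ ≤ n * τ) :
    (S.gen b ^ (q * n) * h) ^ d ≠ 1 := by
  have hC := hF.ctx
  have hK := hC.hK
  have hs := hC.hs
  have h0 := hC.h0
  have hΔ := hC.hΔ
  have hu := hC.hu
  have h1 := hC.h1
  have hκ₀ : 0 < κ₀ := by linarith
  have hd : 0 < d := hC.odd.pos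
  have hH0 : 0 ≤ H := (hC.hyp.nonneg p (h * p)).trans hH
  have hq1 : (1 : ℝ) ≤ |(q : ℝ)| := by
    rw [← Int.cast_abs]
    exact_mod_cast Int.one_le_abs hq
  have hell : τ ≤ S.ell b := S.ell_ge b
  have hτ := hC.hτ
  -- the rotation is long
  have hlong : (n : ℝ) * τ ≤ |((q * n : ℤ) : ℝ)| * S.ell b := by
    push_cast
    rw [abs_mul, Nat.abs_cast]
    have e1 : (n : ℝ) * τ ≤ n * S.ell b := mul_le_mul_of_nonneg_left hell (Nat.cast_nonneg n)
    have e2 : (0 : ℝ) ≤ n * S.ell b := mul_nonneg (Nat.cast_nonneg n) (hτ.le.trans hell)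
    nlinarith
  by_cases hb : h • b = b
  · obtain ⟨i, rfl⟩ := Subgroup.mem_zpowers_iff.mp ((S.stab h b).mp hb)
    rw [← zpow_add]
    refine hF.stg.lox_zpow hd hτ (hF.gen_lox b) ?_
    intro hz
    have e1 := S.u_gen_zpow b i p
    have e2 := S.u_lip b p (S.gen b ^ i * p)
    rw [e1] at e2
    have e3 : |(i : ℝ)| * S.ell b ≤ H := by
      have e4 : |S.u b p - (S.u b p + i * S.ell b)| = |(i : ℝ)| * S.ell b := by
        rw [show S.u b p - (S.u b p + i * S.ell b) = -(i * S.ell b) by ring, abs_neg, abs_mul,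
          abs_of_nonneg (hτ.le.trans hell)]
      rw [← e4]
      exact e2.trans hH
    have e5 : |((q * n : ℤ) : ℝ)| = |(i : ℝ)| := by
      have : (q * n : ℤ) = -i := by omega
      rw [this]
      push_cast
      rw [abs_neg]
    rw [e5] at hlong
    linarith
  · have hb' : h⁻¹ • b ≠ b := fun h' => hb (by
      have := congrArg (fun x => h • x) h'
      simpa using this.symm)
    have hH' : D p (h⁻¹ * p) ≤ H := by
      have e1 := hC.linv h p (h⁻¹ * p)
      rw [mul_inv_cancel_left, hC.hyp.symm] at e1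
      rw [← e1]
      exact hH
    have c1 := nbr_pos hC hp hH hb
    have c2 := nbr_pos hC hp hH' hb'
    have hbig : 2 * κ₀ ≤ |((q * n : ℤ) : ℝ) * S.ell b + U b (inr (h • b)) -
        U b (inr (h⁻¹ • b))| := by
      have e1 : |((q * n : ℤ) : ℝ) * S.ell b| = |((q * n : ℤ) : ℝ)| * S.ell b := by
        rw [abs_mul, abs_of_nonneg (hτ.le.trans hell)]
      rw [← e1] at hlong
      have e2 : ((q * n : ℤ) : ℝ) * S.ell b =
          (((q * n : ℤ) : ℝ) * S.ell b + U b (inr (h • b)) - U b (inr (h⁻¹ • b))) -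
          (U b (inr (h • b)) - S.u b p) + (U b (inr (h⁻¹ • b)) - S.u b p) := by ring
      have e3 : |((q * n : ℤ) : ℝ) * S.ell b| ≤
          |((q * n : ℤ) : ℝ) * S.ell b + U b (inr (h • b)) - U b (inr (h⁻¹ • b))| +
          |U b (inr (h • b)) - S.u b p| + |U b (inr (h⁻¹ • b)) - S.u b p| := by
        conv_lhs => rw [e2]
        exact (abs_add_le _ _).trans (add_le_add (abs_sub _ _) le_rfl)
      linarith
    have hch : Chain U (2 * κ₀) (fun t => (S.gen b ^ (q * (n : ℤ)) * h) ^ t • b) :=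
      pchain (κ := 2 * κ₀) hC.proj (c := b) (w := fun t => (S.gen b ^ (q * (n : ℤ)) * h) ^ t)
        (h := fun _ => h) (r := fun _ => q * (n : ℤ)) (fun t => zpow_add_one _ t)
        (fun _ => hb) (fun _ => hbig)
    have hinf := chain_inf (κ := 2 * κ₀) hC.proj (by linarith) (by linarith) hch
      (g := S.gen b ^ (q * (n : ℤ)) * h) (p := 1) one_ne_zero (fun k => by
        rw [smul_smul, ← zpow_one_add, add_comm]) (n := (d : ℤ)) (by exact_mod_cast hd.ne')
    have := hinf.1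
    rw [zpow_natCast] at this
    exact this

end Pool.Agent.helper4.PV
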