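import Pool.Agent.helper4.PV.G07
/-! PV G09: products of torsion elements with alternating far fixed points: crossings at most 3/4. -/
namespace Pool.Agent.helper4.PV
open Pool.Agent.helper50.BW
open Sum
variable {G : Type} [Group G] {D : G → G → ℝ} {C : Type} [MulAction G C] {Δ τ T : ℝ}
  {S : CSys D C KU Δ τ T} {U : C → G ⊕ C → ℝ} {s κ₁ κu κ₀ : ℝ} {d : ℕ} {ε A T' Δs lam η : ℝ}

/-- data of a torsion path: o k alternates between two points, s k is torsion ≠ 1 and moves o k by at most 1, w k = s 0 ... s (k-1) -/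
structure TP (D : G → G → ℝ) (d : ℕ) (R : ℝ) (o s w : ℕ → G) : Prop where
  alt : ∀ k, o (k + 2) = o k
  tor : ∀ k, s k ^ d = 1
  ne : ∀ k, s k ≠ 1
  fix : ∀ k, D (o k) (s k * o k) ≤ 1
  w0 : w 0 = 1
  ws : ∀ k, w (k + 1) = w k * s k
  far : R ≤ D (o 0) (o 1)

variable {o sg w : ℕ → G} {R : ℝ}

theorem g09_alt (hD : Hyp D) (h : TP D d R o sg w) (k : ℕ) : D (o k) (o (k + 1)) = D (o 0) (o 1) := by
  induction k with
  | zero => rfl
  | succ k ih =>
    rw [show k + 1 + 1 = k + 2 by omega, h.alt k, hD.symm, ih]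

theorem g09_pos (hi : ∀ g x y : G, D (g * x) (g * y) = D x y) (h : TP D d R o sg w) (k : ℕ) (y : G) :
    D (w k * o k) (w (k + 1) * y) = D ((sg k)⁻¹ * o k) y := by
  rw [h.ws k, ← hi (w k * sg k) ((sg k)⁻¹ * o k) y]
  congr 1
  group

theorem g09_inv (hi : ∀ g x y : G, D (g * x) (g * y) = D x y) (h : TP D d R o sg w) (k : ℕ) :
    D ((sg k)⁻¹ * o k) (o k) ≤ 1 := by
  rw [← hi (sg k) ((sg k)⁻¹ * o k) (o k), mul_inv_cancel_left]
  exact h.fix k

/-- x k := w k * o k.  D (x k) (x (k+1)) = D (o k) (s k o (k+1)), within 1 of D (o k) (o (k+1)) (D (s k⁻¹ o k) (o k) ≤ 1). -/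
theorem tp_step (hF : Full S U s κ₁ κu κ₀ d ε A T' Δs lam η) (h : TP D d R o sg w) (k : ℕ) :
    |D (w k * o k) (w (k + 1) * o (k + 1)) - D (o 0) (o 1)| ≤ 1 := by
  have hD := hF.ctx.hyp
  have hi := hF.ctx.linv
  rw [g09_pos hi h k, ← g09_alt hD h k, abs_le]
  have h1 := g09_inv hi h k
  have t1 := hD.tri ((sg k)⁻¹ * o k) (o k) (o (k + 1))
  have t2 := hD.tri (o k) ((sg k)⁻¹ * o k) (o (k + 1))
  rw [hD.symm (o k) ((sg k)⁻¹ * o k)] at t2
  constructor <;> linarith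

/-- translate by (w (k+1))⁻¹: x k becomes (s k)⁻¹ o k, within 1 of o k = o (k+2); x (k+1) becomes o (k+1), x (k+2) becomes s (k+1) o (k+2).
BW Q11_gp (v := s (k+1), z0 := o (k+1), x := o (k+2)). -/
theorem tp_gp (hF : Full S U s κ₁ κu κ₀ d ε A T' Δs lam η) (h : TP D d R o sg w) (k : ℕ) :
    D (w k * o k) (w (k + 1) * o (k + 1)) + D (w (k + 1) * o (k + 1)) (w (k + 2) * o (k + 2)) ≤
      D (w k * o k) (w (k + 2) * o (k + 2)) + 2 * (A + 21) := by
  have hD := hF.ctx.hyp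
  have hi := hF.ctx.linv
  have h1 := g09_inv hi h k
  have hq := Q11_gp hF (h.tor (k + 1)) (h.ne (k + 1)) (z0 := o (k + 1))
    ((h.fix (k + 1)).trans (by norm_num)) (o k)
  have e1 : D (w k * o k) (w (k + 1) * o (k + 1)) = D ((sg k)⁻¹ * o k) (o (k + 1)) := g09_pos hi h k _
  have e2 : D (w (k + 1) * o (k + 1)) (w (k + 2) * o (k + 2)) = D (o (k + 1)) (sg (k + 1) * o k) := by
    rw [show w (k + 2) = w (k + 1) * sg (k + 1) from h.ws (k + 1), h.alt k, mul_assoc, hi]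
  have e3 : D (w k * o k) (w (k + 2) * o (k + 2)) = D ((sg k)⁻¹ * o k) (sg (k + 1) * o k) := by
    rw [show w (k + 2) = w (k + 1) * sg (k + 1) from h.ws (k + 1), h.alt k, mul_assoc,
      g09_pos hi h k]
  rw [e1, e2, e3]
  have t1 := hD.tri ((sg k)⁻¹ * o k) (o k) (o (k + 1))
  have t2 := hD.tri (o k) ((sg k)⁻¹ * o k) (sg (k + 1) * o k)
  rw [hD.symm (o k) ((sg k)⁻¹ * o k)] at t2
  rw [hD.symm (o (k + 1)) (o k)] at hq
  linarith

/-- BW Hyp.lg with a := A + 21 (tp_gp, tp_step, R ≥ 2 A + 100 so that 2a + 4 ≤ D (x i) (x (i+1))) -/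
theorem tp_btw (hF : Full S U s κ₁ κu κ₀ d ε A T' Δs lam η) (h : TP D d R o sg w) (hR : 2 * A + 100 ≤ R) {i j k : ℕ}
    (hij : i ≤ j) (hjk : j ≤ k) :
    D (w i * o i) (w j * o j) + D (w j * o j) (w k * o k) ≤ D (w i * o i) (w k * o k) + (2 * A + 46) := by
  have hD := hF.ctx.hyp
  have hA := hF.hA
  have h1 := hD.lg (fun i => w i * o i) (a := A + 21) (by linarith) (fun i => tp_gp hF h i)
    (fun i => ?_) hij hjk
  · linarith
  · have := (abs_le.1 (tp_step hF h i)).1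
    have h2 := h.far
    linarith

/-- BW Hyp.lg_len: each summand D (x i) (x (i+1)) - 2a - 2 ≥ 1 -/
theorem tp_len (hF : Full S U s κ₁ κu κ₀ d ε A T' Δs lam η) (h : TP D d R o sg w) (hR : 2 * A + 100 ≤ R) (n : ℕ) :
    (n : ℝ) ≤ D (o 0) (w n * o n) := by
  have hD := hF.ctx.hyp
  have hA := hF.hA
  have h2 : ∀ i, 2 * (A + 21) + 4 + 10 ≤ D (w i * o i) (w (i + 1) * o (i + 1)) := by
    intro i
    have := (abs_le.1 (tp_step hF h i)).1
    have h2 := h.far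
    linarith
  have h1 := hD.lg_len (fun i => w i * o i) (a := A + 21) (by linarith) (fun i => tp_gp hF h i)
    (fun i => by have := h2 i; linarith) n
  simp only [h.w0, one_mul] at h1
  refine le_trans ?_ h1
  have h3 : ∑ i ∈ Finset.range n, (1 : ℝ) = n := by simp
  rw [← h3]
  refine Finset.sum_le_sum fun i _ => ?_
  have := h2 i
  linarith

/-- the rotation at x (k+1): T := w (k+1) * s (k+1) * (w (k+1))⁻¹ is torsion, ≠ 1, D (x (k+1)) (T x (k+1)) ≤ 1 and D (T x k) (x (k+2)) ≤ 1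
(T x k = w (k+1) s (k+1) (s k)⁻¹ o k, x (k+2) = w (k+1) s (k+1) o (k+2), o (k+2) = o k). -/
theorem tp_rot (hF : Full S U s κ₁ κu κ₀ d ε A T' Δs lam η) (h : TP D d R o sg w) (k : ℕ) :
    ∃ t : G, t ^ d = 1 ∧ t ≠ 1 ∧ D (w (k + 1) * o (k + 1)) (t * (w (k + 1) * o (k + 1))) ≤ 1 ∧
      D (t * (w k * o k)) (w (k + 2) * o (k + 2)) ≤ 1 := by
  have hi := hF.ctx.linv
  refine ⟨w (k + 1) * sg (k + 1) * (w (k + 1))⁻¹, ?_, ?_, ?_, ?_⟩
  · rw [conj_pow, h.tor, mul_one, mul_inv_cancel]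
  · intro he
    apply h.ne (k + 1)
    have h1 := congrArg (fun z => (w (k + 1))⁻¹ * z * w (k + 1)) he
    simpa [mul_assoc] using h1
  · have e : w (k + 1) * sg (k + 1) * (w (k + 1))⁻¹ * (w (k + 1) * o (k + 1)) =
        w (k + 1) * (sg (k + 1) * o (k + 1)) := by group
    rw [e, hi]
    exact h.fix (k + 1)
  · have e : w (k + 1) * sg (k + 1) * (w (k + 1))⁻¹ * (w k * o k) =
        w (k + 1) * sg (k + 1) * ((sg k)⁻¹ * o k) := by
      rw [h.ws k]
      group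
    rw [e, show w (k + 2) = w (k + 1) * sg (k + 1) from h.ws (k + 1), h.alt k, hi]
    exact g09_inv hi h k

end Pool.Agent.helper4.PV
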