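import Pool.Agent.helper4.PV.G09V
/-! PV G09M: crossings of the torsion path; commutators of far torsion elements. -/
namespace Pool.Agent.helper4.PV
open Pool.Agent.helper50.BW
open Sum
variable {G : Type} [Group G] {D : G → G → ℝ} {C : Type} [MulAction G C] {Δ τ T : ℝ}
  {S : CSys D C KU Δ τ T} {U : C → G ⊕ C → ℝ} {s κ₁ κu κ₀ : ℝ} {d : ℕ} {ε A T' Δs lam η : ℝ}

variable {o sg w : ℕ → G} {R : ℝ}

/-- the two points alternate -/
theorem G09M_alt (h : TP D d R o sg w) (k : ℕ) :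
    (o k = o 0 ∧ o (k + 1) = o 1) ∨ (o k = o 1 ∧ o (k + 1) = o 0) := by
  induction k with
  | zero => exact Or.inl ⟨rfl, rfl⟩
  | succ k ih =>
    rcases ih with ⟨h1, h2⟩ | ⟨h1, h2⟩
    · exact Or.inr ⟨h2, (h.alt k).trans h1⟩
    · exact Or.inl ⟨h2, (h.alt k).trans h1⟩

/-- crossing of one segment: |U b (x (k+1)) - U b (x k)| ≤ 5/8 (d ell b) + 1 + 2κu: translate by (w k)⁻¹ (U_trp), then by (s k)⁻¹: the pair
((s k)⁻¹ o k, o (k+1)), D ((s k)⁻¹ o k) (o k) ≤ 1, hadm (for k odd use Adm.symm). -/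
theorem tp_seg (hF : Full S U s κ₁ κu κ₀ d ε A T' Δs lam η) (h : TP D d R o sg w)
    (hadm : Adm S U d (5 / 8) (inl (o 0)) (inl (o 1))) (b : C) (k : ℕ) :
    |U b (inl (w (k + 1) * o (k + 1))) - U b (inl (w k * o k))| ≤ 5 / 8 * (d * S.ell b) + 1 + 2 * κu := by
  have hC := hF.ctx
  have hyp := hC.hyp
  have hi := hC.linv
  have e1 : w k * o k = w (k + 1) * ((sg k)⁻¹ * o k) := by
    rw [h.ws k]
    group
  rw [e1, U_trp hC]
  have e2 : S.ell ((w (k + 1))⁻¹ • b) = S.ell b := S.ell_smul _ _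
  generalize (w (k + 1))⁻¹ • b = c at e2
  rw [← e2]
  have h1 := cross_le_dist hC c ((sg k)⁻¹ * o k) (o k)
  have h2 : D ((sg k)⁻¹ * o k) (o k) ≤ 1 := by
    have h3 := hi (sg k) ((sg k)⁻¹ * o k) (o k)
    rw [mul_inv_cancel_left] at h3
    rw [← h3]
    exact h.fix k
  have h4 : |U c (inl (o (k + 1))) - U c (inl (o k))| ≤ 5 / 8 * (d * S.ell c) := by
    rcases G09M_alt h k with ⟨h5, h6⟩ | ⟨h5, h6⟩
    · rw [h5, h6]
      exact hadm c (by simp) (by simp)
    · rw [h5, h6, abs_sub_comm]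
      exact hadm c (by simp) (by simp)
  have h7 := abs_sub_le (U c (inl (o (k + 1)))) (U c (inl (o k))) (U c (inl ((sg k)⁻¹ * o k)))
  linarith

/-- f := u b ∘ x, M := Δ + 9A + 60KU.  There is k < n with |f k - f 0| < M and |f n - f (k+1)| < M (n ≥ 1; take the least index i ≥ 1 with
|f n - f i| < M, i ≤ n exists because i = n works; k := i - 1 satisfies |f k - f 0| < M by tp_vertex, or k = 0).
So |f n - f 0| ≤ 2M + |f (k+1) - f k| ≤ 2M + 5/8 Θ + 1 + 4κu, and the U-crossing is ≤ that + 2κu ≤ 3/4 Θ since Θ = d ell b ≥ 10000 κ₀,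
κ₀ ≥ 30Δ + 80κu + 200 KU, A ≤ κ₀. -/
theorem tp_main (hF : Full S U s κ₁ κu κ₀ d ε A T' Δs lam η) (hA : A ≤ κ₀) (h : TP D d R o sg w)
    (hR : Δ + 11 * A + 100 * KU ≤ R) (hadm : Adm S U d (5 / 8) (inl (o 0)) (inl (o 1))) (b : C) (n : ℕ) :
    |U b (inl (w n * o n)) - U b (inl (o 0))| ≤ 3 / 4 * (d * S.ell b) := by
  have hC := hF.ctx
  obtain ⟨hKU, -, hκ0, -, -, -, hell, -⟩ := q10_nums hF
  have hΔ := hC.hΔ
  have hA0 := hF.hA
  have hu := hC.hu
  have h1' := hC.h1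
  have h0 := hC.h0
  have hs := hC.hs
  have hb := hell b
  have e0 : o 0 = w 0 * o 0 := by rw [h.w0, one_mul]
  rcases Nat.eq_zero_or_pos n with rfl | hn
  · rw [← e0, sub_self, abs_zero]
    linarith
  have hM : 0 < Δ + 9 * A + 60 * KU := by linarith
  have hex : ∃ i, 1 ≤ i ∧ |S.u b (w n * o n) - S.u b (w i * o i)| < Δ + 9 * A + 60 * KU :=
    ⟨n, hn, by rw [sub_self, abs_zero]; exact hM⟩
  classical
  obtain ⟨i, ⟨hi1, hi2⟩, hmin⟩ : ∃ i, (1 ≤ i ∧
      |S.u b (w n * o n) - S.u b (w i * o i)| < Δ + 9 * A + 60 * KU) ∧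
      ∀ j < i, ¬ (1 ≤ j ∧ |S.u b (w n * o n) - S.u b (w j * o j)| < Δ + 9 * A + 60 * KU) :=
    ⟨Nat.find hex, Nat.find_spec hex, fun j hj => Nat.find_min hex hj⟩
  have hin : i ≤ n := by
    by_contra hcon
    exact hmin n (by omega) ⟨hn, by rw [sub_self, abs_zero]; exact hM⟩
  obtain ⟨k, rfl⟩ : ∃ k, i = k + 1 := ⟨i - 1, by omega⟩
  have hk : |S.u b (w k * o k) - S.u b (w 0 * o 0)| < Δ + 9 * A + 60 * KU := by
    rcases Nat.eq_zero_or_pos k with rfl | hk
    · rw [sub_self, abs_zero]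
      exact hM
    · rcases tp_vertex hF h hR b hk (show k < n by omega) with h3 | h3
      · exact h3
      · exact absurd ⟨hk, h3⟩ (hmin k (Nat.lt_succ_self k))
  have h3 := tp_seg hF h hadm b k
  have c1 := abs_le.1 (hC.proj.close b (w n * o n))
  have c2 := abs_le.1 (hC.proj.close b (w 0 * o 0))
  have c3 := abs_le.1 (hC.proj.close b (w (k + 1) * o (k + 1)))
  have c4 := abs_le.1 (hC.proj.close b (w k * o k))
  have a1 := abs_lt.1 hi2
  have a2 := abs_lt.1 hk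
  have a3 := abs_le.1 h3
  rw [e0, abs_le]
  constructor
  · linarith [c1.1, c1.2, c2.1, c2.2, c3.1, c3.2, c4.1, c4.2, a1.1, a1.2, a2.1, a2.2, a3.1, a3.2]
  · linarith [c1.1, c1.2, c2.1, c2.2, c3.1, c3.2, c4.1, c4.2, a1.1, a1.2, a2.1, a2.2, a3.1, a3.2]

/-- the letters of the powers of a commutator -/
def G09M_s (a y : G) (k : ℕ) : G :=
  if k % 4 = 0 then a else if k % 4 = 1 then y * a * y⁻¹ else
  if k % 4 = 2 then a⁻¹ else (y * a * y⁻¹)⁻¹

/-- the prefixes of the powers of a commutator -/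
def G09M_w (a y : G) : ℕ → G
  | 0 => 1
  | k + 1 => G09M_w a y k * G09M_s a y k

theorem G09M_w4 (a y : G) (n : ℕ) : G09M_w a y (4 * n) = cm a y ^ n := by
  induction n with
  | zero =>
    rw [Nat.mul_zero, pow_zero]
    rfl
  | succ n ih =>
    have e : 4 * (n + 1) = 4 * n + 1 + 1 + 1 + 1 := by ring
    rw [e]
    unfold G09M_w
    unfold G09M_w
    unfold G09M_w
    unfold G09M_w
    rw [ih, pow_succ]
    have e0 : G09M_s a y (4 * n) = a := by
      unfold G09M_s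
      rw [if_pos (by omega)]
    have e1 : G09M_s a y (4 * n + 1) = y * a * y⁻¹ := by
      unfold G09M_s
      rw [if_neg (by omega), if_pos (by omega)]
    have e2 : G09M_s a y (4 * n + 1 + 1) = a⁻¹ := by
      unfold G09M_s
      rw [if_neg (by omega), if_neg (by omega), if_pos (by omega)]
    have e3 : G09M_s a y (4 * n + 1 + 1 + 1) = (y * a * y⁻¹)⁻¹ := by
      unfold G09M_s
      rw [if_neg (by omega), if_neg (by omega), if_neg (by omega)]
    rw [e0, e1, e2, e3]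
    unfold cm
    simp only [mul_assoc]

theorem G09M_TP (hyp : Hyp D) (hi : LInv D) {a y v : G} (ha : a ^ d = 1) (ha1 : a ≠ 1)
    (hav : D v (a * v) ≤ 1) : TP D d (D v (y * v)) (fun k => if k % 2 = 0 then v else y * v)
      (G09M_s a y) (G09M_w a y) := by
  have hyd : (y * a * y⁻¹) ^ d = 1 := by
    rw [conj_pow, ha, mul_one, mul_inv_cancel]
  have hy1 : y * a * y⁻¹ ≠ 1 := by
    intro hy
    apply ha1
    have e : a = y⁻¹ * (y * a * y⁻¹) * y := by group
    rw [e, hy]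
    group
  have hva : D v (a⁻¹ * v) ≤ 1 := by
    have h3 := hi a v (a⁻¹ * v)
    rw [mul_inv_cancel_left] at h3
    rw [← h3, hyp.symm]
    exact hav
  refine ⟨?_, ?_, ?_, ?_, rfl, fun k => rfl, ?_⟩
  · intro k
    have e : (k + 2) % 2 = k % 2 := by omega
    simp only [e]
  · intro k
    unfold G09M_s
    split_ifs
    · exact ha
    · exact hyd
    · rw [inv_pow, ha, inv_one]
    · rw [inv_pow, hyd, inv_one]
  · intro k
    unfold G09M_s
    split_ifs
    · exact ha1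
    · exact hy1
    · exact inv_ne_one.2 ha1
    · exact inv_ne_one.2 hy1
  · intro k
    have hk : k % 4 = 0 ∨ k % 4 = 1 ∨ k % 4 = 2 ∨ k % 4 = 3 := by omega
    unfold G09M_s
    rcases hk with hk | hk | hk | hk
    · rw [if_pos (show k % 2 = 0 by omega), if_pos hk]
      exact hav
    · rw [if_neg (show ¬ k % 2 = 0 by omega), if_neg (show ¬ k % 4 = 0 by omega), if_pos hk]
      have e : y * a * y⁻¹ * (y * v) = y * (a * v) := by group
      rw [e, hi]
      exact hav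
    · rw [if_pos (show k % 2 = 0 by omega), if_neg (show ¬ k % 4 = 0 by omega),
        if_neg (show ¬ k % 4 = 1 by omega), if_pos hk]
      exact hva
    · rw [if_neg (show ¬ k % 2 = 0 by omega), if_neg (show ¬ k % 4 = 0 by omega),
        if_neg (show ¬ k % 4 = 1 by omega), if_neg (show ¬ k % 4 = 2 by omega)]
      have e : (y * a * y⁻¹)⁻¹ * (y * v) = y * (a⁻¹ * v) := by group
      rw [e, hi]
      exact hva
  · exact le_of_eq rfl

/-- commutators of far torsion elements are not torsion modulo NN.  o 0 = v, o 1 = y v; s = (a, yay⁻¹, a⁻¹, (yay⁻¹)⁻¹) periodic with period 4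
(s k by k % 4), w k the products (w k := (List.ofFn ..).prod or Nat.rec), w (k + 4) = w 4 * w k, w 4 = cm a y =: g, w (4 n) = g^n, o (4 n) = v.
TP: a moves v by ≤ 1, a⁻¹ too; yay⁻¹ moves y v by ≤ 1.  tp_len: D v (g^d v) ≥ 4 d > 0, so g^d ≠ 1.
If g^d ∈ NN then nn_cross gives b with |U b (g^d v) - U b v| ≥ d ell b - 2κ₁, but tp_main (n = 4 d) gives ≤ 3/4. -/
theorem comm_far (hF : Full S U s κ₁ κu κ₀ d ε A T' Δs lam η) (hA : A ≤ κ₀) {a y v : G} (ha : a ^ d = 1) (ha1 : a ≠ 1)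
    (hav : D v (a * v) ≤ 1) (hfar : Δ + 11 * A + 100 * KU ≤ D v (y * v))
    (hadm : Adm S U d (5 / 8) (inl v) (inl (y * v))) : cm a y ^ d ∉ NN S d := by
  intro hN
  have hC := hF.ctx
  have hyp := hC.hyp
  have hi := hC.linv
  obtain ⟨hKU, -, hκ0, -, -, hd, hell, -⟩ := q10_nums hF
  have hTP := G09M_TP (y := y) hyp hi ha ha1 hav
  have hA0 := hF.hA
  have hΔ := hC.hΔ
  have hR2 : 2 * A + 100 ≤ D v (y * v) := by linarith
  have hlen := tp_len hF hTP hR2 (4 * d)
  have e1 : (4 * d) % 2 = 0 := by omega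
  simp only [e1, Nat.zero_mod, if_true] at hlen
  rw [G09M_w4] at hlen
  have hne : cm a y ^ d ≠ 1 := by
    intro h1
    rw [h1, one_mul, hyp.refl] at hlen
    have : (0 : ℝ) < ((4 * d : ℕ) : ℝ) := by exact_mod_cast (by omega : 0 < 4 * d)
    linarith
  obtain ⟨c, hc⟩ := nn_cross hC hN hne v
  have hmain := tp_main hF hA hTP hfar (by simpa using hadm) c (4 * d)
  simp only [e1, Nat.zero_mod, if_true] at hmain
  rw [G09M_w4] at hmain
  have h1' := hC.h1
  have h0 := hC.h0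
  have hs := hC.hs
  have hu := hC.hu
  have hb := hell c
  linarith

end Pool.Agent.helper4.PV
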