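import Pool.Agent.helper4.PV.G09
/-! PV G09V: the main step: no vertex of the torsion path is in the middle of a crossing. -/
namespace Pool.Agent.helper4.PV
open Pool.Agent.helper50.BW
open Sum
variable {G : Type} [Group G] {D : G → G → ℝ} {C : Type} [MulAction G C] {Δ τ T : ℝ}
  {S : CSys D C KU Δ τ T} {U : C → G ⊕ C → ℝ} {s κ₁ κu κ₀ : ℝ} {d : ℕ} {ε A T' Δs lam η : ℝ}

variable {o sg w : ℕ → G} {R : ℝ}

/-- A point in the middle of the crossing of a cone b.  Abstract form: points x y z (y = middle vertex), y between x and z with error c₀,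
e = ±1 the direction, the crossing from y to z is at least M₁ + KU in direction e.  Let p be a point near the axis with
|u b p - (u b y + e M₁)| ≤ KU.  Then p is between y and z up to 7 KU and D y p is between r b y + M₁ - 2KU and r b y + M₁ + 3KU.
Proof: D y p ≤ r b y + KU + |u b y - u b p| + KU ≤ r b y + M₁ + 3KU (`upper`), D p z ≤ KU + r b z + |u b z - u b p| + KU and
|u b z - u b p| ≤ |u b z - u b y| - M₁ + KU (same direction, |u b z - u b y| ≥ M₁ + KU); D y z ≥ r b y + r b z + |u b z - u b y| - KU (`lower`).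
Lower bound for D y p: `lower` (|u b y - u b p| ≥ M₁ - KU ≥ KU). -/
theorem mid_pt (hyp : Hyp D) (b : C) {y z : G} {e : ℝ} (he : e = 1 ∨ e = -1) {M₁ : ℝ} (hM : 2 * KU ≤ M₁)
    (hz : M₁ + KU ≤ e * (S.u b z - S.u b y)) {p : G} (hp : S.r b p ≤ KU) (hp' : |S.u b p - (S.u b y + e * M₁)| ≤ KU) :
    Btw D (7 * KU) y p z ∧ S.r b y + M₁ - 2 * KU ≤ D y p ∧ D y p ≤ S.r b y + M₁ + 3 * KU := by
  have hKU : KU = 1000 := rfl
  have hrp := S.r_nonneg b p
  have a1 := abs_le.1 hp'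
  have u1 := S.upper b y p
  have u2 := S.upper b p z
  have l1 := S.lower b y z
  have l2 := S.lower b y p
  rcases he with rfl | rfl
  · have e1 : |S.u b y - S.u b p| = S.u b p - S.u b y := by
      rw [abs_sub_comm, abs_of_nonneg]; linarith
    have e2 : |S.u b p - S.u b z| = S.u b z - S.u b p := by
      rw [abs_sub_comm, abs_of_nonneg]; linarith
    have e3 : |S.u b y - S.u b z| = S.u b z - S.u b y := by
      rw [abs_sub_comm, abs_of_nonneg]; linarith
    rw [e1] at u1 l2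
    rw [e2] at u2
    rw [e3] at l1
    have l1' := l1 (by linarith)
    have l2' := l2 (by linarith)
    refine ⟨?_, by linarith, by linarith⟩
    unfold Pool.Agent.helper50.BW.Btw
    linarith
  · have e1 : |S.u b y - S.u b p| = S.u b y - S.u b p := by
      rw [abs_of_nonneg]; linarith
    have e2 : |S.u b p - S.u b z| = S.u b p - S.u b z := by
      rw [abs_of_nonneg]; linarith
    have e3 : |S.u b y - S.u b z| = S.u b y - S.u b z := by
      rw [abs_of_nonneg]; linarith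
    rw [e1] at u1 l2
    rw [e2] at u2
    rw [e3] at l1
    have l1' := l1 (by linarith)
    have l2' := l2 (by linarith)
    refine ⟨?_, by linarith, by linarith⟩
    unfold Pool.Agent.helper50.BW.Btw
    linarith

/-- If moreover y' is c₀-between y and z and D y y' is larger than D y p + c₀ + 2, then p is between y and y':
BW Hyp.near (x := y, z := y', y := z, w := p, κ := c₀): D p y' ≤ max (D p y - D y y') (D p z - D y' z) + c₀ + 2; the first alternative is
impossible (it would give D p y' < 0), so D p y' ≤ D p z - D y' z + c₀ + 2 ≤ D y y' - D y p + κ + c₀ + 2 (D y z ≤ D y y' + D y' z). -/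
theorem mid_near (hyp : Hyp D) {y z y' p : G} {κ c₀ : ℝ} (hp : Btw D κ y p z) (hy : Btw D c₀ y y' z)
    (hlt : D y p + c₀ + 2 < D y y') : Btw D (κ + c₀ + 2) y p y' := by
  have h1 := hyp.near hy p
  have h2 := hyp.nonneg p y'
  have h3 := hyp.symm p y
  have h4 := hyp.tri y y' z
  unfold Pool.Agent.helper50.BW.Btw at *
  rcases max_cases (D p y - D y y') (D p z - D y' z) with ⟨hm, _⟩ | ⟨hm, _⟩
  · rw [hm] at h1
    linarith
  · rw [hm] at h1
    linarith

/-- MAIN STEP (V).  Hypotheses: R ≥ Δ + 11 A + 100 KU.  M := Δ + 9 A + 60 KU.  For 0 < k < n: |u b (x k) - u b (x 0)| < M or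
|u b (x n) - u b (x k)| < M.
Proof.  Suppose both are ≥ M.  f := u b ∘ x, c₀ := 2A + 46, tp_btw: x k is c₀-between x 0 and x n.
 (1) lower for (x 0, x k), (x k, x n), upper for (x 0, x n): 2 r b (x k) + |f k - f 0| + |f n - f k| ≤ |f n - f 0| + 3KU + c₀.
     Hence r b (x k) ≤ ρ₃ := (3KU + c₀)/2, and f 0, f n are on opposite sides of f k (else |f n - f 0| ≤ max - min and 2 M ≤ 3KU + c₀).
     e := sign of f n - f k.
 (2) M₁ := Δ + 7 A + 50 KU (so M ≥ M₁ + KU).  p₊: mid_pt for (y,z,e) = (x k, x n, e); p₋: mid_pt for (x k, x 0, -e) (dense gives the points).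
     mid_near with y' = x (k+1) (c₀-between x k and x n by tp_btw; if k+1 = n it is trivial), resp. y' = x (k-1):
     p₊ is κ'-between x k and x (k+1), p₋ is κ'-between x k and x (k-1), κ' := 7KU + c₀ + 2; the hypothesis of mid_near:
     D (x k) p₊ + c₀ + 2 ≤ ρ₃ + M₁ + 3KU + c₀ + 2 < R - 1 ≤ D (x k) (x (k±1)).
 (3) T from tp_rot (k-1).  T p₋ is (κ'+4)-between x k and x (k+1) (both end points are moved by ≤ 1), D (x k) (T p₋) is within 1 of
     D (x k) p₋.  BW Hyp.near2: D p₊ (T p₋) ≤ |D (x k) p₊ - D (x k) (T p₋)| + 2 (κ' + 4) + 2 ≤ (5KU + 1) + 2κ' + 10 =: κ₂.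
 (4) p₀ := projection of x k (exists_proj): r b p₀ ≤ KU, |u b p₀ - f k| ≤ KU, D (x k) p₀ ≤ ρ₃ + 3KU.  T•b ≠ b: otherwise T = gen b ^ j (stab),
     T^d = 1, (gen b)^(j d) = 1, j = 0 (BW Stg.lox_zpow), T = 1.  sep b (T•b): |u (T•b) p₊ - u (T•b) p₀| ≤ Δ.
     u (T•b) (T p₋) - u (T•b) (T p₀) = u b p₋ - u b p₀ has size ≥ M₁ - 2KU; |u (T•b) p₊ - u (T•b) (T p₋)| ≤ κ₂;
     |u (T•b) p₀ - u (T•b) (T p₀)| ≤ D p₀ (T p₀) ≤ 2 (ρ₃ + 3KU) + 1.
     So M₁ - 2KU ≤ Δ + κ₂ + 2ρ₃ + 6KU + 1: with c₀ = 2A + 46, ρ₃ = A + 23 + 1.5KU, κ₂ = 19KU + 4A + 107: right side = Δ + 6A + 28KU + 154,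
     contradiction for KU = 1000, A ≥ 0. -/
theorem tp_vertex (hF : Full S U s κ₁ κu κ₀ d ε A T' Δs lam η) (h : TP D d R o sg w) (hR : Δ + 11 * A + 100 * KU ≤ R) (b : C)
    {k n : ℕ} (hk : 0 < k) (hkn : k < n) :
    |S.u b (w k * o k) - S.u b (w 0 * o 0)| < Δ + 9 * A + 60 * KU ∨
      |S.u b (w n * o n) - S.u b (w k * o k)| < Δ + 9 * A + 60 * KU := by
  obtain ⟨k, rfl⟩ : ∃ k', k = k' + 1 := ⟨k - 1, by omega⟩
  by_contra hcon
  push Not at hcon
  obtain ⟨hM0, hMn⟩ := hcon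
  have hKU : KU = 1000 := rfl
  have hC := hF.ctx
  have hyp := hC.hyp
  have hi := hC.linv
  have hΔ := hC.hΔ
  have hA := hF.hA
  have hd : 0 < d := hC.odd.pos
  have hR2 : 2 * A + 100 ≤ R := by linarith
  have hfar := h.far
  obtain ⟨x, hx⟩ : ∃ x : ℕ → G, ∀ i, x i = w i * o i := ⟨_, fun _ => rfl⟩
  obtain ⟨f, hf⟩ : ∃ f : ℕ → ℝ, ∀ i, f i = S.u b (x i) := ⟨_, fun _ => rfl⟩
  have hbt : ∀ i j l, i ≤ j → j ≤ l → D (x i) (x j) + D (x j) (x l) ≤ D (x i) (x l) + (2 * A + 46) := by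
    intro i j l hij hjl
    have := tp_btw hF h hR2 hij hjl
    rwa [← hx, ← hx, ← hx] at this
  have hst : ∀ i, R - 1 ≤ D (x i) (x (i + 1)) := by
    intro i
    have := tp_step hF h i
    rw [← hx, ← hx] at this
    have := (abs_le.1 this).1
    linarith
  rw [← hx, ← hx, ← hf, ← hf] at hM0 hMn
  have hr0 := S.r_nonneg b (x (k + 1))
  -- (1)
  have l1 := S.lower b (x 0) (x (k + 1))
  have l2 := S.lower b (x (k + 1)) (x n)
  have u1 := S.upper b (x 0) (x n)
  rw [← hf, ← hf] at l1 l2 u1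
  have l1' := l1 (by rw [abs_sub_comm]; linarith)
  have l2' := l2 (by rw [abs_sub_comm]; linarith)
  have hb := hbt 0 (k + 1) n (by omega) hkn.le
  have key : 2 * S.r b (x (k + 1)) + |f 0 - f (k + 1)| + |f (k + 1) - f n| ≤ |f 0 - f n| + 3 * KU + (2 * A + 46) := by
    linarith
  have hrk : S.r b (x (k + 1)) ≤ A + 23 + 3 / 2 * KU := by
    have := abs_sub_le (f 0) (f (k + 1)) (f n)
    linarith
  obtain ⟨e, he, hen, he0⟩ : ∃ e : ℝ, (e = 1 ∨ e = -1) ∧ Δ + 9 * A + 60 * KU ≤ e * (f n - f (k + 1)) ∧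
      Δ + 9 * A + 60 * KU ≤ (-e) * (f 0 - f (k + 1)) := by
    rcases le_total (f (k + 1)) (f n) with h1 | h1
    · have e1 : |f n - f (k + 1)| = f n - f (k + 1) := abs_of_nonneg (by linarith)
      have e2 : |f (k + 1) - f n| = f n - f (k + 1) := by rw [abs_sub_comm, e1]
      rw [e1] at hMn
      rw [e2] at key
      rcases le_total (f 0) (f (k + 1)) with h2 | h2
      · have e3 : |f (k + 1) - f 0| = f (k + 1) - f 0 := abs_of_nonneg (by linarith)
        rw [e3] at hM0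
        exact ⟨1, Or.inl rfl, by linarith, by linarith⟩
      · exfalso
        have e3 : |f (k + 1) - f 0| = f 0 - f (k + 1) := by rw [abs_sub_comm, abs_of_nonneg]; linarith
        have e4 : |f 0 - f (k + 1)| = f 0 - f (k + 1) := by rw [abs_of_nonneg]; linarith
        rw [e3] at hM0
        rw [e4] at key
        rcases abs_cases (f 0 - f n) with ⟨h3, _⟩ | ⟨h3, _⟩ <;> rw [h3] at key <;> linarith
    · have e1 : |f n - f (k + 1)| = f (k + 1) - f n := by rw [abs_sub_comm, abs_of_nonneg]; linarith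
      have e2 : |f (k + 1) - f n| = f (k + 1) - f n := by rw [abs_of_nonneg]; linarith
      rw [e1] at hMn
      rw [e2] at key
      rcases le_total (f 0) (f (k + 1)) with h2 | h2
      · exfalso
        have e3 : |f (k + 1) - f 0| = f (k + 1) - f 0 := abs_of_nonneg (by linarith)
        have e4 : |f 0 - f (k + 1)| = f (k + 1) - f 0 := by rw [abs_sub_comm, abs_of_nonneg]; linarith
        rw [e3] at hM0
        rw [e4] at key
        rcases abs_cases (f 0 - f n) with ⟨h3, _⟩ | ⟨h3, _⟩ <;> rw [h3] at key <;> linarith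
      · have e3 : |f (k + 1) - f 0| = f 0 - f (k + 1) := by rw [abs_sub_comm, abs_of_nonneg]; linarith
        rw [e3] at hM0
        exact ⟨-1, Or.inr rfl, by linarith, by linarith⟩
  have he' : -e = 1 ∨ -e = -1 := by
    rcases he with rfl | rfl
    · right; rfl
    · left; ring
  -- (2)
  obtain ⟨M₁, hM₁⟩ : ∃ M₁, M₁ = Δ + 7 * A + 50 * KU := ⟨_, rfl⟩
  obtain ⟨pp, hpp1, hpp2⟩ := S.dense b (S.u b (x (k + 1)) + e * M₁)
  obtain ⟨pm, hpm1, hpm2⟩ := S.dense b (S.u b (x (k + 1)) + (-e) * M₁)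
  obtain ⟨hp1, hp2, hp3⟩ := mid_pt (S := S) hyp b (y := x (k + 1)) (z := x n) he (M₁ := M₁) (by linarith)
    (by rw [← hf, ← hf]; linarith) hpp1 hpp2
  obtain ⟨hm1, hm2, hm3⟩ := mid_pt (S := S) hyp b (y := x (k + 1)) (z := x 0) he' (M₁ := M₁) (by linarith)
    (by rw [← hf, ← hf]; linarith) hpm1 hpm2
  have s1 := hst (k + 1)
  have s2 := hst k
  have s3 := hyp.symm (x k) (x (k + 1))
  have hP := mid_near hyp (y' := x (k + 1 + 1)) (c₀ := 2 * A + 46) hp1 (hbt _ _ _ (by omega) (by omega)) (by linarith)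
  have hM := mid_near hyp (y' := x k) (c₀ := 2 * A + 46) hm1 (by
    have := hbt 0 k (k + 1) (by omega) (by omega)
    have := hyp.symm (x 0) (x k)
    have := hyp.symm (x 0) (x (k + 1))
    unfold Pool.Agent.helper50.BW.Btw
    linarith) (by linarith)
  -- (3)
  obtain ⟨t, ht1, ht2, ht3, ht4⟩ := tp_rot hF h k
  rw [← hx] at ht3
  rw [← hx, ← hx] at ht4
  have q1 : D (t * x (k + 1)) (t * pm) = D (x (k + 1)) pm := hi _ _ _
  have q2 : D (t * pm) (t * x k) = D pm (x k) := hi _ _ _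
  have q3 : D (t * x (k + 1)) (t * x k) = D (x (k + 1)) (x k) := hi _ _ _
  have q4 := hyp.symm (t * x (k + 1)) (x (k + 1))
  have q5 := hyp.symm (t * x k) (x (k + 1 + 1))
  have t1 := hyp.tri (x (k + 1)) (t * x (k + 1)) (t * pm)
  have t1' := hyp.tri (t * x (k + 1)) (x (k + 1)) (t * pm)
  have t2 := hyp.tri (t * pm) (t * x k) (x (k + 1 + 1))
  have t3 := hyp.tri (t * x (k + 1)) (x (k + 1)) (t * x k)
  have t4 := hyp.tri (x (k + 1)) (x (k + 1 + 1)) (t * x k)
  have hT : Btw D (7 * KU + (2 * A + 46) + 2 + 4) (x (k + 1)) (t * pm) (x (k + 1 + 1)) := by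
    unfold Pool.Agent.helper50.BW.Btw at hM ⊢
    have e : k + 1 + 1 = k + 2 := rfl
    rw [e] at *
    linarith
  have hP' : Btw D (7 * KU + (2 * A + 46) + 2 + 4) (x (k + 1)) pp (x (k + 1 + 1)) := by
    unfold Pool.Agent.helper50.BW.Btw at hP ⊢
    linarith
  have hn2 := hyp.near2 hP' hT
  have hdiff : |D (x (k + 1)) pp - D (x (k + 1)) (t * pm)| ≤ 5 * KU + 1 := by
    rw [abs_le]
    constructor <;> linarith
  -- (4)
  obtain ⟨p0, hz1, hz2, hz3⟩ := exists_proj S b (x (k + 1))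
  have htb : t • b ≠ b := by
    intro htb
    obtain ⟨j, hj⟩ := (S.stab t b).1 htb
    have hj' : S.gen b ^ j = t := hj
    rcases eq_or_ne j 0 with rfl | hj0
    · rw [zpow_zero] at hj'
      exact ht2 hj'.symm
    · apply hF.stg.lox_zpow hd hC.hτ (hF.gen_lox b) hj0
      rw [hj', ht1]
  have v1 := S.sep b (t • b) pp p0 htb.symm hpp1 hz1
  have v2 := S.u_smul t b pm p0
  have v3 := S.u_lip (t • b) pp (t * pm)
  have v4 := S.u_lip (t • b) p0 (t * p0)
  have v5 := hyp.tri p0 (x (k + 1)) (t * p0)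
  have v6 := hyp.tri (x (k + 1)) (t * x (k + 1)) (t * p0)
  have v7 : D (t * x (k + 1)) (t * p0) = D (x (k + 1)) p0 := hi _ _ _
  have v8 := hyp.symm p0 (x (k + 1))
  have w1 := abs_le.1 v1
  have w3 := abs_le.1 v3
  have w4 := abs_le.1 v4
  have w5 := abs_le.1 hpm2
  have w6 := abs_le.1 hz2
  rcases he with rfl | rfl <;> linarith

end Pool.Agent.helper4.PV
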