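import Pool.Agent.helper4.PV.G03
import Pool.Agent.helper4.PV.G05
import Pool.Agent.helper4.PV.G06
/-! PV G10: commutators of two cone elements with different axes. -/
namespace Pool.Agent.helper4.PV
open Pool.Agent.helper50.BW
open Sum
variable {G : Type} [Group G] {D : G → G → ℝ} {C : Type} [MulAction G C] {Δ τ T : ℝ}
  {S : CSys D C KU Δ τ T} {U : C → G ⊕ C → ℝ} {s κ₁ κu κ₀ : ℝ} {d : ℕ} {ε A T' Δs lam η : ℝ}

/-- alternating element -/
noncomputable def G10_h {G : Type} [Group G] (y : G) (t : ℤ) : G := if t % 2 = 0 then y else y⁻¹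

/-- signs + + - - -/
def G10_r (m t : ℤ) : ℤ := if t % 4 = 0 ∨ t % 4 = 1 then m else -m

theorem G10_h_cases {G : Type} [Group G] (y : G) (t : ℤ) : G10_h y t = y ∨ G10_h y t = y⁻¹ := by
  unfold G10_h
  split_ifs
  · exact Or.inl rfl
  · exact Or.inr rfl

theorem G10_h_pred {G : Type} [Group G] (y : G) (t : ℤ) : (G10_h y (t - 1))⁻¹ = G10_h y t := by
  unfold G10_h
  by_cases ht : t % 2 = 0
  · rw [if_neg (by omega), if_pos ht, inv_inv]
  · rw [if_pos (by omega), if_neg ht]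

theorem G10_r_abs (m t : ℤ) : |G10_r m t| = |m| := by
  unfold G10_r
  split_ifs
  · rfl
  · exact abs_neg m

theorem G10_per {G : Type} [Group G] (g y : G) (m t : ℤ) :
    g ^ G10_r m (t + 4) * G10_h y (t + 4) = g ^ G10_r m t * G10_h y t := by
  unfold G10_r G10_h
  rw [Int.add_emod_right, show (t + 4) % 2 = t % 2 by omega]

theorem G10_w4 {G : Type} [Group G] (g y : G) (m : ℤ) (w : ℤ → G) (h0 : w 0 = 1)
    (hw : ∀ t, w (t + 1) = w t * (g ^ G10_r m t * G10_h y t)) : w 4 = cm (g ^ m) y := by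
  have e1 := hw 0
  have e2 := hw 1
  have e3 := hw 2
  have e4 := hw 3
  norm_num at e1 e2 e3 e4
  rw [e4, e3, e2, e1, h0]
  have r0 : G10_r m 0 = m := by unfold G10_r; norm_num
  have r1 : G10_r m 1 = m := by unfold G10_r; norm_num
  have r2 : G10_r m 2 = -m := by unfold G10_r; norm_num
  have r3 : G10_r m 3 = -m := by unfold G10_r; norm_num
  have k0 : G10_h y 0 = y := by unfold G10_h; norm_num
  have k1 : G10_h y 1 = y⁻¹ := by unfold G10_h; norm_num
  have k2 : G10_h y 2 = y := by unfold G10_h; norm_num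
  have k3 : G10_h y 3 = y⁻¹ := by unfold G10_h; norm_num
  rw [r0, r1, r2, r3, k0, k1, k2, k3, zpow_neg]
  unfold cm
  group

/-- `cm x (n * y)` and `cm x y` agree modulo a normal subgroup containing `n` -/
theorem G10_cm_mod {G : Type} [Group G] (N : Subgroup G) (hN : N.Normal) {n : G} (hn : n ∈ N) (x y : G)
    (d : ℕ) (h : cm x y ^ d ∈ N) : cm x (n * y) ^ d ∈ N := by
  have := hN
  rw [← QuotientGroup.eq_one_iff] at h ⊢
  have hn' : ((n : G) : G ⧸ N) = 1 := (QuotientGroup.eq_one_iff n).2 hn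
  rw [← h]
  unfold cm
  simp only [QuotientGroup.mk_pow, QuotientGroup.mk_mul, QuotientGroup.mk_inv, hn', one_mul]

/-- a := gen c ^ m.  cm a y = a (y a y⁻¹) a⁻¹ (y a y⁻¹)⁻¹ = (a y)(a y⁻¹)(a⁻¹ y)(a⁻¹ y⁻¹).  Take h t := y for t even, y⁻¹ for t odd;
r t := m for t % 4 ∈ {0,1}, -m for t % 4 ∈ {2,3} (Int.emod), w from exists_w with x t := gen c ^ r t * h t; w 4 = cm a y,
w (t + 4) = w 4 w t (w_per).  pchain with κ := 2κ₀: h (t-1)⁻¹ = h t, so the crossing is exactly |m| ell c ∈ [2κ₀, (d ell c)/2].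
pchain_third with f x := 3/4 (d x): h t = y: hypothesis hB; h t = y⁻¹: |U b (y⁻¹ c) - U b c| = |U (y b) c - U (y b) (y c)| (U_tr).
chain_nt with g := w 4, p := 4 (hB' from pchain_cross and ell (w t • c) = ell c). -/
theorem comm_tight (hF : Full S U s κ₁ κu κ₀ d ε A T' Δs lam η) {c : C} {y : G} {m : ℤ} (hyc : y • c ≠ c)
    (hB : ∀ b, b ≠ c → b ≠ y • c → |U b (inr (y • c)) - U b (inr c)| ≤ 3 / 4 * (d * S.ell b))
    (hm1 : 2 * κ₀ ≤ |(m : ℝ)| * S.ell c) (hm2 : 2 * |m| ≤ d) : cm (S.gen c ^ m) y ^ d ∉ NN S d := by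
  have hC := hF.ctx
  have hP := hC.proj
  obtain ⟨w, hw0, hw⟩ := exists_w (fun t => S.gen c ^ G10_r m t * G10_h y t)
  have hper := w_per (x := fun t => S.gen c ^ G10_r m t * G10_h y t) (w := w) (p := 4)
    (fun t => G10_per (S.gen c) y m t) hw0 hw
  have hw4 := G10_w4 (S.gen c) y m w hw0 hw
  have hell : 0 < S.ell c := hC.hτ.trans_le (S.ell_ge c)
  have hyc' : y⁻¹ • c ≠ c := fun h => hyc (by
    conv_lhs => rw [← h]
    rw [smul_inv_smul])
  have hne : ∀ t, G10_h y t • c ≠ c := by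
    intro t
    rcases G10_h_cases y t with h | h <;> rw [h]
    · exact hyc
    · exact hyc'
  have hcr : ∀ t, (G10_r m t : ℝ) * S.ell c + U c (inr (G10_h y t • c))
      - U c (inr ((G10_h y (t - 1))⁻¹ • c)) = G10_r m t * S.ell c := by
    intro t
    rw [G10_h_pred]
    ring
  have habs : ∀ t, |(G10_r m t : ℝ) * S.ell c| = |(m : ℝ)| * S.ell c := by
    intro t
    rw [abs_mul, abs_of_pos hell, ← Int.cast_abs, G10_r_abs, Int.cast_abs]
  have hch : Chain U (2 * κ₀) (fun t => w t • c) := by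
    refine pchain hP hw hne ?_
    intro t
    rw [hcr, habs]
    exact hm1
  have hm2' : 2 * |(m : ℝ)| ≤ d := by
    rw [← Int.cast_abs]
    exact_mod_cast hm2
  have hBt : ∀ t b, b ≠ c → b ≠ G10_h y t • c →
      |U b (inr (G10_h y t • c)) - U b (inr c)| ≤ (fun x : ℝ => 3 / 4 * (d * x)) (S.ell b) := by
    intro t b hb hb'
    rcases G10_h_cases y t with h | h
    · rw [h] at hb' ⊢
      exact hB b hb hb'
    · rw [h] at hb' ⊢
      have hyb : (y⁻¹)⁻¹ • b = y • b := by rw [inv_inv]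
      have h1 : (inr (y • c) : G ⊕ C) ≠ inr ((y⁻¹)⁻¹ • b) := by
        rw [hyb]
        intro e
        exact hb (smul_left_cancel y (inr.inj e)).symm
      have hb2 : y • b ≠ c := by
        intro e
        apply hb'
        rw [← e, inv_smul_smul]
      have h2 : (inr c : G ⊕ C) ≠ inr ((y⁻¹)⁻¹ • b) := by
        rw [hyb]
        intro e
        exact hb2 (inr.inj e).symm
      have h3 := U_tr hC y⁻¹ b (inr (y • c)) (inr c) h1 h2
      rw [Sum.smul_inr, Sum.smul_inr, inv_smul_smul, hyb] at h3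
      rw [h3, abs_sub_comm]
      have h4 := hB (y • b) hb2 (fun e => hb (smul_left_cancel y e))
      rw [S.ell_smul] at h4
      exact h4
  have hfin := chain_nt (g := w 4) (p := 4) hC (κ := 2 * κ₀) ?_ hch (by norm_num) ?_ ?_ ?_
  · rw [hw4] at hfin
    exact hfin
  · have a1 := hC.hK
    have a2 := hC.hΔ
    have a3 := hC.hu
    have a4 := hC.h1
    have a5 := hC.hs
    have a6 := hC.h0
    linarith
  · intro k
    change w 4 • (w k • c) = w (k + 4) • c
    rw [hper k, mul_smul]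
  · intro b k hb hb'
    exact pchain_third (f := fun x : ℝ => 3 / 4 * (d * x)) hP hw hBt k b hb hb'
  · intro k
    have h5 := pchain_cross hP hw hne k
    rw [hcr k] at h5
    change |U (w k • c) (inr (w (k + 1) • c)) - U (w k • c) (inr (w (k - 1) • c))|
      ≤ 3 / 4 * (d * S.ell (w k • c))
    rw [h5, habs, S.ell_smul]
    have h6 : |(m : ℝ)| * S.ell c ≤ (d / 2) * S.ell c :=
      mul_le_mul_of_nonneg_right (by linarith) hell.le
    have h7 : (0 : ℝ) ≤ d * S.ell c := mul_nonneg (Nat.cast_nonneg d) hell.le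
    linarith

/-- cone_tight for (y•c, c): n ∈ NN with (n y • c, c) tight: |U a (inr (n y c)) - U a (inr c)| ≤ 5/8 + 2κu ≤ 3/4.  n y • c ≠ c (hy).
cm x (n y) ≡ cm x y modulo NN (normal: NN_normal), so (cm x (n y))^d ∈ NN iff (cm x y)^d ∈ NN.
If |k| ell c ≥ 2κ₀: comm_tight with m = k.  Otherwise m := k N: |k N| ell c ≥ N τ ≥ 2κ₀ (k ≠ 0), and 2 |k| N < 4κ₀ N / τ ≤ d;
gen c ^ (k N) = (gen c ^ k) ^ N. -/
theorem comm_close (hF : Full S U s κ₁ κu κ₀ d ε A T' Δs lam η) {c : C} {y : G} {k : ℤ} {N : ℕ} (hk : k ≠ 0) (hk2 : 2 * |k| ≤ d)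
    (hN : 2 * κ₀ ≤ N * τ) (hNd : 4 * κ₀ * N ≤ d * τ) (hy : ∀ n ∈ NN S d, n • (y • c) ≠ c) :
    cm (S.gen c ^ k) y ^ d ∉ NN S d ∨ cm ((S.gen c ^ k) ^ N) y ^ d ∉ NN S d := by
  have hC := hF.ctx
  have hell : 0 < S.ell c := hC.hτ.trans_le (S.ell_ge c)
  obtain ⟨n, hn, p, -, -, htight⟩ := cone_tight hC (y • c) c
  have hyc : (n * y) • c ≠ c := by
    rw [mul_smul]
    exact hy n hn
  have hB : ∀ b, b ≠ c → b ≠ (n * y) • c →
      |U b (inr ((n * y) • c)) - U b (inr c)| ≤ 3 / 4 * (d * S.ell b) := by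
    intro b hb hb'
    rw [mul_smul] at hb' ⊢
    have h1 := htight b hb' hb
    have h2 := hC.ell_big b
    have a1 := hC.hK
    have a2 := hC.hΔ
    have a3 := hC.hu
    have a4 := hC.h1
    have a5 := hC.hs
    have a6 := hC.h0
    linarith
  by_cases hbig : 2 * κ₀ ≤ |(k : ℝ)| * S.ell c
  · left
    intro hmem
    exact comm_tight hF hyc hB hbig hk2 (G10_cm_mod _ (NN_normal S d) hn _ _ d hmem)
  · right
    intro hmem
    rw [not_le] at hbig
    have hpow : (S.gen c ^ k) ^ N = S.gen c ^ (k * N) := by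
      rw [zpow_mul, zpow_natCast]
    rw [hpow] at hmem
    have hk1 : (1 : ℝ) ≤ |(k : ℝ)| := by
      rw [← Int.cast_abs]
      exact_mod_cast Int.one_le_abs hk
    have hNn : (0 : ℝ) ≤ N := Nat.cast_nonneg N
    have hτ := hC.hτ
    refine comm_tight hF hyc hB ?_ ?_ (G10_cm_mod _ (NN_normal S d) hn _ _ d hmem)
    · push_cast
      rw [abs_mul, abs_of_nonneg hNn]
      calc 2 * κ₀ ≤ N * τ := hN
        _ ≤ N * S.ell c := mul_le_mul_of_nonneg_left (S.ell_ge c) hNn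
        _ = 1 * (N * S.ell c) := (one_mul _).symm
        _ ≤ |(k : ℝ)| * (N * S.ell c) :=
          mul_le_mul_of_nonneg_right hk1 (mul_nonneg hNn hell.le)
        _ = |(k : ℝ)| * N * S.ell c := by ring
    · have h1 : |(k : ℝ)| * τ ≤ 2 * κ₀ :=
        (mul_le_mul_of_nonneg_left (S.ell_ge c) (abs_nonneg _)).trans hbig.le
      have h2 : (2 * (|(k : ℝ)| * N)) * τ ≤ d * τ := by
        calc (2 * (|(k : ℝ)| * N)) * τ = 2 * N * (|(k : ℝ)| * τ) := by ring
          _ ≤ 2 * N * (2 * κ₀) := mul_le_mul_of_nonneg_left h1 (by positivity)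
          _ = 4 * κ₀ * N := by ring
          _ ≤ d * τ := hNd
      have h3 : 2 * (|(k : ℝ)| * N) ≤ d := le_of_mul_le_mul_right h2 hτ
      rw [abs_mul, Nat.abs_cast]
      have h4 : ((2 * (|k| * (N : ℤ)) : ℤ) : ℝ) ≤ ((d : ℤ) : ℝ) := by
        push_cast
        exact h3
      exact_mod_cast h4

end Pool.Agent.helper4.PV
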