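import Pool.Agent.helper4.PV.G07
/-! PV G11: common axis lifting. -/
namespace Pool.Agent.helper4.PV
open Pool.Agent.helper50.BW
open Sum
variable {G : Type} [Group G] {D : G → G → ℝ} {C : Type} [MulAction G C] {Δ τ T : ℝ}
  {S : CSys D C KU Δ τ T} {U : C → G ⊕ C → ℝ} {s κ₁ κu κ₀ : ℝ} {d : ℕ} {ε A T' Δs lam η : ℝ}

theorem G11_pos (hF : Full S U s κ₁ κu κ₀ d ε A T' Δs lam η) (c : C) : 0 < d * S.ell c := by
  obtain ⟨_, _, hκ, _, _, _, hbig, _⟩ := q10_nums hF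
  have := hbig c
  linarith

/-- a set of cones with large crossings between two points is finite -/
theorem G11_fin (hF : Full S U s κ₁ κu κ₀ d ε A T' Δs lam η) (x y : G) :
    {b : C | κ₀ ≤ |U b (inl y) - U b (inl x)|}.Finite := by
  obtain ⟨_, _, _, _, hs0, _, _, _⟩ := q10_nums hF
  by_contra hinf
  obtain ⟨n, hn⟩ := exists_nat_gt (dd S s x y / s)
  obtain ⟨F, hF1, hF2⟩ := Set.Infinite.exists_subset_card_eq hinf n
  have h1 := many_cones hF.ctx F (x := x) (y := y) (fun b hb => hF1 hb)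
  rw [hF2] at h1
  rw [div_lt_iff₀ hs0] at hn
  linarith

/-- if all orbit crossings of g are small then no power of g fixes a cone: g^M • b = b, M ≠ 0, gives g^M = gen b ^ j (stab), j ≠ 0 (g has infinite
order by Stg.ti: g^M = 1 would give displacement 0), and U b (g^(M N) v) - U b v = N j ell b (rot) is unbounded. -/
theorem no_stab (hF : Full S U s κ₁ κu κ₀ d ε A T' Δs lam η) {g v : G} (hg : g ^ d ≠ 1)
    (hX : ∀ (b : C) (N : ℤ), |U b (inl (g ^ N * v)) - U b (inl v)| ≤ 1 / 100 * (d * S.ell b)) {M : ℤ} (hM : M ≠ 0) (b : C) :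
    g ^ M • b ≠ b := by
  intro hst
  obtain ⟨_, _, _, _, _, hd0, hbig, _⟩ := q10_nums hF
  have hC := hF.ctx
  obtain ⟨j, hj⟩ := Subgroup.mem_zpowers_iff.1 ((S.stab _ _).1 hst)
  have hj0 : j ≠ 0 := by
    rintro rfl
    apply hF.stg.lox_zpow hd0 hC.hτ hg hM
    rw [← hj]
    simp
  have h1 := hX b (M * d)
  have h2 : g ^ (M * d) * v = S.gen b ^ (j * d) • v := by
    rw [zpow_mul, ← hj, ← zpow_mul, smul_eq_mul]
  have h3 := hC.proj.rot b (inl v) (j * d) (by simp)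
  have h4 : (S.gen b ^ (j * (d : ℤ)) • (inl v : G ⊕ C)) = inl (S.gen b ^ (j * (d : ℤ)) • v) := rfl
  rw [h4] at h3
  rw [h2, h3, add_sub_cancel_left] at h1
  have h5 := G11_pos hF b
  push_cast at h1
  have h6 : |(j : ℝ) * d * S.ell b| = |(j : ℝ)| * (d * S.ell b) := by
    rw [mul_assoc, abs_mul, abs_of_pos h5]
  rw [h6] at h1
  have h7 : (1 : ℝ) ≤ |(j : ℝ)| := by
    rw [← Int.cast_abs]
    exact_mod_cast Int.one_le_abs hj0
  nlinarith

/-- CAL.  (0) tight_pt: m ∈ NN with Adm (5/8) v (m v').  v₁ := m v', g₁ := m g' m⁻¹; g^r = n₁ g₁^s with n₁ ∈ NN; crossing bounds for (g₁, v₁) by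
translation (U_trp, ell_smul).  (1) for N : ℕ: g^(r N) = n_N g₁^(s N), n_N ∈ NN.
(2) F := {b | κ₀ ≤ |U b v₁ - U b v|} is finite: many_cones bounds the cardinality of its finite subsets by dd S s v v₁ / s.
(3) there is N₀ with: for N ≥ N₀ no b ∈ F has (g^(r N))⁻¹ • b ∈ F: for every pair b, b' ∈ F there is at most one N with g^(rN) b' = b
    (no_stab, r ≠ 0).
(4) N ≥ N₀, any b: |U b (g^(rN) v₁) - U b v₁| ≤ |U b v₁ - U b v| + |U b (g^(rN) v) - U b v| + |U b (g^(rN) v₁) - U b (g^(rN) v)|, the last is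
    |U b' v₁ - U b' v| with b' = (g^(rN))⁻¹ b; not both b, b' ∈ F: total ≤ 5/8 Θ + κ₀ + Θ/100 ≤ 3/4 Θ.
(5) lift_unique (BW.Q6) with x := v₁, y := g₁^(sN) v₁, n := n_N: Adm (1/6) x y (1/100 ≤ 1/6), Adm (3/4) x (n_N y) = (v₁, g^(rN) v₁): n_N = 1.
(6) g^(r N₀) = g₁^(s N₀) and g^(r (N₀+1)) = g₁^(s (N₀+1)); divide. -/
theorem cal (hF : Full S U s κ₁ κu κ₀ d ε A T' Δs lam η) {g g' v v' n : G} {r s' : ℤ} (hr : r ≠ 0) (hn : n ∈ NN S d)
    (hrel : g ^ r = n * g' ^ s') (hg : g ^ d ≠ 1)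
    (hX : ∀ (b : C) (N : ℤ), |U b (inl (g ^ N * v)) - U b (inl v)| ≤ 1 / 100 * (d * S.ell b))
    (hX' : ∀ (b : C) (N : ℤ), |U b (inl (g' ^ N * v')) - U b (inl v')| ≤ 1 / 100 * (d * S.ell b)) :
    ∃ m ∈ NN S d, g ^ r = (m * g' * m⁻¹) ^ s' := by
  classical
  have hC := hF.ctx
  obtain ⟨_, _, hκ, _, hs0, hd0, hbig, _⟩ := q10_nums hF
  have hnor : (NN S d).Normal := NN_normal S d
  obtain ⟨m, hm, hA⟩ := tight_pt hC v v'
  refine ⟨m, hm, ?_⟩
  -- crossings of the orbit of m v' under m g' m⁻¹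
  have hX1 : ∀ (b : C) (N : ℤ), |U b (inl ((m * g' * m⁻¹) ^ N * (m * v'))) - U b (inl (m * v'))| ≤
      1 / 100 * (d * S.ell b) := by
    intro b N
    have h1 : (m * g' * m⁻¹) ^ N * (m * v') = m * (g' ^ N * v') := by
      rw [conj_zpow]
      group
    rw [h1, U_trp hC]
    have h2 := hX' (m⁻¹ • b) N
    rwa [S.ell_smul] at h2
  -- the relation
  obtain ⟨n₁, hn₁, hrel1⟩ : ∃ n₁ ∈ NN S d, g ^ r = n₁ * (m * g' * m⁻¹) ^ s' := by
    refine ⟨n * (g' ^ s' * m * (g' ^ s')⁻¹ * m⁻¹), ?_, ?_⟩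
    · exact mul_mem hn (mul_mem (hnor.conj_mem m hm _) (inv_mem hm))
    · rw [conj_zpow, hrel]
      group
  -- finitely many bad exponents
  have hFfin := G11_fin hF v (m * v')
  have hgN : ∀ N : ℕ, (g ^ r) ^ N = g ^ (r * N) := fun N => by rw [zpow_mul, zpow_natCast]
  have hbad : {N : ℕ | ∃ b ∈ {b : C | κ₀ ≤ |U b (inl (m * v')) - U b (inl v)|},
      ∃ b' ∈ {b : C | κ₀ ≤ |U b (inl (m * v')) - U b (inl v)|}, ((g ^ r) ^ N)⁻¹ • b = b'}.Finite := by
    have h1 : {N : ℕ | ∃ b ∈ {b : C | κ₀ ≤ |U b (inl (m * v')) - U b (inl v)|},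
        ∃ b' ∈ {b : C | κ₀ ≤ |U b (inl (m * v')) - U b (inl v)|}, ((g ^ r) ^ N)⁻¹ • b = b'} =
        ⋃ b ∈ {b : C | κ₀ ≤ |U b (inl (m * v')) - U b (inl v)|},
        ⋃ b' ∈ {b : C | κ₀ ≤ |U b (inl (m * v')) - U b (inl v)|}, {N : ℕ | ((g ^ r) ^ N)⁻¹ • b = b'} := by
      ext N
      simp
    rw [h1]
    refine hFfin.biUnion fun b _ => hFfin.biUnion fun b' _ => Set.Subsingleton.finite ?_
    intro N hN N' hN'
    have e1 : (g ^ r) ^ N • b' = b := by
      have : ((g ^ r) ^ N)⁻¹ • b = b' := hN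
      rw [← this, smul_inv_smul]
    have e2 : (g ^ r) ^ N' • b' = b := by
      have : ((g ^ r) ^ N')⁻¹ • b = b' := hN'
      rw [← this, smul_inv_smul]
    by_contra hne
    have hM : r * ((N : ℤ) - N') ≠ 0 := by
      refine mul_ne_zero hr ?_
      intro h
      apply hne
      omega
    apply no_stab hF hg hX hM b'
    rw [hgN] at e1 e2
    have e3 : r * ((N : ℤ) - N') = -(r * N') + r * N := by ring
    rw [e3, zpow_add, zpow_neg, mul_smul, e1, ← e2, inv_smul_smul]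
  obtain ⟨N₀, hN₀⟩ := hbad.bddAbove
  -- for all large N: (g^r)^N = g₁^(s' N)
  have key : ∀ N : ℕ, N₀ < N → (g ^ r) ^ N = ((m * g' * m⁻¹) ^ s') ^ N := by
    intro N hN
    obtain ⟨nN, hnN, hrelN⟩ := q10_mod S d ((m * g' * m⁻¹) ^ s') hn₁ N
    rw [← hrel1] at hrelN
    have hxy : Adm S U d (1 / 6) (inl (m * v')) (inl (((m * g' * m⁻¹) ^ s') ^ N * (m * v'))) := by
      intro b _ _
      have h1 := hX1 b (s' * N)
      have h2 := G11_pos hF b
      rw [zpow_mul, zpow_natCast] at h1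
      linarith
    have hxny : Adm S U d (3 / 4) (inl (m * v'))
        (inl (nN * (((m * g' * m⁻¹) ^ s') ^ N * (m * v')))) := by
      intro b _ _
      rw [← mul_assoc, ← hrelN]
      have h2 := G11_pos hF b
      have h3 := hbig b
      have a1 := hA b (by simp) (by simp)
      have a2 := hX b (r * N)
      rw [← hgN] at a2
      have a3 := U_trp hC ((g ^ r) ^ N) b v (m * v')
      have a4 := hA (((g ^ r) ^ N)⁻¹ • b) (by simp) (by simp)
      rw [S.ell_smul] at a4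
      rw [← a3] at a4
      have a5 : |U b (inl ((g ^ r) ^ N * (m * v'))) - U b (inl (m * v'))| ≤
          |U b (inl (m * v')) - U b (inl v)| + |U b (inl ((g ^ r) ^ N * v)) - U b (inl v)| +
          |U b (inl ((g ^ r) ^ N * (m * v'))) - U b (inl ((g ^ r) ^ N * v))| := by
        have e : U b (inl ((g ^ r) ^ N * (m * v'))) - U b (inl (m * v')) =
          (U b (inl v) - U b (inl (m * v'))) + (U b (inl ((g ^ r) ^ N * v)) - U b (inl v)) +
          (U b (inl ((g ^ r) ^ N * (m * v'))) - U b (inl ((g ^ r) ^ N * v))) := by ring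
        rw [e]
        refine (abs_add_three _ _ _).trans ?_
        rw [abs_sub_comm (U b (inl v))]
      have a6 : |U b (inl (m * v')) - U b (inl v)| < κ₀ ∨
          |U b (inl ((g ^ r) ^ N * (m * v'))) - U b (inl ((g ^ r) ^ N * v))| < κ₀ := by
        by_contra hcon
        push Not at hcon
        have hmem : N ∈ {N : ℕ | ∃ b ∈ {b : C | κ₀ ≤ |U b (inl (m * v')) - U b (inl v)|},
            ∃ b' ∈ {b : C | κ₀ ≤ |U b (inl (m * v')) - U b (inl v)|},
              ((g ^ r) ^ N)⁻¹ • b = b'} := by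
          refine ⟨b, hcon.1, ((g ^ r) ^ N)⁻¹ • b, ?_, rfl⟩
          have := hcon.2
          rw [a3] at this
          exact this
        have := hN₀ hmem
        omega
      rcases a6 with a6 | a6 <;> linarith
    have h1 := lift_unique hC hnN hxy hxny
    rw [hrelN, h1, one_mul]
  have k1 := key (N₀ + 1) (by omega)
  have k2 := key (N₀ + 1 + 1) (by omega)
  rw [pow_succ, pow_succ _ (N₀ + 1), k1] at k2
  exact mul_left_cancel k2

end Pool.Agent.helper4.PV
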