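import Pool.Agent.helper4.PV.G07
import Pool.Agent.helper4.PV.G04
/-! PV G12: comparison of two periodic chains with a common translation. -/
namespace Pool.Agent.helper4.PV
open Pool.Agent.helper50.BW
open Sum

section
variable {G : Type} [Group G] {D : G → G → ℝ} {C : Type} [MulAction G C] {Δ τ T : ℝ}
  {S : CSys D C KU Δ τ T} {U : C → G ⊕ C → ℝ} {s κ₁ κu κ₀ : ℝ} {d : ℕ} {κ : ℝ} {ζ : ℤ → C}

/-- numerical consequences of the context -/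
theorem G12_pos (hC : Ctx S U s κ₁ κu κ₀ d) (h1 : κ₀ + κ₁ + 2 * κu ≤ κ) :
    0 < κ ∧ κ₁ ≤ κ ∧ 2 * κ₁ ≤ κ := by
  have h2 := hC.h0
  have h3 := hC.hs
  have h4 := hC.hΔ
  have h5 := hC.hu
  have h6 := hC.h1
  have h7 : (KU : ℝ) = 1000 := rfl
  rw [h7] at h2 h3
  refine ⟨by linarith, by linarith, by linarith⟩

/-- translation of the position of a point and of a member of the chain -/
theorem G12_tr (hC : Ctx S U s κ₁ κu κ₀ d) (h1 : κ₀ + κ₁ + 2 * κu ≤ κ) (hζ : Chain U κ ζ) {h : G}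
    {p : ℤ} (hh : ∀ k, h • ζ k = ζ (k + p)) (x : G) (n : ℤ) {j k : ℤ} (hjk : j ≠ k) :
    U (ζ k) (inl (h ^ n * x)) - U (ζ k) (inr (ζ j)) =
      U (ζ (k - n * p)) (inl x) - U (ζ (k - n * p)) (inr (ζ (j - n * p))) := by
  obtain ⟨hpos, hk1, -⟩ := G12_pos hC h1
  have hinj := chain_inj hC.proj hpos hk1 hζ
  have hb : (h ^ n)⁻¹ • ζ k = ζ (k - n * p) := by
    rw [inv_smul_eq_iff, chain_zpow hh n (k - n * p)]
    congr 1
    ring
  have hj : h ^ n • ζ (j - n * p) = ζ j := by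
    rw [chain_zpow hh n (j - n * p)]
    congr 1
    ring
  have hX : (inr (ζ (j - n * p)) : G ⊕ C) ≠ inr ((h ^ n)⁻¹ • ζ k) := by
    rw [hb]
    intro e
    have e1 := hinj (Sum.inr_injective e)
    exact hjk (by linarith)
  have hY : (inl x : G ⊕ C) ≠ inr ((h ^ n)⁻¹ • ζ k) := by
    intro e
    exact absurd e (by simp)
  have key := U_tr hC (h ^ n) (ζ k) (inr (ζ (j - n * p))) (inl x) hX hY
  rw [Sum.smul_inl, Sum.smul_inr, smul_eq_mul, hj, hb] at key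
  exact key

theorem G12_lo (hC : Ctx S U s κ₁ κu κ₀ d) (h1 : κ₀ + κ₁ + 2 * κu ≤ κ) (hζ : Chain U κ ζ) {h : G}
    {p : ℤ} (hh : ∀ k, h • ζ k = ζ (k + p)) (x : G) (n : ℤ) {k m : ℤ}
    (hm : ∀ i ≤ m, U (ζ i) (inl x) = U (ζ i) (inr (ζ (i + 1)))) (hk : k - n * p ≤ m) :
    U (ζ k) (inl (h ^ n * x)) = U (ζ k) (inr (ζ (k + 1))) := by
  have key := G12_tr hC h1 hζ hh x n (j := k + 1) (k := k) (by omega)
  have e : k + 1 - n * p = k - n * p + 1 := by ring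
  rw [hm _ hk, e, sub_self] at key
  exact sub_eq_zero.mp key

theorem G12_hi (hC : Ctx S U s κ₁ κu κ₀ d) (h1 : κ₀ + κ₁ + 2 * κu ≤ κ) (hζ : Chain U κ ζ) {h : G}
    {p : ℤ} (hh : ∀ k, h • ζ k = ζ (k + p)) (x : G) (n : ℤ) {k m : ℤ}
    (hm : ∀ i ≥ m, U (ζ i) (inl x) = U (ζ i) (inr (ζ (i - 1)))) (hk : m ≤ k - n * p) :
    U (ζ k) (inl (h ^ n * x)) = U (ζ k) (inr (ζ (k - 1))) := by
  have key := G12_tr hC h1 hζ hh x n (j := k - 1) (k := k) (by omega)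
  have e : k - 1 - n * p = k - n * p - 1 := by ring
  rw [hm _ hk, e, sub_self] at key
  exact sub_eq_zero.mp key

/-- U (ζ k) (h^N x) - U (ζ k) (ζ (k+1)) = U (ζ (k - N p)) x - U (ζ (k - N p)) (ζ (k+1 - N p)) (translate by h^(-N), chain_zpow).
If p > 0: for N → ∞ the index tends to -∞ and chain_pt' gives 0: U (ζ k) (h^N x) = U (ζ k) (ζ (k+1)); for h^(-N) the index tends to +∞
and chain_pt gives U (ζ k) (h^(-N) x) = U (ζ k) (ζ (k-1)).  If p < 0 the two are interchanged. -/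
theorem chain_lim (hC : Ctx S U s κ₁ κu κ₀ d) (h1 : κ₀ + κ₁ + 2 * κu ≤ κ) (hζ : Chain U κ ζ) {h : G} {p : ℤ} (hp : p ≠ 0)
    (hh : ∀ k, h • ζ k = ζ (k + p)) (x : G) (k : ℤ) : ∃ N₀ : ℕ, ∀ N : ℕ, N₀ ≤ N →
      |U (ζ k) (inl (h ^ (N : ℤ) * x)) - U (ζ k) (inl (h ^ (-(N : ℤ)) * x))| =
        |U (ζ k) (inr (ζ (k + 1))) - U (ζ k) (inr (ζ (k - 1)))| := by
  obtain ⟨m, hm⟩ := chain_pt hC h1 hζ x
  obtain ⟨m', hm'⟩ := chain_pt' hC h1 hζ x
  refine ⟨(|k - m'| + |m - k|).toNat, fun N hN => ?_⟩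
  have hN' : |k - m'| + |m - k| ≤ (N : ℤ) := Int.toNat_le.mp hN
  have e1 := abs_nonneg (k - m')
  have e2 := abs_nonneg (m - k)
  have e3 := le_abs_self (k - m')
  have e4 := le_abs_self (m - k)
  have hN0 : (0 : ℤ) ≤ (N : ℤ) := by positivity
  rcases lt_or_gt_of_ne hp with hneg | hpos
  · have hmul : (N : ℤ) * p ≤ -(N : ℤ) := by nlinarith
    rw [G12_hi hC h1 hζ hh x (N : ℤ) hm (k := k) (by linarith),
      G12_lo hC h1 hζ hh x (-(N : ℤ)) hm' (k := k) (by nlinarith), abs_sub_comm]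
  · have hmul : (N : ℤ) ≤ (N : ℤ) * p := by nlinarith
    rw [G12_lo hC h1 hζ hh x (N : ℤ) hm' (k := k) (by linarith),
      G12_hi hC h1 hζ hh x (-(N : ℤ)) hm (k := k) (by nlinarith)]

/-- If h = g^r with bounded orbit crossings |U b (g^m v) - U b v| ≤ X then κ ≤ 2 X: chain_lim for x = v, k = 0 and `big`. -/
theorem no_mix (hC : Ctx S U s κ₁ κu κ₀ d) (h1 : κ₀ + κ₁ + 2 * κu ≤ κ) (hζ : Chain U κ ζ) {h g v : G} {p r : ℤ} (hp : p ≠ 0)
    (hh : ∀ k, h • ζ k = ζ (k + p)) (hg : h = g ^ r) {X : ℝ}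
    (hX : ∀ (b : C) (m : ℤ), |U b (inl (g ^ m * v)) - U b (inl v)| ≤ X) : κ ≤ 2 * X := by
  obtain ⟨N₀, hN₀⟩ := chain_lim hC h1 hζ hp hh v 0
  have key := hN₀ N₀ le_rfl
  have hb := hζ.big 0
  rw [← key, hg, ← zpow_mul, ← zpow_mul] at hb
  have e1 := hX (ζ 0) (r * (N₀ : ℤ))
  have e2 := hX (ζ 0) (r * -(N₀ : ℤ))
  have e3 := abs_sub_le (U (ζ 0) (inl (g ^ (r * (N₀ : ℤ)) * v))) (U (ζ 0) (inl v))
    (U (ζ 0) (inl (g ^ (r * -(N₀ : ℤ)) * v)))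
  have e4 := abs_sub_comm (U (ζ 0) (inl v)) (U (ζ 0) (inl (g ^ (r * -(N₀ : ℤ)) * v)))
  linarith

/-- If both chains are translated by h and the crossings of ζ outside are ≤ B with B + 4κu < κ' then every member of ζ' is a member of ζ.
Suppose b := ζ' k is not a member of ζ.  y near the axis of ζ 0 (dense).  By chain_lim for ζ' (x := y) the crossing of (h^N y, h^(-N) y) on b
is ≥ κ' for large N.  h^(±N) y is near the axis of ζ (± N p): apex_close 2κu each (b ≠ ζ j); chain_two: |U b (ζ (Np)) - U b (ζ (-Np))| ≤ B. -/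
theorem range_sub (hC : Ctx S U s κ₁ κu κ₀ d) (h1 : κ₀ + κ₁ + 2 * κu ≤ κ) (hζ : Chain U κ ζ) {ζ' : ℤ → C} {κ' : ℝ}
    (h1' : κ₀ + κ₁ + 2 * κu ≤ κ') (hζ' : Chain U κ' ζ') {h : G} {p p' : ℤ} (hp : p ≠ 0) (hp' : p' ≠ 0)
    (hh : ∀ k, h • ζ k = ζ (k + p)) (hh' : ∀ k, h • ζ' k = ζ' (k + p')) {B : ℝ}
    (hB : ∀ b, (∀ k, ζ k ≠ b) → ∀ k, |U b (inr (ζ (k + 1))) - U b (inr (ζ k))| ≤ B) (hBκ : B + 4 * κu < κ') (k : ℤ) :
    ∃ j, ζ' k = ζ j := by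
  obtain ⟨hpos, hk1, h2k1⟩ := G12_pos hC h1
  by_contra hno
  have hb : ∀ j, ζ j ≠ ζ' k := fun j e => hno ⟨j, e.symm⟩
  obtain ⟨y, hy, -⟩ := S.dense (ζ 0) 0
  obtain ⟨N, hN⟩ := chain_lim hC h1' hζ' hp' hh' y k
  have key := hN N le_rfl
  have hbig := hζ'.big k
  rw [← key] at hbig
  have near : ∀ n : ℤ, |U (ζ' k) (inr (ζ (n * p))) - U (ζ' k) (inl (h ^ n * y))| ≤ 2 * κu := by
    intro n
    refine apex_close hC (hb (n * p)) ?_
    have e : ζ (n * p) = h ^ n • ζ 0 := by rw [chain_zpow hh n 0, zero_add]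
    rw [e, S.r_smul]
    exact hy
  have a1 := near (N : ℤ)
  have a2 := near (-(N : ℤ))
  have a3 := chain_two hC.proj hC.h1 hpos h2k1 hζ hb (B := B) (fun i => hB _ hb i)
    (-(N : ℤ) * p) ((N : ℤ) * p)
  rw [abs_le] at a1 a2 a3
  have a4 : |U (ζ' k) (inl (h ^ (N : ℤ) * y)) - U (ζ' k) (inl (h ^ (-(N : ℤ)) * y))| ≤
      B + 4 * κu := by
    rw [abs_le]
    constructor <;> linarith
  linarith

/-- betweenness on a chain is visible: for pairwise different i j k: U (ζ j) (ζ i) = U (ζ j) (ζ k) iff j is not between i and k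
(chain_exact and `big`). -/
theorem chain_between (hP : Proj S κ₁ κu U) (h0 : 0 < κ) (h1 : κ₁ ≤ κ) (hζ : Chain U κ ζ) {i j k : ℤ} (hij : i ≠ j) (hkj : k ≠ j) :
    U (ζ j) (inr (ζ i)) = U (ζ j) (inr (ζ k)) ↔ ¬ ((i < j ∧ j < k) ∨ (k < j ∧ j < i)) := by
  have lo : ∀ a, a < j → U (ζ j) (inr (ζ a)) = U (ζ j) (inr (ζ (j - 1))) :=
    fun a ha => (chain_exact hP h0 h1 hζ ha).2.1
  have hi : ∀ a, j < a → U (ζ j) (inr (ζ a)) = U (ζ j) (inr (ζ (j + 1))) :=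
    fun a ha => (chain_exact hP h0 h1 hζ ha).2.2
  have hne : U (ζ j) (inr (ζ (j + 1))) ≠ U (ζ j) (inr (ζ (j - 1))) := by
    intro e
    have hb := hζ.big j
    rw [e, sub_self, abs_zero] at hb
    linarith
  rcases lt_or_gt_of_ne hij with hi1 | hi1 <;> rcases lt_or_gt_of_ne hkj with hk1 | hk1
  · rw [lo i hi1, lo k hk1]
    constructor
    · intro _; omega
    · intro _; rfl
  · rw [lo i hi1, hi k hk1]
    constructor
    · intro e; exact absurd e.symm hne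
    · intro e; exact absurd (Or.inl ⟨hi1, hk1⟩) e
  · rw [hi i hi1, lo k hk1]
    constructor
    · intro e; exact absurd e hne
    · intro e; exact absurd (Or.inr ⟨hk1, hi1⟩) e
  · rw [hi i hi1, hi k hk1]
    constructor
    · intro _; omega
    · intro _; rfl
end

end Pool.Agent.helper4.PV
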