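import Mathlib
/-! PV G12S: bijections of ℤ which preserve betweenness. -/
namespace Pool.Agent.helper4.PV

/-- a bijection of ℤ which preserves strict betweenness is a translation or a reflection.
σ (k-1), σ k, σ (k+1): no element lies strictly between k and k+1, hence (surjectivity) none strictly between σ k and σ (k+1): |σ (k+1) - σ k| = 1;
k is between k-1 and k+1, so σ k is between σ (k-1) and σ (k+1): the sign σ (k+1) - σ k is constant. -/
theorem sigma_rigid {σ : ℤ → ℤ} (hσ : Function.Bijective σ)
    (hb : ∀ i j k : ℤ, i ≠ j → k ≠ j → (((i < j ∧ j < k) ∨ (k < j ∧ j < i)) ↔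
      ((σ i < σ j ∧ σ j < σ k) ∨ (σ k < σ j ∧ σ j < σ i)))) :
    (∀ k, σ k = σ 0 + k) ∨ (∀ k, σ k = σ 0 - k) := by
  have hinj : ∀ i j, σ i = σ j → i = j := fun i j h => hσ.1 h
  -- consecutive values differ by one
  have h1 : ∀ k, σ (k + 1) - σ k = 1 ∨ σ (k + 1) - σ k = -1 := by
    intro k
    by_contra hne
    push Not at hne
    have hne0 : σ (k + 1) ≠ σ k := by
      intro h
      have := hinj _ _ h
      omega
    rcases lt_or_gt_of_ne hne0 with hlt | hgt
    · obtain ⟨j, hj⟩ := hσ.2 (σ (k + 1) + 1)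
      have hj1 : k ≠ j := by
        rintro rfl
        omega
      have hj2 : k + 1 ≠ j := by
        rintro rfl
        omega
      have := (hb k j (k + 1) hj1 hj2).2 (Or.inr ⟨by omega, by omega⟩)
      omega
    · obtain ⟨j, hj⟩ := hσ.2 (σ k + 1)
      have hj1 : k ≠ j := by
        rintro rfl
        omega
      have hj2 : k + 1 ≠ j := by
        rintro rfl
        omega
      have := (hb k j (k + 1) hj1 hj2).2 (Or.inl ⟨by omega, by omega⟩)
      omega
  -- the sign is constant
  have h2 : ∀ k, σ (k + 1 + 1) - σ (k + 1) = σ (k + 1) - σ k := by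
    intro k
    have h3 := (hb k (k + 1) (k + 1 + 1) (by omega) (by omega)).1 (Or.inl ⟨by omega, by omega⟩)
    have h4 := h1 k
    have h5 := h1 (k + 1)
    omega
  have h3 : ∀ k : ℤ, σ (k + 1) - σ k = σ 1 - σ 0 := by
    intro k
    induction k using Int.induction_on with
    | zero => simp
    | succ n ih =>
      rw [h2, ih]
    | pred n ih =>
      have h4 := h2 (-(n : ℤ) - 1)
      rw [sub_add_cancel] at h4
      rw [sub_add_cancel, ← ih]
      exact h4.symm
  have h4 : ∀ k : ℤ, σ k = σ 0 + k * (σ 1 - σ 0) := by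
    intro k
    induction k using Int.induction_on with
    | zero => simp
    | succ n ih =>
      have h5 := h3 n
      linarith
    | pred n ih =>
      have h5 := h3 (-(n : ℤ) - 1)
      rw [sub_add_cancel] at h5
      linarith
  have h5 := h1 0
  rw [zero_add] at h5
  rcases h5 with h5 | h5
  · left
    intro k
    rw [h4 k, h5]
    ring
  · right
    intro k
    rw [h4 k, h5]
    ring

/-- a function on ℤ that determines the residue mod 11 excludes reflections: if σ k ≡ k mod 11 for all k and σ is a translation or reflection then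
σ k = 11 m + k. (reflection: k = 0 gives 11 ∣ σ 0, k = 1 gives 11 ∣ σ 0 - 2.) -/
theorem sigma_shift {σ : ℤ → ℤ} (h : (∀ k, σ k = σ 0 + k) ∨ (∀ k, σ k = σ 0 - k)) (h11 : ∀ k, (11 : ℤ) ∣ σ k - k) :
    ∃ m : ℤ, ∀ k, σ k = k + 11 * m := by
  obtain ⟨m, hm⟩ := h11 0
  rcases h with h | h
  · refine ⟨m, fun k => ?_⟩
    rw [h k]
    linarith
  · exfalso
    obtain ⟨m', hm'⟩ := h11 1
    rw [h 1] at hm'
    omega

end Pool.Agent.helper4.PV
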