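import Pool.Agent.helper4.PV.G08
/-! PV G13: decoding two products with the same chain of cones. -/
namespace Pool.Agent.helper4.PV
open Pool.Agent.helper50.BW
open Sum
variable {G : Type} [Group G] {D : G → G → ℝ} {C : Type} [MulAction G C] {Δ τ T : ℝ}
  {S : CSys D C KU Δ τ T} {U : C → G ⊕ C → ℝ} {s κ₁ κu κ₀ : ℝ} {d : ℕ}

/-- Two products with w t • c = w' t • c for all t.  (w t)⁻¹ w' t ∈ Stab c = <gen c> =: g^(β t) (CSys.stab), β 0 = 0.  From the recursions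
w' (t+1) = w t g^(β t) g^(q' e t) h' t and w' (t+1) = w (t+1) g^(β (t+1)) = w t g^(q e t) h t g^(β (t+1)):
h' t = g^((q - q') e t - β t) h t g^(β (t+1)).   [first statement, any e, q, q']
Positions: U c (h' t c) = U c (h t c) + ((q - q') e t - β t) ell c (rot; h t c ≠ c).  nbr_pos (G08): |U c (h t c) - u c p| ≤ H + κu,
|U c (h' t c) - u c p'| ≤ H + κu.  t = -1: (h (-1))⁻¹ c = w (-1) c = w' (-1) c = (h' (-1))⁻¹ c  (w 0 = 1 = w (-1) g^.. h (-1)), and nbr_pos for the inverses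
(D p (h⁻¹ p) = D (h p) p) gives |u c p - u c p'| ≤ 2 (H + κu).  So |(q - q') e t - β t| ell c ≤ 4 (H + κu); t = 0: β 0 = 0, e 0 ell c ≥ e 0 τ > 4(H + κu), so
q = q'. -/
theorem decode_beta (hC : Ctx S U s κ₁ κu κ₀ d) {c : C} {w w' h h' : ℤ → G} {e : ℤ → ℕ} {q q' : ℤ}
    (hw0 : w 0 = 1) (hw0' : w' 0 = 1)
    (hw : ∀ t, w (t + 1) = w t * (S.gen c ^ (q * e t) * h t)) (hw' : ∀ t, w' (t + 1) = w' t * (S.gen c ^ (q' * e t) * h' t))
    (heq : ∀ t, w t • c = w' t • c) (hne : ∀ t, h t • c ≠ c) (hne' : ∀ t, h' t • c ≠ c)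
    {p p' : G} (hp : S.r c p ≤ KU) (hp' : S.r c p' ≤ KU) {H : ℝ} (hH : ∀ t, D p (h t * p) ≤ H) (hH' : ∀ t, D p' (h' t * p') ≤ H)
    (he : 4 * (H + κu) < e 0 * τ) :
    q = q' ∧ ∃ β : ℤ → ℤ, β 0 = 0 ∧ ∀ t, h' t = S.gen c ^ (-β t) * h t * S.gen c ^ β (t + 1) := by
  have hβ : ∀ t, ∃ b : ℤ, (t = 0 → b = 0) ∧ w' t = w t * S.gen c ^ b := by
    intro t
    by_cases ht : t = 0
    · subst ht
      exact ⟨0, fun _ => rfl, by rw [hw0, hw0', zpow_zero, mul_one]⟩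
    · have h1 : ((w t)⁻¹ * w' t) • c = c := by
        rw [mul_smul, ← heq t, inv_smul_smul]
      obtain ⟨b, hb⟩ := Subgroup.mem_zpowers_iff.1 ((S.stab _ c).1 h1)
      refine ⟨b, fun h => absurd h ht, ?_⟩
      rw [hb, mul_inv_cancel_left]
  choose β hβ0 hβ using hβ
  have hrel : ∀ t, h' t = S.gen c ^ ((q - q') * e t - β t) * h t * S.gen c ^ β (t + 1) := by
    intro t
    have h1 := hβ (t + 1)
    rw [hw' t, hβ t, hw t] at h1
    have h2 : w t * (S.gen c ^ (β t + q' * e t) * h' t) =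
        w t * (S.gen c ^ (q * e t) * h t * S.gen c ^ β (t + 1)) := by
      rw [zpow_add]
      simpa only [mul_assoc] using h1
    have h3 := mul_left_cancel h2
    have h4 : h' t = (S.gen c ^ (β t + q' * e t))⁻¹ *
        (S.gen c ^ (q * e t) * h t * S.gen c ^ β (t + 1)) := by
      rw [← h3, inv_mul_cancel_left]
    rw [h4, ← zpow_neg, show ((q - q') * e t - β t : ℤ) = -(β t + q' * e t) + q * e t by ring,
      zpow_add (S.gen c) (-(β t + q' * e t))]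
    simp only [mul_assoc]
  have h00 : β 0 = 0 := hβ0 0 rfl
  have hfixg : ∀ j : ℤ, S.gen c ^ j • c = c := fun j => CSys.gen_zpow_smul S c j
  -- the positions of the next cone
  have hpos : U c (inr (h' 0 • c)) = U c (inr (h 0 • c)) + ((q - q') * e 0 : ℤ) * S.ell c := by
    have h1 := hC.proj.rot c (inr (h 0 • c)) ((q - q') * e 0)
      (fun h => hne 0 (Sum.inr_injective h))
    rw [Sum.smul_inr] at h1
    have h2 : h' 0 • c = S.gen c ^ ((q - q') * e 0) • h 0 • c := by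
      rw [hrel 0, h00, sub_zero, mul_smul, hfixg, mul_smul]
    rw [h2, h1]
  have a1 := nbr_pos hC hp (hH 0) (hne 0)
  have a2 := nbr_pos hC hp' (hH' 0) (hne' 0)
  -- the positions of the previous cone
  have hinv : ∀ {k x : G}, D x (k * x) ≤ H → D x (k⁻¹ * x) ≤ H := by
    intro k x hk
    have e1 := hC.linv k x (k⁻¹ * x)
    rw [mul_inv_cancel_left, hC.hyp.symm] at e1
    rw [← e1]
    exact hk
  have hnei : ∀ {k : G}, k • c ≠ c → k⁻¹ • c ≠ c := by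
    intro k hk h
    apply hk
    rw [← eq_inv_smul_iff]
    exact h.symm
  have hprev : ∀ {w h : ℤ → G} {q : ℤ}, w 0 = 1 →
      (∀ t, w (t + 1) = w t * (S.gen c ^ (q * e t) * h t)) → w (-1) • c = (h (-1))⁻¹ • c := by
    intro w h q h0 hr
    have h1 := hr (-1)
    rw [neg_add_cancel, h0] at h1
    have h2 : w (-1) = (h (-1))⁻¹ * (S.gen c ^ (q * e (-1)))⁻¹ := by
      rw [← mul_inv_rev]
      exact eq_inv_of_mul_eq_one_left h1.symm
    rw [h2, mul_smul, ← zpow_neg, hfixg]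
  have a3 := nbr_pos hC hp (hinv (hH (-1))) (hnei (hne (-1)))
  have a4 := nbr_pos hC hp' (hinv (hH' (-1))) (hnei (hne' (-1)))
  have h5 : (h (-1))⁻¹ • c = (h' (-1))⁻¹ • c := by
    rw [← hprev hw0 hw, ← hprev hw0' hw', heq]
  rw [h5] at a3
  rw [hpos] at a2
  have hq : q = q' := by
    by_contra hqq
    have h6 : (1 : ℝ) ≤ |((q - q' : ℤ) : ℝ)| := by
      have := Int.one_le_abs (sub_ne_zero.2 hqq)
      exact_mod_cast this
    have hell := S.ell_ge c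
    have hτ := hC.hτ
    have h7 : |(((q - q') * e 0 : ℤ) : ℝ) * S.ell c| ≤ 4 * (H + κu) := by
      rw [abs_le] at a1 a2 a3 a4 ⊢
      constructor <;> linarith [a1.1, a1.2, a2.1, a2.2, a3.1, a3.2, a4.1, a4.2]
    have h8 : |(((q - q') * e 0 : ℤ) : ℝ) * S.ell c| = |((q - q' : ℤ) : ℝ)| * (e 0 * S.ell c) := by
      rw [Int.cast_mul, Int.cast_natCast, mul_assoc, abs_mul,
        abs_of_nonneg (mul_nonneg (Nat.cast_nonneg _) (hτ.le.trans hell))]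
    have h9 : (e 0 : ℝ) * τ ≤ e 0 * S.ell c := mul_le_mul_of_nonneg_left hell (Nat.cast_nonneg _)
    have h10 : (0 : ℝ) ≤ e 0 * S.ell c := mul_nonneg (Nat.cast_nonneg _) (hτ.le.trans hell)
    have h11 := mul_le_mul_of_nonneg_right h6 h10
    rw [h8] at h7
    linarith
  refine ⟨hq, β, h00, fun t => ?_⟩
  have h12 := hrel t
  rw [hq, sub_self, zero_mul, zero_sub] at h12
  exact h12

/-- a = g^(-i) a g^j with a • c ≠ c forces i = j = 0: a⁻¹ g^i a = g^j; if i ≠ 0, Q12_fix (BW.Q12) for the cones b := c and c := a⁻¹ • c ≠ c: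
gen (a⁻¹ c) ^ i • c ≠ c, but gen (a⁻¹ c) ^ i = a⁻¹ g^i a = g^j fixes c.  So i = 0, g^j = 1, j = 0 (U c rot: j ell c = 0). -/
theorem beta_zero (hC : Ctx S U s κ₁ κu κ₀ d) {c : C} {a : G} (ha : a • c ≠ c) {i j : ℤ}
    (h : a = S.gen c ^ (-i) * a * S.gen c ^ j) : i = 0 ∧ j = 0 := by
  have hτ := hC.hτ
  have hgen : S.gen (a⁻¹ • c) = a⁻¹ * S.gen c * a := by
    rw [S.gen_smul, inv_inv]
  have hpow : S.gen (a⁻¹ • c) ^ i = S.gen c ^ j := by
    have h1 : S.gen (a⁻¹ • c) ^ i = a⁻¹ * S.gen c ^ i * a := by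
      rw [hgen]
      have h2 := conj_zpow (a := a⁻¹) (b := S.gen c) (i := i)
      rwa [inv_inv] at h2
    have h3 : S.gen c ^ i * a = a * S.gen c ^ j := by
      conv_lhs => rw [h]
      rw [zpow_neg]
      group
    rw [h1, mul_assoc, h3, inv_mul_cancel_left]
  have hi : i = 0 := by
    by_contra hi
    have hne : c ≠ a⁻¹ • c := by
      intro h
      apply ha
      rw [← eq_inv_smul_iff]
      exact h
    apply Q12_fix (S := S) hτ hne hi
    rw [hpow]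
    exact CSys.gen_zpow_smul S c j
  refine ⟨hi, ?_⟩
  rw [hi, zpow_zero] at hpow
  by_contra hj
  have h1 := CSys.u_gen_zpow S c j (1 : G)
  rw [← hpow, one_mul] at h1
  have h2 : (j : ℝ) * S.ell c = 0 := by linarith
  have hell := S.ell_ge c
  rcases mul_eq_zero.1 h2 with h3 | h3
  · exact hj (by exact_mod_cast h3)
  · linarith

/-- the final step.  Slots 0, 1: a' = a g^(β 1), a' = g^(-β 1) a g^(β 2), so a = g^(-β 1) a g^(β 2 - β 1), beta_zero: β 1 = β 2 = 0, a' = a.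
Slot 3: a = g^(-β 3) a g^(β 4): β 3 = β 4 = 0; slot 2 then gives y' a y'⁻¹ = y a y⁻¹.  Slot 5: β 5 = β 6 = 0, slot 4: y'(u a u⁻¹)y'⁻¹ = ...
Slot 7: β 7 = β 8 = 0, slot 6; slot 9: β 9 = β 10 = 0, slot 8. -/
theorem decode_final (hC : Ctx S U s κ₁ κu κ₀ d) {c : C} {a y z a' y' z' u : G} {β : ℕ → ℤ} (hac : a • c ≠ c) (h0 : β 0 = 0)
    (h : ∀ t : Fin 11, hh a' y' z' u t = S.gen c ^ (-β t) * hh a y z u t * S.gen c ^ β (t + 1)) :
    a' = a ∧ y' * a * y'⁻¹ = y * a * y⁻¹ ∧ y' * (u * a * u⁻¹) * y'⁻¹ = y * (u * a * u⁻¹) * y⁻¹ ∧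
      z' * a * z'⁻¹ = z * a * z⁻¹ ∧ z' * (u * a * u⁻¹) * z'⁻¹ = z * (u * a * u⁻¹) * z⁻¹ := by
  have e0 : a' = S.gen c ^ (-β 0) * a * S.gen c ^ β 1 := h 0
  have e1 : a' = S.gen c ^ (-β 1) * a * S.gen c ^ β 2 := h 1
  have e2 : y' * a' * y'⁻¹ = S.gen c ^ (-β 2) * (y * a * y⁻¹) * S.gen c ^ β 3 := h 2
  have e3 : a' = S.gen c ^ (-β 3) * a * S.gen c ^ β 4 := h 3
  have e4 : y' * (u * a' * u⁻¹) * y'⁻¹ =
    S.gen c ^ (-β 4) * (y * (u * a * u⁻¹) * y⁻¹) * S.gen c ^ β 5 := h 4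
  have e5 : a' = S.gen c ^ (-β 5) * a * S.gen c ^ β 6 := h 5
  have e6 : z' * a' * z'⁻¹ = S.gen c ^ (-β 6) * (z * a * z⁻¹) * S.gen c ^ β 7 := h 6
  have e7 : a' = S.gen c ^ (-β 7) * a * S.gen c ^ β 8 := h 7
  have e8 : z' * (u * a' * u⁻¹) * z'⁻¹ =
    S.gen c ^ (-β 8) * (z * (u * a * u⁻¹) * z⁻¹) * S.gen c ^ β 9 := h 8
  have e9 : a' = S.gen c ^ (-β 9) * a * S.gen c ^ β 10 := h 9
  rw [h0, neg_zero, zpow_zero, one_mul] at e0
  have h1 : a = S.gen c ^ (-β 1) * a * S.gen c ^ (β 2 - β 1) := by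
    have h2 : a * S.gen c ^ β 1 = S.gen c ^ (-β 1) * a * S.gen c ^ β 2 := e0.symm.trans e1
    rw [sub_eq_add_neg, zpow_add, ← mul_assoc, ← h2, zpow_neg, mul_inv_cancel_right]
  obtain ⟨b1, b2'⟩ := beta_zero hC hac h1
  have b2 : β 2 = 0 := by omega
  have ha : a' = a := by rw [e0, b1, zpow_zero, mul_one]
  rw [ha] at e2 e3 e4 e5 e6 e7 e8 e9
  obtain ⟨b3, b4⟩ := beta_zero hC hac e3
  obtain ⟨b5, b6⟩ := beta_zero hC hac e5
  obtain ⟨b7, b8⟩ := beta_zero hC hac e7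
  obtain ⟨b9, b10⟩ := beta_zero hC hac e9
  rw [b2, b3, neg_zero, zpow_zero, one_mul, mul_one] at e2
  rw [b4, b5, neg_zero, zpow_zero, one_mul, mul_one] at e4
  rw [b6, b7, neg_zero, zpow_zero, one_mul, mul_one] at e6
  rw [b8, b9, neg_zero, zpow_zero, one_mul, mul_one] at e8
  exact ⟨ha, e2, e4, e6, e8⟩

end Pool.Agent.helper4.PV
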