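import Pool.Agent.helper4.PV.DefsH
import Pool.Agent.helper4.PV.G05
import Pool.Agent.helper4.PV.G08
/-! PV G15: the chain of the test word at the level of the marker. -/
namespace Pool.Agent.helper4.PV
open Pool.Agent.helper50.BW
open Sum
variable {G : Type} [Group G] {D : G → G → ℝ} {C : Type} [MulAction G C]
  {S : CSys D C KU cD ctau cT} {U : C → G ⊕ C → ℝ} {d : ℕ} {P : Par} {c : C} {q : ℤ} {v a y z : G}

theorem G15_mul (hF : FullT S U d) (v g h : G) : D v (g * h * v) ≤ D v (g * v) + D v (h * v) := by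
  have h1 := hF.ctx.hyp.tri v (g * v) (g * h * v)
  have h2 : D (g * v) (g * h * v) = D v (h * v) := by
    rw [mul_assoc]
    exact hF.ctx.linv g v (h * v)
  linarith

theorem G15_inv (hF : FullT S U d) (v g : G) : D v (g⁻¹ * v) = D v (g * v) := by
  have h1 := hF.ctx.linv g v (g⁻¹ * v)
  rw [mul_inv_cancel_left] at h1
  rw [← h1]
  exact hF.ctx.hyp.symm _ _

theorem G15_conj (hF : FullT S U d) (v g h : G) :
    D v (g * h * g⁻¹ * v) ≤ 2 * D v (g * v) + D v (h * v) := by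
  have h1 := G15_mul hF v (g * h) g⁻¹
  have h2 := G15_mul hF v g h
  rw [G15_inv hF] at h1
  linarith

theorem G15_pow (hF : FullT S U d) (v g : G) (n : ℕ) : D v (g ^ n * v) ≤ n * D v (g * v) := by
  induction n with
  | zero => simp [hF.ctx.hyp.refl]
  | succ n ih =>
    have h1 := G15_mul hF v (g ^ n) g
    rw [pow_succ]
    push_cast
    linarith

theorem G15_list (hF : FullT S U d) (v : G) (l : List G) :
    D v (l.prod * v) ≤ (l.map fun g => D v (g * v)).sum := by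
  induction l with
  | nil => simp [hF.ctx.hyp.refl]
  | cons g l ih =>
    rw [List.prod_cons, List.map_cons, List.sum_cons]
    have h1 := G15_mul hF v g l.prod
    linarith

theorem G15_hh_cases {G : Type} [Group G] (a y z c : G) (t : Fin 11) :
    hh a y z c t = a ∨ hh a y z c t = y * a * y⁻¹ ∨ hh a y z c t = y * (c * a * c⁻¹) * y⁻¹ ∨
      hh a y z c t = z * a * z⁻¹ ∨ hh a y z c t = z * (c * a * c⁻¹) * z⁻¹ ∨
      hh a y z c t = (a ^ 10)⁻¹ := by
  fin_cases t <;> simp [hh]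

/-- the connectors are torsion and ≠ 1: conjugates of a or a^(-10); a^10 ≠ 1 because d is prime, d > 10 (from b0: d is huge since ctau < 1) and a^d = 1. -/
theorem RL.tor_hh (hF : FullT S U d) (hD : DOK P d) (h : RL S d P c q v a y z) (t : Fin 11) :
    hh a y z (mkr P a y z) t ^ d = 1 ∧ hh a y z (mkr P a y z) t ≠ 1 := by
  have hconj : ∀ g x : G, x ^ d = 1 ∧ x ≠ 1 → (g * x * g⁻¹) ^ d = 1 ∧ g * x * g⁻¹ ≠ 1 := by
    rintro g x ⟨h1, h2⟩
    refine ⟨by rw [conj_pow, h1, mul_one, mul_inv_cancel], ?_⟩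
    intro h3
    exact h2 (conj_eq_one_iff.1 h3)
  have ha : a ^ d = 1 ∧ a ≠ 1 := ⟨h.tor, h.ne⟩
  rcases G15_hh_cases a y z (mkr P a y z) t with h1 | h1 | h1 | h1 | h1 | h1 <;> rw [h1]
  · exact ha
  · exact hconj _ _ ha
  · exact hconj _ _ (hconj _ _ ha)
  · exact hconj _ _ ha
  · exact hconj _ _ (hconj _ _ ha)
  · constructor
    · rw [inv_pow, ← pow_mul, mul_comm, pow_mul, h.tor, one_pow, inv_one]
    · intro h2
      rw [inv_eq_one] at h2
      have h4 : (10 : ℝ) < d := by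
        have h5 := hD.b0
        have h6 : (d : ℝ) * ctau ≤ d * 1 := mul_le_mul_of_nonneg_left ctau_le (Nat.cast_nonneg d)
        have h7 : (10 : ℝ) < 10000 * ck0 := by norm_num
        linarith
      have h5 : 10 < d := by exact_mod_cast h4
      have h3 : Nat.gcd 10 d = 1 := by
        have h6 : Nat.Coprime d 10 := (Nat.Prime.coprime_iff_not_dvd hD.pr).2 fun h7 => by
          have := Nat.le_of_dvd (by norm_num) h7
          omega
        exact h6.symm
      have h6 : a ^ Nat.gcd 10 d = 1 := pow_gcd_eq_one.2 ⟨h2, h.tor⟩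
      rw [h3, pow_one] at h6
      exact h.ne h6

/-- so they do not fix the cone c: otherwise hh = gen c ^ i (stab), i ≠ 0, and (gen c ^ i)^d ≠ 1 (BW Stg.lox_zpow, gen_lox) -/
theorem RL.hh_ne (hF : FullT S U d) (hD : DOK P d) (h : RL S d P c q v a y z) (t : Fin 11) :
    hh a y z (mkr P a y z) t • c ≠ c := by
  intro h1
  obtain ⟨h2, h3⟩ := h.tor_hh hF hD t
  obtain ⟨i, hi⟩ := Subgroup.mem_zpowers_iff.1 ((S.stab _ _).1 h1)
  have hi0 : i ≠ 0 := by
    rintro rfl
    rw [zpow_zero] at hi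
    exact h3 hi.symm
  have h4 := hF.stg.lox_zpow hF.ctx.odd.pos ctau_pos (hF.gen_lox c) hi0
  rw [hi] at h4
  exact h4 h2

/-- displacement at v: a^n: 1; y a y⁻¹: D v (y a y⁻¹ v) ≤ 2 D v (y v) + D v (a v) ≤ 2Rm + 1; y (u a u⁻¹) y⁻¹: ≤ 2Rm + 2Ru + 1 -/
theorem RL.disp_hh (hF : FullT S U d) (h : RL S d P c q v a y z) (t : Fin 11) :
    D v (hh a y z (mkr P a y z) t * v) ≤ Hv P := by
  have h0 : D v (a * v) ≤ 1 := by simpa using h.da 1
  have hR : 0 ≤ Ru P := (hF.ctx.hyp.nonneg _ _).trans h.du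
  have hRm : 0 ≤ Rm := by unfold Rm; norm_num
  have hc := G15_conj hF v (mkr P a y z) a
  have hdu := h.du
  have hdy := h.dy
  have hdz := h.dz
  rcases G15_hh_cases a y z (mkr P a y z) t with h1 | h1 | h1 | h1 | h1 | h1 <;> rw [h1] <;>
    unfold Hv
  · linarith
  · have := G15_conj hF v y a
    linarith
  · have := G15_conj hF v y (mkr P a y z * a * (mkr P a y z)⁻¹)
    linarith
  · have := G15_conj hF v z a
    linarith
  · have := G15_conj hF v z (mkr P a y z * a * (mkr P a y z)⁻¹)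
    linarith
  · have h2 := h.da (-10)
    have e : a ^ (-10 : ℤ) = (a ^ 10)⁻¹ := by
      rw [zpow_neg, zpow_ofNat]
    rw [e] at h2
    linarith

/-- p := projection of v to the axis of c (BW exists_proj); r c v ≤ rr ctau (Ru P) by cone_near (G07) for gen c ^ q = mk;
D p (h p) ≤ D v (h v) + 2 D v p ≤ HH P (BW disp_le) -/
theorem RL.exists_p (hF : FullT S U d) (h : RL S d P c q v a y z) :
    ∃ p, S.r c p ≤ KU ∧ D v p ≤ Rp P ∧ ∀ t, D p (hh a y z (mkr P a y z) t * p) ≤ HH P := by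
  obtain ⟨p, hp, -, hvp⟩ := exists_proj S c v
  have h1 : S.r c v ≤ rr ctau (Ru P) :=
    cone_near hF.ctx.hyp hF.ctx.linv ctau_pos h.hq (by rw [← h.hc]; exact h.du)
  have h2 : D v p ≤ Rp P := by
    unfold Rp
    linarith
  refine ⟨p, hp, h2, fun t => ?_⟩
  have h3 := disp_le hF.ctx.hyp hF.ctx.linv (hh a y z (mkr P a y z) t) p v
  have h4 := h.disp_hh hF t
  rw [hF.ctx.hyp.symm p v] at h3
  unfold HH
  linarith

/-- the two-sided product.  exists_w, w_per (G06) with x t := gen c ^ (q * e (fi t)) * hh .. (fi t), period 11;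
w 11 = product of the 11 factors = wprod P.e (mk) (hh ..) = Wt P a y z because mk = gen c ^ q. -/
theorem RL.exists_ww (h : RL S d P c q v a y z) : ∃ w : ℤ → G, w 0 = 1 ∧
    (∀ t, w (t + 1) = w t * (S.gen c ^ (q * P.e (fi t)) * hh a y z (mkr P a y z) (fi t))) ∧
    (∀ t, w (t + 11) = w 11 * w t) ∧ w 11 = Wt P a y z := by
  obtain ⟨w, h0, hw⟩ := exists_w
    (fun t : ℤ => S.gen c ^ (q * P.e (fi t)) * hh a y z (mkr P a y z) (fi t))
  have hfi : ∀ t : ℤ, fi (t + 11) = fi t := by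
    intro t
    unfold fi
    simp
  refine ⟨w, h0, hw, fun t => w_per (p := 11) (fun t => by simp only [hfi]) h0 hw t, ?_⟩
  have key : ∀ k : ℕ, k ≤ 11 → w k =
      ((List.ofFn fun t : Fin 11 => mkr P a y z ^ P.e t * hh a y z (mkr P a y z) t).take k).prod := by
    intro k
    induction k with
    | zero => intro _; simp [h0]
    | succ k ih =>
      intro hk
      have hk' : k < (List.ofFn fun t : Fin 11 =>
          mkr P a y z ^ P.e t * hh a y z (mkr P a y z) t).length := by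
        rw [List.length_ofFn]; omega
      rw [List.prod_take_succ _ _ hk', ← ih (by omega)]
      push_cast
      rw [hw, List.getElem_ofFn]
      have e : fi (k : ℤ) = ⟨k, by omega⟩ := by
        unfold fi
        rw [Fin.mk.injEq]
        omega
      rw [e, h.hc, zpow_mul, zpow_natCast]
  have h1 := key 11 le_rfl
  rw [List.take_of_length_le (by simp)] at h1
  exact h1

/-- |q| ell c ≥ ctau and |q| ell c ≤ Ru P (G07 cone_exp and du). -/
theorem RL.qell (hF : FullT S U d) (h : RL S d P c q v a y z) :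
    ctau ≤ |(q : ℝ)| * S.ell c ∧ |(q : ℝ)| * S.ell c ≤ Ru P := by
  constructor
  · have h1 : (1 : ℝ) ≤ |(q : ℝ)| := by
      rw [← Int.cast_abs]
      exact_mod_cast Int.one_le_abs h.hq
    have h2 := S.ell_ge c
    have h3 := ctau_pos
    calc ctau ≤ S.ell c := h2
      _ = 1 * S.ell c := (one_mul _).symm
      _ ≤ |(q : ℝ)| * S.ell c := mul_le_mul_of_nonneg_right h1 (h3.le.trans h2)
  · refine (cone_exp (S := S) c q v).trans ?_
    rw [← h.hc]
    exact h.du

theorem G15_core (hF : FullT S U d) (hD : DOK P d) (h : RL S d P c q v a y z) (s t : Fin 11) :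
    P.e t * ctau - E2 P ≤ |((q * P.e t : ℤ) : ℝ) * S.ell c +
        U c (inr (hh a y z (mkr P a y z) t • c)) -
        U c (inr ((hh a y z (mkr P a y z) s)⁻¹ • c))| ∧
    |((q * P.e t : ℤ) : ℝ) * S.ell c + U c (inr (hh a y z (mkr P a y z) t • c)) -
        U c (inr ((hh a y z (mkr P a y z) s)⁻¹ • c))| ≤ P.e t * Ru P + E2 P := by
  obtain ⟨p, hp, hvp, hH⟩ := h.exists_p hF
  have h1 := nbr_pos hF.ctx hp (hH t) (h.hh_ne hF hD t)
  have hne : (hh a y z (mkr P a y z) s)⁻¹ • c ≠ c := by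
    intro h2
    exact h.hh_ne hF hD s (inv_smul_eq_iff.1 h2).symm
  have hHs : D p ((hh a y z (mkr P a y z) s)⁻¹ * p) ≤ HH P := by
    rw [G15_inv hF]
    exact hH s
  have h2 := nbr_pos hF.ctx hp hHs hne
  set A := U c (inr (hh a y z (mkr P a y z) t • c))
  set B := U c (inr ((hh a y z (mkr P a y z) s)⁻¹ • c))
  have h3 : |A - B| ≤ E2 P := by
    have h4 : A - B = (A - S.u c p) - (B - S.u c p) := by ring
    rw [h4]
    refine (abs_sub _ _).trans ?_
    unfold E2
    linarith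
  obtain ⟨h5, h6⟩ := h.qell hF
  have h7 : |((q * P.e t : ℤ) : ℝ) * S.ell c| = P.e t * (|(q : ℝ)| * S.ell c) := by
    rw [abs_mul, abs_of_nonneg (ctau_pos.le.trans (S.ell_ge c))]
    push_cast
    rw [abs_mul, Nat.abs_cast]
    ring
  have h8 : (P.e t : ℝ) * ctau ≤ P.e t * (|(q : ℝ)| * S.ell c) :=
    mul_le_mul_of_nonneg_left h5 (Nat.cast_nonneg _)
  have h9 : (P.e t : ℝ) * (|(q : ℝ)| * S.ell c) ≤ P.e t * Ru P :=
    mul_le_mul_of_nonneg_left h6 (Nat.cast_nonneg _)
  set x := ((q * P.e t : ℤ) : ℝ) * S.ell c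
  have h10 : |x + A - B| ≤ |x| + |A - B| := by
    rw [add_sub_assoc]
    exact abs_add_le _ _
  have h11 : |x| ≤ |x + A - B| + |A - B| := by
    have h12 : x = (x + A - B) - (A - B) := by ring
    calc |x| = |(x + A - B) - (A - B)| := by rw [← h12]
      _ ≤ _ := abs_sub _ _
  constructor <;> linarith

/-- size of the crossing at position t: pchain_cross (G06) with r t := q * e (fi t): the crossing is q e ell c + U c (h c) - U c (h'⁻¹ c), the last two
differ by at most 2 (HH + cku) = E2 (nbr_pos for p, also for inverses). -/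
theorem RL.size (hF : FullT S U d) (hD : DOK P d) (h : RL S d P c q v a y z) {w : ℤ → G}
    (hw : ∀ t, w (t + 1) = w t * (S.gen c ^ (q * P.e (fi t)) * hh a y z (mkr P a y z) (fi t))) (t : ℤ) :
    P.e (fi t) * ctau - E2 P ≤ |U (w t • c) (inr (w (t + 1) • c)) - U (w t • c) (inr (w (t - 1) • c))| ∧
    |U (w t • c) (inr (w (t + 1) • c)) - U (w t • c) (inr (w (t - 1) • c))| ≤ P.e (fi t) * Ru P + E2 P := by
  have h1 := pchain_cross hF.ctx.proj (h := fun t => hh a y z (mkr P a y z) (fi t))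
    (r := fun t => q * P.e (fi t)) hw (fun t => h.hh_ne hF hD (fi t)) t
  rw [h1]
  exact G15_core hF hD h (fi (t - 1)) (fi t)

theorem G15_Hv (hR : 0 ≤ Ru P) : 0 ≤ Hv P := by
  unfold Hv Rm
  linarith

theorem G15_rr {R : ℝ} (hR : 0 ≤ R) : 0 ≤ rr ctau R := by
  unfold rr
  have := ctau_pos
  positivity

theorem G15_HH (hR : 0 ≤ Ru P) : 0 ≤ HH P := by
  have h1 := G15_Hv hR
  have h2 := G15_rr hR
  unfold HH Rp
  have h3 : (0 : ℝ) ≤ KU := by norm_num
  linarith

theorem G15_E2 (hR : 0 ≤ Ru P) : 0 ≤ E2 P := by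
  have h1 := G15_HH hR
  have h3 : (0 : ℝ) ≤ cku := by norm_num
  unfold E2
  linarith

theorem G15_Ru (hP : ParOK P) : ctau ≤ Ru P := by
  have hRx : 1 ≤ Rx := by unfold Rx Rm; norm_num
  have hRt : 0 ≤ Rt := by unfold Rt; have : (0 : ℝ) ≤ cA := by norm_num
                          linarith
  have h1 := hP.hn 0
  have h2 : (0 : ℝ) ≤ nsum P 0 * Rx := mul_nonneg (Nat.cast_nonneg _) (by linarith)
  have h3 := G15_rr (R := Rx) (by linarith)
  have h4 : (0 : ℝ) < 2 * cku + 2 * ck0 := by norm_num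
  have h5 : (0 : ℝ) ≤ KU := by norm_num
  have h6 : 0 < (P.n 0 : ℝ) * ctau := by linarith
  have h7 : 0 < P.n 0 := by
    rcases Nat.eq_zero_or_pos (P.n 0) with h8 | h8
    · rw [h8] at h6
      simp at h6
    · exact h8
  unfold Ru
  have h8 : (1 : ℝ) ≤ ((P.n 0 + P.n 1 + P.n 2 + P.n 3 : ℕ) : ℝ) := by
    exact_mod_cast (by omega : 1 ≤ P.n 0 + P.n 1 + P.n 2 + P.n 3)
  have h9 := ctau_le
  nlinarith

theorem G15_lt (hP : ParOK P) {s t : Fin 11} (hst : s < t) :
    P.e s * Ru P + 2 * E2 P < P.e t * ctau := by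
  have hR := G15_Ru hP
  have hR0 : 0 ≤ Ru P := ctau_pos.le.trans hR
  have hE := G15_E2 hR0
  have key : ∀ n : ℕ, ∀ hn : n < 10, ∀ m : ℕ, ∀ hm : m ≤ n,
      P.e ⟨m, by omega⟩ * Ru P + 2 * E2 P < P.e ⟨n + 1, by omega⟩ * ctau := by
    intro n
    induction n with
    | zero =>
      intro hn m hm
      obtain rfl : m = 0 := by omega
      exact hP.sc ⟨0, hn⟩
    | succ n ih =>
      intro hn m hm
      rcases Nat.lt_or_ge m (n + 1) with h1 | h1
      · have h2 := ih (by omega) m (by omega)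
        have h3 : (P.e ⟨n + 1, by omega⟩ : ℝ) * Ru P + 2 * E2 P < P.e ⟨n + 1 + 1, by omega⟩ * ctau :=
          hP.sc ⟨n + 1, hn⟩
        have h4 : (P.e ⟨n + 1, by omega⟩ : ℝ) * ctau ≤ P.e ⟨n + 1, by omega⟩ * Ru P :=
          mul_le_mul_of_nonneg_left hR (Nat.cast_nonneg _)
        linarith
      · obtain rfl : m = n + 1 := by omega
        exact hP.sc ⟨n + 1, hn⟩
  obtain ⟨s, hs⟩ := s
  obtain ⟨t, ht⟩ := t
  have hst' : s < t := hst
  obtain ⟨n, rfl⟩ : ∃ n, t = n + 1 := ⟨t - 1, by omega⟩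
  exact key n (by omega) s (by omega)

theorem G15_kap (hP : ParOK P) (t : Fin 11) : kap P ≤ P.e t * ctau - E2 P := by
  unfold kap
  rcases Fin.eq_zero_or_eq_succ t with h1 | ⟨j, h1⟩
  · rw [h1]
  · have h2 : (0 : Fin 11) < t := by rw [h1]; exact Fin.succ_pos j
    have h3 := G15_lt hP h2
    have hR := G15_Ru hP
    have hE := G15_E2 (ctau_pos.le.trans hR)
    have h4 : (P.e 0 : ℝ) * ctau ≤ P.e 0 * Ru P :=
      mul_le_mul_of_nonneg_left hR (Nat.cast_nonneg _)
    linarith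

/-- pchain (G06) and RL.size; e (fi t) ≥ e 0 follows from ParOK.sc (the sequence e is increasing: e_t Ru < e_{t+1} ctau, Ru ≥ ctau). -/
theorem RL.chain (hF : FullT S U d) (hP : ParOK P) (hD : DOK P d) (h : RL S d P c q v a y z) {w : ℤ → G}
    (hw : ∀ t, w (t + 1) = w t * (S.gen c ^ (q * P.e (fi t)) * hh a y z (mkr P a y z) (fi t))) :
    Chain U (kap P) (fun t => w t • c) :=
  pchain hF.ctx.proj (h := fun t => hh a y z (mkr P a y z) (fi t))
    (r := fun t => q * P.e (fi t)) hw (fun t => h.hh_ne hF hD (fi t))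
    (fun t => (G15_kap hP (fi t)).trans (G15_core hF hD h (fi (t - 1)) (fi t)).1)

/-- pchain_third (G06) with nbr_third (G08) -/
theorem RL.third (hF : FullT S U d) (hD : DOK P d) (h : RL S d P c q v a y z) {w : ℤ → G}
    (hw : ∀ t, w (t + 1) = w t * (S.gen c ^ (q * P.e (fi t)) * hh a y z (mkr P a y z) (fi t))) (t : ℤ) (b : C)
    (hb : b ≠ w t • c) (hb' : b ≠ w (t + 1) • c) :
    |U b (inr (w (t + 1) • c)) - U b (inr (w t • c))| ≤ HH P + 6 * cku := by
  obtain ⟨p, hp, hvp, hH⟩ := h.exists_p hF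
  exact pchain_third hF.ctx.proj (h := fun t => hh a y z (mkr P a y z) (fi t))
    (r := fun t => q * P.e (fi t)) hw
    (f := fun _ => HH P + 6 * cku)
    (fun t b hb hb' => nbr_third hF.ctx hp (hH (fi t)) hb hb') t b hb hb'

/-- different positions mod 11 have different sizes: by ParOK.sc, for s < t in Fin 11: e s * Ru + E2 < e t * ctau - E2. -/
theorem size_inj (hP : ParOK P) {s t : Fin 11} {x : ℝ} (h1 : P.e s * ctau - E2 P ≤ x) (h2 : x ≤ P.e s * Ru P + E2 P)
    (h3 : P.e t * ctau - E2 P ≤ x) (h4 : x ≤ P.e t * Ru P + E2 P) : s = t := by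
  rcases lt_trichotomy s t with h | h | h
  · have := G15_lt hP h
    linarith
  · exact h
  · have := G15_lt hP h
    linarith

/-- chain_nt (G05) with κ := kap P, g := w 11 = Wt, p := 11 (w (t+11) • c = w 11 • w t • c); hB from RL.third and DOK.bH, hB' from RL.size and DOK.bE
(P.e t ≤ ∑ P.e). -/
theorem RL.nt (hF : FullT S U d) (hP : ParOK P) (hD : DOK P d) (h : RL S d P c q v a y z) : Wt P a y z ^ d ∉ NN S d := by
  obtain ⟨w, h0, hw, hper, hW⟩ := h.exists_ww
  have hR : 0 ≤ Ru P := ctau_pos.le.trans (G15_Ru hP)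
  have hE := G15_E2 hR
  have hH := G15_HH hR
  have hku : (0 : ℝ) ≤ cku := by norm_num
  have hd : ∀ b : C, (d : ℝ) * ctau ≤ d * S.ell b := fun b =>
    mul_le_mul_of_nonneg_left (S.ell_ge b) (Nat.cast_nonneg _)
  have hd0 : 0 ≤ (d : ℝ) * ctau := mul_nonneg (Nat.cast_nonneg _) ctau_pos.le
  rw [← hW]
  refine chain_nt hF.ctx (κ := kap P) ?_ (h.chain hF hP hD hw) (p := 11) (by norm_num) ?_ ?_ ?_
  · have h1 := hP.k1
    have h2 : (0 : ℝ) ≤ ck0 := by norm_num
    linarith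
  · intro k
    show w 11 • w k • c = w (k + 11) • c
    rw [hper, mul_smul]
  · intro b k hb hb'
    refine (h.third hF hD hw k b hb hb').trans ?_
    have h1 := hD.bH
    have h2 := hd b
    linarith
  · intro k
    refine (h.size hF hD hw k).2.trans ?_
    have h1 := hD.bE
    have h2 := hd (w k • c)
    have h3 : P.e (fi k) ≤ ∑ t, P.e t := Finset.single_le_sum (fun _ _ => Nat.zero_le _) (Finset.mem_univ _)
    have h4 : (P.e (fi k) : ℝ) * Ru P ≤ ((∑ t, P.e t : ℕ) : ℝ) * Ru P :=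
      mul_le_mul_of_nonneg_right (by exact_mod_cast h3) hR
    linarith

/-- D v (gen c ^ (q e) v) = D v (mk ^ e v) ≤ e Ru; 11 connectors ≤ Hv each -/
theorem RL.disp (hF : FullT S U d) (h : RL S d P c q v a y z) : D v (Wt P a y z * v) ≤ RW P := by
  have h1 := G15_list hF v
    (List.ofFn fun t : Fin 11 => mkr P a y z ^ P.e t * hh a y z (mkr P a y z) t)
  rw [List.map_ofFn, List.sum_ofFn] at h1
  refine (show D v (Wt P a y z * v) ≤ _ from h1).trans ?_
  have h2 : ∀ t : Fin 11, D v (mkr P a y z ^ P.e t * hh a y z (mkr P a y z) t * v) ≤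
      P.e t * Ru P + Hv P := by
    intro t
    have h3 := G15_mul hF v (mkr P a y z ^ P.e t) (hh a y z (mkr P a y z) t)
    have h4 := G15_pow hF v (mkr P a y z) (P.e t)
    have h5 := h.disp_hh hF t
    have h6 : (P.e t : ℝ) * D v (mkr P a y z * v) ≤ P.e t * Ru P :=
      mul_le_mul_of_nonneg_left h.du (Nat.cast_nonneg _)
    linarith
  refine (Finset.sum_le_sum fun t _ => h2 t).trans ?_
  rw [Finset.sum_add_distrib, ← Finset.sum_mul]
  unfold RW
  push_cast
  simp

/-- p near the axis of ζ 0 = c, Wt p near the axis of ζ 11; on the cone ζ 5: U (ζ 5) p = U (ζ 5) (ζ 0) + O(2κu), U (ζ 5) (Wt p) = U (ζ 5) (ζ 11) + O(2κu)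
(apex_close); chain_exact: the difference of the positions is the crossing at ζ 5, ≥ kap P.  cross_le_dist: D p (Wt p) ≥ kap - 6κu; D v (Wt v) ≥ D p (Wt p) - 2Rp;
ParOK.k4. -/
theorem RL.long (hF : FullT S U d) (hP : ParOK P) (hD : DOK P d) (h : RL S d P c q v a y z) :
    Rm < D v (Wt P a y z * v) := by
  obtain ⟨w, h0, hw, hper, hW⟩ := h.exists_ww
  obtain ⟨p, hp, hvp, hH⟩ := h.exists_p hF
  have hch := h.chain hF hP hD hw
  have hk1 := hP.k1
  have hk4 := hP.k4
  have hck0 : (0 : ℝ) < ck0 := by norm_num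
  have hck1 : (0 : ℝ) ≤ ck1 := by norm_num
  have hku : (0 : ℝ) ≤ cku := by norm_num
  have hκ0 : 0 < kap P := by linarith
  have hκ1 : ck1 ≤ kap P := by linarith
  have e1 := chain_exact hF.ctx.proj hκ0 hκ1 hch (i := 0) (k := 5) (by norm_num)
  have e2 := chain_exact hF.ctx.proj hκ0 hκ1 hch (i := 5) (k := 11) (by norm_num)
  obtain ⟨n1, e1, -⟩ := e1
  obtain ⟨n2, -, e2⟩ := e2
  have hbig := hch.big 5
  norm_num at e1 e2 hbig
  rw [h0, one_smul] at n1 e1
  have a1 := apex_close hF.ctx (b := c) (c := w 5 • c) n1 hp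
  have hp' : S.r (w 11 • c) (w 11 * p) ≤ KU := by
    rw [S.r_smul]
    exact hp
  have a2 := apex_close hF.ctx (b := w 11 • c) (c := w 5 • c) (Ne.symm n2) hp'
  have a3 := cross_le_dist hF.ctx (w 5 • c) p (w 11 * p)
  rw [e1] at a1
  rw [e2] at a2
  have a4 := disp_le hF.ctx.hyp hF.ctx.linv (w 11) p v
  rw [hF.ctx.hyp.symm p v] at a4
  rw [← hW]
  have a5 := abs_le.1 a1
  have a6 := abs_le.1 a2
  have a7 : |U (w 5 • c) (inr (w 6 • c)) - U (w 5 • c) (inr (w 4 • c))| ≤
      |U (w 5 • c) (inl (w 11 * p)) - U (w 5 • c) (inl p)| + 4 * cku := by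
    have a8 : U (w 5 • c) (inr (w 6 • c)) - U (w 5 • c) (inr (w 4 • c)) =
        (U (w 5 • c) (inl (w 11 * p)) - U (w 5 • c) (inl p)) +
          ((U (w 5 • c) (inr (w 6 • c)) - U (w 5 • c) (inl (w 11 * p))) -
            (U (w 5 • c) (inr (w 4 • c)) - U (w 5 • c) (inl p))) := by ring
    rw [a8]
    refine (abs_add_le _ _).trans ?_
    have a9 := abs_sub (U (w 5 • c) (inr (w 6 • c)) - U (w 5 • c) (inl (w 11 * p)))
      (U (w 5 • c) (inr (w 4 • c)) - U (w 5 • c) (inl p))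
    linarith
  linarith

end Pool.Agent.helper4.PV
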