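import Pool.Agent.helper4.PV.G11
import Pool.Agent.helper4.PV.G12
import Pool.Agent.helper4.PV.G12S
import Pool.Agent.helper4.PV.G13
import Pool.Agent.helper4.PV.G15
/-! PV G16: two realizations at the same level with a common power of the test words. -/
namespace Pool.Agent.helper4.PV
open Pool.Agent.helper50.BW
open Sum
variable {G : Type} [Group G] {D : G → G → ℝ} {C : Type} [MulAction G C]
  {S : CSys D C KU cD ctau cT} {U : C → G ⊕ C → ℝ} {d : ℕ} {P : Par} {c c' : C} {q q' : ℤ} {v v' a a' y y' z z' : G}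

/-- the translation by w 11 -/
theorem G16_smul {w : ℤ → G} (hp : ∀ t, w (t + 11) = w 11 * w t) (c : C) (k : ℤ) :
    w 11 • (fun t => w t • c) k = (fun t => w t • c) (k + 11) := by
  show w 11 • w k • c = w (k + 11) • c
  rw [hp, mul_smul]

theorem G16_pow {w : ℤ → G} (hp : ∀ t, w (t + 11) = w 11 * w t) (m k : ℤ) :
    w (k + 11 * m) = w 11 ^ m * w k := by
  induction m using Int.induction_on with
  | zero => simp
  | succ n ih =>
    rw [show k + 11 * ((n : ℤ) + 1) = (k + 11 * n) + 11 by ring, hp, ih, zpow_add_one,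
      ← mul_assoc, (Commute.refl (w 11)).zpow_right (n : ℤ) |>.eq]
  | pred n ih =>
    have h1 := hp (k + 11 * (-(n : ℤ) - 1))
    rw [show k + 11 * (-(n : ℤ) - 1) + 11 = k + 11 * (-(n : ℤ)) by ring, ih] at h1
    rw [zpow_sub_one, mul_assoc]
    have h2 : (w 11)⁻¹ * (w 11 ^ (-(n : ℤ)) * w k) = w (k + 11 * (-(n : ℤ) - 1)) := by
      rw [h1, inv_mul_cancel_left]
    rw [← h2, ← mul_assoc, ← mul_assoc]
    congr 1
    exact (((Commute.refl (w 11)).inv_left).zpow_right (-(n : ℤ))).eq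

theorem G16_ck : (0 : ℝ) ≤ ck1 ∧ (0 : ℝ) ≤ ck0 ∧ (0 : ℝ) ≤ cku := by
  norm_num [ck1, ck0, cku, cD, cDs, KU, cs]

/-- ζ, ζ' the chains of the two realizations (RL.exists_ww, RL.chain), h := Wt^r = Wt'^s; h ζ k = ζ (k + 11 r), h ζ' k = ζ' (k + 11 s) (chain_zpow).
range_sub (G12) twice (B := HH + 6κu, ParOK.k2): same range.  σ : ℤ → ℤ with ζ' k = ζ (σ k), bijective (chain_inj), betweenness preserved
(chain_between for both chains; the values U (ζ' j) (ζ' i) are the values U (ζ (σ j)) (ζ (σ i))).  sigma_rigid: σ k = σ 0 ± k, so the neighbours of ζ' k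
in ζ' are the neighbours of ζ (σ k) in ζ and the sizes of the crossings agree (absolute value); size_inj (G15): fi (σ k) = fi k, i.e. 11 ∣ σ k - k;
sigma_shift: σ k = k + 11 m. -/
theorem same_chain (hF : FullT S U d) (hP : ParOK P) (hD : DOK P d) (h : RL S d P c q v a y z) (h' : RL S d P c' q' v' a' y' z')
    {w w' : ℤ → G} (hw0 : w 0 = 1) (hw0' : w' 0 = 1)
    (hw : ∀ t, w (t + 1) = w t * (S.gen c ^ (q * P.e (fi t)) * hh a y z (mkr P a y z) (fi t)))
    (hw' : ∀ t, w' (t + 1) = w' t * (S.gen c' ^ (q' * P.e (fi t)) * hh a' y' z' (mkr P a' y' z') (fi t)))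
    (hp : ∀ t, w (t + 11) = w 11 * w t) (hp' : ∀ t, w' (t + 11) = w' 11 * w' t) {r s : ℤ} (hr : r ≠ 0) (hs : s ≠ 0)
    (hrs : w 11 ^ r = w' 11 ^ s) : ∃ m : ℤ, ∀ k, w' k • c' = w (k + 11 * m) • c := by
  have _ := hw0
  have _ := hw0'
  obtain ⟨e1, e0, eu⟩ := G16_ck
  have hk1 := hP.k1
  have hk2 := hP.k2
  have hκ : (ck0 : ℝ) + ck1 + 2 * cku ≤ kap P := by linarith
  have hκ0 : 0 < kap P := by
    have h1 : (0 : ℝ) < ck0 := by norm_num [ck1, ck0, cku, cD, cDs, KU, cs]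
    linarith
  have hκ1 : (ck1 : ℝ) ≤ kap P := by linarith
  have hζ := h.chain hF hP hD hw
  have hζ' := h'.chain hF hP hD hw'
  set ζ : ℤ → C := fun t => w t • c with hζd
  set ζ' : ℤ → C := fun t => w' t • c' with hζd'
  have htr : ∀ k, (w 11 ^ r) • ζ k = ζ (k + r * 11) :=
    fun k => chain_zpow (fun k => G16_smul hp c k) r k
  have htr' : ∀ k, (w 11 ^ r) • ζ' k = ζ' (k + s * 11) := by
    intro k
    rw [hrs]
    exact chain_zpow (fun k => G16_smul hp' c' k) s k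
  have hB : ∀ b, (∀ k, ζ k ≠ b) → ∀ k, |U b (inr (ζ (k + 1))) - U b (inr (ζ k))| ≤ HH P + 6 * cku :=
    fun b hb k => h.third hF hD hw k b (fun hh => hb k hh.symm) (fun hh => hb (k + 1) hh.symm)
  have hB' : ∀ b, (∀ k, ζ' k ≠ b) → ∀ k,
      |U b (inr (ζ' (k + 1))) - U b (inr (ζ' k))| ≤ HH P + 6 * cku :=
    fun b hb k => h'.third hF hD hw' k b (fun hh => hb k hh.symm) (fun hh => hb (k + 1) hh.symm)
  have hr11 : r * 11 ≠ 0 := by omega
  have hs11 : s * 11 ≠ 0 := by omega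
  have sub1 : ∀ k, ∃ j, ζ' k = ζ j := fun k =>
    range_sub hF.ctx hκ hζ hκ hζ' hr11 hs11 htr htr' hB (by linarith) k
  have sub2 : ∀ k, ∃ j, ζ k = ζ' j := fun k =>
    range_sub hF.ctx hκ hζ' hκ hζ hs11 hr11 htr' htr hB' (by linarith) k
  choose σ hσ using sub1
  have inj := chain_inj hF.ctx.proj hκ0 hκ1 hζ
  have inj' := chain_inj hF.ctx.proj hκ0 hκ1 hζ'
  have σinj : Function.Injective σ := by
    intro i j hij
    apply inj'
    rw [hσ i, hσ j, hij]
  have σsur : Function.Surjective σ := by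
    intro j
    obtain ⟨k, hk⟩ := sub2 j
    refine ⟨k, ?_⟩
    apply inj
    rw [← hσ k, ← hk]
  have hbt : ∀ i j k : ℤ, i ≠ j → k ≠ j → (((i < j ∧ j < k) ∨ (k < j ∧ j < i)) ↔
      ((σ i < σ j ∧ σ j < σ k) ∨ (σ k < σ j ∧ σ j < σ i))) := by
    intro i j k hij hkj
    have h1 := chain_between hF.ctx.proj hκ0 hκ1 hζ' hij hkj
    have h2 := chain_between hF.ctx.proj hκ0 hκ1 hζ (σinj.ne hij) (σinj.ne hkj)
    rw [hσ i, hσ j, hσ k] at h1
    rw [h1] at h2
    exact not_iff_not.mp h2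
  have hrig := sigma_rigid ⟨σinj, σsur⟩ hbt
  have h11 : ∀ k, (11 : ℤ) ∣ σ k - k := by
    intro k
    have h1 := h.size hF hD hw (σ k)
    have h2 := h'.size hF hD hw' k
    have h3 : |U (w' k • c') (inr (w' (k + 1) • c')) - U (w' k • c') (inr (w' (k - 1) • c'))| =
        |U (w (σ k) • c) (inr (w (σ k + 1) • c)) - U (w (σ k) • c) (inr (w (σ k - 1) • c))| := by
      have e1 : w' k • c' = w (σ k) • c := hσ k
      have e2 : w' (k + 1) • c' = w (σ (k + 1)) • c := hσ (k + 1)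
      have e3 : w' (k - 1) • c' = w (σ (k - 1)) • c := hσ (k - 1)
      rw [e1, e2, e3]
      rcases hrig with hrig | hrig
      · rw [show σ (k + 1) = σ k + 1 by rw [hrig (k + 1), hrig k]; ring,
          show σ (k - 1) = σ k - 1 by rw [hrig (k - 1), hrig k]; ring]
      · rw [show σ (k + 1) = σ k - 1 by rw [hrig (k + 1), hrig k]; ring,
          show σ (k - 1) = σ k + 1 by rw [hrig (k - 1), hrig k]; ring, abs_sub_comm]
    rw [h3] at h2
    have h4 : fi (σ k) = fi k := size_inj hP h1.1 h1.2 h2.1 h2.2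
    have h5 : (σ k % 11).toNat = (k % 11).toNat := congrArg Fin.val h4
    omega
  obtain ⟨m, hm⟩ := sigma_shift hrig h11
  refine ⟨m, fun k => ?_⟩
  have := hσ k
  rw [hm k] at this
  exact this

theorem G16_cm (g a y : G) : cm (g * a * g⁻¹) (g * y * g⁻¹) = g * cm a y * g⁻¹ := by
  unfold cm; group

theorem G16_mkr (P : Par) (g a y z : G) :
    mkr P (g * a * g⁻¹) (g * y * g⁻¹) (g * z * g⁻¹) = g * mkr P a y z * g⁻¹ := by
  unfold mkr
  rw [conj_pow, G16_cm, G16_cm, G16_cm, G16_cm, conj_pow, conj_pow, conj_pow, conj_pow]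
  group

/-- the whole realization can be conjugated -/
theorem RL.conj (hF : FullT S U d) (h : RL S d P c q v a y z) (g : G) :
    RL S d P (g • c) q (g * v) (g * a * g⁻¹) (g * y * g⁻¹) (g * z * g⁻¹) := by
  have hl := hF.ctx.linv
  have key : ∀ t : G, D (g * v) (g * t * g⁻¹ * (g * v)) = D v (t * v) := by
    intro t
    rw [show g * t * g⁻¹ * (g * v) = g * (t * v) by group]
    exact hl g v (t * v)
  refine ⟨h.hq, ?_, ?_, ?_, ?_, ?_, ?_, ?_⟩
  · rw [G16_mkr, h.hc, S.gen_zpow_conj]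
  · rw [conj_pow, h.tor]; group
  · intro hc
    apply h.ne
    have : g⁻¹ * (g * a * g⁻¹) * g = 1 := by rw [hc]; group
    rw [← this]; group
  · intro n
    rw [conj_zpow, key]
    exact h.da n
  · rw [key]; exact h.dy
  · rw [key]; exact h.dz
  · rw [G16_mkr, key]; exact h.du

theorem G16_hh (g a y z u : G) (t : Fin 11) :
    hh (g * a * g⁻¹) (g * y * g⁻¹) (g * z * g⁻¹) (g * u * g⁻¹) t = g * hh a y z u t * g⁻¹ := by
  fin_cases t <;> simp [hh] <;> group

theorem G16_fi (t : Fin 11) : fi ((t : ℕ) : ℤ) = t := by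
  apply Fin.ext
  show (((t : ℕ) : ℤ) % 11).toNat = t
  omega

/-- MAIN comparison.  x := Wt^m from same_chain (w (k + 11 m) = (w 11)^m w k).  Conjugate the primed realization by x⁻¹ (RL.conj): its chain is
x⁻¹ w' k c' = w k c; in particular x⁻¹ c' = c (k = 0), gen (x⁻¹ c') = gen c.  Its product sequence is w'' k = x⁻¹ w' k x, w'' k • c = w k • c.
decode_beta (G13) (H := HH P, e t := P.e (fi t), p, p' from RL.exists_p; ParOK.k5): q = q', so mkr P a'' y'' z'' = gen c ^ q = mkr P a y z =: u, and β.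
decode_final (with β restricted to ℕ). -/
theorem compare (hF : FullT S U d) (hP : ParOK P) (hD : DOK P d) (h : RL S d P c q v a y z) (h' : RL S d P c' q' v' a' y' z')
    {r s : ℤ} (hr : r ≠ 0) (hs : s ≠ 0) (hrs : Wt P a y z ^ r = Wt P a' y' z' ^ s) :
    ∃ m : ℤ, ∃ x a'' y'' z'' u : G, x = Wt P a y z ^ m ∧ a'' = x⁻¹ * a' * x ∧ y'' = x⁻¹ * y' * x ∧ z'' = x⁻¹ * z' * x ∧
      u = mkr P a y z ∧ a'' = a ∧ y'' * a * y''⁻¹ = y * a * y⁻¹ ∧ y'' * (u * a * u⁻¹) * y''⁻¹ = y * (u * a * u⁻¹) * y⁻¹ ∧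
      z'' * a * z''⁻¹ = z * a * z⁻¹ ∧ z'' * (u * a * u⁻¹) * z''⁻¹ = z * (u * a * u⁻¹) * z⁻¹ := by
  obtain ⟨w, hw0, hw, hp, hW⟩ := h.exists_ww
  obtain ⟨w', hw0', hw', hp', hW'⟩ := h'.exists_ww
  obtain ⟨m, hm⟩ := same_chain hF hP hD h h' hw0 hw0' hw hw' hp hp' hr hs (by rw [hW, hW']; exact hrs)
  have hxw : ∀ k, w (k + 11 * m) = w 11 ^ m * w k := fun k => G16_pow hp m k
  set x : G := w 11 ^ m with hx
  have hc' : x⁻¹ • c' = c := by
    have h1 := hm 0
    rw [hw0', one_smul, hxw, hw0, mul_one] at h1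
    rw [h1, inv_smul_smul]
  have h2 := h'.conj hF x⁻¹
  rw [hc', inv_inv] at h2
  -- the product sequence
  have hgen : S.gen c = x⁻¹ * S.gen c' * x := by
    rw [← hc', S.gen_smul, inv_inv]
  have hw'' : ∀ t, x⁻¹ * w' (t + 1) * x = (x⁻¹ * w' t * x) * (S.gen c ^ (q' * P.e (fi t)) *
      hh (x⁻¹ * a' * x) (x⁻¹ * y' * x) (x⁻¹ * z' * x)
        (mkr P (x⁻¹ * a' * x) (x⁻¹ * y' * x) (x⁻¹ * z' * x)) (fi t)) := by
    intro t
    have e1 := G16_mkr P x⁻¹ a' y' z'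
    rw [inv_inv] at e1
    have e2 := G16_hh x⁻¹ a' y' z' (mkr P a' y' z') (fi t)
    rw [inv_inv] at e2
    have e3 : S.gen c ^ (q' * (P.e (fi t) : ℤ)) = x⁻¹ * S.gen c' ^ (q' * (P.e (fi t) : ℤ)) * x := by
      have := S.gen_zpow_conj x⁻¹ c' (q' * (P.e (fi t) : ℤ))
      rw [hc', inv_inv] at this
      exact this
    rw [e1, e2, e3, hw' t]
    group
  have heq : ∀ t, w t • c = (x⁻¹ * w' t * x) • c := by
    intro t
    have h1 := hm t
    rw [hxw] at h1
    have e4 : x • c = c' := by rw [← hc', smul_inv_smul]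
    rw [mul_smul, e4, mul_smul, h1, mul_smul, inv_smul_smul]
  obtain ⟨p, hp1, -, hp2⟩ := h.exists_p hF
  obtain ⟨p', hp1', -, hp2'⟩ := h2.exists_p hF
  have hk5 := hP.k5
  have hdec := decode_beta hF.ctx (c := c) (w := w) (w' := fun t => x⁻¹ * w' t * x)
    (h := fun t => hh a y z (mkr P a y z) (fi t))
    (h' := fun t => hh (x⁻¹ * a' * x) (x⁻¹ * y' * x) (x⁻¹ * z' * x)
        (mkr P (x⁻¹ * a' * x) (x⁻¹ * y' * x) (x⁻¹ * z' * x)) (fi t))
    (e := fun t => P.e (fi t)) (q := q) (q' := q') hw0 (by simp only [hw0']; group) hw hw'' heq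
    (fun t => h.hh_ne hF hD (fi t)) (fun t => h2.hh_ne hF hD (fi t)) hp1 hp1'
    (fun t => hp2 (fi t)) (fun t => hp2' (fi t)) hk5
  obtain ⟨hqq, β, hβ0, hβ⟩ := hdec
  have hu : mkr P (x⁻¹ * a' * x) (x⁻¹ * y' * x) (x⁻¹ * z' * x) = mkr P a y z := by
    rw [h2.hc, h.hc, hqq]
  have hac : a • c ≠ c := h.hh_ne hF hD 0
  have hfin := decode_final hF.ctx (c := c) (a := a) (y := y) (z := z) (a' := x⁻¹ * a' * x)
    (y' := x⁻¹ * y' * x) (z' := x⁻¹ * z' * x) (u := mkr P a y z) (β := fun n : ℕ => β n) hac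
    (by simpa using hβ0) (fun t => by
      have h3 := hβ ((t : ℕ) : ℤ)
      simp only [G16_fi, hu] at h3
      rw [h3]
      push_cast
      rfl)
  refine ⟨m, x, _, _, _, _, ?_, rfl, rfl, rfl, rfl, hfin⟩
  rw [hx, hW]

end Pool.Agent.helper4.PV
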