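import Pool.Agent.helper4.PV.DefsH
import Pool.Agent.helper4.PV.G08
/-! PV G17: dominance with four factors. -/
namespace Pool.Agent.helper4.PV
open Pool.Agent.helper50.BW
open Sum
variable {G : Type} [Group G] {D : G → G → ℝ} {C : Type} [MulAction G C]
  {S : CSys D C KU cD ctau cT} {U : C → G ⊕ C → ℝ} {d : ℕ} {P : Par}

theorem G17_mul (hyp : Hyp D) (hi : LInv D) (A B v : G) {a b : ℝ} (hA : D v (A * v) ≤ a)
    (hB : D v (B * v) ≤ b) : D v (A * B * v) ≤ a + b := by
  have h1 := hyp.tri v (A * v) (A * B * v)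
  have h2 : D (A * v) (A * B * v) = D v (B * v) := by
    rw [mul_assoc, hi]
  linarith

theorem G17_pow (hyp : Hyp D) (hi : LInv D) (g v : G) (n : ℕ) {a : ℝ} (hg : D v (g * v) ≤ a) :
    D v (g ^ n * v) ≤ n * a :=
  (Q12_pow hyp hi g v n).trans (mul_le_mul_of_nonneg_left hg (Nat.cast_nonneg n))

theorem G17_core (hF : FullT S U d) (hP : ParOK P) {v : G} {X : Fin 4 → G}
    (hX : ∀ t, D v (X t * v) ≤ Rx) {t : Fin 4} {b : C} {q : ℤ} (hq : q ≠ 0)
    (hb : X t = S.gen b ^ q) {A B : G} (hA : D v (A * v) ≤ 3 * Rt)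
    (hB : D v (B * v) ≤ nsum P t * Rx) : (A * X t ^ P.n t * B) ^ d ≠ 1 := by
  have hyp := hF.ctx.hyp
  have hi := hF.ctx.linv
  have hτ := hF.ctx.hτ
  have hv := hX t
  rw [hb] at hv
  have hr : S.r b v ≤ rr ctau Rx := cone_near hyp hi hτ hq hv
  obtain ⟨p, hp1, hp2, hp3⟩ := exists_proj S b v
  have h1 : D v (B * A * v) ≤ nsum P t * Rx + 3 * Rt := G17_mul hyp hi B A v hB hA
  have h2 : D p (B * A * p) ≤
      3 * Rt + nsum P t * Rx + 2 * (rr ctau Rx + 3 * KU) := by
    have t1 := hyp.tri p v (B * A * p)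
    have t2 := hyp.tri v (B * A * v) (B * A * p)
    have e1 : D (B * A * v) (B * A * p) = D v p := hi _ _ _
    have e2 : D p v = D v p := hyp.symm _ _
    linarith
  have h3 := dominance hF hq hp1 h2 (n := P.n t) (by
    have := hP.hn t
    linarith)
  intro h4
  apply h3
  rw [zpow_mul, zpow_natCast, ← hb]
  have h5 : X t ^ P.n t * (B * A) = A⁻¹ * (A * X t ^ P.n t * B) * A⁻¹⁻¹ := by
    rw [inv_inv]
    simp only [mul_assoc, inv_mul_cancel_left]
  rw [h5, conj_pow, h4, mul_one, mul_inv_cancel]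

/-- X t = gen b ^ q, q ≠ 0; the factors before t are torsion; all factors move v by ≤ Rx.
Write the product as A * (gen b ^ (q * n t)) * B; it is conjugate to gen b ^ (q n t) * (B A).  Displacement of B A at v: torsion powers ≤ Rx + 3cA + 55 = Rt each
(tor_pow, G07; at most 3 of them), the factors after t ≤ n t' Rx each (triangle): total ≤ 3Rt + nsum P t * Rx.  p := projection of v to the axis of b
(exists_proj), r b v ≤ rr ctau Rx (cone_near), D v p ≤ rr ctau Rx + 3KU, displacement at p ≤ that at v + 2 D v p =: H.  dominance (G08) with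
n := P.n t, ParOK.hn. -/
theorem dom4 (hF : FullT S U d) (hP : ParOK P) {v : G} {X : Fin 4 → G} (hX : ∀ t, D v (X t * v) ≤ Rx) {t : Fin 4} {b : C} {q : ℤ}
    (hq : q ≠ 0) (hb : X t = S.gen b ^ q) (ht : ∀ t' < t, X t' ^ d = 1) :
    (X 0 ^ P.n 0 * X 1 ^ P.n 1 * X 2 ^ P.n 2 * X 3 ^ P.n 3) ^ d ≠ 1 := by
  have hyp := hF.ctx.hyp
  have hi := hF.ctx.linv
  have hRt : 0 ≤ Rt := by
    have h1 : 0 ≤ Rx := (hyp.nonneg _ _).trans (hX 0)
    have h2 := hF.hA
    have h3 := hF.hε
    unfold Rt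
    linarith
  have htor : ∀ t' < t, D v (X t' ^ P.n t' * v) ≤ Rt := by
    intro t' h
    have h1 := tor_pow hF (ht t' h) (hX t') (P.n t' : ℤ)
    rw [zpow_natCast] at h1
    exact h1
  have hpw : ∀ t', D v (X t' ^ P.n t' * v) ≤ P.n t' * Rx := fun t' =>
    G17_pow hyp hi (X t') v (P.n t') (hX t')
  have hone : D v ((1 : G) * v) = 0 := by
    rw [one_mul, hyp.refl]
  fin_cases t
  · have hB := G17_mul hyp hi _ _ v (G17_mul hyp hi _ _ v (hpw 1) (hpw 2)) (hpw 3)
    have h := G17_core hF hP hX (t := 0) hq hb (A := 1)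
      (B := X 1 ^ P.n 1 * X 2 ^ P.n 2 * X 3 ^ P.n 3) (by rw [hone]; linarith) (by
        refine hB.trans (le_of_eq ?_)
        simp [nsum, Finset.sum_filter, Fin.sum_univ_four]
        ring)
    simpa only [one_mul, mul_assoc] using h
  · have hA := htor 0 (by decide)
    have hB := G17_mul hyp hi _ _ v (hpw 2) (hpw 3)
    have h := G17_core hF hP hX (t := 1) hq hb (A := X 0 ^ P.n 0)
      (B := X 2 ^ P.n 2 * X 3 ^ P.n 3) (by linarith) (by
        refine hB.trans (le_of_eq ?_)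
        simp [nsum, Finset.sum_filter, Fin.sum_univ_four]
        ring)
    simpa only [mul_assoc] using h
  · have hA := G17_mul hyp hi _ _ v (htor 0 (by decide)) (htor 1 (by decide))
    have hB := hpw 3
    have h := G17_core hF hP hX (t := 2) hq hb (A := X 0 ^ P.n 0 * X 1 ^ P.n 1)
      (B := X 3 ^ P.n 3) (by linarith) (by
        refine hB.trans (le_of_eq ?_)
        simp [nsum, Finset.sum_filter, Fin.sum_univ_four])
    simpa only [mul_assoc] using h
  · have hA := G17_mul hyp hi _ _ v (G17_mul hyp hi _ _ v (htor 0 (by decide))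
      (htor 1 (by decide))) (htor 2 (by decide))
    have h := G17_core hF hP hX (t := 3) hq hb (A := X 0 ^ P.n 0 * X 1 ^ P.n 1 * X 2 ^ P.n 2)
      (B := 1) (by linarith) (by
        rw [hone]
        have h1 : 0 ≤ Rx := (hyp.nonneg _ _).trans (hX 0)
        positivity)
    simpa only [mul_one, mul_assoc] using h

end Pool.Agent.helper4.PV
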