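import Pool.Agent.helper4.PV.DefsG
/-! PV H01: the tower as a structure; basic facts.  All statements are about elements of the free group F = FreeGroup ℕ;
t.p j : F → G_j, t.E j = pulled back metric, cl d x = class in the free Burnside group B. -/
namespace Pool.Agent.helper4.PV
open Pool.Agent.helper50.BW
open Sum
variable {d : ℕ}

/-- BW.T6 `tower`, then choose the data of IsNext for every j -/
theorem exists_tw (hd : Odd d) (hbig : 10000 * ck0 ≤ d * ctau) : Nonempty (Tw d) := by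
  obtain ⟨L, h0, h1, hn⟩ := tower hd hbig
  choose C iC S U q hF hker hq hπ hD using hn
  exact ⟨{
    L := L
    C := C
    act := iC
    S := S
    U := U
    q := q
    full := hF
    ker := hker
    surj := hq
    comp := hπ
    dist := hD
    inj0 := h0
    dist0 := h1 }⟩

/-- comp -/
theorem Tw.p_succ (t : Tw d) (j : ℕ) (x : FreeGroup ℕ) : t.p (j + 1) x = t.q j (t.p j x) := by
  unfold Tw.p
  rw [t.comp j]
  rfl

/-- Lvl.surj -/
theorem Tw.p_surj (t : Tw d) (j : ℕ) (g : (t.L j).G) : ∃ x, t.p j x = g := by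
  exact (t.L j).surj g

/-- ker: t.p (j+1) x = 1 iff t.p j x ∈ NN -/
theorem Tw.succ_one (t : Tw d) (j : ℕ) (x : FreeGroup ℕ) : t.p (j + 1) x = 1 ↔ t.p j x ∈ NN (t.S j) d := by
  rw [t.p_succ, ← t.ker j, MonoidHom.mem_ker]

theorem Tw.succ_eq (t : Tw d) (j : ℕ) (x y : FreeGroup ℕ) :
    t.p (j + 1) x = t.p (j + 1) y ↔ ∃ n ∈ NN (t.S j) d, t.p j x = n * t.p j y := by
  rw [t.p_succ, t.p_succ]
  constructor
  · intro h
    refine ⟨t.p j x * (t.p j y)⁻¹, ?_, ?_⟩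
    · rw [← t.ker j, MonoidHom.mem_ker, map_mul, map_inv, h, mul_inv_cancel]
    · rw [inv_mul_cancel_right]
  · rintro ⟨n, hn, h⟩
    rw [← t.ker j, MonoidHom.mem_ker] at hn
    rw [h, map_mul, hn, one_mul]

/-- every element of NN at level j is the image of some element of the kernel at level j + 1 -/
theorem Tw.nn_lift (t : Tw d) (j : ℕ) {n : (t.L j).G} (hn : n ∈ NN (t.S j) d) : ∃ ν, t.p j ν = n ∧ t.p (j + 1) ν = 1 := by
  obtain ⟨ν, hν⟩ := t.p_surj j n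
  refine ⟨ν, hν, ?_⟩
  rw [t.succ_one, hν]
  exact hn

theorem Tw.one_mono (t : Tw d) {i j : ℕ} (h : i ≤ j) {x : FreeGroup ℕ} (hx : t.p i x = 1) : t.p j x = 1 := by
  induction h with
  | refl => exact hx
  | step h ih => rw [t.p_succ, ih, map_one]

theorem Tw.eq_mono (t : Tw d) {i j : ℕ} (h : i ≤ j) {x y : FreeGroup ℕ} (hx : t.p i x = t.p i y) : t.p j x = t.p j y := by
  induction h with
  | refl => exact hx
  | step h ih => rw [t.p_succ, t.p_succ, ih]

/-- BW tower_ker, tower_exh (IsNext from the fields of Tw); cl d x = 1 ↔ x ∈ Fd d (QuotientGroup.eq_one_iff) -/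
theorem Tw.cl_one (t : Tw d) (x : FreeGroup ℕ) : cl d x = 1 ↔ ∃ j, t.p j x = 1 := by
  have hn : ∀ j, IsNext (t.L j) (t.L (j + 1)) := fun j =>
    ⟨t.C j, t.act j, t.S j, t.U j, t.q j, t.full j, t.ker j, t.surj j, t.comp j, t.dist j⟩
  unfold cl
  rw [show (QuotientGroup.mk x : BB d) = ((x : FreeGroup ℕ) : FreeGroup ℕ ⧸ Fd d) from rfl,
    QuotientGroup.eq_one_iff]
  constructor
  · intro h
    obtain ⟨j, hj⟩ := tower_exh t.dist0 hn h
    exact ⟨j, hj⟩
  · rintro ⟨j, hj⟩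
    exact tower_ker t.inj0 hn j hj

theorem Tw.cl_of_p (t : Tw d) {j : ℕ} {x y : FreeGroup ℕ} (h : t.p j x = t.p j y) : cl d x = cl d y := by
  have h1 : cl d (x * y⁻¹) = 1 := (t.cl_one _).2 ⟨j, by rw [map_mul, map_inv, h, mul_inv_cancel]⟩
  have h2 : cl d (x * y⁻¹) = cl d x * (cl d y)⁻¹ := rfl
  rw [h2] at h1
  exact mul_inv_eq_one.1 h1

/-- equal classes become equal at some level ≥ j -/
theorem Tw.p_of_cl (t : Tw d) (j : ℕ) {x y : FreeGroup ℕ} (h : cl d x = cl d y) : ∃ k, j ≤ k ∧ t.p k x = t.p k y := by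
  have h1 : cl d (x * y⁻¹) = 1 := by
    have h2 : cl d (x * y⁻¹) = cl d x * (cl d y)⁻¹ := rfl
    rw [h2, h, mul_inv_cancel]
  obtain ⟨k, hk⟩ := (t.cl_one _).1 h1
  refine ⟨max j k, le_max_left _ _, ?_⟩
  have h3 := t.one_mono (le_max_right j k) hk
  rw [map_mul, map_inv] at h3
  exact mul_inv_eq_one.1 h3

theorem cl_pow (x : FreeGroup ℕ) : cl d x ^ d = 1 := by
  have h1 : cl d x ^ d = ((x ^ d : FreeGroup ℕ) : FreeGroup ℕ ⧸ Fd d) := rfl
  rw [h1, QuotientGroup.eq_one_iff]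
  exact Subgroup.subset_closure ⟨x, rfl⟩

theorem cl_surj (a : BB d) : ∃ x, cl d x = a := by
  exact QuotientGroup.mk_surjective a

theorem cl_mul (x y : FreeGroup ℕ) : cl d (x * y) = cl d x * cl d y := rfl

theorem cl_inv (x : FreeGroup ℕ) : cl d x⁻¹ = (cl d x)⁻¹ := rfl

theorem Tw.tor_mono (t : Tw d) {i j : ℕ} (h : i ≤ j) {x : FreeGroup ℕ} (hx : t.p i x ^ d = 1) : t.p j x ^ d = 1 := by
  rw [← map_pow] at hx ⊢
  exact t.one_mono h hx

/-- x^d ∈ Fd -/
theorem Tw.tor_ex (t : Tw d) (x : FreeGroup ℕ) : ∃ j, t.p j x ^ d = 1 := by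
  have h := cl_pow (d := d) x
  have h1 : cl d (x ^ d) = 1 := h
  obtain ⟨j, hj⟩ := (t.cl_one _).1 h1
  exact ⟨j, by rw [← map_pow]; exact hj⟩

/-- p injective at level 0, F torsion free -/
theorem Tw.tor_zero (t : Tw d) (hd : 0 < d) {x : FreeGroup ℕ} (hx : t.p 0 x ^ d = 1) : x = 1 := by
  have h1 : t.p 0 (x ^ d) = t.p 0 1 := by rw [map_pow, hx, map_one]
  exact free_tor hd (t.inj0 h1)

/-- last nontorsion level: if t.p j x ^ d ≠ 1 there is J ≥ j with t.p J x ^ d ≠ 1 and t.p (J+1) x ^ d = 1 (Nat.find) -/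
theorem Tw.last (t : Tw d) {j : ℕ} {x : FreeGroup ℕ} (hx : t.p j x ^ d ≠ 1) :
    ∃ J, j ≤ J ∧ t.p J x ^ d ≠ 1 ∧ t.p (J + 1) x ^ d = 1 ∧ t.p J x ^ d ∈ NN (t.S J) d := by
  classical
  obtain ⟨k, hk⟩ := t.tor_ex x
  have hex : ∃ m, t.p (j + m) x ^ d = 1 := ⟨k, t.tor_mono (Nat.le_add_left k j) hk⟩
  have hm := Nat.find_spec hex
  have hmin : ∀ m, m < Nat.find hex → t.p (j + m) x ^ d ≠ 1 := fun m h => Nat.find_min hex h
  rcases hc : Nat.find hex with _ | m
  · rw [hc] at hm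
    exact absurd hm hx
  · rw [hc] at hm
    have h1 := hmin m (by omega)
    refine ⟨j + m, Nat.le_add_right j m, h1, hm, ?_⟩
    rw [← map_pow]
    rw [← t.succ_one, map_pow]
    exact hm

/-- dist, BW db_le, dd_le -/
theorem Tw.E_succ (t : Tw d) (j : ℕ) (x y : FreeGroup ℕ) : t.E (j + 1) x y ≤ clam * t.E j x y := by
  unfold Tw.E
  rw [t.p_succ, t.p_succ, t.dist]
  have hcl : (0 : ℝ) ≤ clam := by norm_num
  exact mul_le_mul_of_nonneg_left
    ((db_le (t.full j).ctx _ _).trans (dd_le (t.full j).ctx.hyp (t.S j) (by norm_num) _ _)) hcl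

theorem Tw.E_nonneg (t : Tw d) (j : ℕ) (x y : FreeGroup ℕ) : 0 ≤ t.E j x y := by
  have h := (t.L j).stg.hyp
  have h1 := h.tri (t.p j x) (t.p j y) (t.p j x)
  rw [h.refl, h.symm (t.p j y) (t.p j x)] at h1
  unfold Tw.E
  linarith

theorem H01_E_pow (t : Tw d) (i k : ℕ) (x y : FreeGroup ℕ) : t.E (i + k) x y ≤ clam ^ k * t.E i x y := by
  induction k with
  | zero => rw [pow_zero, one_mul, add_zero]
  | succ k ih =>
    have h1 := t.E_succ (i + k) x y
    have hcl : (0 : ℝ) ≤ clam := by norm_num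
    have h2 := mul_le_mul_of_nonneg_left ih hcl
    calc t.E (i + (k + 1)) x y ≤ clam * t.E (i + k) x y := h1
      _ ≤ clam * (clam ^ k * t.E i x y) := h2
      _ = clam ^ (k + 1) * t.E i x y := by ring

theorem Tw.E_mono (t : Tw d) {i j : ℕ} (h : i ≤ j) (x y : FreeGroup ℕ) : t.E j x y ≤ t.E i x y := by
  obtain ⟨k, rfl⟩ := Nat.exists_eq_add_of_le h
  have h1 := H01_E_pow t i k x y
  have h2 : clam ^ k ≤ 1 := pow_le_one₀ (by norm_num) (by norm_num)
  have h3 := mul_le_mul_of_nonneg_right h2 (t.E_nonneg i x y)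
  linarith

theorem Tw.E_pow (t : Tw d) (i k : ℕ) (x y : FreeGroup ℕ) : t.E (i + k) x y ≤ clam ^ k * t.E i x y := H01_E_pow t i k x y

theorem Tw.E_zero (t : Tw d) (x y : FreeGroup ℕ) : t.E 0 x y = fD x y := by
  exact t.dist0 x y

theorem Tw.E_inv (t : Tw d) (j : ℕ) (g x y : FreeGroup ℕ) : t.E j (g * x) (g * y) = t.E j x y := by
  unfold Tw.E
  rw [map_mul, map_mul]
  exact (t.L j).stg.linv _ _ _

theorem Tw.E_symm (t : Tw d) (j : ℕ) (x y : FreeGroup ℕ) : t.E j x y = t.E j y x := by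
  exact (t.L j).stg.hyp.symm _ _

theorem Tw.E_tri (t : Tw d) (j : ℕ) (x y z : FreeGroup ℕ) : t.E j x z ≤ t.E j x y + t.E j y z := by
  exact (t.L j).stg.hyp.tri _ _ _

theorem Tw.E_self (t : Tw d) (j : ℕ) (x : FreeGroup ℕ) : t.E j x x = 0 := by
  exact (t.L j).stg.hyp.refl _

/-- eventually small -/
theorem Tw.E_small (t : Tw d) (i : ℕ) (x y : FreeGroup ℕ) {ε : ℝ} (hε : 0 < ε) : ∃ j, i ≤ j ∧ t.E j x y ≤ ε := by
  have hlim : Filter.Tendsto (fun k : ℕ => clam ^ k * t.E i x y) Filter.atTop (nhds (0 * t.E i x y)) :=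
    (tendsto_pow_atTop_nhds_zero_of_lt_one (by norm_num) (by norm_num)).mul_const _
  rw [zero_mul] at hlim
  obtain ⟨k, hk⟩ := (hlim.eventually (gt_mem_nhds hε)).exists
  exact ⟨i + k, Nat.le_add_right i k, (t.E_pow i k x y).trans hk.le⟩

/-- displacement of a product -/
theorem Tw.E_mul (t : Tw d) (j : ℕ) (v x y : FreeGroup ℕ) : t.E j v (x * y * v) ≤ t.E j v (x * v) + t.E j v (y * v) := by
  have h1 := t.E_tri j v (x * v) (x * y * v)
  have h2 : t.E j (x * v) (x * y * v) = t.E j v (y * v) := by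
    rw [mul_assoc, t.E_inv]
  rw [h2] at h1
  exact h1

theorem Tw.E_invd (t : Tw d) (j : ℕ) (v x : FreeGroup ℕ) : t.E j v (x⁻¹ * v) = t.E j v (x * v) := by
  have h1 := t.E_inv j x v (x⁻¹ * v)
  rw [mul_inv_cancel_left] at h1
  rw [← h1, t.E_symm]

theorem Tw.E_powd (t : Tw d) (j : ℕ) (v x : FreeGroup ℕ) (n : ℕ) : t.E j v (x ^ n * v) ≤ n * t.E j v (x * v) := by
  induction n with
  | zero => simp [t.E_self]
  | succ n ih =>
    have h1 := t.E_mul j v x (x ^ n)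
    rw [← pow_succ'] at h1
    push_cast
    linarith

end Pool.Agent.helper4.PV
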