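import Pool.Agent.helper4.PV.H01
import Pool.Agent.helper4.PV.G03
/-! PV H02: bounded elements inject into B; torsion elements with the same class are conjugate by the kernel. -/
namespace Pool.Agent.helper4.PV
open Pool.Agent.helper50.BW
open Sum
variable {d : ℕ}

/-- J := least level ≥ j with t.p J x = 1 (cl_one, one_mono; Nat.find).  If J = j done.  Else J = m + 1, m ≥ j, t.p m x ≠ 1 and ∈ NN (succ_one);
nn_disp (G01) at level m, o := t.p m v: d ctau - 2 ck1 - 2 cku ≤ t.E m v (x v) ≤ t.E j v (x v) (E_mono): contradiction. -/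
theorem bnd_inj (t : Tw d) {j : ℕ} {x v : FreeGroup ℕ} (hx : cl d x = 1) (hv : t.E j v (x * v) < d * ctau - 2 * ck1 - 2 * cku) :
    t.p j x = 1 := by
  classical
  by_contra hne
  have hex : ∃ k, t.p k x = 1 := (t.cl_one x).1 hx
  obtain ⟨J, hJ, hmin⟩ : ∃ J, t.p J x = 1 ∧ ∀ k < J, t.p k x ≠ 1 :=
    ⟨Nat.find hex, Nat.find_spec hex, fun k hk => Nat.find_min hex hk⟩
  have hjJ : j < J := by
    by_contra hcon
    exact hne (t.one_mono (not_lt.1 hcon) hJ)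
  obtain ⟨m, rfl⟩ : ∃ m, J = m + 1 := ⟨J - 1, by omega⟩
  have h1 := hmin m (Nat.lt_succ_self m)
  have h2 := (t.succ_one m x).1 hJ
  have h3 := nn_disp (t.full m).ctx h2 h1 (t.p m v)
  have h4 : (t.L m).D (t.p m v) (t.p m x * t.p m v) = t.E m v (x * v) := by
    unfold Tw.E
    rw [map_mul]
  rw [h4] at h3
  have h5 := t.E_mono (show j ≤ m by omega) v (x * v)
  linarith

/-- contrapositive version for two elements: x, y with the same class, both moving v little, are equal at level j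
(x y⁻¹ moves y v by ≤ the sum) -/
theorem bnd_inj2 (t : Tw d) {j : ℕ} {x y v : FreeGroup ℕ} (hxy : cl d x = cl d y)
    (hv : t.E j v (x * v) + t.E j v (y * v) < d * ctau - 2 * ck1 - 2 * cku) : t.p j x = t.p j y := by
  have h1 : cl d (x * y⁻¹) = 1 := by
    rw [cl_mul, cl_inv, hxy, mul_inv_cancel]
  have h2 : t.p j (x * y⁻¹) = 1 := by
    refine bnd_inj t h1 (v := y * v) ?_
    have e : x * y⁻¹ * (y * v) = x * v := by group
    rw [e]
    have h3 := t.E_tri j (y * v) v (x * v)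
    rw [t.E_symm j (y * v) v] at h3
    linarith
  rw [map_mul, map_inv, mul_inv_eq_one] at h2
  exact h2

/-- (t.p j x)^d = 1: BW Stg.tor_fix gives z with D z (g z) ≤ 15, z = t.p j v (p_surj); bnd_inj. (15 < d ctau - .. by hbig) -/
theorem tor_inj (t : Tw d) (hd : 0 < d) (hbig : 10000 * ck0 ≤ d * ctau) {j : ℕ} {x : FreeGroup ℕ} (hx : t.p j x ^ d = 1)
    (h1 : cl d x = 1) : t.p j x = 1 := by
  obtain ⟨z, hz⟩ := (t.full j).stg.tor_fix hd hx
  obtain ⟨v, rfl⟩ := t.p_surj j z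
  refine bnd_inj t h1 (v := v) ?_
  have h2 : t.E j v (x * v) = (t.L j).D (t.p j v) (t.p j x * t.p j v) := by
    unfold Tw.E
    rw [map_mul]
  rw [h2]
  have h3 : (15 : ℝ) + 2 * ck1 + 2 * cku < 10000 * ck0 := by norm_num
  linarith

/-- torsion of a conjugate -/
private theorem tor_conj_p (t : Tw d) {m : ℕ} {x : FreeGroup ℕ} (hx : t.p m x ^ d = 1)
    (κ : FreeGroup ℕ) : t.p m (κ * x * κ⁻¹) ^ d = 1 := by
  rw [map_mul, map_mul, map_inv, conj_pow, hx, mul_one, mul_inv_cancel]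

/-- cone elements are torsion at the next level -/
private theorem cone_tor (t : Tw d) {i : ℕ} {α : FreeGroup ℕ} {c : t.C i} {k : ℤ}
    (hα : t.p i α = (t.S i).gen c ^ k) : t.p (i + 1) α ^ d = 1 := by
  rw [← map_pow, t.succ_one, map_pow, hα, ← zpow_natCast, ← zpow_mul]
  exact (t.full i).ctx.gen_mem c k

/-- x y⁻¹: p_of_cl gives k ≥ j with t.p k x = t.p k y.  Downward induction on m from k to j: ∃ κ, cl κ = 1 and t.p m y = t.p m (κ x κ⁻¹).
Step m+1 → m: succ_eq: t.p m y = n * t.p m (κ x κ⁻¹), n ∈ NN; both are torsion (tor_mono from j ≤ m); tor_conj (G02): n' ∈ NN conjugates;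
nn_lift n' = t.p m ν, cl ν = 1; take ν κ. -/
theorem tor_lift_conj (t : Tw d) {j : ℕ} {x y : FreeGroup ℕ} (hx : t.p j x ^ d = 1) (hy : t.p j y ^ d = 1) (h : cl d x = cl d y) :
    ∃ κ, cl d κ = 1 ∧ t.p j y = t.p j (κ * x * κ⁻¹) := by
  obtain ⟨k, hjk, hk⟩ := t.p_of_cl j h
  have key : ∀ n m : ℕ, j ≤ m → m + n = k →
      ∃ κ, cl d κ = 1 ∧ t.p m y = t.p m (κ * x * κ⁻¹) := by
    intro n
    induction n with
    | zero =>
      intro m _ hm
      rw [Nat.add_zero] at hm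
      subst hm
      refine ⟨1, rfl, ?_⟩
      rw [one_mul, inv_one, mul_one]
      exact hk.symm
    | succ n ih =>
      intro m hjm hm
      obtain ⟨κ, h1, h2⟩ := ih (m + 1) (by omega) (by omega)
      obtain ⟨n', hn', h3⟩ := (t.succ_eq m _ _).1 h2
      have h4 := tor_conj_p t (t.tor_mono hjm hx) κ
      have h5 := t.tor_mono hjm hy
      obtain ⟨m', hm', h6⟩ := tor_conj (t.full m) h4 h5 hn' h3
      obtain ⟨ν, h7, h8⟩ := t.nn_lift m hm'
      refine ⟨ν * κ, ?_, ?_⟩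
      · rw [cl_mul, h1, mul_one]
        exact (t.cl_one ν).2 ⟨_, h8⟩
      · rw [h6, ← h7, ← map_inv, ← map_mul, ← map_mul]
        congr 1
        group
  exact key (k - j) j le_rfl (by omega)

/-- conjugate classes: h = cl γ; apply tor_lift_conj to γ x γ⁻¹ -/
theorem tor_lift_conj' (t : Tw d) {j : ℕ} {x y : FreeGroup ℕ} (hx : t.p j x ^ d = 1) (hy : t.p j y ^ d = 1) {h : BB d}
    (hh : cl d y = h * cl d x * h⁻¹) : ∃ κ, cl d κ = h ∧ t.p j y = t.p j (κ * x * κ⁻¹) := by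
  obtain ⟨γ, rfl⟩ := cl_surj h
  obtain ⟨κ, h1, h2⟩ := tor_lift_conj t (tor_conj_p t hx γ) hy (by rw [hh, cl_mul, cl_mul, cl_inv])
  refine ⟨κ * γ, by rw [cl_mul, h1, one_mul], ?_⟩
  rw [h2]
  congr 1
  group

/-- Levels.  If t.p i α = gen c ^ k with ¬ d ∣ k then no element β of the same class is torsion at a level m ≤ i.
Proof: suppose m ≤ i.  At level i+1 α is torsion (gen c ^ (k d) ∈ NN: Ctx.gen_mem), β too; tor_lift_conj at level i+1: t.p (i+1) α = t.p (i+1) (κ β κ⁻¹);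
so t.p i (κ β κ⁻¹) = n * gen c ^ k with n ∈ NN (succ_eq), and κβκ⁻¹ is torsion at level i: tor_cone (G02): d ∣ k. -/
theorem tor_level (t : Tw d) {i m : ℕ} {α β : FreeGroup ℕ} {c : t.C i} {k : ℤ} (hα : t.p i α = (t.S i).gen c ^ k)
    (hk : ¬ (d : ℤ) ∣ k) (hβ : t.p m β ^ d = 1) (h : cl d α = cl d β) : i < m := by
  by_contra hcon
  have hmi : m ≤ i := not_lt.1 hcon
  obtain ⟨κ, -, h2⟩ := tor_lift_conj t (t.tor_mono (Nat.le_succ_of_le hmi) hβ) (cone_tor t hα) h.symm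
  obtain ⟨n, hn, h3⟩ := (t.succ_eq i _ _).1 h2.symm
  rw [hα] at h3
  exact hk (tor_cone (t.full i) (tor_conj_p t (t.tor_mono hmi hβ) κ) hn h3)

/-- the level is unique: if i < i' then α is torsion at level i + 1 ≤ i', contradiction to tor_level for α' (i' < i + 1) -/
theorem level_unique (t : Tw d) {i i' : ℕ} {α α' : FreeGroup ℕ} {c : t.C i} {c' : t.C i'} {k k' : ℤ}
    (hα : t.p i α = (t.S i).gen c ^ k) (hk : ¬ (d : ℤ) ∣ k) (hα' : t.p i' α' = (t.S i').gen c' ^ k') (hk' : ¬ (d : ℤ) ∣ k')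
    (h : cl d α = cl d α') : i = i' := by
  have h1 := tor_level t hα' hk' (cone_tor t hα) h.symm
  have h2 := tor_level t hα hk (cone_tor t hα') h
  omega

/-- same level: at level i+1 both are torsion, tor_lift_conj: t.p (i+1) α' = t.p (i+1) (κ α κ⁻¹), so gen c' ^ k' = n * gen (κ c) ^ k
(gen_zpow_conj); cone_cone (G03): c' = m • (κ • c), m ∈ NN, nn_lift. -/
theorem cone_unique (t : Tw d) {i : ℕ} {α α' : FreeGroup ℕ} {c c' : t.C i} {k k' : ℤ}
    (hα : t.p i α = (t.S i).gen c ^ k) (hk : ¬ (d : ℤ) ∣ k) (hα' : t.p i α' = (t.S i).gen c' ^ k')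
    (h : cl d α = cl d α') : (∃ κ, cl d κ = 1 ∧ c' = t.p i κ • c) ∧ (d : ℤ) ∣ k' - k := by
  obtain ⟨κ, h1, h2⟩ := tor_lift_conj t (cone_tor t hα) (cone_tor t hα') h
  obtain ⟨n, hn, h3⟩ := (t.succ_eq i _ _).1 h2
  have h4 : t.p i (κ * α * κ⁻¹) = (t.S i).gen (t.p i κ • c) ^ k := by
    rw [map_mul, map_mul, map_inv, hα, (t.S i).gen_zpow_conj]
  rw [hα', h4] at h3
  obtain ⟨⟨m, hm, h5⟩, h6⟩ := cone_cone (t.full i) hn h3 hk
  obtain ⟨ν, h7, h8⟩ := t.nn_lift i hm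
  refine ⟨⟨ν * κ, ?_, ?_⟩, h6⟩
  · rw [cl_mul, h1, mul_one]
    exact (t.cl_one ν).2 ⟨_, h8⟩
  · rw [h5, map_mul, h7, mul_smul]

/-- conjugate version: cl α' = h cl α h⁻¹ (replace α by γ α γ⁻¹, c by γ•c) -/
theorem cone_unique' (t : Tw d) {i : ℕ} {α α' : FreeGroup ℕ} {c c' : t.C i} {k k' : ℤ}
    (hα : t.p i α = (t.S i).gen c ^ k) (hk : ¬ (d : ℤ) ∣ k) (hα' : t.p i α' = (t.S i).gen c' ^ k') {h : BB d}
    (hh : cl d α' = h * cl d α * h⁻¹) : (∃ κ, cl d κ = h ∧ c' = t.p i κ • c) ∧ (d : ℤ) ∣ k' - k := by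
  obtain ⟨γ, rfl⟩ := cl_surj h
  have h4 : t.p i (γ * α * γ⁻¹) = (t.S i).gen (t.p i γ • c) ^ k := by
    rw [map_mul, map_mul, map_inv, hα, (t.S i).gen_zpow_conj]
  obtain ⟨⟨κ, h1, h2⟩, h3⟩ := cone_unique t h4 hk hα' (by rw [hh, cl_mul, cl_mul, cl_inv])
  refine ⟨⟨κ * γ, by rw [cl_mul, h1, one_mul], ?_⟩, h3⟩
  rw [h2, map_mul, mul_smul]

/-- I := least level with an element of class cl x which is torsion at level I (exists: tor_ex).  I ≠ 0 (tor_zero: the element would be 1).  I = i+1, β;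
(t.p i β)^d ∈ NN; BW classify_tor at level i: n ∈ NN with (n t.p i β)^d = 1 (impossible: lift n, minimality) or n t.p i β = gen c ^ k₀; α₀ := ν β.
¬ d ∣ k₀ (else t.p i α₀ ∈ NN, cl = 1).  Replace k₀ by the residue k with 0 < 2|k| < d (d odd): multiply α₀ by a lift of gen c ^ (-(d m)) ∈ NN. -/
theorem exists_cone (t : Tw d) (hd : Odd d) {x : FreeGroup ℕ} (hx : cl d x ≠ 1) :
    ∃ (i : ℕ) (c : t.C i) (k : ℤ) (α : FreeGroup ℕ), k ≠ 0 ∧ 2 * |k| < d ∧ ¬ (d : ℤ) ∣ k ∧ cl d α = cl d x ∧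
      t.p i α = (t.S i).gen c ^ k := by
  classical
  have hd0 : 0 < d := hd.pos
  have hex : ∃ I, ∃ β, cl d β = cl d x ∧ t.p I β ^ d = 1 := by
    obtain ⟨I, hI⟩ := t.tor_ex x
    exact ⟨I, x, rfl, hI⟩
  obtain ⟨I, ⟨β, hβ1, hβ2⟩, hmin⟩ : ∃ I, (∃ β, cl d β = cl d x ∧ t.p I β ^ d = 1) ∧
      ∀ k < I, ¬ ∃ β, cl d β = cl d x ∧ t.p k β ^ d = 1 :=
    ⟨Nat.find hex, Nat.find_spec hex, fun k hk => Nat.find_min hex hk⟩
  have hI0 : I ≠ 0 := by
    rintro rfl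
    have h1 := t.tor_zero hd0 hβ2
    apply hx
    rw [← hβ1, h1]
    rfl
  obtain ⟨i, rfl⟩ : ∃ i, I = i + 1 := ⟨I - 1, by omega⟩
  have hno := hmin i (Nat.lt_succ_self i)
  have h1 : t.p i β ^ d ∈ NN (t.S i) d := by
    rw [← map_pow, ← t.succ_one, map_pow]
    exact hβ2
  obtain ⟨n, hn, h2⟩ := classify_tor (t.full i) h1
  obtain ⟨ν, hν1, hν2⟩ := t.nn_lift i hn
  have hνcl : cl d ν = 1 := (t.cl_one ν).2 ⟨_, hν2⟩
  have hα₀ : cl d (ν * β) = cl d x := by rw [cl_mul, hνcl, one_mul, hβ1]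
  have hpα₀ : t.p i (ν * β) = n * t.p i β := by rw [map_mul, hν1]
  rcases h2 with h2 | ⟨c, k₀, h2⟩
  · exact absurd ⟨ν * β, hα₀, by rw [hpα₀]; exact h2⟩ hno
  · have h2' : (t.S i).gen c ^ k₀ = n * t.p i β := h2
    have hk₀ : ¬ (d : ℤ) ∣ k₀ := by
      rintro ⟨m, hm⟩
      have h3 : t.p (i + 1) (ν * β) = 1 := by
        rw [t.succ_one, hpα₀, ← h2', hm, mul_comm]
        exact (t.full i).ctx.gen_mem c m
      apply hx
      rw [← hα₀]
      exact (t.cl_one _).2 ⟨_, h3⟩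
    obtain ⟨k, m, hkm, hk2⟩ : ∃ k m : ℤ, k₀ = k + m * d ∧ 2 * |k| < d := by
      have hdZ : (0 : ℤ) < d := by exact_mod_cast hd0
      have e1 := Int.emod_nonneg k₀ hdZ.ne'
      have e2 := Int.emod_lt_of_pos k₀ hdZ
      have e3 := Int.emod_add_mul_ediv k₀ d
      obtain ⟨e, he⟩ := hd
      have heZ : (d : ℤ) = 2 * e + 1 := by
        rw [he]
        push_cast
        ring
      by_cases h4 : 2 * (k₀ % d) < d
      · refine ⟨k₀ % d, k₀ / d, ?_, ?_⟩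
        · rw [mul_comm (k₀ / d)]
          exact e3.symm
        · rw [abs_of_nonneg e1]
          exact h4
      · refine ⟨k₀ % d - d, k₀ / d + 1, ?_, ?_⟩
        · linear_combination -e3
        · rw [abs_of_neg (by linarith)]
          have : ¬ (2 * (k₀ % d) = d) := by
            rw [heZ]
            omega
          omega
    have hk : ¬ (d : ℤ) ∣ k := by
      intro h5
      apply hk₀
      rw [hkm]
      exact dvd_add h5 (dvd_mul_left _ _)
    obtain ⟨μ, hμ1, hμ2⟩ := t.nn_lift i ((t.full i).ctx.gen_mem c (-m))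
    have hμcl : cl d μ = 1 := (t.cl_one μ).2 ⟨_, hμ2⟩
    refine ⟨i, c, k, ν * β * μ, ?_, hk2, hk, ?_, ?_⟩
    · rintro rfl
      exact hk (dvd_zero _)
    · rw [cl_mul, hμcl, mul_one, hα₀]
    · rw [map_mul, hμ1, hpα₀, ← h2', ← zpow_add]
      congr 1
      rw [hkm]
      ring

/-- centralizers.  exists_cone for x; η with cl η = h (cl_surj); η α η⁻¹ has the class of α and t.p i (η α η⁻¹) = gen (η c) ^ k: cone_unique: η c = κ c,
κ⁻¹ η ∈ Stab c = <gen c>, so h ∈ <cl γ> where t.p i γ = gen c; cl γ ∈ <cl α>: cl α = (cl γ)^k (t.p i (γ^k) = t.p i α, cl_of_p), gcd (k, d) = 1, (cl γ)^d = 1. -/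
theorem centr (t : Tw d) (hd : Odd d) (hp : d.Prime) {a h : BB d} (ha : a ≠ 1) (hc : Commute h a) : h ∈ Subgroup.zpowers a := by
  obtain ⟨x, rfl⟩ := cl_surj a
  obtain ⟨i, c, k, α, -, -, hk, hα, hpα⟩ := exists_cone t hd ha
  rw [← hα] at hc ⊢
  have h1 : cl d α = h * cl d α * h⁻¹ := by
    have h2 : h * cl d α = cl d α * h := hc
    rw [h2, mul_inv_cancel_right]
  obtain ⟨⟨κ, hκ1, hκ2⟩, -⟩ := cone_unique' t hpα hk hpα h1
  obtain ⟨l, hl⟩ := ((t.S i).stab (t.p i κ) c).1 hκ2.symm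
  have hl' : (t.S i).gen c ^ l = t.p i κ := hl
  obtain ⟨γ, hγ⟩ := t.p_surj i ((t.S i).gen c)
  have hz : ∀ m : ℤ, cl d (γ ^ m) = cl d γ ^ m := fun m =>
    map_zpow (QuotientGroup.mk' _) γ m
  have hκ3 : cl d κ = cl d γ ^ l := by
    rw [← hz]
    apply t.cl_of_p (j := i)
    rw [map_zpow, hγ, hl']
  have hα3 : cl d α = cl d γ ^ k := by
    rw [← hz]
    apply t.cl_of_p (j := i)
    rw [map_zpow, hγ, hpα]
  have hcop : IsCoprime k (d : ℤ) := by
    rw [isCoprime_comm]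
    exact ((Nat.prime_iff_prime_int.1 hp).coprime_iff_not_dvd).2 hk
  obtain ⟨u, w, huw⟩ := hcop
  have hγ3 : cl d γ = cl d α ^ u := by
    have e1 : cl d γ ^ (d : ℤ) = 1 := by
      rw [zpow_natCast]
      exact cl_pow γ
    calc cl d γ = cl d γ ^ (u * k + w * d) := by rw [huw, zpow_one]
      _ = cl d α ^ u := by
        rw [zpow_add, mul_comm w, zpow_mul (cl d γ) (d : ℤ) w, e1, one_zpow, mul_one, hα3,
          ← zpow_mul, mul_comm u]
  rw [← hκ1, hκ3, hγ3, ← zpow_mul]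
  exact Subgroup.zpow_mem _ (Subgroup.mem_zpowers _) _

end Pool.Agent.helper4.PV
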