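import Pool.Agent.helper4.PV.H02
import Pool.Agent.helper4.PV.G07
import Pool.Agent.helper4.PV.G09M
import Pool.Agent.helper4.PV.G10
import Pool.Agent.helper4.PV.DefsH
/-! PV H03: base data of a class a ≠ 1; the level function M; one of the commutators is not torsion. -/
namespace Pool.Agent.helper4.PV
open Pool.Agent.helper50.BW
open Sum
variable {d : ℕ} {P : Par}

/-- base data of a class a: last nontorsion level i, cone c there, α of class a with image gen c ^ k, ν a point near the axis of c -/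
structure BD (t : Tw d) (a : BB d) where
  i : ℕ
  c : t.C i
  k : ℤ
  α : FreeGroup ℕ
  ν : FreeGroup ℕ
  hk : k ≠ 0
  hk2 : 2 * |k| < d
  hα : cl d α = a
  hc : t.p i α = (t.S i).gen c ^ k
  hν : (t.S i).r c (t.p i ν) ≤ KU

/-- exists_cone (H02), dense -/
theorem exists_bd (t : Tw d) (hd : Odd d) {a : BB d} (ha : a ≠ 1) : Nonempty (BD t a) := by
  obtain ⟨x, hx⟩ := cl_surj a
  have hx1 : cl d x ≠ 1 := by rw [hx]; exact ha
  obtain ⟨i, c, k, α, hk, hk2, -, hcl, hp⟩ := exists_cone t hd hx1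
  obtain ⟨p, hp1, -⟩ := (t.S i).dense c 0
  obtain ⟨ν, hν⟩ := t.p_surj i p
  exact ⟨{ i := i, c := c, k := k, α := α, ν := ν, hk := hk, hk2 := hk2, hα := by rw [hcl, hx]
           hc := hp, hν := by rw [hν]; exact hp1 }⟩

variable {t : Tw d} {a : BB d}

/-- 0 < |k| < d -/
theorem BD.ndvd (b : BD t a) : ¬ (d : ℤ) ∣ b.k := by
  intro h
  have h1 : 0 < |b.k| := abs_pos.2 b.hk
  have h2 : (d : ℤ) ≤ |b.k| := Int.le_of_dvd h1 ((dvd_abs _ _).2 h)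
  have h3 := b.hk2
  linarith

theorem H03_cl_ne (b : BD t a) : cl d b.α ≠ 1 := by
  intro h
  have h1 : t.p 0 (1 : FreeGroup ℕ) ^ d = 1 := by rw [map_one, one_pow]
  have h2 : cl d (1 : FreeGroup ℕ) = 1 := rfl
  exact absurd (tor_level t b.hc b.ndvd h1 (by rw [h, h2])) (Nat.not_lt_zero _)

theorem H03_map_cm {G H : Type} [Group G] [Group H] (f : G →* H) (x y : G) :
    f (cm x y) = cm (f x) (f y) := by
  unfold cm
  simp only [map_mul, map_inv]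

theorem H03_cm_iff (t : Tw d) (j : ℕ) (x y : FreeGroup ℕ) :
    t.p (j + 1) (cm x y) ^ d ≠ 1 ↔ cm (t.p j x) (t.p j y) ^ d ∉ NN (t.S j) d := by
  rw [← map_pow, ← H03_map_cm, ← map_pow]
  exact not_congr (t.succ_one j _)

/-- gen c ^ (k d) ∈ NN -/
theorem BD.tor (b : BD t a) {j : ℕ} (hj : b.i < j) : t.p j b.α ^ d = 1 := by
  refine t.tor_mono hj ?_
  rw [← map_pow, t.succ_one, map_pow, b.hc, ← zpow_natCast, ← zpow_mul]
  exact (t.full b.i).ctx.gen_mem b.c b.k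

/-- else cl α = 1 and t.p i α ∈ NN at .. : cl α = 1 and 1 is torsion at level 0: tor_level gives i < 0 -/
theorem BD.ne (b : BD t a) (j : ℕ) : t.p j b.α ≠ 1 :=
  fun h => H03_cl_ne b ((t.cl_one _).2 ⟨j, h⟩)

theorem BD.a_ne (b : BD t a) : a ≠ 1 :=
  fun h => H03_cl_ne b (b.hα.trans h)

/-- at level i+1: E (i+1) ν (α^n ν) = clam * db ≤ clam * dd ≤ clam * cs ≤ 1 (dist, db_le, dd_jump: both points are near the axis of c, r_gen_zpow); E_mono -/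
theorem BD.disp (b : BD t a) {j : ℕ} (hj : b.i < j) (n : ℤ) : t.E j b.ν (b.α ^ n * b.ν) ≤ 1 := by
  refine (t.E_mono (show b.i + 1 ≤ j from hj) _ _).trans ?_
  have hC := (t.full b.i).ctx
  have hs : (0 : ℝ) ≤ cs := by norm_num
  have h1 : (t.S b.i).r b.c (t.p b.i (b.α ^ n * b.ν)) ≤ KU := by
    rw [map_mul, map_zpow, b.hc, ← zpow_mul, (t.S b.i).r_gen_zpow]
    exact b.hν
  have h2 := (db_le hC (t.p b.i b.ν) (t.p b.i (b.α ^ n * b.ν))).trans (dd_jump hC.hyp _ hs b.hν h1)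
  unfold Tw.E
  rw [t.p_succ, t.p_succ, t.dist]
  have h3 : (clam : ℝ) * db (t.S b.i) cs d (t.p b.i b.ν) (t.p b.i (b.α ^ n * b.ν)) ≤ clam * cs :=
    mul_le_mul_of_nonneg_left h2 (by norm_num)
  refine h3.trans ?_
  norm_num

/-- levels where x has a lift moving ν by at most Rm -/
def BD.Mset (b : BD t a) (x : BB d) : Set ℕ := {j | b.i < j ∧ ∃ ξ, cl d ξ = x ∧ t.E j b.ν (ξ * b.ν) ≤ Rm}

/-- the level function -/
noncomputable def BD.M (b : BD t a) (x : BB d) : ℕ := sInf (b.Mset x)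

/-- nonempty by E_small; Nat.sInf_mem -/
theorem BD.M_mem (b : BD t a) (x : BB d) : b.M x ∈ b.Mset x := by
  refine Nat.sInf_mem ?_
  obtain ⟨ξ, hξ⟩ := cl_surj x
  obtain ⟨j, hj, h⟩ := t.E_small (b.i + 1) b.ν (ξ * b.ν) (show (0 : ℝ) < Rm by unfold Rm; norm_num)
  exact ⟨j, hj, ξ, hξ, h⟩

theorem BD.M_le (b : BD t a) {x : BB d} {j : ℕ} (hj : j ∈ b.Mset x) : b.M x ≤ j :=
  Nat.sInf_le hj

/-- at every level ≥ M x there is a lift moving ν by ≤ Rm (E_mono) -/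
theorem BD.lift (b : BD t a) {x : BB d} {j : ℕ} (hj : b.M x ≤ j) : ∃ ξ, cl d ξ = x ∧ t.E j b.ν (ξ * b.ν) ≤ Rm := by
  obtain ⟨-, ξ, h1, h2⟩ := b.M_mem x
  exact ⟨ξ, h1, (t.E_mono hj _ _).trans h2⟩

/-- x commuting with a is a power of a (centr), BD.disp, 1 ≤ Rm: M x = i + 1 -/
theorem BD.M_comm (b : BD t a) (hd : Odd d) (hp : d.Prime) {x : BB d} (hx : Commute x a) : b.M x = b.i + 1 := by
  obtain ⟨n, hn⟩ := Subgroup.mem_zpowers_iff.1 (centr t hd hp b.a_ne hx)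
  refine le_antisymm (b.M_le ⟨Nat.lt_succ_self _, b.α ^ n, ?_, ?_⟩) (b.M_mem x).1
  · have e : cl d (b.α ^ n) = cl d b.α ^ n := rfl
    rw [e, b.hα, hn]
  · refine (b.disp (Nat.lt_succ_self _) n).trans ?_
    unfold Rm
    norm_num

/-- displacement of the commutators: cm (α^s) ξ = α^s (ξ α^s ξ⁻¹) α^(-s) (ξ α^s ξ⁻¹)⁻¹: 1 + (2Rm + 1) + 1 + (2Rm + 1) = Rx -/
theorem BD.disp_cm (b : BD t a) {j : ℕ} (hj : b.i < j) {ξ : FreeGroup ℕ} (hξ : t.E j b.ν (ξ * b.ν) ≤ Rm) (n : ℕ) :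
    t.E j b.ν (cm (b.α ^ n) ξ * b.ν) ≤ Rx := by
  have h1 : t.E j b.ν (b.α ^ n * b.ν) ≤ 1 := by
    have := b.disp hj (n : ℤ)
    rwa [zpow_natCast] at this
  have h1' : t.E j b.ν ((b.α ^ n)⁻¹ * b.ν) ≤ 1 := by rw [t.E_invd]; exact h1
  have h2 : t.E j b.ν (ξ * b.α ^ n * ξ⁻¹ * b.ν) ≤ 2 * Rm + 1 := by
    have e1 := t.E_mul j b.ν (ξ * b.α ^ n) ξ⁻¹
    have e2 := t.E_mul j b.ν ξ (b.α ^ n)
    have e3 := t.E_invd j b.ν ξ
    linarith
  have h2' : t.E j b.ν ((ξ * b.α ^ n * ξ⁻¹)⁻¹ * b.ν) ≤ 2 * Rm + 1 := by rw [t.E_invd]; exact h2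
  have e1 := t.E_mul j b.ν (b.α ^ n * (ξ * b.α ^ n * ξ⁻¹) * (b.α ^ n)⁻¹) (ξ * b.α ^ n * ξ⁻¹)⁻¹
  have e2 := t.E_mul j b.ν (b.α ^ n * (ξ * b.α ^ n * ξ⁻¹)) (b.α ^ n)⁻¹
  have e3 := t.E_mul j b.ν (b.α ^ n) (ξ * b.α ^ n * ξ⁻¹)
  have e4 : cm (b.α ^ n) ξ = b.α ^ n * (ξ * b.α ^ n * ξ⁻¹) * (b.α ^ n)⁻¹ * (ξ * b.α ^ n * ξ⁻¹)⁻¹ := rfl
  rw [e4]
  unfold Rx
  linarith

/-- close case: comm_close (G10) at level i with y := t.p i ξ, N := P.N (ParOK.hN, DOK.bN).  Hypothesis hy: if n • (y • c) = c with n ∈ NN, n = t.p i ν' (nn_lift) then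
t.p i (ν' ξ) ∈ Stab c = <gen c>, so it commutes with gen c ^ k and cl ξ = cl (ν' ξ) commutes with a.  Conclusion at level i+1: g^d ∉ NN means
(t.p (i+1) ..)^d ≠ 1 (succ_one); t.p commutes with cm (map of a group homomorphism). -/
theorem mark_close (hP : ParOK P) (hD : DOK P d) (b : BD t a) {ξ : FreeGroup ℕ} (hξ : ¬ Commute (cl d ξ) a) :
    t.p (b.i + 1) (cm b.α ξ) ^ d ≠ 1 ∨ t.p (b.i + 1) (cm (b.α ^ P.N) ξ) ^ d ≠ 1 := by
  rw [H03_cm_iff, H03_cm_iff, map_pow, b.hc]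
  refine comm_close (t.full b.i) b.hk b.hk2.le hP.hN hD.bN ?_
  intro n hn hfix
  obtain ⟨ν', h1, h2⟩ := t.nn_lift b.i hn
  rw [smul_smul, ← h1, ← map_mul] at hfix
  obtain ⟨m, hm⟩ := Subgroup.mem_zpowers_iff.1 (((t.S b.i).stab _ _).1 hfix)
  have hν : cl d ν' = 1 := (t.cl_one _).2 ⟨_, h2⟩
  have h3 : t.p b.i (ν' * ξ * b.α) = t.p b.i (b.α * (ν' * ξ)) := by
    rw [map_mul (t.p b.i) (ν' * ξ) b.α, map_mul (t.p b.i) b.α (ν' * ξ), b.hc, ← hm, ← zpow_add,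
      ← zpow_add, add_comm]
  have h4 := t.cl_of_p h3
  rw [cl_mul, cl_mul, cl_mul, cl_mul, hν, one_mul, b.hα] at h4
  exact hξ h4

/-- far case: j = m + 1, m > i, no lift of x at level m moves ν by ≤ Rm.  tight_pt (BW.Q2) at level m for (ν, ξ ν): n ∈ NN, n = t.p m ν' (nn_lift),
ξ' := ν' ξ has the same class and the same image at level m+1, Adm (5/8) (t.p m ν) (t.p m (ξ' ν)), and t.E m ν (ξ' ν) > Rm ≥ cD + 11 cA + 100 KU.
comm_far (G09M) with a := t.p m α (BD.tor, BD.ne, BD.disp 1), y := t.p m ξ': cm^d ∉ NN, so (t.p (m+1) (cm α ξ'))^d ≠ 1 and t.p (m+1) ξ' = t.p (m+1) ξ. (cA ≤ ck0.) -/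
theorem mark_far (hD : DOK P d) (b : BD t a) {m : ℕ} (hm : b.i < m) {ξ : FreeGroup ℕ} (hξ : b.M (cl d ξ) = m + 1) :
    t.p (m + 1) (cm b.α ξ) ^ d ≠ 1 := by
  obtain ⟨n, hn, hadm⟩ := tight_pt (t.full m).ctx (t.p m b.ν) (t.p m (ξ * b.ν))
  obtain ⟨ν', h1, h2⟩ := t.nn_lift m hn
  have hν : cl d ν' = 1 := (t.cl_one _).2 ⟨_, h2⟩
  have hcl : cl d (ν' * ξ) = cl d ξ := by rw [cl_mul, hν, one_mul]
  have hp : t.p (m + 1) (cm b.α ξ) = t.p (m + 1) (cm b.α (ν' * ξ)) := by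
    rw [H03_map_cm, H03_map_cm, map_mul, h2, one_mul]
  have hfar : Rm < t.E m b.ν (ν' * ξ * b.ν) := by
    by_contra hcon
    have := b.M_le (x := cl d ξ) (j := m) ⟨hm, ν' * ξ, hcl, not_lt.1 hcon⟩
    omega
  have hav : (t.L m).D (t.p m b.ν) (t.p m b.α * t.p m b.ν) ≤ 1 := by
    have := b.disp hm 1
    rw [zpow_one] at this
    unfold Tw.E at this
    rwa [map_mul] at this
  have hE : t.E m b.ν (ν' * ξ * b.ν) = (t.L m).D (t.p m b.ν) (t.p m (ν' * ξ) * t.p m b.ν) := by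
    unfold Tw.E
    rw [map_mul (t.p m) (ν' * ξ) b.ν]
  rw [hE] at hfar
  have hadm' : Adm (t.S m) (t.U m) d (5 / 8) (inl (t.p m b.ν))
      (inl (t.p m (ν' * ξ) * t.p m b.ν)) := by
    have e : n * t.p m (ξ * b.ν) = t.p m (ν' * ξ) * t.p m b.ν := by
      rw [← h1, ← map_mul, ← map_mul, mul_assoc]
    rw [← e]
    exact hadm
  rw [hp, H03_cm_iff]
  refine comm_far (t.full m) (by norm_num) (b.tor hm) (b.ne m) hav ?_ hadm'
  refine le_trans ?_ hfar.le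
  unfold Rm
  norm_num

end Pool.Agent.helper4.PV
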