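import Pool.Agent.helper4.PV.H03
import Pool.Agent.helper4.PV.G15
import Pool.Agent.helper4.PV.G17
/-! PV H04: realization of the marker. -/
namespace Pool.Agent.helper4.PV
open Pool.Agent.helper50.BW
open Sum
variable {d : ℕ} {P : Par} {t : Tw d}

theorem H04_map_cm {G H : Type} [Group G] [Group H] (f : G →* H) (a y : G) :
    f (cm a y) = cm (f a) (f y) := by
  simp [cm]

theorem H04_map_mkr {G H : Type} [Group G] [Group H] (f : G →* H) (P : Par) (a y z : G) :
    f (mkr P a y z) = mkr P (f a) (f y) (f z) := by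
  simp [mkr, H04_map_cm]

/-- An element x which is not torsion at level j and moves v by ≤ R (with XX R + 2ck1 < d ctau) becomes a power of a cone generator at its last
nontorsion level J ≥ j: Tw.last, cone_of_nn (G07) at level J (E_mono). -/
theorem cone_level (t : Tw d) {j : ℕ} {x v : FreeGroup ℕ} {R : ℝ} (hx : t.p j x ^ d ≠ 1) (hv : t.E j v (x * v) ≤ R)
    (hR : XX cD ctau cku R + 2 * ck1 < d * ctau) :
    ∃ (J : ℕ) (c : t.C J) (q : ℤ), j ≤ J ∧ q ≠ 0 ∧ t.p J x = (t.S J).gen c ^ q ∧ |(q : ℝ)| * (t.S J).ell c ≤ R ∧ t.p J x ^ d ≠ 1 := by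
  obtain ⟨J, hjJ, h1, -, h3⟩ := t.last hx
  have hv' : (t.L J).D (t.p J v) (t.p J x * t.p J v) ≤ R := by
    have := (t.E_mono hjJ v (x * v)).trans hv
    simpa [Tw.E, map_mul] using this
  obtain ⟨c, q, hq, hc, hl⟩ := cone_of_nn (t.full J) h1 hv' (by linarith) h3
  exact ⟨J, c, q, hjJ, hq, hc, hl, h1⟩

/-- Four elements X t, all moving v by ≤ Rx at level j, at least one of them not torsion at level j.  For those which are not torsion at level j
let J t be the level of cone_level (R = Rx, DOK.bx); for the others J t := 0.  Choose t with J t maximal and then smallest index.  At level J t: X t = gen b ^ q; for t' < t: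
X t' is torsion at level J t (it is torsion at level j ≤ J t, or its last nontorsion level is J t' < J t; use uniqueness of the last level).  dom4 (G17).
Note: take J t with t.p (J t + 1) (X t)^d = 1 (Tw.last) to get torsion at all later levels. -/
theorem prod4_nontor (hP : ParOK P) (hD : DOK P d) (t : Tw d) {j : ℕ} {v : FreeGroup ℕ} {X : Fin 4 → FreeGroup ℕ}
    (hX : ∀ s, t.E j v (X s * v) ≤ Rx) (hne : ∃ s, t.p j (X s) ^ d ≠ 1) :
    ∃ J, j ≤ J ∧ t.p J (X 0 ^ P.n 0 * X 1 ^ P.n 1 * X 2 ^ P.n 2 * X 3 ^ P.n 3) ^ d ≠ 1 := by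
  classical
  -- the levels ≥ j at which all four elements are torsion
  have hex : ∃ k, j ≤ k ∧ ∀ s, t.p k (X s) ^ d = 1 := by
    choose K hK using fun s => t.tor_ex (X s)
    refine ⟨j + ∑ s, K s, Nat.le_add_right _ _, fun s => t.tor_mono ?_ (hK s)⟩
    exact (Finset.single_le_sum (f := K) (fun _ _ => Nat.zero_le _) (Finset.mem_univ s)).trans
      (Nat.le_add_left _ _)
  obtain ⟨hk1, hk2⟩ := Nat.find_spec hex
  have hkmin : ∀ m, m < Nat.find hex → ¬ (j ≤ m ∧ ∀ s, t.p m (X s) ^ d = 1) := fun m hm =>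
    Nat.find_min hex hm
  generalize Nat.find hex = k at hk1 hk2 hkmin
  have hjk : j < k := by
    refine lt_of_le_of_ne hk1 ?_
    rintro rfl
    obtain ⟨s, hs⟩ := hne
    exact hs (hk2 s)
  obtain ⟨J, rfl⟩ : ∃ J, k = J + 1 := ⟨k - 1, by omega⟩
  have hjJ : j ≤ J := by omega
  have hJ : ∃ s, t.p J (X s) ^ d ≠ 1 := by
    by_contra hcon
    push Not at hcon
    exact hkmin J (Nat.lt_succ_self J) ⟨hjJ, hcon⟩
  -- smallest index
  obtain ⟨s, hs, hmin⟩ : ∃ s, t.p J (X s) ^ d ≠ 1 ∧ ∀ s' < s, t.p J (X s') ^ d = 1 := by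
    obtain ⟨s, hs, hmin⟩ := WellFounded.has_min (wellFounded_lt (α := Fin 4))
      {s | t.p J (X s) ^ d ≠ 1} hJ
    refine ⟨s, hs, fun s' hs' => ?_⟩
    by_contra hcon
    exact hmin s' hcon hs'
  have hN : t.p J (X s) ^ d ∈ NN (t.S J) d := by
    rw [← map_pow, ← t.succ_one, map_pow]
    exact hk2 s
  have hXJ : ∀ s, (t.L J).D (t.p J v) (t.p J (X s) * t.p J v) ≤ Rx := by
    intro s
    have := (t.E_mono hjJ v (X s * v)).trans (hX s)
    simpa [Tw.E, map_mul] using this
  obtain ⟨c, q, hq, hc, -⟩ := cone_of_nn (t.full J) hs (hXJ s) (by linarith [hD.bx]) hN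
  have := dom4 (t.full J) hP (X := fun s => t.p J (X s)) hXJ hq hc hmin
  refine ⟨J, hjJ, ?_⟩
  simpa only [map_mul, map_pow] using this

/-- a realization of the triple (a; y, z) of classes at level J -/
structure Rz (t : Tw d) (P : Par) (a y z : BB d) where
  J : ℕ
  α : FreeGroup ℕ
  η : FreeGroup ℕ
  ζ : FreeGroup ℕ
  ν : FreeGroup ℕ
  c : t.C J
  q : ℤ
  hα : cl d α = a
  hη : cl d η = y
  hζ : cl d ζ = z
  rl : RL (t.S J) d P c q (t.p J ν) (t.p J α) (t.p J η) (t.p J ζ)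

/-- MAIN existence.  b := base data of a; j := max (M y) (M z); η, ζ lifts at level j (BD.lift).  At least one of y, z does not commute with a.
 If j = i+1: take x ∈ {y,z} not commuting with a, mark_close: one of cm α ξ, cm (α^N) ξ is nontorsion at level j = i+1.
 If j > i+1: x with M x = j = m+1, m > i: mark_far.
 So one of the X := (cm α η, cm (α^N) η, cm α ζ, cm (α^N) ζ) is not torsion at level j; all move ν by ≤ Rx (disp_cm).  prod4_nontor: mkr P α η ζ is not torsion at a level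
 J₁ ≥ j; it moves ν by ≤ Ru P; cone_level (R = Ru, DOK.bu): J ≥ J₁, mkr = gen c ^ q.  RL: tor, ne, da from BD (levels > i), dy, dz by E_mono. -/
theorem exists_rz (hP : ParOK P) (hD : DOK P d) (t : Tw d) {a y z : BB d} (h : Nd a y z) (b : BD t a) :
    ∃ r : Rz t P a y z, b.i < r.J ∧ b.M y ≤ r.J ∧ b.M z ≤ r.J ∧ r.α = b.α ∧ r.ν = b.ν := by
  have hMy : b.i < b.M y := (b.M_mem y).1
  have hMz : b.i < b.M z := (b.M_mem z).1
  obtain ⟨η, hη, hη2⟩ := b.lift (le_max_left (b.M y) (b.M z))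
  obtain ⟨ζ, hζ, hζ2⟩ := b.lift (le_max_right (b.M y) (b.M z))
  have hij : b.i < max (b.M y) (b.M z) := lt_of_lt_of_le hMy (le_max_left _ _)
  -- the four commutators
  let X : Fin 4 → FreeGroup ℕ := ![cm b.α η, cm (b.α ^ P.N) η, cm b.α ζ, cm (b.α ^ P.N) ζ]
  have hXd : ∀ s, t.E (max (b.M y) (b.M z)) b.ν (X s * b.ν) ≤ Rx := by
    intro s
    fin_cases s
    · have := b.disp_cm hij hη2 1
      rw [pow_one] at this
      exact this
    · exact b.disp_cm hij hη2 P.N
    · have := b.disp_cm hij hζ2 1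
      rw [pow_one] at this
      exact this
    · exact b.disp_cm hij hζ2 P.N
  have hne : ∃ s, t.p (max (b.M y) (b.M z)) (X s) ^ d ≠ 1 := by
    rcases Nat.lt_or_ge (b.i + 1) (max (b.M y) (b.M z)) with hlt | hge
    · obtain ⟨m, hm⟩ : ∃ m, max (b.M y) (b.M z) = m + 1 :=
        ⟨max (b.M y) (b.M z) - 1, by omega⟩
      have him : b.i < m := by omega
      rcases le_total (b.M y) (b.M z) with hle | hle
      · have h1 : b.M (cl d ζ) = m + 1 := by
          rw [hζ, ← hm, max_eq_right hle]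
        refine ⟨2, ?_⟩
        have := mark_far hD b him h1
        rw [hm]
        exact this
      · have h1 : b.M (cl d η) = m + 1 := by
          rw [hη, ← hm, max_eq_left hle]
        refine ⟨0, ?_⟩
        have := mark_far hD b him h1
        rw [hm]
        exact this
    · have hj : max (b.M y) (b.M z) = b.i + 1 := by omega
      rw [hj]
      by_cases hy : Commute a y
      · have hz : ¬ Commute a z := fun hz => h.2 ⟨hy, hz⟩
        have h1 : ¬ Commute (cl d ζ) a := by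
          rw [hζ]
          exact fun h' => hz h'.symm
        rcases mark_close hP hD b h1 with h2 | h2
        · exact ⟨2, h2⟩
        · exact ⟨3, h2⟩
      · have h1 : ¬ Commute (cl d η) a := by
          rw [hη]
          exact fun h' => hy h'.symm
        rcases mark_close hP hD b h1 with h2 | h2
        · exact ⟨0, h2⟩
        · exact ⟨1, h2⟩
  obtain ⟨J₁, hJ₁, hnt⟩ := prod4_nontor hP hD t hXd hne
  have hnt' : t.p J₁ (mkr P b.α η ζ) ^ d ≠ 1 := hnt
  -- displacement of the marker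
  have hdisp : t.E J₁ b.ν (mkr P b.α η ζ * b.ν) ≤ Ru P := by
    have hX1 : ∀ s, t.E J₁ b.ν (X s ^ P.n s * b.ν) ≤ P.n s * Rx := fun s =>
      (t.E_powd J₁ b.ν (X s) (P.n s)).trans
        (mul_le_mul_of_nonneg_left ((t.E_mono hJ₁ _ _).trans (hXd s)) (Nat.cast_nonneg _))
    have e : mkr P b.α η ζ = X 0 ^ P.n 0 * X 1 ^ P.n 1 * X 2 ^ P.n 2 * X 3 ^ P.n 3 := rfl
    have h3 := t.E_mul J₁ b.ν (X 0 ^ P.n 0 * X 1 ^ P.n 1 * X 2 ^ P.n 2) (X 3 ^ P.n 3)
    have h2 := t.E_mul J₁ b.ν (X 0 ^ P.n 0 * X 1 ^ P.n 1) (X 2 ^ P.n 2)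
    have h1 := t.E_mul J₁ b.ν (X 0 ^ P.n 0) (X 1 ^ P.n 1)
    have h4 := hX1 0
    have h5 := hX1 1
    have h6 := hX1 2
    have h7 := hX1 3
    rw [e]
    unfold Ru
    push_cast
    linarith
  obtain ⟨J, c, q, hJ, hq, hc, -, -⟩ := cone_level t hnt' hdisp hD.bu
  have hjJ : max (b.M y) (b.M z) ≤ J := hJ₁.trans hJ
  have hiJ : b.i < J := lt_of_lt_of_le hij hjJ
  refine ⟨⟨J, b.α, η, ζ, b.ν, c, q, b.hα, hη, hζ, ⟨hq, ?_, b.tor hiJ, b.ne J, fun n => ?_, ?_, ?_, ?_⟩⟩,
    hiJ, (le_max_left _ _).trans hjJ, (le_max_right _ _).trans hjJ, rfl, rfl⟩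
  · rw [← H04_map_mkr]
    exact hc
  · have := b.disp hiJ n
    simpa [Tw.E, map_mul, map_zpow] using this
  · have := (t.E_mono hjJ _ _).trans hη2
    simpa [Tw.E, map_mul] using this
  · have := (t.E_mono hjJ _ _).trans hζ2
    simpa [Tw.E, map_mul] using this
  · have := (t.E_mono hJ _ _).trans hdisp
    rw [← H04_map_mkr]
    simpa [Tw.E, map_mul] using this

end Pool.Agent.helper4.PV
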