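import Pool.Agent.helper4.PV.H04
/-! PV H05: the test word at the levels of the tower; ncomm and rank. -/
namespace Pool.Agent.helper4.PV
open Pool.Agent.helper50.BW
open Sum
variable {d : ℕ} {P : Par} {t : Tw d} {a y z : BB d}

/-- the test word as an element of the free group -/
def Rz.ω (r : Rz t P a y z) : FreeGroup ℕ := Wt P r.α r.η r.ζ

/-- homomorphisms commute with mkr, hh, wprod, Wt -/
theorem map_mkr {G H : Type} [Group G] [Group H] (f : G →* H) (P : Par) (a y z : G) : f (mkr P a y z) = mkr P (f a) (f y) (f z) := by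
  simp only [mkr, cm, map_mul, map_pow, map_inv]

theorem H05_map_hh {G H : Type} [Group G] [Group H] (f : G →* H) (a y z c : G) (s : Fin 11) :
    f (hh a y z c s) = hh (f a) (f y) (f z) (f c) s := by
  fin_cases s <;> simp [hh]

theorem map_Wt {G H : Type} [Group G] [Group H] (f : G →* H) (P : Par) (a y z : G) : f (Wt P a y z) = Wt P (f a) (f y) (f z) := by
  unfold Wt wprod
  rw [map_list_prod, List.map_ofFn]
  congr 2
  funext s
  simp only [Function.comp_apply, map_mul, map_pow, H05_map_hh, map_mkr]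

/-- (quotient map is a homomorphism) -/
theorem Rz.cl_ω (r : Rz t P a y z) : cl d r.ω = Wt P a y z := by
  have h1 := map_Wt (QuotientGroup.mk' (Fd d)) P r.α r.η r.ζ
  have e1 : QuotientGroup.mk' (Fd d) r.α = a := r.hα
  have e2 : QuotientGroup.mk' (Fd d) r.η = y := r.hη
  have e3 : QuotientGroup.mk' (Fd d) r.ζ = z := r.hζ
  rw [e1, e2, e3] at h1
  exact h1

theorem Rz.p_ω (r : Rz t P a y z) (j : ℕ) : t.p j r.ω = Wt P (t.p j r.α) (t.p j r.η) (t.p j r.ζ) :=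
  map_Wt (t.p j) P r.α r.η r.ζ

theorem H05_E (t : Tw d) (j : ℕ) (v x : FreeGroup ℕ) :
    t.E j v (x * v) = (t.L j).D (t.p j v) (t.p j x * t.p j v) := by
  unfold Tw.E
  rw [map_mul]

/-- RL.nt (G15) and succ_one -/
theorem Rz.nt (r : Rz t P a y z) (hP : ParOK P) (hD : DOK P d) : t.p (r.J + 1) r.ω ^ d ≠ 1 := by
  intro h
  have h1 := RL.nt (t.full r.J) hP hD r.rl
  apply h1
  rw [← r.p_ω, ← map_pow, ← t.succ_one, map_pow]
  exact h

/-- contrapositive of tor_mono -/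
theorem Rz.nt' (r : Rz t P a y z) (hP : ParOK P) (hD : DOK P d) {j : ℕ} (hj : j ≤ r.J + 1) : t.p j r.ω ^ d ≠ 1 :=
  fun h => r.nt hP hD (t.tor_mono hj h)

/-- RL.disp -/
theorem Rz.disp (r : Rz t P a y z) {j : ℕ} (hj : r.J ≤ j) : t.E j r.ν (r.ω * r.ν) ≤ RW P := by
  refine (t.E_mono hj _ _).trans ?_
  rw [H05_E, r.p_ω]
  exact RL.disp (t.full r.J) r.rl

/-- RL.long -/
theorem Rz.long (r : Rz t P a y z) (hP : ParOK P) (hD : DOK P d) : Rm < t.E r.J r.ν (r.ω * r.ν) := by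
  rw [H05_E, r.p_ω]
  exact RL.long (t.full r.J) hP hD r.rl

/-- powers of the marker at level J+1: p near the axis of c with D ν p ≤ Rp (RL.exists_p), p = t.p J π (p_surj).
E (J+1) ν (u^n ν) = clam db ≤ clam dd; dd ν (u^n ν) ≤ D ν p + dd p (u^n p) + D (u^n p) (u^n ν) ≤ 2 Rp + cs (dd_jump: u^n = gen c ^ (q n)); clam ≤ 1. -/
theorem Rz.disp_u (r : Rz t P a y z) (n : ℤ) : t.E (r.J + 1) r.ν (mkr P r.α r.η r.ζ ^ n * r.ν) ≤ 2 * Rp P + cs := by
  have hC := (t.full r.J).ctx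
  have hyp := hC.hyp
  have hs : (0 : ℝ) ≤ cs := by norm_num [cs]
  obtain ⟨p, hp1, hp2, -⟩ := RL.exists_p (t.full r.J) r.rl
  have hu : t.p r.J (mkr P r.α r.η r.ζ) = (t.S r.J).gen r.c ^ r.q := by
    rw [map_mkr]
    exact r.rl.hc
  have hun : t.p r.J (mkr P r.α r.η r.ζ ^ n) = (t.S r.J).gen r.c ^ (r.q * n) := by
    rw [map_zpow, hu, zpow_mul]
  have h1 : dd (t.S r.J) cs (t.p r.J r.ν) (t.p r.J (mkr P r.α r.η r.ζ ^ n * r.ν)) ≤ 2 * Rp P + cs := by
    rw [map_mul, hun]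
    have a1 := dd_le hyp (t.S r.J) hs (t.p r.J r.ν) p
    have a2 : dd (t.S r.J) cs p ((t.S r.J).gen r.c ^ (r.q * n) * p) ≤ cs := by
      refine dd_jump hyp (t.S r.J) hs hp1 ?_
      rw [CSys.r_gen_zpow]
      exact hp1
    have a3 := dd_le hyp (t.S r.J) hs ((t.S r.J).gen r.c ^ (r.q * n) * p)
      ((t.S r.J).gen r.c ^ (r.q * n) * t.p r.J r.ν)
    rw [hC.linv, hyp.symm p] at a3
    have a4 := dd_tri hyp (t.S r.J) hs (t.p r.J r.ν) p ((t.S r.J).gen r.c ^ (r.q * n) * t.p r.J r.ν)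
    have a5 := dd_tri hyp (t.S r.J) hs p ((t.S r.J).gen r.c ^ (r.q * n) * p)
      ((t.S r.J).gen r.c ^ (r.q * n) * t.p r.J r.ν)
    linarith
  have h2 := db_le hC (t.p r.J r.ν) (t.p r.J (mkr P r.α r.η r.ζ ^ n * r.ν))
  have h3 : t.E (r.J + 1) r.ν (mkr P r.α r.η r.ζ ^ n * r.ν)
      = clam * db (t.S r.J) cs d (t.p r.J r.ν) (t.p r.J (mkr P r.α r.η r.ζ ^ n * r.ν)) := by
    unfold Tw.E
    rw [t.p_succ, t.p_succ, t.dist]
  have h4 := db_nonneg hC (t.p r.J r.ν) (t.p r.J (mkr P r.α r.η r.ζ ^ n * r.ν))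
  have h5 : clam ≤ 1 := by norm_num [clam]
  rw [h3]
  calc clam * db (t.S r.J) cs d (t.p r.J r.ν) (t.p r.J (mkr P r.α r.η r.ζ ^ n * r.ν))
      ≤ 1 * db (t.S r.J) cs d (t.p r.J r.ν) (t.p r.J (mkr P r.α r.η r.ζ ^ n * r.ν)) :=
        mul_le_mul_of_nonneg_right h5 h4
    _ ≤ 2 * Rp P + cs := by linarith

theorem H05_list (t : Tw d) (j : ℕ) (v : FreeGroup ℕ) (B : ℝ) (l : List (FreeGroup ℕ))
    (hl : ∀ x ∈ l, t.E j v (x * v) ≤ B) : t.E j v (l.prod * v) ≤ l.length * B := by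
  induction l with
  | nil =>
    rw [List.prod_nil, one_mul, t.E_self]
    simp
  | cons x l ih =>
    rw [List.prod_cons, List.length_cons]
    have h1 := t.E_mul j v x l.prod
    have h2 := hl x List.mem_cons_self
    have h3 := ih fun y hy => hl y (List.mem_cons_of_mem x hy)
    push_cast
    linarith

/-- displacement of the test word at level J+1: 11 powers of the marker (≤ 2Rp + cs) and 11 connectors (RL.disp_hh, ≤ Hv at level J, hence at level J+1) -/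
theorem Rz.disp1 (r : Rz t P a y z) {j : ℕ} (hj : r.J < j) : t.E j r.ν (r.ω * r.ν) ≤ R1 P := by
  have h1 := H05_list t j r.ν (2 * Rp P + cs + Hv P)
    (List.ofFn fun s : Fin 11 => mkr P r.α r.η r.ζ ^ P.e s * hh r.α r.η r.ζ (mkr P r.α r.η r.ζ) s) ?_
  · rw [List.length_ofFn] at h1
    unfold R1
    push_cast at h1
    exact h1
  · intro x hx
    rw [List.mem_ofFn] at hx
    obtain ⟨s, rfl⟩ := hx
    have h2 := t.E_mul j r.ν (mkr P r.α r.η r.ζ ^ P.e s) (hh r.α r.η r.ζ (mkr P r.α r.η r.ζ) s)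
    have h3 := (t.E_mono (Nat.succ_le_of_lt hj) r.ν (mkr P r.α r.η r.ζ ^ ((P.e s : ℕ) : ℤ) * r.ν)).trans
      (r.disp_u (P.e s))
    rw [zpow_natCast] at h3
    have h4 : t.E j r.ν (hh r.α r.η r.ζ (mkr P r.α r.η r.ζ) s * r.ν) ≤ Hv P := by
      refine (t.E_mono hj.le _ _).trans ?_
      rw [H05_E, H05_map_hh, map_mkr]
      exact RL.disp_hh (t.full r.J) r.rl s
    linarith

theorem H05_Ru (P : Par) : 0 ≤ Ru P := by
  unfold Ru Rx Rm
  positivity

theorem H05_XX {R : ℝ} (hR : 0 ≤ R) (hτ : 0 < ctau) : R ≤ XX cD ctau cku R := by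
  have h1 : (0 : ℝ) ≤ KU := by norm_num [KU]
  have h2 : 0 ≤ rr ctau R := by
    unfold rr
    have : 0 ≤ KU / ctau := div_nonneg h1 hτ.le
    positivity
  have h3 : (0 : ℝ) ≤ cD := by norm_num [cD, cDs, KU]
  have h4 : (0 : ℝ) ≤ cku := by norm_num [cku, cD, cDs, KU]
  unfold XX
  linarith

/-- cone_level (H04) from level J+1 with R = R1 (DOK.b1) -/
theorem Rz.cone (r : Rz t P a y z) (hP : ParOK P) (hD : DOK P d) :
    ∃ (l : ℕ) (c : t.C l) (w : ℤ), r.J < l ∧ w ≠ 0 ∧ t.p l r.ω = (t.S l).gen c ^ w ∧ |(w : ℝ)| * (t.S l).ell c ≤ R1 P ∧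
      t.p l r.ω ^ d ≠ 1 ∧ ¬ (d : ℤ) ∣ w := by
  have hτ : 0 < ctau := (t.full r.J).ctx.hτ
  have h1 := r.disp1 (Nat.lt_succ_self r.J)
  have hR : 0 ≤ R1 P := (t.E_nonneg _ _ _).trans h1
  have hX := H05_XX hR hτ
  have hb := hD.b1
  have hk1 : (0 : ℝ) ≤ ck1 := (t.full r.J).ctx.h1
  obtain ⟨l, c, w, hl, hw, hc, hle, hnt⟩ := cone_level t (r.nt hP hD) h1 (by linarith)
  refine ⟨l, c, w, hl, hw, hc, hle, hnt, ?_⟩
  intro hdvd
  have h2 : (d : ℤ) ≤ |w| := Int.le_of_dvd (abs_pos.2 hw) ((dvd_abs _ _).2 hdvd)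
  have h3 : (d : ℝ) ≤ |(w : ℝ)| := by
    rw [← Int.cast_abs]
    exact_mod_cast h2
  have h4 : (d : ℝ) * ctau ≤ |(w : ℝ)| * (t.S l).ell c :=
    mul_le_mul h3 ((t.S l).ell_ge c) hτ.le (abs_nonneg _)
  linarith

/-- an element not torsion at level m+1 fixes no cone at level m (stab: it would be gen b ^ i and its d-th power in NN) -/
theorem no_fix (t : Tw d) {m : ℕ} {x : FreeGroup ℕ} (hx : t.p (m + 1) x ^ d ≠ 1) (b : t.C m) : t.p m x • b ≠ b := by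
  intro h
  obtain ⟨i, hi⟩ := ((t.S m).stab _ _).1 h
  apply hx
  rw [← map_pow, t.succ_one, map_pow]
  have h1 := (t.full m).ctx.gen_mem b i
  have h2 : t.p m x ^ d = (t.S m).gen b ^ (i * d) := by
    rw [zpow_mul, zpow_natCast]
    exact congrArg (· ^ d) hi.symm
  rw [h2]
  exact h1

/-- orbit crossings: no_fix and cross_bd (G07) -/
theorem orbit_bd (t : Tw d) {m : ℕ} {x v : FreeGroup ℕ} {R : ℝ} (hx : t.p (m + 1) x ^ d ≠ 1) (hv : t.E m v (x * v) ≤ R)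
    (b : t.C m) (N : ℤ) : |t.U m b (inl (t.p m x ^ N * t.p m v)) - t.U m b (inl (t.p m v))| ≤ XX cD ctau cku R := by
  rw [H05_E] at hv
  exact cross_bd (t.full m) (fun h => hx (t.tor_mono (Nat.le_succ m) h)) hv (no_fix t hx b) N

/-- NCOMM.  exists_bd, exists_rz.  If Wt commutes with a then x := ω α ω⁻¹ α⁻¹ has class 1 and moves ν by ≤ 2 RW + 2 at level J: bnd_inj (H02; DOK.bR): t.p J ω commutes with t.p J α.
BW Stg.comm_tor (g := t.p J ω not torsion, h := t.p J α torsion): t.p J α = 1, contradiction to RL.ne. -/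
theorem ncomm' (hP : ParOK P) (hD : DOK P d) (t : Tw d) (h : Nd a y z) : ¬ Commute (Wt P a y z) a := by
  intro hcomm
  obtain ⟨b⟩ := exists_bd t (t.full 0).ctx.odd h.1
  obtain ⟨r, -, -, -, -, -⟩ := exists_rz hP hD t h b
  have hτ : 0 < ctau := (t.full r.J).ctx.hτ
  have hRu := H05_Ru P
  have hR1 : 0 ≤ R1 P := (t.E_nonneg _ _ _).trans (r.disp1 (Nat.lt_succ_self r.J))
  have hRm : 0 ≤ Rm := by
    unfold Rm
    norm_num
  have hb := hD.bR
  have hcl : cl d (r.ω * r.α * r.ω⁻¹ * r.α⁻¹) = 1 := by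
    rw [cl_mul, cl_mul, cl_mul, cl_inv, cl_inv, r.cl_ω, r.hα, hcomm.eq, mul_inv_cancel_right,
      mul_inv_cancel]
  have hα : t.E r.J r.ν (r.α * r.ν) ≤ 1 := by
    rw [H05_E]
    have := r.rl.da 1
    rwa [zpow_one] at this
  have hω := r.disp le_rfl
  have hRW : 0 ≤ RW P := (t.E_nonneg _ _ _).trans hω
  have e1 := t.E_mul r.J r.ν (r.ω * r.α * r.ω⁻¹) r.α⁻¹
  have e2 := t.E_mul r.J r.ν (r.ω * r.α) r.ω⁻¹
  have e3 := t.E_mul r.J r.ν r.ω r.α
  rw [t.E_invd] at e1 e2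
  have h1 := bnd_inj t (j := r.J) (v := r.ν) hcl (by linarith)
  rw [map_mul, map_mul, map_mul, map_inv, map_inv, mul_inv_eq_one, mul_inv_eq_iff_eq_mul] at h1
  have hd : 0 < d := hD.pr.pos
  exact r.rl.ne ((t.L r.J).stg.comm_tor hd hτ (by norm_num [ce]) (r.nt' hP hD (Nat.le_succ _)) r.rl.tor h1)

/-- RANK.  M := b.M.  exists_rz: M y, M z ≤ J.  If M (Wt) ≤ J then BD.lift at level J: ξ of class Wt with E J ν (ξ ν) ≤ Rm; bnd_inj2: t.p J ξ = t.p J ω (Rm + RW small by DOK.bR), so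
E J ν (ω ν) ≤ Rm, contradiction to Rz.long. -/
theorem rank' (hP : ParOK P) (hD : DOK P d) (t : Tw d) (b : BD t a) (h : Nd a y z) :
    b.M y < b.M (Wt P a y z) ∧ b.M z < b.M (Wt P a y z) := by
  obtain ⟨r, -, hy, hz, -, hν⟩ := exists_rz hP hD t h b
  have hRu := H05_Ru P
  have hR1 : 0 ≤ R1 P := (t.E_nonneg _ _ _).trans (r.disp1 (Nat.lt_succ_self r.J))
  have hRm : 0 ≤ Rm := by
    unfold Rm
    norm_num
  have hb := hD.bR
  have hω := r.disp le_rfl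
  have hRW : 0 ≤ RW P := (t.E_nonneg _ _ _).trans hω
  have key : r.J < b.M (Wt P a y z) := by
    by_contra hle
    rw [not_lt] at hle
    obtain ⟨ξ, hξ1, hξ2⟩ := b.lift hle
    rw [← hν] at hξ2
    have h1 := bnd_inj2 t (j := r.J) (v := r.ν) (x := ξ) (y := r.ω) (by rw [hξ1, r.cl_ω])
      (by linarith)
    have h2 := r.long hP hD
    rw [H05_E] at h2 hξ2
    rw [h1] at hξ2
    linarith
  exact ⟨hy.trans_lt key, hz.trans_lt key⟩

end Pool.Agent.helper4.PV
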