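import Pool.Agent.helper4.PV.H05
import Pool.Agent.helper4.PV.G16
/-! PV H06: comparison of two test words. -/
namespace Pool.Agent.helper4.PV
open Pool.Agent.helper50.BW
open Sum
variable {d : ℕ} {P : Par} {t : Tw d} {a y z a' y' z' : BB d}

/-- the class map as a homomorphism -/
def H06_clh (d : ℕ) : FreeGroup ℕ →* BB d := QuotientGroup.mk' (Fd d)

theorem H06_clh_apply (x : FreeGroup ℕ) : H06_clh d x = cl d x := rfl

theorem H06_conj_Wt {G : Type} [Group G] (P : Par) (g a y z : G) :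
    Wt P (g * a * g⁻¹) (g * y * g⁻¹) (g * z * g⁻¹) = g * Wt P a y z * g⁻¹ := by
  have := map_Wt (MulAut.conj g).toMonoidHom P a y z
  simp only [MulEquiv.coe_toMonoidHom, MulAut.conj_apply] at this
  exact this.symm

theorem H06_conj_pow {G : Type} [Group G] {g x : G} {n : ℕ} (h : x ^ n ≠ 1) : (g * x * g⁻¹) ^ n ≠ 1 := by
  intro hc
  apply h
  rw [conj_pow] at hc
  have : g⁻¹ * (g * x ^ n * g⁻¹) * g = g⁻¹ * 1 * g := by rw [hc]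
  simpa [mul_assoc] using this

/-- START.  Rz.cone for r and r': (l, c, w), (l', c', w').  cl (γ₀ ω^k γ₀⁻¹) = cl ω' with cl γ₀ = g; t.p l (γ₀ ω^k γ₀⁻¹) = gen (γ₀ c) ^ (w k), ¬ d ∣ w k (prime); level_unique:
l = l' (subst); cone_unique' : c' = κ • c for some κ.  Put γ := κ⁻¹: t.p l (γ ω' γ⁻¹) = gen (κ⁻¹ c') ^ w' = gen c ^ w' (gen_zpow_conj).  So
(t.p l ω)^w' = gen c ^ (w w') = (t.p l (γ ω' γ⁻¹))^w: r₀ := w', s₀ := w. -/
theorem cmp_start (hP : ParOK P) (hD : DOK P d) (r : Rz t P a y z) (r' : Rz t P a' y' z') {g : BB d} {k : ℤ} (hk : ¬ (d : ℤ) ∣ k)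
    (h : Wt P a' y' z' = g * Wt P a y z ^ k * g⁻¹) :
    ∃ (l : ℕ) (γ : FreeGroup ℕ) (r₀ s₀ : ℤ), r.J < l ∧ r'.J < l ∧ r₀ ≠ 0 ∧ s₀ ≠ 0 ∧
      t.p l r.ω ^ d ≠ 1 ∧ t.p l r'.ω ^ d ≠ 1 ∧ t.p l r.ω ^ r₀ = t.p l (γ * r'.ω * γ⁻¹) ^ s₀ := by
  obtain ⟨l, c, w, hl, hw0, hw, -, hnt, hdw⟩ := r.cone hP hD
  obtain ⟨l', c', w', hl', hw0', hw', -, hnt', hdw'⟩ := r'.cone hP hD
  have hcl : cl d r'.ω = g * cl d (r.ω ^ k) * g⁻¹ := by
    have e1 : cl d (r.ω ^ k) = cl d r.ω ^ k := map_zpow (H06_clh d) r.ω k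
    rw [e1, r.cl_ω, r'.cl_ω, h]
  have hpk : t.p l (r.ω ^ k) = (t.S l).gen c ^ (w * k) := by
    rw [map_zpow, hw, ← zpow_mul]
  have hdk : ¬ (d : ℤ) ∣ w * k := by
    intro hdv
    have hp : Prime (d : ℤ) := Nat.prime_iff_prime_int.mp hD.pr
    rcases hp.dvd_or_dvd hdv with h1 | h1
    · exact hdw h1
    · exact hk h1
  have hll : l = l' := by
    obtain ⟨γ₀, hγ₀⟩ := cl_surj (d := d) g
    have h1 : t.p l (γ₀ * r.ω ^ k * γ₀⁻¹) = (t.S l).gen (t.p l γ₀ • c) ^ (w * k) := by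
      rw [(t.S l).gen_zpow_conj, map_mul, map_mul, map_inv, hpk]
    refine level_unique t h1 hdk hw' hdw' ?_
    rw [cl_mul, cl_mul, cl_inv, hγ₀, hcl]
  subst hll
  obtain ⟨⟨κ, -, hκ⟩, -⟩ := cone_unique' t hpk hdk hw' hcl
  refine ⟨l, κ⁻¹, w', w, hl, hl', hw0', hw0, hnt, hnt', ?_⟩
  have h2 : t.p l (κ⁻¹ * r'.ω * κ⁻¹⁻¹) = (t.S l).gen c ^ w' := by
    have h3 := (t.S l).gen_zpow_conj (t.p l κ)⁻¹ c' w'
    rw [hκ, inv_smul_smul, ← hκ, inv_inv] at h3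
    rw [map_mul, map_mul, map_inv, inv_inv, hw', h3]
  rw [h2, hw, ← zpow_mul, ← zpow_mul, mul_comm]

/-- the bound of the orbit crossings of a word of displacement RW -/
theorem H06_bd (hD : DOK P d) {m : ℕ} {x v : FreeGroup ℕ} (hx : t.p (m + 1) x ^ d ≠ 1) (hv : t.E m v (x * v) ≤ RW P)
    (b : t.C m) (N : ℤ) :
    |t.U m b (inl (t.p m x ^ N * t.p m v)) - t.U m b (inl (t.p m v))| ≤ 1 / 100 * (d * (t.S m).ell b) := by
  have h1 := orbit_bd t hx hv b N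
  have h2 := hD.bW
  have h3 := (t.S m).ell_ge b
  have h4 : (0 : ℝ) ≤ d := Nat.cast_nonneg d
  have h5 : (d : ℝ) * ctau ≤ d * (t.S m).ell b := mul_le_mul_of_nonneg_left h3 h4
  have h6 : (0 : ℝ) ≤ ck1 := by norm_num [ck1, cku, cD, cDs, KU, cs]
  linarith

/-- ONE STEP DOWN.  m ≥ J, J', both words not torsion at level m+1.  succ_eq: (t.p m ω)^r₀ = n (t.p m (γω'γ⁻¹))^s₀, n ∈ NN.  cal (G11) with v := t.p m ν, v' := t.p m (γ ν'):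
crossing bounds by orbit_bd with R = RW (Rz.disp; for γω'γ⁻¹ and γν': E_inv) and 100 XX (RW) ≤ d ctau ≤ d ell b (DOK.bW).  cal gives m₁ ∈ NN, m₁ = t.p m μ (p_surj): γ' := μ γ. -/
theorem cmp_step (hP : ParOK P) (hD : DOK P d) (r : Rz t P a y z) (r' : Rz t P a' y' z') {m : ℕ} (hm : r.J ≤ m) (hm' : r'.J ≤ m)
    (hn : t.p (m + 1) r.ω ^ d ≠ 1) (hn' : t.p (m + 1) r'.ω ^ d ≠ 1) {γ : FreeGroup ℕ} {r₀ s₀ : ℤ} (hr : r₀ ≠ 0)
    (h : t.p (m + 1) r.ω ^ r₀ = t.p (m + 1) (γ * r'.ω * γ⁻¹) ^ s₀) :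
    ∃ γ', t.p m r.ω ^ r₀ = t.p m (γ' * r'.ω * γ'⁻¹) ^ s₀ := by
  have _ := hP
  have h1 : t.p (m + 1) (r.ω ^ r₀) = t.p (m + 1) ((γ * r'.ω * γ⁻¹) ^ s₀) := by
    rw [map_zpow, map_zpow, h]
  obtain ⟨n, hnN, hn1⟩ := (t.succ_eq m _ _).1 h1
  rw [map_zpow, map_zpow] at hn1
  have hg : t.p m r.ω ^ d ≠ 1 := fun hc => hn (t.tor_mono (Nat.le_succ m) hc)
  have hn2 : t.p (m + 1) (γ * r'.ω * γ⁻¹) ^ d ≠ 1 := by
    rw [map_mul, map_mul, map_inv]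
    exact H06_conj_pow hn'
  have hv2 : t.E m (γ * r'.ν) (γ * r'.ω * γ⁻¹ * (γ * r'.ν)) ≤ RW P := by
    rw [show γ * r'.ω * γ⁻¹ * (γ * r'.ν) = γ * (r'.ω * r'.ν) by group, t.E_inv]
    exact r'.disp hm'
  obtain ⟨m₁, -, hm₁⟩ := cal (t.full m) (v := t.p m r.ν) (v' := t.p m (γ * r'.ν)) hr hnN hn1 hg
    (fun b N => H06_bd hD hn (r.disp hm) b N) (fun b N => H06_bd hD hn2 hv2 b N)
  obtain ⟨μ, hμ⟩ := t.p_surj m m₁
  refine ⟨μ * γ, ?_⟩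
  rw [hm₁]
  congr 1
  rw [← hμ, ← map_inv, ← map_mul, ← map_mul]
  congr 1
  group

/-- all levels between the realizations and the cone level -/
theorem H06_all (hP : ParOK P) (hD : DOK P d) (r : Rz t P a y z) (r' : Rz t P a' y' z') {g : BB d} {k : ℤ} (hk : ¬ (d : ℤ) ∣ k)
    (h : Wt P a' y' z' = g * Wt P a y z ^ k * g⁻¹) :
    ∃ (l : ℕ) (r₀ s₀ : ℤ), r.J < l ∧ r'.J < l ∧ r₀ ≠ 0 ∧ s₀ ≠ 0 ∧ (∀ m ≤ l, t.p m r.ω ^ d ≠ 1) ∧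
      (∀ m ≤ l, t.p m r'.ω ^ d ≠ 1) ∧
      ∀ m, r.J ≤ m → r'.J ≤ m → m ≤ l → ∃ γ, t.p m r.ω ^ r₀ = t.p m (γ * r'.ω * γ⁻¹) ^ s₀ := by
  obtain ⟨l, γ, r₀, s₀, hl, hl', hr, hs, hn, hn', hrel⟩ := cmp_start hP hD r r' hk h
  have hN : ∀ m ≤ l, t.p m r.ω ^ d ≠ 1 := fun m hm hc => hn (t.tor_mono hm hc)
  have hN' : ∀ m ≤ l, t.p m r'.ω ^ d ≠ 1 := fun m hm hc => hn' (t.tor_mono hm hc)
  refine ⟨l, r₀, s₀, hl, hl', hr, hs, hN, hN', ?_⟩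
  have key : ∀ n m, m + n = l → r.J ≤ m → r'.J ≤ m →
      ∃ γ, t.p m r.ω ^ r₀ = t.p m (γ * r'.ω * γ⁻¹) ^ s₀ := by
    intro n
    induction n with
    | zero =>
      intro m hm _ _
      rw [Nat.add_zero] at hm
      subst hm
      exact ⟨γ, hrel⟩
    | succ n ih =>
      intro m hm h1 h2
      obtain ⟨γ₁, hγ₁⟩ := ih (m + 1) (by omega) (by omega) (by omega)
      exact cmp_step hP hD r r' h1 h2 (hN (m + 1) (by omega)) (hN' (m + 1) (by omega)) hr hγ₁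
  intro m h1 h2 h3
  exact key (l - m) m (by omega) h1 h2

/-- downward induction from l (cmp_start) to max J J' (cmp_step; not torsion at levels ≤ l by tor_mono) -/
theorem cmp_max (hP : ParOK P) (hD : DOK P d) (r : Rz t P a y z) (r' : Rz t P a' y' z') {g : BB d} {k : ℤ} (hk : ¬ (d : ℤ) ∣ k)
    (h : Wt P a' y' z' = g * Wt P a y z ^ k * g⁻¹) :
    ∃ (γ : FreeGroup ℕ) (r₀ s₀ : ℤ), r₀ ≠ 0 ∧ s₀ ≠ 0 ∧ t.p (max r.J r'.J) r.ω ^ r₀ = t.p (max r.J r'.J) (γ * r'.ω * γ⁻¹) ^ s₀ := by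
  obtain ⟨l, r₀, s₀, hl, hl', hr, hs, -, -, hall⟩ := H06_all hP hD r r' hk h
  obtain ⟨γ, hγ⟩ := hall (max r.J r'.J) (le_max_left _ _) (le_max_right _ _) (max_le hl.le hl'.le)
  exact ⟨γ, r₀, s₀, hr, hs, hγ⟩

/-- J < J' is impossible.  At level J': RL.conj (G16) of r'.rl by t.p J' γ, its chain ζ' (RL.exists_ww, RL.chain), h := (t.p J' (γω'γ⁻¹))^s₀ translates it by 11 s₀ (chain_zpow).
no_mix (G12) with g := t.p J' ω, v := t.p J' ν, X := XX R1 (orbit_bd at level J' with Rz.disp1, J < J'; the word is not torsion at level J'+1?  NOTE: needed for no_fix; from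
cmp_max we know only that both words are not torsion at all levels ≤ l, l > J'; therefore the statement has the hypothesis hn).  So kap P ≤ 2 XX R1, contradiction to ParOK.k3. -/
theorem cmp_ne (hP : ParOK P) (hD : DOK P d) (r : Rz t P a y z) (r' : Rz t P a' y' z') (hJ : r.J < r'.J)
    (hn : t.p (r'.J + 1) r.ω ^ d ≠ 1) {γ : FreeGroup ℕ} {r₀ s₀ : ℤ} (hr : r₀ ≠ 0) (hs : s₀ ≠ 0)
    (h : t.p r'.J r.ω ^ r₀ = t.p r'.J (γ * r'.ω * γ⁻¹) ^ s₀) : False := by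
  have _ := hr
  have hF : FullT (t.S r'.J) (t.U r'.J) d := t.full r'.J
  have hrl := r'.rl.conj hF (t.p r'.J γ)
  obtain ⟨w, hw0, hw, hp, hW⟩ := hrl.exists_ww
  have hch := hrl.chain hF hP hD hw
  have hW2 : w 11 = t.p r'.J (γ * r'.ω * γ⁻¹) := by
    rw [hW, H06_conj_Wt, ← r'.p_ω, map_mul, map_mul, map_inv]
  obtain ⟨e1, e0, eu⟩ := G16_ck
  have hk1 := hP.k1
  have hk3 := hP.k3
  have hκ : (ck0 : ℝ) + ck1 + 2 * cku ≤ kap P := by linarith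
  have htr := fun k => chain_zpow (fun k => G16_smul hp (t.p r'.J γ • r'.c) k) s₀ k
  have hs11 : s₀ * 11 ≠ 0 := by omega
  have hg : w 11 ^ s₀ = t.p r'.J r.ω ^ r₀ := by rw [hW2, h]
  have hfin := no_mix hF.ctx hκ hch hs11 htr hg (v := t.p r'.J r.ν) (X := XX cD ctau cku (R1 P))
    (fun b m => orbit_bd t hn (r.disp1 hJ) b m)
  linarith

/-- the levels are equal and there is a relation there.  Combine cmp_start, cmp_step, cmp_ne (both directions; for J' < J use the relation read backwards: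
(t.p ω')^s₀ = (t.p (γ⁻¹ ω γ))^r₀).  State the induction so that `not torsion at all levels ≤ l` is kept. -/
theorem cmp_eq (hP : ParOK P) (hD : DOK P d) (r : Rz t P a y z) (r' : Rz t P a' y' z') {g : BB d} {k : ℤ} (hk : ¬ (d : ℤ) ∣ k)
    (h : Wt P a' y' z' = g * Wt P a y z ^ k * g⁻¹) :
    r.J = r'.J ∧ ∃ (γ : FreeGroup ℕ) (r₀ s₀ : ℤ), r₀ ≠ 0 ∧ s₀ ≠ 0 ∧ t.p r.J r.ω ^ r₀ = t.p r.J (γ * r'.ω * γ⁻¹) ^ s₀ := by
  obtain ⟨l, r₀, s₀, hl, hl', hr, hs, hN, hN', hall⟩ := H06_all hP hD r r' hk h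
  have hJ : r.J = r'.J := by
    rcases lt_trichotomy r.J r'.J with h1 | h1 | h1
    · exfalso
      obtain ⟨γ, hγ⟩ := hall r'.J h1.le le_rfl hl'.le
      exact cmp_ne hP hD r r' h1 (hN _ hl') hr hs hγ
    · exact h1
    · exfalso
      obtain ⟨γ, hγ⟩ := hall r.J le_rfl h1.le hl.le
      refine cmp_ne hP hD r' r h1 (hN' _ hl) (γ := γ⁻¹) hs hr ?_
      have e : t.p r.J (γ⁻¹ * r.ω * γ⁻¹⁻¹) = (t.p r.J γ)⁻¹ * t.p r.J r.ω * (t.p r.J γ)⁻¹⁻¹ := by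
        simp only [map_mul, map_inv]
      rw [e, conj_zpow, hγ, map_mul, map_mul, map_inv, conj_zpow]
      group
  refine ⟨hJ, ?_⟩
  obtain ⟨γ, hγ⟩ := hall r.J le_rfl hJ.ge hl.le
  exact ⟨γ, r₀, s₀, hr, hs, hγ⟩

/-- Equal levels: `compare` (G16) for r.rl and (RL.conj of r'.rl by t.p J γ) (transport r' along r.J = r'.J: obtain r' by cases, or generalize the level).
x = t.p J (ω^m); γ₁ := ω^(-m) γ, h := cl γ₁.  All conclusions of compare are equalities in G_J between images of elements of F, so they hold in B (cl_of_p). -/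
theorem cmp_B (hP : ParOK P) (hD : DOK P d) (r : Rz t P a y z) (r' : Rz t P a' y' z') {g : BB d} {k : ℤ} (hk : ¬ (d : ℤ) ∣ k)
    (h : Wt P a' y' z' = g * Wt P a y z ^ k * g⁻¹) :
    ∃ (h y'' z'' u : BB d), h * a' * h⁻¹ = a ∧ y'' = h * y' * h⁻¹ ∧ z'' = h * z' * h⁻¹ ∧ u = mkr P a y z ∧
      y'' * a * y''⁻¹ = y * a * y⁻¹ ∧ y'' * (u * a * u⁻¹) * y''⁻¹ = y * (u * a * u⁻¹) * y⁻¹ ∧
      z'' * a * z''⁻¹ = z * a * z⁻¹ ∧ z'' * (u * a * u⁻¹) * z''⁻¹ = z * (u * a * u⁻¹) * z⁻¹ := by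
  obtain ⟨hJ, γ, r₀, s₀, hr, hs, hrel⟩ := cmp_eq hP hD r r' hk h
  obtain ⟨J', α', η', ζ', ν', c', q', hα', hη', hζ', rl'⟩ := r'
  simp only at hJ
  subst hJ
  have hF : FullT (t.S r.J) (t.U r.J) d := t.full r.J
  have hrl := rl'.conj hF (t.p r.J γ)
  have hrs : Wt P (t.p r.J r.α) (t.p r.J r.η) (t.p r.J r.ζ) ^ r₀ =
      Wt P (t.p r.J γ * t.p r.J α' * (t.p r.J γ)⁻¹) (t.p r.J γ * t.p r.J η' * (t.p r.J γ)⁻¹)
        (t.p r.J γ * t.p r.J ζ' * (t.p r.J γ)⁻¹) ^ s₀ := by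
    rw [H06_conj_Wt, ← r.p_ω, ← map_Wt, hrel, map_mul, map_mul, map_inv]
    rfl
  obtain ⟨m, x, a'', y'', z'', u, hx, ha2, hy2, hz2, hu, h1, h2, h3, h4, h5⟩ :=
    compare hF hP hD r.rl hrl hr hs hrs
  rw [← r.p_ω, ← map_zpow] at hx
  -- the conjugator
  have key : ∀ ξ : FreeGroup ℕ, x⁻¹ * (t.p r.J γ * t.p r.J ξ * (t.p r.J γ)⁻¹) * x =
      t.p r.J ((r.ω ^ m)⁻¹ * γ * ξ * ((r.ω ^ m)⁻¹ * γ)⁻¹) := by
    intro ξ
    rw [hx]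
    simp only [map_mul, map_inv]
    group
  set γ₁ : FreeGroup ℕ := (r.ω ^ m)⁻¹ * γ with hγ₁
  rw [key] at ha2 hy2 hz2
  have hu2 : u = t.p r.J (mkr P r.α r.η r.ζ) := by rw [hu, map_mkr]
  have hua : cl d (mkr P r.α r.η r.ζ) = mkr P a y z := by
    have := map_mkr (H06_clh d) P r.α r.η r.ζ
    simp only [H06_clh_apply, r.hα, r.hη, r.hζ] at this
    exact this
  have hc : ∀ ξ : FreeGroup ℕ, cl d (γ₁ * ξ * γ₁⁻¹) = cl d γ₁ * cl d ξ * (cl d γ₁)⁻¹ := by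
    intro ξ
    rw [cl_mul, cl_mul, cl_inv]
  refine ⟨cl d γ₁, _, _, mkr P a y z, ?_, rfl, rfl, rfl, ?_, ?_, ?_, ?_⟩
  · have e := t.cl_of_p (ha2.symm.trans h1)
    rw [hc, hα', r.hα] at e
    exact e
  · have e : cl d (γ₁ * η' * γ₁⁻¹ * r.α * (γ₁ * η' * γ₁⁻¹)⁻¹) = cl d (r.η * r.α * r.η⁻¹) := by
      apply t.cl_of_p (j := r.J)
      rw [hy2] at h2
      simp only [map_mul, map_inv] at h2 ⊢
      exact h2
    simp only [cl_mul, cl_inv] at e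
    rw [hη', r.hα, r.hη] at e
    exact e
  · have e : cl d (γ₁ * η' * γ₁⁻¹ * (mkr P r.α r.η r.ζ * r.α * (mkr P r.α r.η r.ζ)⁻¹) * (γ₁ * η' * γ₁⁻¹)⁻¹) =
        cl d (r.η * (mkr P r.α r.η r.ζ * r.α * (mkr P r.α r.η r.ζ)⁻¹) * r.η⁻¹) := by
      apply t.cl_of_p (j := r.J)
      rw [hy2, hu2] at h3
      simp only [map_mul, map_inv] at h3 ⊢
      exact h3
    simp only [cl_mul, cl_inv] at e
    rw [hη', r.hα, r.hη, hua] at e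
    exact e
  · have e : cl d (γ₁ * ζ' * γ₁⁻¹ * r.α * (γ₁ * ζ' * γ₁⁻¹)⁻¹) = cl d (r.ζ * r.α * r.ζ⁻¹) := by
      apply t.cl_of_p (j := r.J)
      rw [hz2] at h4
      simp only [map_mul, map_inv] at h4 ⊢
      exact h4
    simp only [cl_mul, cl_inv] at e
    rw [hζ', r.hα, r.hζ] at e
    exact e
  · have e : cl d (γ₁ * ζ' * γ₁⁻¹ * (mkr P r.α r.η r.ζ * r.α * (mkr P r.α r.η r.ζ)⁻¹) * (γ₁ * ζ' * γ₁⁻¹)⁻¹) =
        cl d (r.ζ * (mkr P r.α r.η r.ζ * r.α * (mkr P r.α r.η r.ζ)⁻¹) * r.ζ⁻¹) := by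
      apply t.cl_of_p (j := r.J)
      rw [hz2, hu2] at h5
      simp only [map_mul, map_inv] at h5 ⊢
      exact h5
    simp only [cl_mul, cl_inv] at e
    rw [hζ', r.hα, r.hζ, hua] at e
    exact e

end Pool.Agent.helper4.PV
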