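import Pool.Agent.helper4.PV.H06
/-! PV H07: the test word determines the triple. -/
namespace Pool.Agent.helper4.PV
open Pool.Agent.helper50.BW
open Sum
variable {d : ℕ} {P : Par} {t : Tw d} {a y z a' y' z' : BB d}

theorem H07_odd (hD : DOK P d) : Odd d := by
  rcases hD.pr.eq_two_or_odd' with h | h
  · exfalso
    have h1 := hD.b0
    rw [h] at h1
    have h2 := ctau_le
    have h3 : (1 : ℝ) ≤ ck0 := by norm_num
    push_cast at h1
    linarith
  · exact h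

theorem H07_XX {R : ℝ} (hR : 0 ≤ R) : R ≤ XX cD ctau cku R := by
  unfold XX rr
  have h1 := ctau_pos
  have h2 : 0 ≤ (KU / ctau + 1) * R := by positivity
  have h3 : (0 : ℝ) ≤ cD := by norm_num
  have h4 : (0 : ℝ) ≤ cku := by norm_num
  have h5 : (0 : ℝ) ≤ KU := by norm_num
  linarith

theorem H07_ndvd {q : ℤ} {R e : ℝ} (hq : q ≠ 0) (he : ctau ≤ e) (h : |(q : ℝ)| * e ≤ R)
    (hR : XX cD ctau cku R + 2 * ck1 < d * ctau) : ¬ (d : ℤ) ∣ q := by
  intro hd
  have h1 := Int.le_of_dvd (abs_pos.2 hq) ((dvd_abs _ _).2 hd)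
  have h2 : (d : ℝ) ≤ |(q : ℝ)| := by exact_mod_cast h1
  have h3 := ctau_pos
  have h4 : (d : ℝ) * ctau ≤ |(q : ℝ)| * e := mul_le_mul h2 he h3.le (abs_nonneg _)
  have h5 : (0 : ℝ) ≤ R := le_trans (by positivity) (h4.trans h)
  have h6 := H07_XX h5
  have h7 : (0 : ℝ) ≤ ck1 := by norm_num
  linarith

theorem H07_pow (x : BB d) : x ^ d = 1 := by
  obtain ⟨x, rfl⟩ := cl_surj x
  exact cl_pow x

/-- the word is trivial if a commutes with y and z -/
theorem H07_Wt_one {G : Type} [Group G] {P : Par} {a y z : G} (h1 : Commute a y) (h2 : Commute a z) : Wt P a y z = 1 := by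
  have e1 : y * a * y⁻¹ = a := by rw [← h1.eq, mul_inv_cancel_right]
  have e2 : z * a * z⁻¹ = a := by rw [← h2.eq, mul_inv_cancel_right]
  have e1' : y * a ^ P.N * y⁻¹ = a ^ P.N := by rw [← (h1.pow_left P.N).eq, mul_inv_cancel_right]
  have e2' : z * a ^ P.N * z⁻¹ = a ^ P.N := by rw [← (h2.pow_left P.N).eq, mul_inv_cancel_right]
  have hm : mkr P a y z = 1 := by
    unfold mkr cm
    rw [e1, e2, e1', e2']
    simp
  unfold Wt
  rw [hm]
  have hh1 : hh a y z 1 = ![a, a, a, a, a, a, a, a, a, a, (a ^ 10)⁻¹] := by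
    unfold hh
    simp only [one_mul, inv_one, mul_one, e1, e2]
  rw [hh1]
  unfold wprod
  simp only [one_pow, one_mul, List.ofFn_succ, List.ofFn_zero, List.prod_cons, List.prod_nil, mul_one]
  simp [Fin.succ, pow_succ]

/-- the class u of the marker does not commute with a: otherwise u ∈ <a> (centr), u = a^i = cl (α^i), torsion at level J (RL.tor); but t.p J (mkr P α η ζ) = gen c ^ q with
¬ d ∣ q (|q| ctau ≤ |q| ell c ≤ Ru < d ctau, RL.qell, q ≠ 0): tor_level (H02): J < J. -/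
theorem Rz.u_ncomm (hD : DOK P d) (r : Rz t P a y z) : ¬ Commute (mkr P a y z) a := by
  intro hcom
  have ha : a ≠ 1 := by
    rintro rfl
    obtain ⟨J, α, η, ζ, ν, c, q, hα, hη, hζ, rl⟩ := r
    have h0 : cl d α = 1 := hα
    exact rl.ne (tor_inj t hD.pr.pos hD.b0 rl.tor h0)
  obtain ⟨i, hi⟩ := Subgroup.mem_zpowers_iff.1 (centr t (H07_odd hD) hD.pr ha hcom)
  have hcl : cl d (mkr P r.α r.η r.ζ) = cl d (r.α ^ i) := by
    have h1 : cl d (r.α ^ i) = cl d r.α ^ i := rfl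
    have h2 : cl d (mkr P r.α r.η r.ζ) = mkr P (cl d r.α) (cl d r.η) (cl d r.ζ) :=
      map_mkr (QuotientGroup.mk' (Fd d)) P r.α r.η r.ζ
    rw [h1, h2, r.hα, r.hη, r.hζ, hi]
  have h1 : t.p r.J (mkr P r.α r.η r.ζ) = (t.S r.J).gen r.c ^ r.q := by
    rw [map_mkr, r.rl.hc]
  have hq : ¬ (d : ℤ) ∣ r.q :=
    H07_ndvd r.rl.hq ((t.S r.J).ell_ge r.c) (r.rl.qell (t.full r.J)).2 hD.bu
  have h2 : t.p r.J (r.α ^ i) ^ d = 1 := by
    rw [map_zpow, ← zpow_natCast, ← zpow_mul, mul_comm, zpow_mul, zpow_natCast, r.rl.tor, one_zpow]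
  exact lt_irrefl _ (tor_level t h1 hq h2 hcl)

/-- x commuting with a and with u a u⁻¹ is 1.  Suppose x ≠ 1.  centr for x: a and u a u⁻¹ are powers of x, so they commute; centr for a: u a u⁻¹ = a^j.  Then
u^n a u^(-n) = a^(j^n); u^d = 1 gives a = a^(j^d), j^d ≡ 1 mod d (a has order d), Fermat j^d ≡ j: j ≡ 1, so u commutes with a, contradiction. -/
theorem Rz.inter (hD : DOK P d) (r : Rz t P a y z) {x : BB d} (h1 : Commute x a)
    (h2 : Commute x (mkr P a y z * a * (mkr P a y z)⁻¹)) : x = 1 := by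
  by_contra hx
  have hodd := H07_odd hD
  have ha : a ≠ 1 := by
    rintro rfl
    exact r.u_ncomm hD (Commute.one_right _)
  obtain ⟨i, hi⟩ := Subgroup.mem_zpowers_iff.1 (centr t hodd hD.pr hx h1.symm)
  obtain ⟨i', hi'⟩ := Subgroup.mem_zpowers_iff.1 (centr t hodd hD.pr hx h2.symm)
  have h3 : Commute (mkr P a y z * a * (mkr P a y z)⁻¹) a := by
    rw [← hi']
    conv_rhs => rw [← hi]
    exact (Commute.refl x).zpow_zpow i' i
  obtain ⟨j, hj⟩ := Subgroup.mem_zpowers_iff.1 (centr t hodd hD.pr ha h3)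
  set u := mkr P a y z with hu
  have key : ∀ n : ℕ, u ^ n * a * (u ^ n)⁻¹ = a ^ (j ^ n) := by
    intro n
    induction n with
    | zero => simp
    | succ n ih =>
      have h4 : u ^ (n + 1) * a * (u ^ (n + 1))⁻¹ = u ^ n * (u * a * u⁻¹) * (u ^ n)⁻¹ := by
        rw [pow_succ]; group
      rw [h4, ← hj, ← conj_zpow, ih, ← zpow_mul, pow_succ]
  have h5 := key d
  rw [H07_pow u, one_mul, inv_one, mul_one] at h5
  have hord : orderOf a = d := by
    have := Fact.mk hD.pr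
    exact orderOf_eq_prime (H07_pow a) ha
  have h6 : (d : ℤ) ∣ j ^ d - 1 := by
    rw [← hord]
    apply orderOf_dvd_iff_zpow_eq_one.2
    rw [hord, zpow_sub, zpow_one, ← h5, mul_inv_cancel]
  have h7 : (d : ℤ) ∣ j ^ d - j := by
    have := Fact.mk hD.pr
    rw [← ZMod.intCast_zmod_eq_zero_iff_dvd]
    push_cast
    rw [ZMod.pow_card, sub_self]
  have h8 : (d : ℤ) ∣ j - 1 := by
    have := dvd_sub h6 h7
    have e : j ^ d - 1 - (j ^ d - j) = j - 1 := by ring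
    rwa [e] at this
  have h9 : a ^ j = a := by
    have : a ^ (j - 1) = 1 := by
      apply orderOf_dvd_iff_zpow_eq_one.1
      rw [hord]; exact h8
    rw [zpow_sub, zpow_one, mul_inv_eq_one] at this
    exact this
  apply r.u_ncomm hD
  rw [h9] at hj
  show u * a = a * u
  conv_rhs => rw [hj]
  rw [inv_mul_cancel_right]

/-- INJ.  r := exists_rz for (a;y,z).  (a';y',z') is not degenerate: a' ≠ 1 and not both commute, otherwise Wt' = 1 (cm = 1, mkr = 1, Wt = a^10 a^(-10)), so Wt^k = 1, and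
Wt ≠ 1 (it does not commute with a, ncomm') has order d: d ∣ k.  r' := exists_rz.  cmp_B: y⁻¹ y'' commutes with a and with u a u⁻¹: Rz.inter: y'' = y, z'' = z.
So a' = h⁻¹ a h etc. (the h of the statement is h⁻¹).  Then Wt' = h⁻¹ Wt h, so Wt is conjugate to Wt^k: Wt = g₂ Wt^k g₂⁻¹; Rz.cone: t.p l ω = gen c ^ w, cone_unique' with α := ω^k (exponent w k,
¬ d ∣ w k) and α' := ω: d ∣ w - w k, ¬ d ∣ w, so d ∣ k - 1. -/
theorem inj' (hP : ParOK P) (hD : DOK P d) (t : Tw d) {g : BB d} {k : ℤ} (hN : Nd a y z) (hk : ¬ (d : ℤ) ∣ k)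
    (h : Wt P a' y' z' = g * Wt P a y z ^ k * g⁻¹) :
    (d : ℤ) ∣ k - 1 ∧ ∃ h, a' = h * a * h⁻¹ ∧ y' = h * y * h⁻¹ ∧ z' = h * z * h⁻¹ := by
  have hodd := H07_odd hD
  obtain ⟨b⟩ := exists_bd t hodd hN.1
  obtain ⟨r, -⟩ := exists_rz hP hD t hN b
  have hWa : ¬ Commute (Wt P a y z) a := ncomm' hP hD t hN
  have hW1 : Wt P a y z ≠ 1 := by
    intro h1
    rw [h1] at hWa
    exact hWa (Commute.one_left _)
  have := Fact.mk hD.pr
  have hord : orderOf (Wt P a y z) = d := orderOf_eq_prime (H07_pow _) hW1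
  have hW1k : Wt P a y z ^ k ≠ 1 := by
    intro h1
    apply hk
    have h2 := orderOf_dvd_iff_zpow_eq_one.2 h1
    rwa [hord] at h2
  have hN' : Nd a' y' z' := by
    have hmain : ¬ (Commute a' y' ∧ Commute a' z') := by
      rintro ⟨h1, h2⟩
      rw [H07_Wt_one h1 h2] at h
      apply hW1k
      have h3 : Wt P a y z ^ k = g⁻¹ * (g * Wt P a y z ^ k * g⁻¹) * g := by group
      rw [h3, ← h]
      group
    refine ⟨?_, hmain⟩
    rintro rfl
    exact hmain ⟨Commute.one_left _, Commute.one_left _⟩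
  obtain ⟨b'⟩ := exists_bd t hodd hN'.1
  obtain ⟨r', -⟩ := exists_rz hP hD t hN' b'
  obtain ⟨h', y'', z'', u, e1, e2, e3, e4, e5, e6, e7, e8⟩ := cmp_B hP hD r r' hk h
  have hint : ∀ y1 y2 : BB d, y2 * a * y2⁻¹ = y1 * a * y1⁻¹ →
      y2 * (u * a * u⁻¹) * y2⁻¹ = y1 * (u * a * u⁻¹) * y1⁻¹ → y2 = y1 := by
    intro y1 y2 f1 f2
    have gen : ∀ x : BB d, y2 * x * y2⁻¹ = y1 * x * y1⁻¹ → Commute (y1⁻¹ * y2) x := by
      intro x hx
      show y1⁻¹ * y2 * x = x * (y1⁻¹ * y2)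
      have h3 : y2 * x = y1 * x * y1⁻¹ * y2 := by rw [← hx, inv_mul_cancel_right]
      rw [mul_assoc, h3]
      group
    have h4 := r.inter hD (gen a f1) (by rw [← e4]; exact gen _ f2)
    exact (inv_mul_eq_one.1 h4).symm
  have hy := hint y y'' e5 e6
  have hz := hint z z'' e7 e8
  have a1 : a' = h'⁻¹ * a * h' := by rw [← e1]; group
  have y1 : y' = h'⁻¹ * y * h' := by rw [← hy, e2]; group
  have z1 : z' = h'⁻¹ * z * h' := by rw [← hz, e3]; group
  have hW : Wt P a' y' z' = h'⁻¹ * Wt P a y z * h' := by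
    have h1 := map_Wt (MulAut.conj h'⁻¹).toMonoidHom P a y z
    have h2 : ∀ x : BB d, (MulAut.conj h'⁻¹).toMonoidHom x = h'⁻¹ * x * h' := fun x => by
      show h'⁻¹ * x * h'⁻¹⁻¹ = _
      rw [inv_inv]
    rw [h2, h2, h2, h2, ← a1, ← y1, ← z1] at h1
    exact h1.symm
  refine ⟨?_, h'⁻¹, by rw [inv_inv]; exact a1, by rw [inv_inv]; exact y1, by rw [inv_inv]; exact z1⟩
  obtain ⟨l, c, w, hl, hw0, hw, hwR, hnt, hdw⟩ := r.cone hP hD
  have hpr : Prime (d : ℤ) := Nat.prime_iff_prime_int.1 hD.pr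
  have hwk : ¬ (d : ℤ) ∣ w * k := fun hh => (hpr.dvd_or_dvd hh).elim hdw hk
  have hα : t.p l (r.ω ^ k) = (t.S l).gen c ^ (w * k) := by
    rw [map_zpow, hw, zpow_mul]
  have hcl : cl d r.ω = (h' * g) * cl d (r.ω ^ k) * (h' * g)⁻¹ := by
    have h1 : cl d (r.ω ^ k) = cl d r.ω ^ k := rfl
    rw [h1, r.cl_ω]
    have h2 : Wt P a y z = h' * (h'⁻¹ * Wt P a y z * h') * h'⁻¹ := by group
    have h3 : h' * (g * Wt P a y z ^ k * g⁻¹) * h'⁻¹ = h' * g * Wt P a y z ^ k * (h' * g)⁻¹ := by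
      rw [mul_inv_rev]; simp only [mul_assoc]
    rw [← h3, ← h, hW, ← h2]
  have h4 := (cone_unique' t hα hwk hw hcl).2
  have h5 : (d : ℤ) ∣ w * (k - 1) := by
    have e : w * (k - 1) = -(w - w * k) := by ring
    rw [e]
    exact (dvd_neg).2 h4
  exact (hpr.dvd_or_dvd h5).resolve_left hdw

end Pool.Agent.helper4.PV
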